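import Pool.Agent.Helper985.CP.Defs

set_option autoImplicit false

open MeasureTheory
open scoped Topology

namespace Pool.Agent.Helper780_CQ

open Pool.Agent.Helper985.CP

/-- the collective coordinate `∑ᵢ cᵢ φ_k(xᵢ)` -/
noncomputable def Qm {I : Type} [Fintype I] {M : ℕ} (c : I → ℝ) (φ : Fin M → E3 → ℝ)
    (x : I → E3) (k : Fin M) : ℝ :=
  ∑ i, c i * φ k (x i)

/-- the Jastrow factor `exp (-∑ Q_k² / (8 ν))` -/
noncomputable def Jm {I : Type} [Fintype I] {M : ℕ} (ν : ℝ) (c : I → ℝ) (φ : Fin M → E3 → ℝ)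
    (x : I → E3) : ℝ :=
  Real.exp (-(∑ k, Qm c φ x k ^ 2) / (8 * ν))

/-- average over the two species of the one-particle integral -/
noncomputable def AA {M : ℕ} (ν : ℝ) (w e : Bool → ℝ) (f : E3 → ℝ) (φ : Fin M → E3 → ℝ)
    (ξ : Fin M → ℝ) : ℂ :=
  ∑ β, (w β : ℂ) * ∫ y : E3, ((f y ^ 2 : ℝ) : ℂ) *
    Complex.exp (((e β * (∑ k, ξ k * φ k y) / √ν : ℝ) : ℂ) * Complex.I)

/-- average over the species of two particles of the two-particle integral -/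
noncomputable def BB {M : ℕ} (ν : ℝ) (w e : Bool → ℝ) (φ : Fin M → E3 → ℝ)
    (K : Bool → Bool → E3 × E3 → ℝ) (ξ : Fin M → ℝ) : ℂ :=
  ∑ β, ∑ β', ((w β * w β' : ℝ) : ℂ) * ∫ z : E3 × E3, ((K β β' z : ℝ) : ℂ) *
    Complex.exp ((((e β * (∑ k, ξ k * φ k z.1) + e β' * (∑ k, ξ k * φ k z.2)) / √ν : ℝ) : ℂ) *
      Complex.I)

/-- the Gaussian integral -/
noncomputable def GG {M : ℕ} (n : ℕ) (ν : ℝ) (w e : Bool → ℝ) (f : E3 → ℝ)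
    (φ : Fin M → E3 → ℝ) (K : Bool → Bool → E3 × E3 → ℝ) : ℂ :=
  ((Real.pi ^ (-((M : ℝ) / 2)) : ℝ) : ℂ) * ∫ ξ : Fin M → ℝ,
    ((Real.exp (-∑ k, ξ k ^ 2) : ℝ) : ℂ) * (AA ν w e f φ ξ ^ n * BB ν w e φ K ξ)

/-- average over the species and the positions of all the particles -/
noncomputable def AV {I : Type} [Fintype I] [DecidableEq I] {M : ℕ} (ν : ℝ) (w e : Bool → ℝ)
    (f : E3 → ℝ) (φ : Fin M → E3 → ℝ) (K : Bool → Bool → E3 × E3 → ℝ) (i j : I) : ℝ :=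
  ∑ b : I → Bool, (∏ k, w (b k)) * ∫ x : I → E3, Jm ν (fun k => e (b k)) φ x ^ 2 *
    (K (b i) (b j) (x i, x j) * ∏ k ∈ Finset.univ \ {i, j}, f (x k) ^ 2)

/-- `|∇f|²` -/
noncomputable def gf (f : E3 → ℝ) (y : E3) : ℝ :=
  ∑ k : Fin 3, fderiv ℝ f y (EuclideanSpace.single k (1 : ℝ)) ^ 2

/-- the three kernels -/
noncomputable def KZ (f : E3 → ℝ) : Bool → Bool → E3 × E3 → ℝ :=
  fun _ _ z => f z.1 ^ 2 * f z.2 ^ 2

noncomputable def KT (f : E3 → ℝ) : Bool → Bool → E3 × E3 → ℝ :=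
  fun _ _ z => gf f z.1 * f z.2 ^ 2

noncomputable def KV (e : Bool → ℝ) (f : E3 → ℝ) : Bool → Bool → E3 × E3 → ℝ :=
  fun β β' z => e β * e β' * (f z.1 ^ 2 * f z.2 ^ 2 / ‖z.1 - z.2‖)

/-- the self energy of the density `f² φ` -/
noncomputable def We (f : E3 → ℝ) (u : E3 → ℝ) : ℝ :=
  ∫ z : E3 × E3, (f z.1 ^ 2 * u z.1) * (f z.2 ^ 2 * u z.2) / ‖z.1 - z.2‖

/-- one-particle function and modes -/
structure Mo {M : ℕ} (R : ℝ) (f : E3 → ℝ) (φ : Fin M → E3 → ℝ) : Prop where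
  smooth : ContDiff ℝ SM f
  support : tsupport f ⊆ cube 1
  norm : ∫ y, f y ^ 2 = 1
  msmooth : ∀ k, ContDiff ℝ SM (φ k)
  bd : ∀ k y, |φ k y| ≤ R
  dbd : ∀ k y, ‖fderiv ℝ (φ k) y‖ ≤ R
  orth : ∀ k l, ∫ y, f y ^ 2 * (φ k y * φ l y) = if k = l then 1 else 0

end Pool.Agent.Helper780_CQ
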