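import Pool.Agent.Helper780_CQ.DyDefs

set_option autoImplicit false

open MeasureTheory
open scoped Topology

namespace Pool.Agent.Helper780_CQ.DY1


open Pool.Agent.Helper780_CQ Pool.Agent.Helper985.CP Filter

section split

variable {I : Type} [Fintype I] [DecidableEq I] (i j : I)

/-- the pair of indices -/
noncomputable def pr (hij : i ≠ j) : Fin 2 ≃ {k : I // k = i ∨ k = j} :=
  Equiv.ofBijective ![⟨i, by simp⟩, ⟨j, by simp⟩] (by
    constructor
    · intro a b hab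
      fin_cases a <;> fin_cases b
      · rfl
      · exact absurd (congrArg Subtype.val hab) hij
      · exact absurd (congrArg Subtype.val hab).symm hij
      · rfl
    · rintro ⟨k, hk⟩
      rcases hk with h | h
      · exact ⟨0, Subtype.ext h.symm⟩
      · exact ⟨1, Subtype.ext h.symm⟩)

theorem pr0 (hij : i ≠ j) : (pr i j hij 0).1 = i := rfl
theorem pr1 (hij : i ≠ j) : (pr i j hij 1).1 = j := rfl

/-- splitting of the coordinates -/
noncomputable def Spl (hij : i ≠ j) :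
    (I → E3) ≃ᵐ (E3 × E3) × ({k : I // ¬(k = i ∨ k = j)} → E3) :=
  (MeasurableEquiv.piEquivPiSubtypeProd (fun _ : I => E3) (fun k => k = i ∨ k = j)).trans
    (MeasurableEquiv.prodCongr
      ((MeasurableEquiv.piCongrLeft (fun _ : Fin 2 => E3) (pr i j hij).symm).trans
        MeasurableEquiv.finTwoArrow) (MeasurableEquiv.refl _))

theorem pcl (hij : i ≠ j) (y : {k : I // k = i ∨ k = j} → E3) (a : Fin 2) :
    MeasurableEquiv.piCongrLeft (fun _ : Fin 2 => E3) (pr i j hij).symm y a =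
      y (pr i j hij a) := by
  have h := Equiv.piCongrLeft_apply_apply (fun _ : Fin 2 => E3) (pr i j hij).symm y
    (pr i j hij a)
  rw [Equiv.symm_apply_apply] at h
  exact h

theorem Spl_apply (hij : i ≠ j) (x : I → E3) :
    Spl i j hij x = ((x i, x j), fun k => x k.1) := by
  have h : Spl i j hij x =
      ((MeasurableEquiv.piCongrLeft (fun _ : Fin 2 => E3) (pr i j hij).symm
        (fun k => x k.1) 0,
        MeasurableEquiv.piCongrLeft (fun _ : Fin 2 => E3) (pr i j hij).symm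
        (fun k => x k.1) 1), fun k => x k.1) := rfl
  rw [h, pcl, pcl, pr0, pr1]

theorem Spl_mp (hij : i ≠ j) : MeasurePreserving (Spl i j hij) := by
  have h1 := volume_preserving_piEquivPiSubtypeProd (fun _ : I => E3)
    (fun k => k = i ∨ k = j)
  have h2 := (volume_preserving_finTwoArrow E3).comp
      (volume_measurePreserving_piCongrLeft (fun _ : Fin 2 => E3) (pr i j hij).symm)
  have h3 := h2.prod (MeasurePreserving.id
    (volume : Measure ({k : I // ¬(k = i ∨ k = j)} → E3)))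
  have h4 := MeasurePreserving.comp h3 h1
  have h5 : ⇑(Spl i j hij) = (Prod.map (⇑MeasurableEquiv.finTwoArrow ∘
      ⇑(MeasurableEquiv.piCongrLeft (fun _ : Fin 2 => E3) (pr i j hij).symm)) id) ∘
      (MeasurableEquiv.piEquivPiSubtypeProd (fun _ : I => E3)
        (fun k => k = i ∨ k = j)) := by
    funext x
    rfl
  rw [h5]
  exact h4

theorem prod_sub (u : I → ℂ) :
    ∏ k ∈ Finset.univ \ {i, j}, u k = ∏ k : {k : I // ¬(k = i ∨ k = j)}, u k.1 :=
  Finset.prod_subtype _ (fun x => by simp) u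

theorem split_int (hij : i ≠ j) (g : E3 × E3 → ℂ) (u : I → E3 → ℂ) :
    ∫ x : I → E3, g (x i, x j) * ∏ k ∈ Finset.univ \ {i, j}, u k (x k) =
      (∫ z, g z) * ∏ k ∈ Finset.univ \ {i, j}, ∫ y, u k y := by
  have h1 : (fun x : I → E3 => g (x i, x j) * ∏ k ∈ Finset.univ \ {i, j}, u k (x k)) =
      fun x => (fun p : (E3 × E3) × ({k : I // ¬(k = i ∨ k = j)} → E3) =>
        g p.1 * ∏ k, u k.1 (p.2 k)) (Spl i j hij x) := by
    funext x
    rw [Spl_apply, prod_sub i j (fun k => u k (x k))]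
  rw [h1, (Spl_mp i j hij).integral_comp' (g := fun p : (E3 × E3) ×
    ({k : I // ¬(k = i ∨ k = j)} → E3) => g p.1 * ∏ k, u k.1 (p.2 k))]
  rw [prod_sub i j (fun k => ∫ y, u k y)]
  rw [← integral_fintype_prod_volume_eq_prod
    (fun (k : {k : I // ¬(k = i ∨ k = j)}) => (u k.1 : E3 → ℂ))]
  exact integral_prod_mul (μ := (volume : Measure (E3 × E3)))
    (ν := (volume : Measure ({k : I // ¬(k = i ∨ k = j)} → E3))) g
    (fun y => ∏ k, u k.1 (y k))

theorem split_integrable (hij : i ≠ j) (g : E3 × E3 → ℂ) (u : I → E3 → ℂ) (hg : Integrable g)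
    (hu : ∀ k, Integrable (u k)) :
    Integrable (fun x : I → E3 => g (x i, x j) * ∏ k ∈ Finset.univ \ {i, j}, u k (x k)) := by
  have h1 : (fun x : I → E3 => g (x i, x j) * ∏ k ∈ Finset.univ \ {i, j}, u k (x k)) =
      (fun p : (E3 × E3) × ({k : I // ¬(k = i ∨ k = j)} → E3) =>
        g p.1 * ∏ k, u k.1 (p.2 k)) ∘ (Spl i j hij) := by
    funext x
    rw [Function.comp_apply, Spl_apply, prod_sub i j (fun k => u k (x k))]
  rw [h1, (Spl_mp i j hij).integrable_comp_emb (Spl i j hij).measurableEmbedding]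
  exact hg.mul_prod (Integrable.fintype_prod (fun (k : {k : I // ¬(k = i ∨ k = j)}) => hu k.1))

/-- splitting of functions with finitely many values -/
def eqv (hij : i ≠ j) : (I → Bool) ≃ (Bool × Bool) × ({k : I // ¬(k = i ∨ k = j)} → Bool)
    where
  toFun b := ((b i, b j), fun k => b k.1)
  invFun p k := if k = i then p.1.1 else if k = j then p.1.2 else
    if h : ¬(k = i ∨ k = j) then p.2 ⟨k, h⟩ else false
  left_inv b := by
    funext k
    by_cases h1 : k = i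
    · simp [h1]
    · by_cases h2 : k = j
      · simp [h2, Ne.symm hij]
      · simp [h1, h2]
  right_inv p := by
    obtain ⟨⟨p1, p2⟩, y⟩ := p
    refine Prod.ext (Prod.ext ?_ ?_) ?_
    · simp
    · simp [Ne.symm hij]
    · funext k
      have hk := k.2
      have h1 : k.1 ≠ i := fun h => hk (Or.inl h)
      have h2 : k.1 ≠ j := fun h => hk (Or.inr h)
      simp [h1, h2]

theorem prod_split (hij : i ≠ j) (u : I → ℂ) :
    ∏ k, u k = u i * u j * ∏ k ∈ Finset.univ \ {i, j}, u k := by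
  rw [← Finset.prod_sdiff (Finset.subset_univ ({i, j} : Finset I)), mul_comm,
    Finset.prod_pair hij]

theorem card_sub (hij : i ≠ j) :
    Fintype.card {k : I // ¬(k = i ∨ k = j)} = Fintype.card I - 2 := by
  have h : Fintype.card {k : I // k = i ∨ k = j} = 2 := by
    rw [Fintype.card_congr (pr i j hij).symm, Fintype.card_fin]
  rw [Fintype.card_subtype_compl, h]

theorem sum_split (hij : i ≠ j) (w a : Bool → ℂ) (B : Bool → Bool → ℂ) :
    ∑ b : I → Bool, (∏ k, w (b k)) * (B (b i) (b j) * ∏ k ∈ Finset.univ \ {i, j}, a (b k)) =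
      (∑ β, w β * a β) ^ (Fintype.card I - 2) * ∑ β, ∑ β', w β * w β' * B β β' := by
  have h1 : ∀ b : I → Bool, (∏ k, w (b k)) * (B (b i) (b j) *
      ∏ k ∈ Finset.univ \ {i, j}, a (b k)) =
      (fun p : (Bool × Bool) × ({k : I // ¬(k = i ∨ k = j)} → Bool) =>
        (w p.1.1 * w p.1.2 * B p.1.1 p.1.2) * ∏ k, (w (p.2 k) * a (p.2 k))) (eqv i j hij b) := by
    intro b
    rw [prod_split i j hij (fun k => w (b k)), prod_sub i j (fun k => w (b k)),
      prod_sub i j (fun k => a (b k))]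
    change _ = (w (b i) * w (b j) * B (b i) (b j)) *
      ∏ k : {k : I // ¬(k = i ∨ k = j)}, (w (b k.1) * a (b k.1))
    rw [Finset.prod_mul_distrib]
    ring
  rw [Finset.sum_congr rfl (fun b _ => h1 b), Equiv.sum_comp (eqv i j hij)
    (fun p : (Bool × Bool) × ({k : I // ¬(k = i ∨ k = j)} → Bool) =>
        (w p.1.1 * w p.1.2 * B p.1.1 p.1.2) * ∏ k, (w (p.2 k) * a (p.2 k))),
    Fintype.sum_prod_type]
  simp only
  simp_rw [← Finset.mul_sum]
  have h2 : ∑ y : {k : I // ¬(k = i ∨ k = j)} → Bool, ∏ k, (w (y k) * a (y k)) =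
      (∑ β, w β * a β) ^ (Fintype.card I - 2) := by
    rw [← card_sub i j hij]
    have h3 := Finset.prod_univ_sum (fun _ : {k : I // ¬(k = i ∨ k = j)} =>
      (Finset.univ : Finset Bool)) (fun _ β => w β * a β)
    rw [Fintype.piFinset_univ, Finset.prod_const, Finset.card_univ] at h3
    exact h3.symm
  rw [h2, ← Finset.sum_mul, Fintype.sum_prod_type, mul_comm]

end split

/-- the Gaussian integral -/
theorem gauss {M : ℕ} (ν : ℝ) (hν : 0 < ν) (q : Fin M → ℝ) :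
    ((Real.exp (-(∑ k, q k ^ 2) / (8 * ν)) ^ 2 : ℝ) : ℂ) =
      ((Real.pi ^ (-((M : ℝ) / 2)) : ℝ) : ℂ) * ∫ ξ : Fin M → ℝ,
        ((Real.exp (-∑ k, ξ k ^ 2) : ℝ) : ℂ) *
          Complex.exp ((((∑ k, ξ k * q k) / √ν : ℝ) : ℂ) * Complex.I) := by
  have h := GaussianFourier.integral_cexp_neg_mul_sum_add (ι := Fin M) (b := 1) (by simp)
    (fun k => ((q k / √ν : ℝ) : ℂ) * Complex.I)
  have h1 : (fun ξ : Fin M → ℝ => ((Real.exp (-∑ k, ξ k ^ 2) : ℝ) : ℂ) *
      Complex.exp ((((∑ k, ξ k * q k) / √ν : ℝ) : ℂ) * Complex.I)) =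
      fun v : Fin M → ℝ => Complex.exp (-1 * ∑ i, (v i : ℂ) ^ 2 +
        ∑ i, ((q i / √ν : ℝ) : ℂ) * Complex.I * v i) := by
    funext ξ
    rw [Complex.exp_add, Complex.ofReal_exp]
    congr 1
    · congr 1
      push_cast
      ring
    · congr 1
      rw [Finset.sum_div]
      push_cast
      rw [Finset.sum_mul]
      refine Finset.sum_congr rfl fun k _ => ?_
      ring
  rw [h1, h]
  have hsq : (√ν) ^ 2 = ν := Real.sq_sqrt hν.le
  have h2 : (∑ k, (((q k / √ν : ℝ) : ℂ) * Complex.I) ^ 2) / (4 * 1) =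
      ((-(∑ k, q k ^ 2) / (4 * ν) : ℝ) : ℂ) := by
    have h3 : ∀ k, (((q k / √ν : ℝ) : ℂ) * Complex.I) ^ 2 = ((-(q k ^ 2) / ν : ℝ) : ℂ) := by
      intro k
      rw [mul_pow, Complex.I_sq, ← Complex.ofReal_pow, div_pow, hsq]
      push_cast
      ring
    simp_rw [h3]
    rw [← Complex.ofReal_sum, ← Finset.sum_div, Finset.sum_neg_distrib]
    push_cast
    field_simp
  rw [h2]
  have hpi := Real.pi_pos
  have h4 : ((Real.pi : ℂ) / 1) ^ (((Fintype.card (Fin M) : ℕ) : ℂ) / 2) =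
      ((Real.pi ^ ((M : ℝ) / 2) : ℝ) : ℂ) := by
    rw [Complex.ofReal_cpow hpi.le, div_one, Fintype.card_fin]
    push_cast
    rfl
  rw [h4, ← mul_assoc, ← Complex.ofReal_mul, ← Real.rpow_add hpi, neg_add_cancel,
    Real.rpow_zero, ← Complex.ofReal_exp]
  simp only [Complex.ofReal_one, one_mul]
  congr 1
  rw [← Real.exp_nat_mul]
  congr 1
  push_cast
  field_simp
  ring

/-- phase -/
noncomputable def th {M : ℕ} (ν : ℝ) (e : Bool → ℝ) (φ : Fin M → E3 → ℝ) (ξ : Fin M → ℝ)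
    (β : Bool) (y : E3) : ℝ :=
  e β * (∑ k, ξ k * φ k y) / √ν

noncomputable def ab {M : ℕ} (ν : ℝ) (e : Bool → ℝ) (f : E3 → ℝ) (φ : Fin M → E3 → ℝ)
    (ξ : Fin M → ℝ) (β : Bool) : ℂ :=
  ∫ y : E3, ((f y ^ 2 : ℝ) : ℂ) * Complex.exp ((th ν e φ ξ β y : ℂ) * Complex.I)

noncomputable def Bb {M : ℕ} (ν : ℝ) (e : Bool → ℝ) (φ : Fin M → E3 → ℝ)
    (K : Bool → Bool → E3 × E3 → ℝ) (ξ : Fin M → ℝ) (β β' : Bool) : ℂ :=
  ∫ z : E3 × E3, ((K β β' z : ℝ) : ℂ) *
    Complex.exp (((th ν e φ ξ β z.1 + th ν e φ ξ β' z.2 : ℝ) : ℂ) * Complex.I)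

theorem AA_eq {M : ℕ} (ν : ℝ) (w e : Bool → ℝ) (f : E3 → ℝ) (φ : Fin M → E3 → ℝ)
    (ξ : Fin M → ℝ) : AA ν w e f φ ξ = ∑ β, (w β : ℂ) * ab ν e f φ ξ β := rfl

theorem BB_eq {M : ℕ} (ν : ℝ) (w e : Bool → ℝ) (φ : Fin M → E3 → ℝ)
    (K : Bool → Bool → E3 × E3 → ℝ) (ξ : Fin M → ℝ) :
    BB ν w e φ K ξ = ∑ β, ∑ β', (w β : ℂ) * (w β' : ℂ) * Bb ν e φ K ξ β β' := by
  unfold BB
  refine Finset.sum_congr rfl fun β _ => Finset.sum_congr rfl fun β' _ => ?_
  rw [Complex.ofReal_mul]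
  congr 1
  unfold Bb
  congr 1
  funext z
  congr 3
  unfold th
  rw [add_div]

theorem E_eq {I : Type} [Fintype I] {M : ℕ} (ν : ℝ) (e : Bool → ℝ)
    (φ : Fin M → E3 → ℝ) (ξ : Fin M → ℝ) (b : I → Bool) (x : I → E3) :
    Complex.exp ((((∑ k, ξ k * Qm (fun m => e (b m)) φ x k) / √ν : ℝ) : ℂ) * Complex.I) =
      ∏ m, Complex.exp ((th ν e φ ξ (b m) (x m) : ℂ) * Complex.I) := by
  rw [← Complex.exp_sum, ← Finset.sum_mul, ← Complex.ofReal_sum]
  congr 3
  unfold th Qm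
  rw [← Finset.sum_div]
  congr 1
  simp_rw [Finset.mul_sum]
  rw [Finset.sum_comm]
  refine Finset.sum_congr rfl fun m _ => Finset.sum_congr rfl fun k _ => ?_
  ring

theorem G_int (M : ℕ) :
    Integrable (fun ξ : Fin M → ℝ => ((Real.exp (-∑ k, ξ k ^ 2) : ℝ) : ℂ)) := by
  have h := GaussianFourier.integrable_cexp_neg_mul_sum_add (ι := Fin M) (b := 1) (by simp)
    (fun _ => 0)
  refine h.congr (Filter.Eventually.of_forall fun ξ => ?_)
  simp only [zero_mul, Finset.sum_const_zero, add_zero]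
  rw [Complex.ofReal_exp]
  congr 1
  push_cast
  ring

theorem Qm_cont {I : Type} [Fintype I] {M : ℕ} (c : I → ℝ) (φ : Fin M → E3 → ℝ)
    (hφ : ∀ k, Continuous (φ k)) (k : Fin M) : Continuous fun x : I → E3 => Qm c φ x k := by
  unfold Qm
  exact continuous_finset_sum _ fun m _ => continuous_const.mul ((hφ k).comp (continuous_apply m))

section main

variable {I : Type} [Fintype I] [DecidableEq I] {M : ℕ} (ν : ℝ)
    (e : Bool → ℝ) (f : E3 → ℝ)
    (φ : Fin M → E3 → ℝ) (K : Bool → Bool → E3 × E3 → ℝ)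

/-- the factor without the Jastrow factor -/
noncomputable def FF (b : I → Bool) (i j : I) (x : I → E3) : ℂ :=
  ((K (b i) (b j) (x i, x j) : ℝ) : ℂ) * ∏ k ∈ Finset.univ \ {i, j}, ((f (x k) ^ 2 : ℝ) : ℂ)

/-- the phase factor -/
noncomputable def EE (b : I → Bool) (x : I → E3) (ξ : Fin M → ℝ) : ℂ :=
  Complex.exp ((((∑ k, ξ k * Qm (fun m => e (b m)) φ x k) / √ν : ℝ) : ℂ) * Complex.I)

theorem FF_int (hf : Continuous f) (hfs : HasCompactSupport f)
    (hK : ∀ β β', Integrable (K β β')) (b : I → Bool) (i j : I) (hij : i ≠ j) :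
    Integrable (FF f K b i j) := by
  refine split_integrable i j hij (fun z => ((K (b i) (b j) z : ℝ) : ℂ))
    (fun _ y => ((f y ^ 2 : ℝ) : ℂ)) (hK _ _).ofReal (fun _ => ?_)
  have h1 : Integrable (fun y => f y ^ 2) := by
    have h2 : (fun y => f y ^ 2) = f * f := by
      funext y
      simp [pow_two]
    rw [h2]
    exact (hf.mul hf).integrable_of_hasCompactSupport hfs.mul_left
  exact h1.ofReal

theorem EE_cont (hφ : ∀ k, Continuous (φ k)) (b : I → Bool) :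
    Continuous fun p : (I → E3) × (Fin M → ℝ) => EE ν e φ b p.1 p.2 := by
  unfold EE
  refine Complex.continuous_exp.comp (Continuous.mul (Complex.continuous_ofReal.comp
    (Continuous.div_const (continuous_finset_sum _ fun k _ => ?_) _)) continuous_const)
  exact ((continuous_apply k).comp continuous_snd).mul ((Qm_cont _ φ hφ k).comp continuous_fst)

theorem EE_norm (b : I → Bool) (x : I → E3) (ξ : Fin M → ℝ) : ‖EE ν e φ b x ξ‖ = 1 := by
  unfold EE
  exact Complex.norm_exp_ofReal_mul_I _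

theorem HH_int (hf : Continuous f) (hfs : HasCompactSupport f) (hφ : ∀ k, Continuous (φ k))
    (hK : ∀ β β', Integrable (K β β')) (b : I → Bool) (i j : I) (hij : i ≠ j) :
    Integrable (Function.uncurry fun (x : I → E3) (ξ : Fin M → ℝ) =>
      FF f K b i j x * (((Real.exp (-∑ k, ξ k ^ 2) : ℝ) : ℂ) * EE ν e φ b x ξ))
      ((volume : Measure (I → E3)).prod (volume : Measure (Fin M → ℝ))) := by
  have h0 := (FF_int f K hf hfs hK b i j hij).mul_prod (G_int M)
  have h1 : (Function.uncurry fun (x : I → E3) (ξ : Fin M → ℝ) =>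
      FF f K b i j x * (((Real.exp (-∑ k, ξ k ^ 2) : ℝ) : ℂ) * EE ν e φ b x ξ)) =
      fun p : (I → E3) × (Fin M → ℝ) => (FF f K b i j p.1 *
        ((Real.exp (-∑ k, p.2 k ^ 2) : ℝ) : ℂ)) * EE ν e φ b p.1 p.2 := by
    funext p
    simp only [Function.uncurry]
    ring
  rw [h1]
  refine h0.mono (h0.aestronglyMeasurable.mul (EE_cont ν e φ hφ b).aestronglyMeasurable)
    (Filter.Eventually.of_forall fun p => ?_)
  rw [norm_mul, EE_norm, mul_one]

theorem inner_eq (b : I → Bool) (i j : I) (hij : i ≠ j) (ξ : Fin M → ℝ) :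
    ∫ x, FF f K b i j x * (((Real.exp (-∑ k, ξ k ^ 2) : ℝ) : ℂ) * EE ν e φ b x ξ) =
      ((Real.exp (-∑ k, ξ k ^ 2) : ℝ) : ℂ) * (Bb ν e φ K ξ (b i) (b j) *
        ∏ k ∈ Finset.univ \ {i, j}, ab ν e f φ ξ (b k)) := by
  have h1 : (fun x : I → E3 => FF f K b i j x *
      (((Real.exp (-∑ k, ξ k ^ 2) : ℝ) : ℂ) * EE ν e φ b x ξ)) = fun x : I → E3 =>
      ((Real.exp (-∑ k, ξ k ^ 2) : ℝ) : ℂ) *
      ((fun z : E3 × E3 => ((K (b i) (b j) z : ℝ) : ℂ) * Complex.exp
        (((th ν e φ ξ (b i) z.1 + th ν e φ ξ (b j) z.2 : ℝ) : ℂ) * Complex.I)) (x i, x j) *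
      ∏ k ∈ Finset.univ \ {i, j}, (fun (k : I) (y : E3) => ((f y ^ 2 : ℝ) : ℂ) *
        Complex.exp ((th ν e φ ξ (b k) y : ℂ) * Complex.I)) k (x k)) := by
    funext x
    unfold EE FF
    rw [E_eq, prod_split i j hij, Finset.prod_mul_distrib]
    have h2 : Complex.exp (((th ν e φ ξ (b i) (x i) + th ν e φ ξ (b j) (x j) : ℝ) : ℂ) *
        Complex.I) = Complex.exp ((th ν e φ ξ (b i) (x i) : ℂ) * Complex.I) *
        Complex.exp ((th ν e φ ξ (b j) (x j) : ℂ) * Complex.I) := by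
      rw [← Complex.exp_add]
      congr 1
      push_cast
      ring
    simp only
    rw [h2]
    ring
  rw [h1, integral_const_mul, split_int i j hij
    (fun z : E3 × E3 => ((K (b i) (b j) z : ℝ) : ℂ) * Complex.exp
        (((th ν e φ ξ (b i) z.1 + th ν e φ ξ (b j) z.2 : ℝ) : ℂ) * Complex.I))
    (fun (k : I) (y : E3) => ((f y ^ 2 : ℝ) : ℂ) *
        Complex.exp ((th ν e φ ξ (b k) y : ℂ) * Complex.I))]
  rfl

theorem key (hν : 0 < ν) (hf : Continuous f) (hfs : HasCompactSupport f)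
    (hφ : ∀ k, Continuous (φ k))
    (hK : ∀ β β', Integrable (K β β')) (b : I → Bool) (i j : I) (hij : i ≠ j) :
    ((∫ x : I → E3, Jm ν (fun k => e (b k)) φ x ^ 2 *
      (K (b i) (b j) (x i, x j) * ∏ k ∈ Finset.univ \ {i, j}, f (x k) ^ 2) : ℝ) : ℂ) =
      ((Real.pi ^ (-((M : ℝ) / 2)) : ℝ) : ℂ) * ∫ ξ : Fin M → ℝ,
        ((Real.exp (-∑ k, ξ k ^ 2) : ℝ) : ℂ) * (Bb ν e φ K ξ (b i) (b j) *
        ∏ k ∈ Finset.univ \ {i, j}, ab ν e f φ ξ (b k)) := by
  rw [← integral_complex_ofReal]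
  have h1 : (fun x : I → E3 => ((Jm ν (fun k => e (b k)) φ x ^ 2 *
      (K (b i) (b j) (x i, x j) * ∏ k ∈ Finset.univ \ {i, j}, f (x k) ^ 2) : ℝ) : ℂ)) =
      fun x : I → E3 => ((Real.pi ^ (-((M : ℝ) / 2)) : ℝ) : ℂ) * ∫ ξ : Fin M → ℝ,
        FF f K b i j x * (((Real.exp (-∑ k, ξ k ^ 2) : ℝ) : ℂ) * EE ν e φ b x ξ) := by
    funext x
    rw [integral_const_mul, Complex.ofReal_mul]
    unfold Jm
    rw [gauss ν hν]
    unfold FF EE
    push_cast
    ring
  rw [h1, integral_const_mul, integral_integral_swap (HH_int ν e f φ K hf hfs hφ hK b i j hij)]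
  congr 1
  congr 1
  funext ξ
  exact inner_eq ν e f φ K b i j hij ξ

theorem key_int (hf : Continuous f) (hfs : HasCompactSupport f)
    (hφ : ∀ k, Continuous (φ k))
    (hK : ∀ β β', Integrable (K β β')) (b : I → Bool) (i j : I) (hij : i ≠ j) :
    Integrable (fun ξ : Fin M → ℝ =>
        ((Real.exp (-∑ k, ξ k ^ 2) : ℝ) : ℂ) * (Bb ν e φ K ξ (b i) (b j) *
        ∏ k ∈ Finset.univ \ {i, j}, ab ν e f φ ξ (b k))) := by
  have h := (HH_int ν e f φ K hf hfs hφ hK b i j hij).integral_prod_right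
  refine h.congr (Filter.Eventually.of_forall fun ξ => ?_)
  exact inner_eq ν e f φ K b i j hij ξ

end main

/-- TARGET -/
theorem four {I : Type} [Fintype I] [DecidableEq I] {M : ℕ} (ν : ℝ) (hν : 0 < ν)
    (w e : Bool → ℝ) (f : E3 → ℝ) (hf : Continuous f) (hfs : HasCompactSupport f)
    (φ : Fin M → E3 → ℝ) (hφ : ∀ k, Continuous (φ k)) (K : Bool → Bool → E3 × E3 → ℝ)
    (hK : ∀ β β', Integrable (K β β')) (i j : I) (hij : i ≠ j) :
    ((AV ν w e f φ K i j : ℝ) : ℂ) = GG (Fintype.card I - 2) ν w e f φ K := by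
  unfold AV GG
  rw [Complex.ofReal_sum]
  have h1 : ∀ b : I → Bool, (((∏ k, w (b k)) * ∫ x : I → E3, Jm ν (fun k => e (b k)) φ x ^ 2 *
      (K (b i) (b j) (x i, x j) * ∏ k ∈ Finset.univ \ {i, j}, f (x k) ^ 2) : ℝ) : ℂ) =
      ((Real.pi ^ (-((M : ℝ) / 2)) : ℝ) : ℂ) * ∫ ξ : Fin M → ℝ, (∏ k, (w (b k) : ℂ)) *
        (((Real.exp (-∑ k, ξ k ^ 2) : ℝ) : ℂ) * (Bb ν e φ K ξ (b i) (b j) *
        ∏ k ∈ Finset.univ \ {i, j}, ab ν e f φ ξ (b k))) := by
    intro b
    rw [Complex.ofReal_mul, key ν e f φ K hν hf hfs hφ hK b i j hij, integral_const_mul,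
      Complex.ofReal_prod]
    ring
  rw [Finset.sum_congr rfl (fun b _ => h1 b), ← Finset.mul_sum,
    ← integral_finset_sum _ (fun b _ => (key_int ν e f φ K hf hfs hφ hK b i j hij).const_mul _)]
  congr 1
  congr 1
  funext ξ
  have h2 := sum_split i j hij (fun β => (w β : ℂ)) (fun β => ab ν e f φ ξ β)
    (fun β β' => Bb ν e φ K ξ β β')
  rw [AA_eq, BB_eq, ← h2, Finset.mul_sum]
  refine Finset.sum_congr rfl fun b _ => ?_
  ring

end Pool.Agent.Helper780_CQ.DY1
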