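import Pool.Agent.Helper780_CQ.DyDefs

set_option autoImplicit false

open MeasureTheory
open scoped Topology

namespace Pool.Agent.Helper780_CQ.DY2


open Pool.Agent.Helper780_CQ Pool.Agent.Helper985.CP Filter

theorem int_f2 {M : ℕ} {R : ℝ} {f : E3 → ℝ} {φ : Fin M → E3 → ℝ} (hM : Mo R f φ) :
    Integrable (fun y => f y ^ 2) := by
  by_contra h
  have := integral_undef h
  rw [hM.norm] at this
  exact one_ne_zero this

theorem contTh {M : ℕ} {R : ℝ} {f : E3 → ℝ} {φ : Fin M → E3 → ℝ} (hM : Mo R f φ)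
    (ξ : Fin M → ℝ) : Continuous (fun y => ∑ k, ξ k * φ k y) :=
  continuous_finsetSum _ (fun k _ => continuous_const.mul (hM.msmooth k).continuous)

theorem bdTh {M : ℕ} {R : ℝ} {f : E3 → ℝ} {φ : Fin M → E3 → ℝ} (hM : Mo R f φ)
    (ξ : Fin M → ℝ) (y : E3) : |∑ k, ξ k * φ k y| ≤ R * ∑ k, |ξ k| := by
  calc |∑ k, ξ k * φ k y| ≤ ∑ k, |ξ k * φ k y| := Finset.abs_sum_le_sum_abs _ _
    _ ≤ ∑ k, R * |ξ k| := by
        refine Finset.sum_le_sum (fun k _ => ?_)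
        rw [abs_mul, mul_comm]
        exact mul_le_mul_of_nonneg_right (hM.bd k y) (abs_nonneg _)
    _ = _ := by rw [Finset.mul_sum]

theorem int_mul_bd {M : ℕ} {R : ℝ} {f : E3 → ℝ} {φ : Fin M → E3 → ℝ} (hM : Mo R f φ)
    (g : E3 → ℝ) (hg : Continuous g) (C : ℝ) (hC : ∀ y, |g y| ≤ C) :
    Integrable (fun y => f y ^ 2 * g y) := by
  refine (int_f2 hM).mul_bdd (c := C) hg.aestronglyMeasurable (ae_of_all _ ?_)
  intro y
  rw [Real.norm_eq_abs]
  exact hC y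

theorem int_mul_bdC {M : ℕ} {R : ℝ} {f : E3 → ℝ} {φ : Fin M → E3 → ℝ} (hM : Mo R f φ)
    (g : E3 → ℂ) (hg : Continuous g) (C : ℝ) (hC : ∀ y, ‖g y‖ ≤ C) :
    Integrable (fun y => ((f y ^ 2 : ℝ) : ℂ) * g y) := by
  refine (int_f2 hM).ofReal.mul_bdd (c := C) hg.aestronglyMeasurable (ae_of_all _ ?_)
  intro y
  exact hC y

theorem th2 {M : ℕ} {R : ℝ} {f : E3 → ℝ} {φ : Fin M → E3 → ℝ} (hM : Mo R f φ)
    (ξ : Fin M → ℝ) : ∫ y, f y ^ 2 * (∑ k, ξ k * φ k y) ^ 2 = ∑ k, ξ k ^ 2 := by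
  have h1 : ∀ y, f y ^ 2 * (∑ k, ξ k * φ k y) ^ 2 =
      ∑ k, ∑ l, (ξ k * ξ l) * (f y ^ 2 * (φ k y * φ l y)) := by
    intro y
    rw [sq (∑ k, ξ k * φ k y), Finset.sum_mul_sum, Finset.mul_sum]
    refine Finset.sum_congr rfl (fun k _ => ?_)
    rw [Finset.mul_sum]
    refine Finset.sum_congr rfl (fun l _ => ?_)
    ring
  have hint : ∀ k l, Integrable (fun y => f y ^ 2 * (φ k y * φ l y)) := by
    intro k l
    refine int_mul_bd hM _ ((hM.msmooth k).continuous.mul (hM.msmooth l).continuous) (R * R) ?_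
    intro y
    rw [abs_mul]
    exact mul_le_mul (hM.bd k y) (hM.bd l y) (abs_nonneg _)
      (le_trans (abs_nonneg _) (hM.bd k y))
  simp_rw [h1]
  rw [integral_finsetSum]
  · have : ∀ k, ∫ y, ∑ l, (ξ k * ξ l) * (f y ^ 2 * (φ k y * φ l y)) = ξ k ^ 2 := by
      intro k
      rw [integral_finsetSum]
      · simp_rw [integral_const_mul, hM.orth]
        simp [sq]
      · intro l _
        exact (hint k l).const_mul _
    simp_rw [this]
  · intro k _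
    exact integrable_finsetSum _ (fun l _ => (hint k l).const_mul _)

theorem AA_le {M : ℕ} {R : ℝ} {f : E3 → ℝ} {φ : Fin M → E3 → ℝ} (hM : Mo R f φ)
    {w e : Bool → ℝ} (hw : ∀ β, 0 ≤ w β) (hw1 : ∑ β, w β = 1)
    (ξ : Fin M → ℝ) (ν : ℝ) : ‖AA ν w e f φ ξ‖ ≤ 1 := by
  unfold AA
  calc ‖∑ β, (w β : ℂ) * ∫ y : E3, ((f y ^ 2 : ℝ) : ℂ) *
    Complex.exp (((e β * (∑ k, ξ k * φ k y) / √ν : ℝ) : ℂ) * Complex.I)‖
      ≤ ∑ β, ‖(w β : ℂ) * ∫ y : E3, ((f y ^ 2 : ℝ) : ℂ) *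
    Complex.exp (((e β * (∑ k, ξ k * φ k y) / √ν : ℝ) : ℂ) * Complex.I)‖ := norm_sum_le _ _
    _ ≤ ∑ β, w β := by
        refine Finset.sum_le_sum (fun β _ => ?_)
        rw [norm_mul, Complex.norm_real, Real.norm_eq_abs, abs_of_nonneg (hw β)]
        have h2 : ‖∫ y : E3, ((f y ^ 2 : ℝ) : ℂ) *
            Complex.exp (((e β * (∑ k, ξ k * φ k y) / √ν : ℝ) : ℂ) * Complex.I)‖ ≤ 1 := by
          rw [← hM.norm]
          refine (norm_integral_le_integral_norm _).trans (le_of_eq ?_)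
          refine integral_congr_ae (ae_of_all _ (fun y => ?_))
          show ‖((f y ^ 2 : ℝ) : ℂ) *
            Complex.exp (((e β * (∑ k, ξ k * φ k y) / √ν : ℝ) : ℂ) * Complex.I)‖ = f y ^ 2
          rw [norm_mul, Complex.norm_exp_ofReal_mul_I, Complex.norm_real, Real.norm_eq_abs,
            abs_of_nonneg (sq_nonneg _), mul_one]
        calc w β * _ ≤ w β * 1 := mul_le_mul_of_nonneg_left h2 (hw β)
          _ = w β := mul_one _
    _ = 1 := hw1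

/-- the quantitative expansion -/
theorem AA_exp {M : ℕ} {R : ℝ} {f : E3 → ℝ} {φ : Fin M → E3 → ℝ} (hM : Mo R f φ)
    {w e : Bool → ℝ} (hw : ∀ β, 0 ≤ w β) (hw1 : ∑ β, w β = 1) (he : ∑ β, w β * e β = 0)
    (ξ : Fin M → ℝ) (ν : ℝ) (hν : 0 < ν) (D : ℝ) (hD : ∀ β y, |e β * (∑ k, ξ k * φ k y)| ≤ D)
    (hDν : D ≤ √ν) :
    ‖AA ν w e f φ ξ - 1 + (((∑ β, w β * e β ^ 2) / 2 * ∑ k, ξ k ^ 2 / ν : ℝ) : ℂ)‖ ≤
      (D / √ν) ^ 3 := by
  have hs : 0 < √ν := Real.sqrt_pos.2 hν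
  have hss : √ν ^ 2 = ν := Real.sq_sqrt hν.le
  -- the remainder
  set r : Bool → E3 → ℂ := fun β y =>
    Complex.exp (((e β * (∑ k, ξ k * φ k y) / √ν : ℝ) : ℂ) * Complex.I) - 1
      - ((e β * (∑ k, ξ k * φ k y) / √ν : ℝ) : ℂ) * Complex.I
      + (((e β * (∑ k, ξ k * φ k y) / √ν) ^ 2 / 2 : ℝ) : ℂ) with hr
  have hu : ∀ β y, |e β * (∑ k, ξ k * φ k y) / √ν| ≤ D / √ν := by
    intro β y
    rw [abs_div, abs_of_pos hs]
    exact div_le_div_of_nonneg_right (hD β y) hs.le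
  have hrb : ∀ β y, ‖r β y‖ ≤ (D / √ν) ^ 3 := by
    intro β y
    have h1 : D / √ν ≤ 1 := by rw [div_le_one hs]; exact hDν
    set u : ℝ := e β * (∑ k, ξ k * φ k y) / √ν with hu'
    have hub : |u| ≤ D / √ν := hu β y
    have hn : ‖(u : ℂ) * Complex.I‖ = |u| := by
      rw [norm_mul, Complex.norm_I, mul_one, Complex.norm_real, Real.norm_eq_abs]
    have h2 := Complex.exp_bound (x := (u : ℂ) * Complex.I) (by rw [hn]; linarith) (n := 3)
      (by norm_num)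
    rw [hn] at h2
    have h3 : Complex.exp ((u : ℂ) * Complex.I) - ∑ m ∈ Finset.range 3,
        ((u : ℂ) * Complex.I) ^ m / (m.factorial : ℂ) = r β y := by
      simp only [hr, ← hu']
      simp only [Finset.sum_range_succ, Finset.sum_range_zero, Nat.factorial]
      push_cast
      have hI : Complex.I ^ 2 = -1 := Complex.I_sq
      linear_combination (-(u : ℂ) ^ 2 / 2) * hI
    rw [h3] at h2
    refine h2.trans ?_
    have h4 : ((Nat.succ 3 : ℕ) : ℝ) * (((Nat.factorial 3 : ℕ) : ℝ) * ((3 : ℕ) : ℝ))⁻¹ ≤ 1 := by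
      norm_num [Nat.factorial]
    calc |u| ^ 3 * (((Nat.succ 3 : ℕ) : ℝ) * (((Nat.factorial 3 : ℕ) : ℝ) * ((3 : ℕ) : ℝ))⁻¹)
        ≤ |u| ^ 3 * 1 := mul_le_mul_of_nonneg_left h4 (by positivity)
      _ = |u| ^ 3 := mul_one _
      _ ≤ (D / √ν) ^ 3 := pow_le_pow_left₀ (abs_nonneg _) hub 3
  have hcT := contTh hM ξ
  have hcu : ∀ β, Continuous (fun y => (e β * (∑ k, ξ k * φ k y) / √ν)) := fun β =>
    (continuous_const.mul hcT).div_const _
  have hcr : ∀ β, Continuous (r β) := by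
    intro β
    have h := hcu β
    simp only [hr]
    fun_prop
  have key : AA ν w e f φ ξ - 1 + (((∑ β, w β * e β ^ 2) / 2 * ∑ k, ξ k ^ 2 / ν : ℝ) : ℂ) =
      ∑ β, (w β : ℂ) * ∫ y, ((f y ^ 2 : ℝ) : ℂ) * r β y := by
    have h1 : ∀ β, ∫ y, ((f y ^ 2 : ℝ) : ℂ) * r β y =
        (∫ y : E3, ((f y ^ 2 : ℝ) : ℂ) *
          Complex.exp (((e β * (∑ k, ξ k * φ k y) / √ν : ℝ) : ℂ) * Complex.I)) - 1
        - (e β : ℂ) * (((∫ y, f y ^ 2 * (∑ k, ξ k * φ k y)) / √ν : ℝ) : ℂ) * Complex.I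
        + ((e β ^ 2 * (∑ k, ξ k ^ 2) / ν / 2 : ℝ) : ℂ) := by
      intro β
      have e1 : ∀ y, ((f y ^ 2 : ℝ) : ℂ) * r β y =
          ((f y ^ 2 : ℝ) : ℂ) *
            Complex.exp (((e β * (∑ k, ξ k * φ k y) / √ν : ℝ) : ℂ) * Complex.I)
          - ((f y ^ 2 : ℝ) : ℂ)
          - ((f y ^ 2 * (∑ k, ξ k * φ k y) : ℝ) : ℂ) * ((e β : ℂ) / ((√ν : ℝ) : ℂ) * Complex.I)
          + ((f y ^ 2 * (∑ k, ξ k * φ k y) ^ 2 : ℝ) : ℂ) * ((e β ^ 2 / ν / 2 : ℝ) : ℂ) := by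
        intro y
        simp only [hr]
        have hsc : ((√ν : ℝ) : ℂ) ^ 2 = (ν : ℂ) := by rw [← Complex.ofReal_pow, hss]
        push_cast
        rw [div_pow, hsc]
        ring
      have i0 : Integrable (fun y => ((f y ^ 2 : ℝ) : ℂ)) := (int_f2 hM).ofReal
      have i1 : Integrable (fun y => ((f y ^ 2 : ℝ) : ℂ) *
            Complex.exp (((e β * (∑ k, ξ k * φ k y) / √ν : ℝ) : ℂ) * Complex.I)) := by
        refine int_mul_bdC hM _ ?_ 1 (fun y => ?_)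
        · have h := hcu β
          fun_prop
        · rw [Complex.norm_exp_ofReal_mul_I]
      have i2 : Integrable (fun y => f y ^ 2 * (∑ k, ξ k * φ k y)) :=
        int_mul_bd hM _ hcT _ (bdTh hM ξ)
      have i3 : Integrable (fun y => f y ^ 2 * (∑ k, ξ k * φ k y) ^ 2) := by
        refine int_mul_bd hM _ (hcT.pow 2) ((R * ∑ k, |ξ k|) ^ 2) (fun y => ?_)
        rw [abs_pow]
        exact pow_le_pow_left₀ (abs_nonneg _) (bdTh hM ξ y) 2
      have i2' : Integrable (fun y => ((f y ^ 2 * (∑ k, ξ k * φ k y) : ℝ) : ℂ) *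
          ((e β : ℂ) / ((√ν : ℝ) : ℂ) * Complex.I)) := i2.ofReal.mul_const _
      have i3' : Integrable (fun y => ((f y ^ 2 * (∑ k, ξ k * φ k y) ^ 2 : ℝ) : ℂ) *
          ((e β ^ 2 / ν / 2 : ℝ) : ℂ)) := i3.ofReal.mul_const _
      simp_rw [e1]
      have j1 : Integrable (fun y => ((f y ^ 2 : ℝ) : ℂ) *
            Complex.exp (((e β * (∑ k, ξ k * φ k y) / √ν : ℝ) : ℂ) * Complex.I)
            - ((f y ^ 2 : ℝ) : ℂ)) := i1.sub i0
      have j2 : Integrable (fun y => ((f y ^ 2 : ℝ) : ℂ) *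
            Complex.exp (((e β * (∑ k, ξ k * φ k y) / √ν : ℝ) : ℂ) * Complex.I)
            - ((f y ^ 2 : ℝ) : ℂ) - ((f y ^ 2 * (∑ k, ξ k * φ k y) : ℝ) : ℂ) *
          ((e β : ℂ) / ((√ν : ℝ) : ℂ) * Complex.I)) := j1.sub i2'
      rw [integral_add j2 i3', integral_sub j1 i2',
        integral_sub i1 i0, integral_mul_const, integral_mul_const, integral_complex_ofReal,
        integral_complex_ofReal, integral_complex_ofReal, hM.norm, th2 hM ξ]
      push_cast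
      ring
    simp_rw [h1]
    unfold AA
    have hw1' : (∑ β, (w β : ℂ)) = 1 := by rw [← Complex.ofReal_sum, hw1]; simp
    have he' : (∑ β, (w β : ℂ) * (e β : ℂ)) = 0 := by
      rw [← Complex.ofReal_zero, ← he]; push_cast; rfl
    simp only [Fintype.sum_bool] at hw1' he' ⊢
    rw [← Finset.sum_div]
    push_cast
    linear_combination hw1' + (((∫ y, f y ^ 2 * (∑ k, ξ k * φ k y)) : ℝ) : ℂ) /
      ((√ν : ℝ) : ℂ) * Complex.I * he'
  rw [key]
  calc ‖∑ β, (w β : ℂ) * ∫ y, ((f y ^ 2 : ℝ) : ℂ) * r β y‖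
      ≤ ∑ β, ‖(w β : ℂ) * ∫ y, ((f y ^ 2 : ℝ) : ℂ) * r β y‖ := norm_sum_le _ _
    _ ≤ ∑ β, w β * (D / √ν) ^ 3 := by
        refine Finset.sum_le_sum (fun β _ => ?_)
        rw [norm_mul, Complex.norm_real, Real.norm_eq_abs, abs_of_nonneg (hw β)]
        refine mul_le_mul_of_nonneg_left ?_ (hw β)
        have i0 : Integrable (fun y => f y ^ 2 * (D / √ν) ^ 3) := (int_f2 hM).mul_const _
        calc ‖∫ y, ((f y ^ 2 : ℝ) : ℂ) * r β y‖ ≤ ∫ y, f y ^ 2 * (D / √ν) ^ 3 := by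
              refine norm_integral_le_of_norm_le i0 (ae_of_all _ (fun y => ?_))
              rw [norm_mul, Complex.norm_real, Real.norm_eq_abs, abs_of_nonneg (sq_nonneg _)]
              exact mul_le_mul_of_nonneg_left (hrb β y) (sq_nonneg _)
          _ = (D / √ν) ^ 3 := by rw [integral_mul_const, hM.norm, one_mul]
    _ = (D / √ν) ^ 3 := by rw [← Finset.sum_mul, hw1, one_mul]

/-- TARGET 1 -/
theorem lim_pow {M : ℕ} (R : ℝ) (f : E3 → ℝ) (φ : Fin M → E3 → ℝ) (hM : Mo R f φ)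
    (w e : Bool → ℝ) (hw : ∀ β, 0 ≤ w β) (hw1 : ∑ β, w β = 1) (he : ∑ β, w β * e β = 0)
    (ξ : Fin M → ℝ) :
    (∀ ν : ℝ, ‖AA ν w e f φ ξ‖ ≤ 1) ∧
    Tendsto (fun N : ℕ => AA (N : ℝ) w e f φ ξ ^ (N - 2)) atTop
      (𝓝 ((Real.exp (-((∑ β, w β * e β ^ 2) / 2 * ∑ k, ξ k ^ 2)) : ℝ) : ℂ)) := by
  refine ⟨AA_le hM hw hw1 ξ, ?_⟩
  set T : ℝ := (∑ β, w β * e β ^ 2) / 2 * ∑ k, ξ k ^ 2 with hT
  set D : ℝ := (|e true| + |e false|) * abs (R * ∑ k, |ξ k|) with hDdef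
  have hD0 : 0 ≤ D := by positivity
  have hD : ∀ β y, |e β * (∑ k, ξ k * φ k y)| ≤ D := by
    intro β y
    rw [abs_mul, hDdef]
    refine mul_le_mul ?_ ((bdTh hM ξ y).trans (le_abs_self _)) (abs_nonneg _) (by positivity)
    cases β
    · linarith [abs_nonneg (e true)]
    · linarith [abs_nonneg (e false)]
  have hsq : Tendsto (fun N : ℕ => √(N : ℝ)) atTop atTop :=
    Real.tendsto_sqrt_atTop.comp tendsto_natCast_atTop_atTop
  -- N (AA - 1) → -T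
  have hmain : Tendsto (fun N : ℕ => (N : ℂ) * (AA (N : ℝ) w e f φ ξ - 1)) atTop
      (𝓝 (((-T : ℝ)) : ℂ)) := by
    rw [tendsto_iff_norm_sub_tendsto_zero]
    have hlim : Tendsto (fun N : ℕ => D ^ 3 * (√(N : ℝ))⁻¹) atTop (𝓝 0) := by
      have := (tendsto_inv_atTop_zero.comp hsq).const_mul (D ^ 3)
      simpa using this
    refine squeeze_zero' (Eventually.of_forall (fun _ => norm_nonneg _)) ?_ hlim
    filter_upwards [hsq.eventually_ge_atTop D, eventually_gt_atTop 0] with N hN hN0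
    have hNr : (0 : ℝ) < (N : ℝ) := by exact_mod_cast hN0
    have hs : 0 < √(N : ℝ) := Real.sqrt_pos.2 hNr
    have hss : √(N : ℝ) ^ 2 = N := Real.sq_sqrt hNr.le
    have h := AA_exp hM hw hw1 he ξ (N : ℝ) hNr D hD hN
    have e1 : (N : ℂ) * (AA (N : ℝ) w e f φ ξ - 1) - ((-T : ℝ) : ℂ) =
        (N : ℂ) * (AA (N : ℝ) w e f φ ξ - 1 +
          (((∑ β, w β * e β ^ 2) / 2 * ∑ k, ξ k ^ 2 / (N : ℝ) : ℝ) : ℂ)) := by
      have hNc : (N : ℂ) ≠ 0 := by exact_mod_cast hN0.ne'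
      have h2 : (∑ β, w β * e β ^ 2) / 2 * ∑ k, ξ k ^ 2 / (N : ℝ) = T / N := by
        rw [hT, ← Finset.sum_div]; ring
      rw [h2]
      push_cast
      field_simp
      ring
    rw [e1, norm_mul, Complex.norm_natCast]
    calc (N : ℝ) * _ ≤ (N : ℝ) * (D / √(N : ℝ)) ^ 3 := mul_le_mul_of_nonneg_left h hNr.le
      _ = D ^ 3 * (√(N : ℝ))⁻¹ := by
          rw [div_pow]
          have : √(N : ℝ) ^ 3 = N * √(N : ℝ) := by rw [pow_succ, hss]
          rw [this]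
          field_simp
  have hpow := Complex.tendsto_one_add_pow_exp_of_tendsto hmain
  have hA1 : Tendsto (fun N : ℕ => AA (N : ℝ) w e f φ ξ) atTop (𝓝 1) := by
    have h0 : Tendsto (fun N : ℕ => ((N : ℂ))⁻¹ * ((N : ℂ) * (AA (N : ℝ) w e f φ ξ - 1))) atTop
        (𝓝 (0 * (((-T : ℝ)) : ℂ))) :=
      (tendsto_inv_atTop_nhds_zero_nat (𝕜 := ℂ)).mul hmain
    rw [zero_mul] at h0
    have h1 := h0.add_const (1 : ℂ)
    rw [zero_add] at h1
    refine h1.congr' ?_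
    filter_upwards [eventually_gt_atTop 0] with N hN0
    have hNc : (N : ℂ) ≠ 0 := by exact_mod_cast hN0.ne'
    field_simp
    ring
  have hA2 : Tendsto (fun N : ℕ => AA (N : ℝ) w e f φ ξ ^ 2) atTop (𝓝 1) := by
    simpa using hA1.pow 2
  have hdiv := hpow.div hA2 one_ne_zero
  rw [div_one] at hdiv
  have hfin : Complex.exp ((-T : ℝ) : ℂ) = ((Real.exp (-T) : ℝ) : ℂ) := by
    rw [Complex.ofReal_exp]
  rw [← hfin]
  refine hdiv.congr' ?_
  filter_upwards [hA1.eventually_ne one_ne_zero, eventually_ge_atTop 2] with N hN hN2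
  show (1 + (AA (N : ℝ) w e f φ ξ - 1)) ^ N / AA (N : ℝ) w e f φ ξ ^ 2 = _
  rw [add_sub_cancel, div_eq_iff (pow_ne_zero 2 hN), ← pow_add]
  congr 1
  omega

theorem int_K_bd {K : E3 × E3 → ℝ} (hK : Integrable K) (g : E3 × E3 → ℂ) (hg : Continuous g)
    (hC : ∀ y, ‖g y‖ ≤ 1) : Integrable (fun z => ((K z : ℝ) : ℂ) * g z) :=
  hK.ofReal.mul_bdd (c := 1) hg.aestronglyMeasurable (ae_of_all _ hC)

theorem contW {M : ℕ} {R : ℝ} {f : E3 → ℝ} {φ : Fin M → E3 → ℝ} (hM : Mo R f φ)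
    (ξ : Fin M → ℝ) (a b ν : ℝ) :
    Continuous (fun z : E3 × E3 => (a * (∑ k, ξ k * φ k z.1) + b * (∑ k, ξ k * φ k z.2)) / √ν) := by
  have h1 : Continuous (fun z : E3 × E3 => ∑ k, ξ k * φ k z.1) := (contTh hM ξ).comp continuous_fst
  have h2 : Continuous (fun z : E3 × E3 => ∑ k, ξ k * φ k z.2) := (contTh hM ξ).comp continuous_snd
  exact ((continuous_const.mul h1).add (continuous_const.mul h2)).div_const _

/-- uniform bound of `BB` -/
theorem BB_le {M : ℕ} {φ : Fin M → E3 → ℝ}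
    {w e : Bool → ℝ} (hw : ∀ β, 0 ≤ w β)
    (K : Bool → Bool → E3 × E3 → ℝ) (ξ : Fin M → ℝ) (ν : ℝ) :
    ‖BB ν w e φ K ξ‖ ≤ ∑ β, ∑ β', w β * w β' * ∫ z, |K β β' z| := by
  unfold BB
  refine (norm_sum_le _ _).trans (Finset.sum_le_sum (fun β _ => ?_))
  refine (norm_sum_le _ _).trans (Finset.sum_le_sum (fun β' _ => ?_))
  rw [norm_mul, Complex.norm_real, Real.norm_eq_abs, abs_of_nonneg (mul_nonneg (hw β) (hw β'))]
  refine mul_le_mul_of_nonneg_left ?_ (mul_nonneg (hw β) (hw β'))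
  refine (norm_integral_le_integral_norm _).trans (le_of_eq ?_)
  refine integral_congr_ae (ae_of_all _ (fun z => ?_))
  show ‖((K β β' z : ℝ) : ℂ) *
      Complex.exp ((((e β * (∑ k, ξ k * φ k z.1) + e β' * (∑ k, ξ k * φ k z.2)) / √ν : ℝ) : ℂ) *
      Complex.I)‖ = |K β β' z|
  rw [norm_mul, Complex.norm_exp_ofReal_mul_I, Complex.norm_real, Real.norm_eq_abs, mul_one]

theorem AA_cont {M : ℕ} {R : ℝ} {f : E3 → ℝ} {φ : Fin M → E3 → ℝ} (hM : Mo R f φ)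
    (w e : Bool → ℝ) (ν : ℝ) : Continuous (fun ξ => AA ν w e f φ ξ) := by
  unfold AA
  refine continuous_finsetSum _ (fun β _ => continuous_const.mul ?_)
  refine continuous_of_dominated (F := fun (ξ : Fin M → ℝ) (y : E3) => ((f y ^ 2 : ℝ) : ℂ) *
    Complex.exp (((e β * (∑ k, ξ k * φ k y) / √ν : ℝ) : ℂ) * Complex.I))
    (bound := fun y => f y ^ 2) ?_ ?_ (int_f2 hM) ?_
  · intro ξ
    have h : Continuous (fun y => (e β * (∑ k, ξ k * φ k y) / √ν)) :=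
      (continuous_const.mul (contTh hM ξ)).div_const _
    refine ((int_f2 hM).ofReal.aestronglyMeasurable).mul ?_
    refine Continuous.aestronglyMeasurable ?_
    fun_prop
  · intro ξ
    refine ae_of_all _ (fun y => ?_)
    rw [norm_mul, Complex.norm_exp_ofReal_mul_I, Complex.norm_real, Real.norm_eq_abs,
            abs_of_nonneg (sq_nonneg _), mul_one]
  · refine ae_of_all _ (fun y => ?_)
    fun_prop

theorem BB_cont {M : ℕ} {R : ℝ} {f : E3 → ℝ} {φ : Fin M → E3 → ℝ} (hM : Mo R f φ)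
    (w e : Bool → ℝ) (ν : ℝ)
    (K : Bool → Bool → E3 × E3 → ℝ) (hK : ∀ β β', Integrable (K β β')) :
    Continuous (fun ξ => BB ν w e φ K ξ) := by
  unfold BB
  refine continuous_finsetSum _ (fun β _ => continuous_finsetSum _ (fun β' _ =>
    continuous_const.mul ?_))
  refine continuous_of_dominated (F := fun (ξ : Fin M → ℝ) (z : E3 × E3) => ((K β β' z : ℝ) : ℂ) *
      Complex.exp ((((e β * (∑ k, ξ k * φ k z.1) + e β' * (∑ k, ξ k * φ k z.2)) / √ν : ℝ) : ℂ) *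
      Complex.I)) (bound := fun y => |K β β' y|) ?_ ?_ (hK β β').abs ?_
  · intro ξ
    have h := contW hM ξ (e β) (e β') ν
    refine ((hK β β').ofReal.aestronglyMeasurable).mul ?_
    refine Continuous.aestronglyMeasurable ?_
    fun_prop
  · intro ξ
    refine ae_of_all _ (fun y => ?_)
    rw [norm_mul, Complex.norm_exp_ofReal_mul_I, Complex.norm_real, Real.norm_eq_abs, mul_one]
  · refine ae_of_all _ (fun y => ?_)
    fun_prop

theorem BB_lim {M : ℕ} {R : ℝ} {f : E3 → ℝ} {φ : Fin M → E3 → ℝ} (hM : Mo R f φ)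
    (w e : Bool → ℝ)
    (K : Bool → Bool → E3 × E3 → ℝ) (hK : ∀ β β', Integrable (K β β')) (ξ : Fin M → ℝ) :
    Tendsto (fun N : ℕ => BB (N : ℝ) w e φ K ξ) atTop
      (𝓝 ((∑ β, ∑ β', w β * w β' * ∫ z, K β β' z : ℝ) : ℂ)) := by
  have hsq : Tendsto (fun N : ℕ => √(N : ℝ)) atTop atTop :=
    Real.tendsto_sqrt_atTop.comp tendsto_natCast_atTop_atTop
  have : ((∑ β, ∑ β', w β * w β' * ∫ z, K β β' z : ℝ) : ℂ) =
      ∑ β, ∑ β', ((w β * w β' : ℝ) : ℂ) * ∫ z, ((K β β' z : ℝ) : ℂ) := by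
    push_cast
    simp only [integral_complex_ofReal]
  rw [this]
  unfold BB
  refine tendsto_finsetSum _ (fun β _ => tendsto_finsetSum _ (fun β' _ =>
    Tendsto.const_mul _ ?_))
  refine tendsto_integral_of_dominated_convergence (fun y => |K β β' y|) ?_ (hK β β').abs ?_ ?_
  · intro N
    have h := contW hM ξ (e β) (e β') (N : ℝ)
    refine ((hK β β').ofReal.aestronglyMeasurable).mul ?_
    refine Continuous.aestronglyMeasurable ?_
    fun_prop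
  · intro N
    refine ae_of_all _ (fun y => ?_)
    rw [norm_mul, Complex.norm_exp_ofReal_mul_I, Complex.norm_real, Real.norm_eq_abs, mul_one]
  · refine ae_of_all _ (fun y => ?_)
    have h1 : Tendsto (fun N : ℕ =>
        (e β * (∑ k, ξ k * φ k y.1) + e β' * (∑ k, ξ k * φ k y.2)) / √(N : ℝ)) atTop (𝓝 0) :=
      Tendsto.div_atTop tendsto_const_nhds hsq
    have h2 : Tendsto (fun N : ℕ =>
        Complex.exp ((((e β * (∑ k, ξ k * φ k y.1) + e β' * (∑ k, ξ k * φ k y.2)) / √(N : ℝ) : ℝ)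
          : ℂ) * Complex.I)) atTop (𝓝 (Complex.exp (((0 : ℝ) : ℂ) * Complex.I))) := by
      refine (Complex.continuous_exp.tendsto _).comp ?_
      exact ((Complex.continuous_ofReal.tendsto _).comp h1).mul_const _
    have h3 := h2.const_mul ((K β β' y : ℝ) : ℂ)
    simpa using h3

theorem gauss_int {M : ℕ} (b : ℝ) (hb : 0 < b) :
    Integrable (fun ξ : Fin M → ℝ => Real.exp (-(b * ∑ k, ξ k ^ 2))) ∧
    ∫ ξ : Fin M → ℝ, Real.exp (-(b * ∑ k, ξ k ^ 2)) = (Real.pi / b) ^ ((M : ℝ) / 2) := by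
  have h1 : ∀ ξ : Fin M → ℝ, Real.exp (-(b * ∑ k, ξ k ^ 2)) =
      ∏ k, Real.exp (-b * ξ k ^ 2) := by
    intro ξ
    rw [← Real.exp_sum]
    congr 1
    rw [← Finset.mul_sum]
    ring
  simp_rw [h1]
  constructor
  · exact Integrable.fintype_prod (f := fun _ x => Real.exp (-b * x ^ 2))
      (fun _ => integrable_exp_neg_mul_sq hb)
  · rw [integral_fintype_prod_volume_eq_prod (fun (_ : Fin M) (x : ℝ) => Real.exp (-b * x ^ 2))]
    simp only [integral_gaussian]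
    rw [Finset.prod_const, Finset.card_univ, Fintype.card_fin, Real.sqrt_eq_rpow,
      ← Real.rpow_natCast, ← Real.rpow_mul (by positivity)]
    congr 1
    ring

/-- TARGET 2 -/
theorem lim_fin {M : ℕ} (R : ℝ) (f : E3 → ℝ) (φ : Fin M → E3 → ℝ) (hM : Mo R f φ)
    (w e : Bool → ℝ) (hw : ∀ β, 0 ≤ w β) (hw1 : ∑ β, w β = 1) (he : ∑ β, w β * e β = 0)
    (K : Bool → Bool → E3 × E3 → ℝ) (hK : ∀ β β', Integrable (K β β')) :
    Tendsto (fun N : ℕ => GG (N - 2) (N : ℝ) w e f φ K) atTop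
      (𝓝 (((1 + (∑ β, w β * e β ^ 2) / 2) ^ (-((M : ℝ) / 2)) *
        ∑ β, ∑ β', w β * w β' * ∫ z, K β β' z : ℝ) : ℂ)) := by
  set S : ℝ := (∑ β, w β * e β ^ 2) / 2 with hS
  set L : ℝ := ∑ β, ∑ β', w β * w β' * ∫ z, K β β' z with hL
  have hS0 : 0 ≤ S := by
    rw [hS]
    have : 0 ≤ ∑ β, w β * e β ^ 2 := Finset.sum_nonneg (fun β _ => mul_nonneg (hw β) (sq_nonneg _))
    linarith
  obtain ⟨g1, -⟩ := gauss_int (M := M) 1 one_pos
  obtain ⟨-, g2⟩ := gauss_int (M := M) (1 + S) (by linarith)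
  set B : ℝ := ∑ β, ∑ β', w β * w β' * ∫ z, |K β β' z| with hB
  have key : Tendsto (fun N : ℕ => ∫ ξ : Fin M → ℝ,
    ((Real.exp (-∑ k, ξ k ^ 2) : ℝ) : ℂ) * (AA (N : ℝ) w e f φ ξ ^ (N - 2) *
      BB (N : ℝ) w e φ K ξ)) atTop
      (𝓝 (∫ ξ : Fin M → ℝ, ((Real.exp (-∑ k, ξ k ^ 2) : ℝ) : ℂ) *
        (((Real.exp (-(S * ∑ k, ξ k ^ 2)) : ℝ) : ℂ) * (L : ℂ)))) := by
    refine tendsto_integral_of_dominated_convergence
      (fun ξ => Real.exp (-(1 * ∑ k, ξ k ^ 2)) * B) ?_ (g1.mul_const _) ?_ ?_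
    · intro N
      refine Continuous.aestronglyMeasurable ?_
      have h1 := AA_cont hM w e (N : ℝ)
      have h2 := BB_cont hM w e (N : ℝ) K hK
      have h3 : Continuous (fun ξ : Fin M → ℝ => ((Real.exp (-∑ k, ξ k ^ 2) : ℝ) : ℂ)) := by
        fun_prop
      exact h3.mul ((h1.pow _).mul h2)
    · intro N
      refine ae_of_all _ (fun ξ => ?_)
      rw [norm_mul, Complex.norm_real, Real.norm_eq_abs, Real.abs_exp, one_mul]
      refine mul_le_mul_of_nonneg_left ?_ (Real.exp_pos _).le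
      rw [norm_mul, norm_pow]
      have h1 : ‖AA (N : ℝ) w e f φ ξ‖ ^ (N - 2) ≤ 1 :=
        pow_le_one₀ (norm_nonneg _) (AA_le hM hw hw1 ξ _)
      have h2 := BB_le (φ := φ) (e := e) hw K ξ (N : ℝ)
      calc ‖AA (N : ℝ) w e f φ ξ‖ ^ (N - 2) * ‖BB (N : ℝ) w e φ K ξ‖ ≤ 1 * B :=
            mul_le_mul h1 h2 (norm_nonneg _) zero_le_one
        _ = B := one_mul _
    · refine ae_of_all _ (fun ξ => ?_)
      refine Tendsto.const_mul _ ?_
      exact (lim_pow R f φ hM w e hw hw1 he ξ).2.mul (BB_lim hM w e K hK ξ)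
  have hlim : ((Real.pi ^ (-((M : ℝ) / 2)) : ℝ) : ℂ) *
      (∫ ξ : Fin M → ℝ, ((Real.exp (-∑ k, ξ k ^ 2) : ℝ) : ℂ) *
        (((Real.exp (-(S * ∑ k, ξ k ^ 2)) : ℝ) : ℂ) * (L : ℂ))) =
      (((1 + S) ^ (-((M : ℝ) / 2)) * L : ℝ) : ℂ) := by
    have h1 : ∀ ξ : Fin M → ℝ, ((Real.exp (-∑ k, ξ k ^ 2) : ℝ) : ℂ) *
        (((Real.exp (-(S * ∑ k, ξ k ^ 2)) : ℝ) : ℂ) * (L : ℂ)) =
        ((Real.exp (-((1 + S) * ∑ k, ξ k ^ 2)) * L : ℝ) : ℂ) := by
      intro ξ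
      have : Real.exp (-((1 + S) * ∑ k, ξ k ^ 2)) =
          Real.exp (-∑ k, ξ k ^ 2) * Real.exp (-(S * ∑ k, ξ k ^ 2)) := by
        rw [← Real.exp_add]; congr 1; ring
      rw [this]
      push_cast
      ring
    simp_rw [h1]
    rw [integral_complex_ofReal, integral_mul_const, g2, ← Complex.ofReal_mul]
    congr 1
    rw [Real.div_rpow Real.pi_pos.le (by linarith), Real.rpow_neg Real.pi_pos.le,
      Real.rpow_neg (by linarith)]
    have : Real.pi ^ ((M : ℝ) / 2) ≠ 0 := (Real.rpow_pos_of_pos Real.pi_pos _).ne'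
    field_simp
  rw [← hlim]
  unfold GG
  exact key.const_mul _

end Pool.Agent.Helper780_CQ.DY2
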