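import Pool.Agent.Helper780_CQ.DY2
import Pool.Agent.Helper780_CQ.DyDefs
import Pool.Agent.Helper985.CP.M_pot_props
import Pool.Agent.Helper985.CP.M_int_coul


set_option autoImplicit false

open MeasureTheory
open scoped Topology

namespace Pool.Agent.Helper780_CQ.DY3

open Pool.Agent.Helper780_CQ.DY2 (lim_pow)

open Pool.Agent.Helper780_CQ Pool.Agent.Helper985.CP Filter

private theorem g1_lin (b : ℝ) : ∫ x : ℝ, x * Real.exp (-b * x ^ 2) = 0 := by
  have h := integral_neg_eq_self (fun x : ℝ => x * Real.exp (-b * x ^ 2)) volume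
  have h2 : (fun x : ℝ => -x * Real.exp (-b * (-x) ^ 2)) =
      fun x : ℝ => -(x * Real.exp (-b * x ^ 2)) := by
    funext x
    rw [neg_sq]
    ring
  simp only [h2, integral_neg] at h
  linarith

private theorem g1_sqi (b : ℝ) (hb : 0 < b) :
    Integrable (fun x : ℝ => x ^ 2 * Real.exp (-b * x ^ 2)) := by
  have h := integrable_rpow_mul_exp_neg_mul_sq hb (s := 2) (by norm_num)
  simpa using h

private theorem g1_sq (b : ℝ) (hb : 0 < b) :
    ∫ x : ℝ, x ^ 2 * Real.exp (-b * x ^ 2) = √(Real.pi / b) / (2 * b) := by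
  have h0 : ∀ x : ℝ, HasDerivAt (fun x : ℝ => x * Real.exp (-b * x ^ 2))
      (Real.exp (-b * x ^ 2) - 2 * b * (x ^ 2 * Real.exp (-b * x ^ 2))) x := by
    intro x
    have h1 : HasDerivAt (fun x : ℝ => -b * x ^ 2) (-b * (2 * x)) x := by
      have := (hasDerivAt_pow 2 x).const_mul (-b)
      simpa using this
    have h2 := (hasDerivAt_id' x).mul h1.exp
    refine h2.congr_deriv ?_
    ring
  have hi1 := integrable_exp_neg_mul_sq hb
  have hi2 := (g1_sqi b hb).const_mul (2 * b)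
  have h3 := integral_eq_zero_of_hasDerivAt_of_integrable h0 (hi1.sub hi2)
    (integrable_mul_exp_neg_mul_sq hb)
  rw [integral_sub hi1 hi2, integral_gaussian, integral_const_mul] at h3
  rw [eq_div_iff (by positivity)]
  linarith

private theorem gM_prod {M : ℕ} (b : ℝ) (k l : Fin M) (ξ : Fin M → ℝ) :
    ξ k * ξ l * Real.exp (-b * ∑ j, ξ j ^ 2) =
      ∏ j, ((if j = k then ξ j else 1) * (if j = l then ξ j else 1) *
        Real.exp (-b * ξ j ^ 2)) := by
  rw [Finset.prod_mul_distrib, Finset.prod_mul_distrib, ← Real.exp_sum, ← Finset.mul_sum]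
  simp

private theorem gM {M : ℕ} (b : ℝ) (hb : 0 < b) (k l : Fin M) :
    ∫ ξ : Fin M → ℝ, ξ k * ξ l * Real.exp (-b * ∑ j, ξ j ^ 2) =
      if k = l then 1 / (2 * b) * √(Real.pi / b) ^ M else 0 := by
  simp only [gM_prod b k l]
  rw [integral_fintype_prod_volume_eq_prod
    (fun (j : Fin M) (x : ℝ) => (if j = k then x else 1) * (if j = l then x else 1) *
        Real.exp (-b * x ^ 2))]
  split_ifs with h
  · subst h
    have h1 : ∀ j : Fin M, ∫ x : ℝ, (if j = k then x else 1) * (if j = k then x else 1) *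
        Real.exp (-b * x ^ 2) = √(Real.pi / b) * (if j = k then 1 / (2 * b) else 1) := by
      intro j
      split_ifs with hj
      · have := g1_sq b hb
        simp only [← pow_two]
        rw [this]; ring
      · simp only [one_mul, mul_one]
        exact integral_gaussian b
    rw [Finset.prod_congr rfl (fun j _ => h1 j), Finset.prod_mul_distrib]
    simp [mul_comm]
  · apply Finset.prod_eq_zero (Finset.mem_univ k)
    have : ∀ x : ℝ, (if k = k then x else 1) * (if k = l then x else 1) *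
        Real.exp (-b * x ^ 2) = x * Real.exp (-b * x ^ 2) := by
      intro x
      simp [h]
    refine (integral_congr_ae (Eventually.of_forall fun x => this x)).trans (g1_lin b)

private theorem gMi {M : ℕ} (b : ℝ) (hb : 0 < b) :
    Integrable (fun ξ : Fin M → ℝ => Real.exp (-b * ∑ j, ξ j ^ 2)) := by
  have h := Integrable.fintype_prod (ι := Fin M) (μ := fun _ => (volume : Measure ℝ))
    (f := fun _ x => Real.exp (-b * x ^ 2)) (fun _ => integrable_exp_neg_mul_sq hb)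
  refine h.congr (Eventually.of_forall fun ξ => ?_)
  simp only
  rw [← Real.exp_sum, ← Finset.mul_sum]

private theorem gMi2 {M : ℕ} (b : ℝ) (hb : 0 < b) (k l : Fin M) :
    Integrable (fun ξ : Fin M → ℝ => ξ k * ξ l * Real.exp (-b * ∑ j, ξ j ^ 2)) := by
  have h := Integrable.fintype_prod (ι := Fin M) (μ := fun _ => (volume : Measure ℝ))
    (f := fun j x => (if j = k then x else 1) * (if j = l then x else 1) *
        Real.exp (-b * x ^ 2)) (fun j => by
      have e2 := g1_sqi b hb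
      have e1 := integrable_mul_exp_neg_mul_sq hb
      have e0 := integrable_exp_neg_mul_sq hb
      by_cases h1 : j = k <;> by_cases h2 : j = l
      · simpa only [if_pos h1, if_pos h2, ← pow_two] using e2
      · simpa only [if_pos h1, if_neg h2, mul_one] using e1
      · simpa only [if_neg h1, if_pos h2, one_mul] using e1
      · simpa only [if_neg h1, if_neg h2, one_mul] using e0)
  refine h.congr (Eventually.of_forall fun ξ => ?_)
  exact (gM_prod b k l ξ).symm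

private theorem fin_const (M : ℕ) (b : ℝ) (hb : 0 < b) :
    Real.pi ^ (-((M : ℝ) / 2)) * √(Real.pi / b) ^ M = b ^ (-((M : ℝ) / 2)) := by
  have hp := Real.pi_pos
  rw [← Real.rpow_natCast, Real.sqrt_eq_rpow, ← Real.rpow_mul (by positivity),
    Real.div_rpow hp.le hb.le, Real.rpow_neg hp.le, Real.rpow_neg hb.le]
  have e : (1 / 2 * (M : ℝ)) = (M : ℝ) / 2 := by ring
  rw [e]
  have h1 : Real.pi ^ ((M : ℝ) / 2) ≠ 0 := (Real.rpow_pos_of_pos hp _).ne'
  have h2 : b ^ ((M : ℝ) / 2) ≠ 0 := (Real.rpow_pos_of_pos hb _).ne'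
  field_simp

private noncomputable def Gf (f : E3 → ℝ) (z : E3 × E3) : ℝ := f z.1 ^ 2 * f z.2 ^ 2 / ‖z.1 - z.2‖

private theorem Gf_nonneg (f : E3 → ℝ) (z : E3 × E3) : 0 ≤ Gf f z := by
  unfold Gf; positivity

private theorem cube_bdd : Bornology.IsBounded (cube 1) := by
  refine (Metric.isBounded_closedBall (x := (0 : E3)) (r := √3)).subset (fun y hy => ?_)
  rw [mem_closedBall_zero_iff, EuclideanSpace.norm_eq]
  apply Real.sqrt_le_sqrt
  rw [Fin.sum_univ_three]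
  have h : ∀ k, ‖y k‖ ^ 2 ≤ 1 := by
    intro k
    obtain ⟨h1, h2⟩ := hy k
    rw [Real.norm_eq_abs, sq_abs]
    nlinarith
  linarith [h 0, h 1, h 2]

private theorem f_cpt {f : E3 → ℝ} (hs : tsupport f ⊆ cube 1) : HasCompactSupport f := by
  exact Metric.isCompact_of_isClosed_isBounded (isClosed_tsupport f) (cube_bdd.subset hs)

private theorem Gf_int {f : E3 → ℝ} (hf : Continuous f) (hs : tsupport f ⊆ cube 1) :
    Integrable (Gf f) := by
  have hc := f_cpt hs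
  have hu : Continuous (fun x : Fin 2 → E3 => f (x 0) ^ 2 * f (x 1) ^ 2) := by fun_prop
  have huc : HasCompactSupport (fun x : Fin 2 → E3 => f (x 0) ^ 2 * f (x 1) ^ 2) := by
    refine HasCompactSupport.intro (K := Set.pi Set.univ (fun _ : Fin 2 => tsupport f))
      (isCompact_univ_pi fun _ => hc) (fun x hx => ?_)
    by_contra hne
    apply hx
    intro i _
    have h0 : f (x 0) ≠ 0 := fun h => hne (by simp [h])
    have h1 : f (x 1) ≠ 0 := fun h => hne (by simp [h])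
    fin_cases i
    · exact subset_tsupport f h0
    · exact subset_tsupport f h1
  have h := int_coul (0 : Fin 2) 1 (by decide) _ hu huc
  have hmp := volume_preserving_finTwoArrow E3
  have h2 : Integrable (Gf f ∘ (MeasurableEquiv.finTwoArrow : (Fin 2 → E3) ≃ᵐ E3 × E3)) := by
    refine h.congr (Eventually.of_forall fun x => ?_)
    simp only [Function.comp, Gf]
    change _ = f (x 0) ^ 2 * f (x 1) ^ 2 / ‖x 0 - x 1‖
    ring
  exact (hmp.integrable_comp_emb (MeasurableEquiv.measurableEmbedding _)).1 h2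

/-- the one-particle factor -/
private noncomputable def hN (ν : ℝ) (w e : Bool → ℝ) (t : ℝ) : ℂ :=
  ∑ β, ((w β * e β : ℝ) : ℂ) * (Complex.exp (((e β * t / √ν : ℝ) : ℂ) * Complex.I) - 1)

private theorem hN_eq (ν : ℝ) (w e : Bool → ℝ) (he : ∑ β, w β * e β = 0) (t : ℝ) :
    hN ν w e t = ∑ β, ((w β * e β : ℝ) : ℂ) *
      Complex.exp (((e β * t / √ν : ℝ) : ℂ) * Complex.I) := by
  unfold hN
  simp only [mul_sub, mul_one, Finset.sum_sub_distrib]
  rw [← Complex.ofReal_sum, he]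
  simp

private theorem hN_bound (ν : ℝ) (hν : 0 < ν) (w e : Bool → ℝ) (hw : ∀ β, 0 ≤ w β) (t : ℝ) :
    ‖((√ν : ℝ) : ℂ) * hN ν w e t‖ ≤ (∑ β, w β * e β ^ 2) * |t| := by
  unfold hN
  rw [Finset.mul_sum, Finset.sum_mul]
  refine (norm_sum_le _ _).trans (Finset.sum_le_sum fun β _ => ?_)
  have hs : 0 < √ν := Real.sqrt_pos.2 hν
  rw [norm_mul, norm_mul, Complex.norm_real, Complex.norm_real, Real.norm_of_nonneg hs.le,
    mul_comm (((e β * t / √ν : ℝ) : ℂ)) Complex.I]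
  have h1 := Real.norm_exp_I_mul_ofReal_sub_one_le (x := e β * t / √ν)
  rw [Real.norm_eq_abs, abs_div, abs_mul, abs_of_pos hs] at h1
  rw [Real.norm_eq_abs, abs_mul, abs_of_nonneg (hw β)]
  calc √ν * (w β * |e β| * ‖Complex.exp (Complex.I * ((e β * t / √ν : ℝ) : ℂ)) - 1‖)
      ≤ √ν * (w β * |e β| * (|e β| * |t| / √ν)) := by
        have := hw β
        gcongr
    _ = w β * (|e β| * |e β|) * |t| := by field_simp
    _ = w β * e β ^ 2 * |t| := by rw [abs_mul_abs_self, pow_two]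

private theorem exp_lim (a : ℝ) :
    Tendsto (fun N : ℕ => ((√(N : ℝ) : ℝ) : ℂ) *
      (Complex.exp (((a / √(N : ℝ) : ℝ) : ℂ) * Complex.I) - 1)) atTop (𝓝 ((a : ℂ) * Complex.I)) := by
  have hd : HasDerivAt (fun t : ℝ => Complex.exp (((a * t : ℝ) : ℂ) * Complex.I))
      ((a : ℂ) * Complex.I) 0 := by
    have h1 : HasDerivAt (fun t : ℝ => ((a * t : ℝ) : ℂ) * Complex.I) ((a : ℂ) * Complex.I) 0 := by
      have h2 : HasDerivAt (fun t : ℝ => a * t) a 0 := by
        simpa using (hasDerivAt_id' (0 : ℝ)).const_mul a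
      exact (h2.ofReal_comp).mul_const _
    have h3 := h1.cexp
    simpa using h3
  have h4 := hd.tendsto_slope_zero
  have h5 : Tendsto (fun N : ℕ => (√(N : ℝ))⁻¹) atTop (𝓝[≠] 0) := by
    rw [tendsto_nhdsWithin_iff]
    refine ⟨?_, ?_⟩
    · exact tendsto_inv_atTop_zero.comp
        (Real.tendsto_sqrt_atTop.comp tendsto_natCast_atTop_atTop)
    · filter_upwards [eventually_gt_atTop 0] with N hN
      have : 0 < √(N : ℝ) := Real.sqrt_pos.2 (by exact_mod_cast hN)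
      exact (inv_pos.2 this).ne'
  have h6 := h4.comp h5
  refine h6.congr fun N => ?_
  simp only [Function.comp, inv_inv, zero_add, mul_zero, Complex.ofReal_zero, zero_mul,
    Complex.exp_zero]
  rw [Complex.real_smul, div_eq_mul_inv]

private theorem hN_lim (w e : Bool → ℝ) (t : ℝ) :
    Tendsto (fun N : ℕ => ((√(N : ℝ) : ℝ) : ℂ) * hN N w e t) atTop
      (𝓝 ((((∑ β, w β * e β ^ 2) * t : ℝ) : ℂ) * Complex.I)) := by
  have h : ∀ β, Tendsto (fun N : ℕ => ((w β * e β : ℝ) : ℂ) * (((√(N : ℝ) : ℝ) : ℂ) *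
      (Complex.exp (((e β * t / √(N : ℝ) : ℝ) : ℂ) * Complex.I) - 1))) atTop
      (𝓝 (((w β * e β : ℝ) : ℂ) * (((e β * t : ℝ) : ℂ) * Complex.I))) :=
    fun β => (exp_lim (e β * t)).const_mul _
  have h2 := tendsto_finsetSum Finset.univ (fun β _ => h β)
  have e1 : ∑ β, ((w β * e β : ℝ) : ℂ) * (((e β * t : ℝ) : ℂ) * Complex.I) =
      (((∑ β, w β * e β ^ 2) * t : ℝ) : ℂ) * Complex.I := by
    push_cast
    rw [Finset.sum_mul, Finset.sum_mul]
    refine Finset.sum_congr rfl fun β _ => ?_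
    ring
  rw [e1] at h2
  refine h2.congr fun N => ?_
  unfold hN
  rw [Finset.mul_sum]
  refine Finset.sum_congr rfl fun β _ => ?_
  ring


private noncomputable def th {M : ℕ} (φ : Fin M → E3 → ℝ) (ξ : Fin M → ℝ) (y : E3) : ℝ :=
  ∑ k, ξ k * φ k y

private theorem th_bd {M : ℕ} {R : ℝ} {φ : Fin M → E3 → ℝ} (hb : ∀ k y, |φ k y| ≤ R)
    (ξ : Fin M → ℝ) (y : E3) : |th φ ξ y| ≤ (∑ k, |ξ k|) * R := by
  unfold th
  rw [Finset.sum_mul]
  refine (Finset.abs_sum_le_sum_abs _ _).trans (Finset.sum_le_sum fun k _ => ?_)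
  rw [abs_mul]
  exact mul_le_mul_of_nonneg_left (hb k y) (abs_nonneg _)

private theorem KV_int {f : E3 → ℝ} (hf : Continuous f) (hs : tsupport f ⊆ cube 1)
    (e : Bool → ℝ) (β β' : Bool) : Integrable (KV e f β β') :=
  (Gf_int hf hs).const_mul (e β * e β')

private theorem BB_eq {M : ℕ} {R : ℝ} {f : E3 → ℝ} {φ : Fin M → E3 → ℝ} (hM : Mo R f φ)
    (w e : Bool → ℝ) (he : ∑ β, w β * e β = 0) (ν : ℝ) (ξ : Fin M → ℝ) :
    BB ν w e φ (KV e f) ξ = ∫ z : E3 × E3, ((Gf f z : ℝ) : ℂ) *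
      (hN ν w e (th φ ξ z.1) * hN ν w e (th φ ξ z.2)) := by
  have hφ : ∀ k, Continuous (φ k) := fun k => (hM.msmooth k).continuous
  have hI : ∀ β β' : Bool, Integrable (fun z : E3 × E3 => ((w β * w β' : ℝ) : ℂ) *
      (((KV e f β β' z : ℝ) : ℂ) *
      Complex.exp ((((e β * (∑ k, ξ k * φ k z.1) + e β' * (∑ k, ξ k * φ k z.2)) / √ν : ℝ) : ℂ) *
      Complex.I))) := by
    intro β β'
    refine Integrable.const_mul ?_ _
    refine Integrable.mul_bdd (c := 1) ((KV_int hM.smooth.continuous hM.support e β β').ofReal)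
      ?_ ?_
    · refine Continuous.aestronglyMeasurable ?_
      fun_prop
    · refine Eventually.of_forall fun z => ?_
      rw [Complex.norm_exp_ofReal_mul_I]
  have h1 : BB ν w e φ (KV e f) ξ = ∑ β, ∑ β', ∫ z : E3 × E3, ((w β * w β' : ℝ) : ℂ) *
      (((KV e f β β' z : ℝ) : ℂ) *
      Complex.exp ((((e β * (∑ k, ξ k * φ k z.1) + e β' * (∑ k, ξ k * φ k z.2)) / √ν : ℝ) : ℂ) *
      Complex.I)) := by
    unfold BB
    simp only [integral_const_mul]
  rw [h1]
  refine (Finset.sum_congr rfl (fun β _ => (integral_finsetSum Finset.univ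
    (fun β' _ => hI β β')).symm)).trans ?_
  refine (integral_finsetSum Finset.univ (fun β _ => integrable_finsetSum _
    fun β' _ => hI β β')).symm.trans ?_
  refine integral_congr_ae (Eventually.of_forall fun z => ?_)
  simp only
  have e1 : ∀ β β' : Bool, Complex.exp ((((e β * (∑ k, ξ k * φ k z.1) +
      e β' * (∑ k, ξ k * φ k z.2)) / √ν : ℝ) : ℂ) * Complex.I) =
      Complex.exp (((e β * th φ ξ z.1 / √ν : ℝ) : ℂ) * Complex.I) *
      Complex.exp (((e β' * th φ ξ z.2 / √ν : ℝ) : ℂ) * Complex.I) := by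
    intro β β'
    rw [← Complex.exp_add]
    congr 1
    unfold th
    push_cast
    ring
  simp only [e1]
  rw [hN_eq ν w e he, hN_eq ν w e he, Finset.sum_mul_sum, Finset.mul_sum]
  refine Finset.sum_congr rfl fun β _ => ?_
  rw [Finset.mul_sum]
  refine Finset.sum_congr rfl fun β' _ => ?_
  unfold KV Gf
  push_cast
  ring

private theorem Gf_aesm {f : E3 → ℝ} (hf : Continuous f) : Measurable (Gf f) := by
  unfold Gf
  have := hf.measurable
  fun_prop

private theorem th_cont {M : ℕ} {φ : Fin M → E3 → ℝ} (hφ : ∀ k, Continuous (φ k))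
    (ξ : Fin M → ℝ) : Continuous (th φ ξ) := by
  unfold th
  fun_prop

private theorem hN_cont (ν : ℝ) (w e : Bool → ℝ) : Continuous (hN ν w e) := by
  unfold hN
  fun_prop

private theorem NB_eq {M : ℕ} {R : ℝ} {f : E3 → ℝ} {φ : Fin M → E3 → ℝ} (hM : Mo R f φ)
    (w e : Bool → ℝ) (he : ∑ β, w β * e β = 0) (N : ℕ) (ξ : Fin M → ℝ) :
    (N : ℂ) * BB N w e φ (KV e f) ξ = ∫ z : E3 × E3, ((Gf f z : ℝ) : ℂ) *
      ((((√(N : ℝ) : ℝ) : ℂ) * hN N w e (th φ ξ z.1)) *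
        (((√(N : ℝ) : ℝ) : ℂ) * hN N w e (th φ ξ z.2))) := by
  rw [BB_eq hM w e he, ← integral_const_mul]
  refine integral_congr_ae (Eventually.of_forall fun z => ?_)
  simp only
  have : (N : ℂ) = ((√(N : ℝ) : ℝ) : ℂ) * ((√(N : ℝ) : ℝ) : ℂ) := by
    rw [← Complex.ofReal_mul, Real.mul_self_sqrt (Nat.cast_nonneg N)]
    simp
  rw [this]
  ring

private theorem NB_pt {M : ℕ} {R : ℝ} {f : E3 → ℝ} {φ : Fin M → E3 → ℝ} (hM : Mo R f φ)
    (w e : Bool → ℝ) (hw : ∀ β, 0 ≤ w β) (N : ℕ) (hN0 : 0 < N) (ξ : Fin M → ℝ)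
    (z : E3 × E3) :
    ‖((Gf f z : ℝ) : ℂ) *
      ((((√(N : ℝ) : ℝ) : ℂ) * hN N w e (th φ ξ z.1)) *
        (((√(N : ℝ) : ℝ) : ℂ) * hN N w e (th φ ξ z.2)))‖ ≤
    Gf f z * ((∑ β, w β * e β ^ 2) * ((∑ k, |ξ k|) * R)) ^ 2 := by
  have hν : (0 : ℝ) < N := by exact_mod_cast hN0
  have hs : 0 ≤ ∑ β, w β * e β ^ 2 := Finset.sum_nonneg fun β _ => by
    have := hw β
    positivity
  have hb : ∀ y, ‖((√(N : ℝ) : ℝ) : ℂ) * hN N w e (th φ ξ y)‖ ≤
      (∑ β, w β * e β ^ 2) * ((∑ k, |ξ k|) * R) := fun y =>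
    (hN_bound N hν w e hw _).trans (mul_le_mul_of_nonneg_left (th_bd hM.bd ξ y) hs)
  rw [norm_mul, norm_mul, Complex.norm_real, Real.norm_of_nonneg (Gf_nonneg f z), pow_two]
  refine mul_le_mul_of_nonneg_left ?_ (Gf_nonneg f z)
  exact mul_le_mul (hb _) (hb _) (norm_nonneg _) ((norm_nonneg _).trans (hb z.1))

private theorem NB_bound {M : ℕ} {R : ℝ} {f : E3 → ℝ} {φ : Fin M → E3 → ℝ} (hM : Mo R f φ)
    (w e : Bool → ℝ) (hw : ∀ β, 0 ≤ w β) (he : ∑ β, w β * e β = 0) (N : ℕ) (hN0 : 0 < N)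
    (ξ : Fin M → ℝ) :
    ‖(N : ℂ) * BB N w e φ (KV e f) ξ‖ ≤
      (∫ z, Gf f z) * ((∑ β, w β * e β ^ 2) * ((∑ k, |ξ k|) * R)) ^ 2 := by
  rw [NB_eq hM w e he, ← integral_mul_const]
  exact norm_integral_le_of_norm_le ((Gf_int hM.smooth.continuous hM.support).mul_const _)
    (Eventually.of_forall fun z => NB_pt hM w e hw N hN0 ξ z)

private theorem NB_lim {M : ℕ} {R : ℝ} {f : E3 → ℝ} {φ : Fin M → E3 → ℝ} (hM : Mo R f φ)
    (w e : Bool → ℝ) (hw : ∀ β, 0 ≤ w β) (he : ∑ β, w β * e β = 0) (ξ : Fin M → ℝ) :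
    Tendsto (fun N : ℕ => (N : ℂ) * BB N w e φ (KV e f) ξ) atTop
      (𝓝 (((-((∑ β, w β * e β ^ 2) ^ 2 * ∫ z, Gf f z * (th φ ξ z.1 * th φ ξ z.2)) : ℝ)) : ℂ)) := by
  have hφ : ∀ k, Continuous (φ k) := fun k => (hM.msmooth k).continuous
  have h1 := tendsto_integral_filter_of_dominated_convergence (l := atTop)
    (μ := (volume : Measure (E3 × E3)))
    (F := fun (N : ℕ) (z : E3 × E3) => ((Gf f z : ℝ) : ℂ) *
      ((((√(N : ℝ) : ℝ) : ℂ) * hN N w e (th φ ξ z.1)) *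
        (((√(N : ℝ) : ℝ) : ℂ) * hN N w e (th φ ξ z.2))))
    (f := fun z : E3 × E3 => ((Gf f z : ℝ) : ℂ) *
      ((((((∑ β, w β * e β ^ 2) * th φ ξ z.1 : ℝ) : ℂ) * Complex.I)) *
        (((((∑ β, w β * e β ^ 2) * th φ ξ z.2 : ℝ) : ℂ) * Complex.I))))
    (fun z => Gf f z * ((∑ β, w β * e β ^ 2) * ((∑ k, |ξ k|) * R)) ^ 2)
    (Eventually.of_forall fun N => ?_) ?_
    ((Gf_int hM.smooth.continuous hM.support).mul_const _)
    (Eventually.of_forall fun z => ?_)
  · simp only [← NB_eq hM w e he] at h1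
    have e1 : (∫ z : E3 × E3, ((Gf f z : ℝ) : ℂ) *
      ((((((∑ β, w β * e β ^ 2) * th φ ξ z.1 : ℝ) : ℂ) * Complex.I)) *
        (((((∑ β, w β * e β ^ 2) * th φ ξ z.2 : ℝ) : ℂ) * Complex.I)))) =
        (((-((∑ β, w β * e β ^ 2) ^ 2 * ∫ z, Gf f z * (th φ ξ z.1 * th φ ξ z.2)) : ℝ)) : ℂ) := by
      rw [← integral_const_mul, ← integral_neg, ← integral_complex_ofReal]
      refine integral_congr_ae (Eventually.of_forall fun z => ?_)
      simp only
      push_cast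
      have hI := Complex.I_mul_I
      linear_combination ((Gf f z : ℂ) * (∑ β, (w β : ℂ) * (e β : ℂ) ^ 2) ^ 2 *
        (th φ ξ z.1 : ℂ) * (th φ ξ z.2 : ℂ)) * hI
    rw [← e1]
    exact h1
  · refine AEStronglyMeasurable.mul ?_ ?_
    · exact (Complex.measurable_ofReal.comp (Gf_aesm hM.smooth.continuous)).aestronglyMeasurable
    · have h1 := hN_cont N w e
      have h2 := th_cont hφ ξ
      exact Continuous.aestronglyMeasurable (by fun_prop)
  · filter_upwards [eventually_gt_atTop 0] with N hN0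
    exact Eventually.of_forall fun z => NB_pt hM w e hw N hN0 ξ z
  · exact ((hN_lim w e (th φ ξ z.1)).mul (hN_lim w e (th φ ξ z.2))).const_mul _

private theorem Q_eq {M : ℕ} {R : ℝ} {f : E3 → ℝ} {φ : Fin M → E3 → ℝ} (hM : Mo R f φ)
    (ξ : Fin M → ℝ) :
    ∫ z, Gf f z * (th φ ξ z.1 * th φ ξ z.2) =
      ∑ k, ∑ l, ξ k * ξ l * ∫ z : E3 × E3, Gf f z * (φ k z.1 * φ l z.2) := by
  have hφ : ∀ k, Continuous (φ k) := fun k => (hM.msmooth k).continuous
  have hI : ∀ k l, Integrable (fun z : E3 × E3 => ξ k * ξ l * (Gf f z * (φ k z.1 * φ l z.2))) := by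
    intro k l
    refine Integrable.const_mul ?_ _
    refine (Gf_int hM.smooth.continuous hM.support).mul_bdd (c := R * R) ?_ ?_
    · have h1 := hφ k
      have h2 := hφ l
      exact Continuous.aestronglyMeasurable (by fun_prop)
    · refine Eventually.of_forall fun z => ?_
      rw [Real.norm_eq_abs, abs_mul]
      exact mul_le_mul (hM.bd k _) (hM.bd l _) (abs_nonneg _) ((abs_nonneg _).trans (hM.bd k z.1))
  simp only [← integral_const_mul]
  rw [Finset.sum_congr rfl (fun k _ => (integral_finsetSum _ fun l _ => hI k l).symm),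
    ← integral_finsetSum _ (fun k _ => integrable_finsetSum _ fun l _ => hI k l)]
  refine integral_congr_ae (Eventually.of_forall fun z => ?_)
  simp only [th]
  rw [Finset.sum_mul_sum, Finset.mul_sum]
  refine Finset.sum_congr rfl fun k _ => ?_
  rw [Finset.mul_sum]
  refine Finset.sum_congr rfl fun l _ => ?_
  ring

private theorem AA_meas {M : ℕ} {R : ℝ} {f : E3 → ℝ} {φ : Fin M → E3 → ℝ} (hM : Mo R f φ)
    (w e : Bool → ℝ) (ν : ℝ) : StronglyMeasurable (fun ξ : Fin M → ℝ => AA ν w e f φ ξ) := by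
  have hφ : ∀ k, Continuous (φ k) := fun k => (hM.msmooth k).continuous
  have hf := hM.smooth.continuous
  unfold AA
  refine Finset.stronglyMeasurable_fun_sum _ fun β _ => ?_
  refine StronglyMeasurable.const_mul ?_ _
  refine StronglyMeasurable.integral_prod_right' (f := fun p : (Fin M → ℝ) × E3 =>
    ((f p.2 ^ 2 : ℝ) : ℂ) *
    Complex.exp (((e β * (∑ k, p.1 k * φ k p.2) / √ν : ℝ) : ℂ) * Complex.I)) ?_
  exact Continuous.stronglyMeasurable (by fun_prop)

private theorem BB_meas {M : ℕ} {R : ℝ} {f : E3 → ℝ} {φ : Fin M → E3 → ℝ} (hM : Mo R f φ)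
    (w e : Bool → ℝ) (he : ∑ β, w β * e β = 0) (ν : ℝ) :
    StronglyMeasurable (fun ξ : Fin M → ℝ => BB ν w e φ (KV e f) ξ) := by
  have hφ : ∀ k, Continuous (φ k) := fun k => (hM.msmooth k).continuous
  have hf := hM.smooth.continuous
  simp only [BB_eq hM w e he]
  refine StronglyMeasurable.integral_prod_right' (f := fun p : (Fin M → ℝ) × (E3 × E3) =>
    ((Gf f p.2 : ℝ) : ℂ) * (hN ν w e (th φ p.1 p.2.1) * hN ν w e (th φ p.1 p.2.2))) ?_
  refine StronglyMeasurable.mul ?_ ?_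
  · exact (Complex.measurable_ofReal.comp ((Gf_aesm hf).comp measurable_snd)).stronglyMeasurable
  · have h1 := hN_cont ν w e
    have h2 : Continuous (fun p : (Fin M → ℝ) × E3 => th φ p.1 p.2) := by
      unfold th
      fun_prop
    have h3 : Continuous (fun p : (Fin M → ℝ) × (E3 × E3) => th φ p.1 p.2.1) :=
      h2.comp (by fun_prop : Continuous fun p : (Fin M → ℝ) × (E3 × E3) => (p.1, p.2.1))
    have h4 : Continuous (fun p : (Fin M → ℝ) × (E3 × E3) => th φ p.1 p.2.2) :=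
      h2.comp (by fun_prop : Continuous fun p : (Fin M → ℝ) × (E3 × E3) => (p.1, p.2.2))
    exact Continuous.stronglyMeasurable ((h1.comp h3).mul (h1.comp h4))

private theorem bnd_eq {M : ℕ} (C s R : ℝ) (ξ : Fin M → ℝ) :
    Real.exp (-∑ k, ξ k ^ 2) * (C * (s * ((∑ k, |ξ k|) * R)) ^ 2) =
      C * s ^ 2 * R ^ 2 * ∑ k, ∑ l, ‖ξ k * ξ l * Real.exp (-1 * ∑ j, ξ j ^ 2)‖ := by
  have h : (∑ k, |ξ k|) ^ 2 * Real.exp (-∑ k, ξ k ^ 2) =
      ∑ k, ∑ l, ‖ξ k * ξ l * Real.exp (-1 * ∑ j, ξ j ^ 2)‖ := by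
    rw [pow_two, Finset.sum_mul_sum, Finset.sum_mul]
    refine Finset.sum_congr rfl fun k _ => ?_
    rw [Finset.sum_mul]
    refine Finset.sum_congr rfl fun l _ => ?_
    rw [norm_mul, norm_mul, Real.norm_eq_abs, Real.norm_eq_abs, Real.norm_eq_abs,
      abs_of_pos (Real.exp_pos _), neg_one_mul]
  rw [← h]
  ring

private theorem lim_int {M : ℕ} {R : ℝ} {f : E3 → ℝ} {φ : Fin M → E3 → ℝ} (hM : Mo R f φ)
    (s : ℝ) (hs : 0 ≤ s) :
    ∫ ξ : Fin M → ℝ, Real.exp (-∑ k, ξ k ^ 2) * (Real.exp (-(s / 2 * ∑ k, ξ k ^ 2)) *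
      (-(s ^ 2 * ∫ z, Gf f z * (th φ ξ z.1 * th φ ξ z.2)))) =
    -(s ^ 2 / (2 + s)) * √(Real.pi / (1 + s / 2)) ^ M * ∑ k, We f (φ k) := by
  have hb : 0 < 1 + s / 2 := by positivity
  have h1 : ∀ ξ : Fin M → ℝ, Real.exp (-∑ k, ξ k ^ 2) * (Real.exp (-(s / 2 * ∑ k, ξ k ^ 2)) *
      (-(s ^ 2 * ∫ z, Gf f z * (th φ ξ z.1 * th φ ξ z.2)))) =
      ∑ k, ∑ l, (-(s ^ 2) * ∫ z : E3 × E3, Gf f z * (φ k z.1 * φ l z.2)) *
        (ξ k * ξ l * Real.exp (-(1 + s / 2) * ∑ j, ξ j ^ 2)) := by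
    intro ξ
    rw [Q_eq hM ξ, ← mul_assoc, ← Real.exp_add]
    have e1 : -∑ k, ξ k ^ 2 + -(s / 2 * ∑ k, ξ k ^ 2) = -(1 + s / 2) * ∑ j, ξ j ^ 2 := by ring
    rw [e1]
    generalize Real.exp (-(1 + s / 2) * ∑ j, ξ j ^ 2) = E
    simp only [Finset.mul_sum, ← Finset.sum_neg_distrib]
    refine Finset.sum_congr rfl fun k _ => Finset.sum_congr rfl fun l _ => ?_
    ring
  simp only [h1]
  rw [integral_finsetSum _ (fun k _ => integrable_finsetSum _ fun l _ =>
    (gMi2 (1 + s / 2) hb k l).const_mul _)]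
  have h2 : ∀ k : Fin M, ∫ ξ : Fin M → ℝ, ∑ l,
      (-(s ^ 2) * ∫ z : E3 × E3, Gf f z * (φ k z.1 * φ l z.2)) *
        (ξ k * ξ l * Real.exp (-(1 + s / 2) * ∑ j, ξ j ^ 2)) =
      -(s ^ 2 / (2 + s)) * √(Real.pi / (1 + s / 2)) ^ M * We f (φ k) := by
    intro k
    rw [integral_finsetSum _ (fun l _ => (gMi2 (1 + s / 2) hb k l).const_mul _)]
    simp only [integral_const_mul, gM (1 + s / 2) hb]
    rw [Finset.sum_eq_single k (fun l _ hl => by rw [if_neg (Ne.symm hl), mul_zero])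
      (fun h => absurd (Finset.mem_univ k) h), if_pos rfl]
    have e2 : ∫ z : E3 × E3, Gf f z * (φ k z.1 * φ k z.2) = We f (φ k) := by
      unfold We
      refine integral_congr_ae (Eventually.of_forall fun z => ?_)
      simp only [Gf]
      ring
    rw [e2]
    have e3 : 2 * (1 + s / 2) = 2 + s := by ring
    rw [e3]
    ring
  rw [Finset.sum_congr rfl fun k _ => h2 k, Finset.mul_sum]


/-- TARGET -/
theorem lim_coul {M : ℕ} (R : ℝ) (f : E3 → ℝ) (φ : Fin M → E3 → ℝ) (hM : Mo R f φ)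
    (w e : Bool → ℝ) (hw : ∀ β, 0 ≤ w β) (hw1 : ∑ β, w β = 1) (he : ∑ β, w β * e β = 0) :
    (∀ β β', Integrable (KV e f β β')) ∧
    Tendsto (fun N : ℕ => (N : ℂ) * GG (N - 2) (N : ℝ) w e f φ (KV e f)) atTop
      (𝓝 ((-((∑ β, w β * e β ^ 2) ^ 2 / (2 + ∑ β, w β * e β ^ 2)) *
        (1 + (∑ β, w β * e β ^ 2) / 2) ^ (-((M : ℝ) / 2)) * ∑ k, We f (φ k) : ℝ) : ℂ)) := by
  refine ⟨fun β β' => KV_int hM.smooth.continuous hM.support e β β', ?_⟩
  have hs : 0 ≤ ∑ β, w β * e β ^ 2 := Finset.sum_nonneg fun β _ => by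
    have := hw β
    positivity
  have hlp := fun ξ => lim_pow R f φ hM w e hw hw1 he ξ
  have hNl := fun ξ => NB_lim hM w e hw he ξ
  set s : ℝ := ∑ β, w β * e β ^ 2 with hsdef
  have hb : 0 < 1 + s / 2 := by positivity
  have h1 := tendsto_integral_filter_of_dominated_convergence (l := atTop)
    (μ := (volume : Measure (Fin M → ℝ)))
    (F := fun (N : ℕ) (ξ : Fin M → ℝ) => ((Real.exp (-∑ k, ξ k ^ 2) : ℝ) : ℂ) *
      (AA N w e f φ ξ ^ (N - 2) * ((N : ℂ) * BB N w e φ (KV e f) ξ)))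
    (f := fun ξ : Fin M → ℝ => ((Real.exp (-∑ k, ξ k ^ 2) : ℝ) : ℂ) *
      (((Real.exp (-(s / 2 * ∑ k, ξ k ^ 2)) : ℝ) : ℂ) *
        ((-(s ^ 2 * ∫ z, Gf f z * (th φ ξ z.1 * th φ ξ z.2)) : ℝ) : ℂ)))
    (fun ξ => Real.exp (-∑ k, ξ k ^ 2) *
      ((∫ z, Gf f z) * (s * ((∑ k, |ξ k|) * R)) ^ 2))
    (Eventually.of_forall fun N => ?_) ?_ ?_
    (Eventually.of_forall fun ξ => ?_)
  · have e1 : ∀ N : ℕ, (N : ℂ) * GG (N - 2) (N : ℝ) w e f φ (KV e f) =
        ((Real.pi ^ (-((M : ℝ) / 2)) : ℝ) : ℂ) * ∫ ξ : Fin M → ℝ,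
        ((Real.exp (-∑ k, ξ k ^ 2) : ℝ) : ℂ) *
      (AA N w e f φ ξ ^ (N - 2) * ((N : ℂ) * BB N w e φ (KV e f) ξ)) := by
      intro N
      unfold GG
      rw [mul_left_comm, ← integral_const_mul]
      congr 1
      refine integral_congr_ae (Eventually.of_forall fun ξ => ?_)
      simp only
      ring
    simp only [e1]
    have e2 : ((-(s ^ 2 / (2 + s)) * (1 + s / 2) ^ (-((M : ℝ) / 2)) * ∑ k, We f (φ k) : ℝ) : ℂ) =
        ((Real.pi ^ (-((M : ℝ) / 2)) : ℝ) : ℂ) * ∫ ξ : Fin M → ℝ,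
        ((Real.exp (-∑ k, ξ k ^ 2) : ℝ) : ℂ) *
      (((Real.exp (-(s / 2 * ∑ k, ξ k ^ 2)) : ℝ) : ℂ) *
        ((-(s ^ 2 * ∫ z, Gf f z * (th φ ξ z.1 * th φ ξ z.2)) : ℝ) : ℂ)) := by
      simp only [← Complex.ofReal_mul]
      rw [integral_complex_ofReal, lim_int hM s hs, ← fin_const M (1 + s / 2) hb,
        ← Complex.ofReal_mul]
      congr 1
      ring
    rw [e2]
    exact h1.const_mul _
  · refine AEStronglyMeasurable.mul ?_ ?_
    · exact Continuous.aestronglyMeasurable (by fun_prop)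
    · exact (((AA_meas hM w e N).pow (N - 2)).mul
        ((BB_meas hM w e he N).const_mul _)).aestronglyMeasurable
  · filter_upwards [eventually_gt_atTop 0] with N hN0
    refine Eventually.of_forall fun ξ => ?_
    rw [norm_mul, norm_mul, Complex.norm_real, Real.norm_of_nonneg (Real.exp_pos _).le, norm_pow]
    refine mul_le_mul_of_nonneg_left ?_ (Real.exp_pos _).le
    calc ‖AA N w e f φ ξ‖ ^ (N - 2) * ‖(N : ℂ) * BB N w e φ (KV e f) ξ‖
        ≤ 1 * ((∫ z, Gf f z) * (s * ((∑ k, |ξ k|) * R)) ^ 2) := by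
          refine mul_le_mul (pow_le_one₀ (norm_nonneg _) ((hlp ξ).1 _))
            (NB_bound hM w e hw he N hN0 ξ) (norm_nonneg _) zero_le_one
      _ = _ := one_mul _
  · simp only [bnd_eq]
    refine Integrable.const_mul ?_ _
    exact integrable_finsetSum _ fun k _ => integrable_finsetSum _ fun l _ =>
      (gMi2 1 one_pos k l).norm
  · exact ((hlp ξ).2.mul (hNl ξ)).const_mul _

end Pool.Agent.Helper780_CQ.DY3
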