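import Pool.Agent.Helper780_CQ.DyDefs
import Pool.Agent.Helper985.CP.M_pot_props


set_option autoImplicit false

open MeasureTheory
open scoped Topology

namespace Pool.Agent.Helper780_CQ.DY4


open Pool.Agent.Helper780_CQ Pool.Agent.Helper985.CP Filter

noncomputable def y0 : E3 := WithLp.toLp 2 (fun _ => (1 / 2 : ℝ))

noncomputable def gB : ContDiffBump y0 := ⟨1 / 4, 1 / 3, by norm_num, by norm_num⟩

theorem int_sq_pos {c : E3} (b : ContDiffBump c) : 0 < ∫ y, b y ^ 2 := by
  have hcont : Continuous fun y => b y ^ 2 := b.continuous.pow 2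
  refine hcont.integral_pos_of_hasCompactSupport_nonneg_nonzero ?_ (fun y => sq_nonneg _)
    (x := c) ?_
  · have : (fun y => b y ^ 2) = (fun t : ℝ => t ^ 2) ∘ b := rfl
    rw [this]; exact b.hasCompactSupport.comp_left (by norm_num)
  · rw [b.one_of_mem_closedBall (by simp [b.rIn_pos.le])]; norm_num

noncomputable def c0 : ℝ := (√(∫ y, gB y ^ 2))⁻¹

theorem c0_pos : 0 < c0 := inv_pos.2 (Real.sqrt_pos.2 (int_sq_pos gB))

noncomputable def ff (y : E3) : ℝ := c0 * gB y

theorem ff_smooth : ContDiff ℝ SM ff := contDiff_const.mul gB.contDiff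

theorem ff_norm : ∫ y, ff y ^ 2 = 1 := by
  unfold ff
  simp_rw [mul_pow]
  rw [integral_const_mul]
  unfold c0
  rw [inv_pow, Real.sq_sqrt (int_sq_pos gB).le]
  exact inv_mul_cancel₀ (int_sq_pos gB).ne'

theorem ff_support : tsupport ff ⊆ cube 1 := by
  have h1 : tsupport ff ⊆ tsupport gB := tsupport_mul_subset_right
  refine h1.trans ?_
  rw [gB.tsupport_eq]
  intro y hy k
  rw [mem_closedBall_iff_norm] at hy
  have h2 : ‖(y - y0) k‖ ≤ ‖y - y0‖ := PiLp.norm_apply_le (y - y0) k
  have h3 : (y - y0) k = y k - 1 / 2 := rfl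
  rw [h3, Real.norm_eq_abs] at h2
  have h4 := abs_le.1 (h2.trans hy)
  have h5 : gB.rOut = 1 / 3 := rfl
  rw [h5] at h4
  constructor <;> linarith [h4.1, h4.2]

section mode

variable {c : E3} (b : ContDiffBump c)

noncomputable def lam : ℝ := (c0 * √(∫ y, b y ^ 2))⁻¹

theorem lam_pos : 0 < lam b := inv_pos.2 (mul_pos c0_pos (Real.sqrt_pos.2 (int_sq_pos b)))

noncomputable def ph (y : E3) : ℝ := lam b * b y

theorem ph_smooth : ContDiff ℝ SM (ph b) := contDiff_const.mul b.contDiff

theorem ph_compact : HasCompactSupport (ph b) := b.hasCompactSupport.mul_left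

theorem ph_bd : ∃ C, ∀ y, |ph b y| ≤ C := by
  obtain ⟨C, hC⟩ := (ph_smooth b).continuous.bounded_above_of_compact_support (ph_compact b)
  exact ⟨C, hC⟩

theorem ph_dbd : ∃ C, ∀ y, ‖fderiv ℝ (ph b) y‖ ≤ C :=
  ((ph_smooth b).continuous_fderiv (by simp)).bounded_above_of_compact_support
    ((ph_compact b).fderiv ℝ)

variable (hb : Metric.ball c b.rOut ⊆ Metric.closedBall y0 (1 / 4))

include hb in
theorem ff_mul (y : E3) : ff y ^ 2 * b y = c0 ^ 2 * b y := by
  by_cases hy : b y = 0
  · rw [hy]; ring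
  · have h1 : y ∈ Metric.ball c b.rOut := by rw [← b.support_eq]; exact hy
    unfold ff
    rw [gB.one_of_mem_closedBall (hb h1), mul_one]

include hb in
theorem ph_norm : ∫ y, ff y ^ 2 * (ph b y * ph b y) = 1 := by
  have h1 : ∀ y, ff y ^ 2 * (ph b y * ph b y) = (c0 ^ 2 * lam b ^ 2) * b y ^ 2 := by
    intro y
    have := ff_mul b hb y
    unfold ph
    linear_combination (lam b ^ 2 * b y) * this
  simp_rw [h1]
  rw [integral_const_mul]
  unfold lam
  rw [inv_pow, mul_pow, Real.sq_sqrt (int_sq_pos b).le]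
  have := c0_pos.ne'
  have := (int_sq_pos b).ne'
  field_simp

/-- the density -/
noncomputable def rho (y : E3) : ℝ := c0 ^ 2 * lam b * b y

include hb in
theorem rho_eq (y : E3) : ff y ^ 2 * ph b y = rho b y := by
  have := ff_mul b hb y
  unfold ph rho
  linear_combination (lam b) * this

theorem rho_nonneg (y : E3) : 0 ≤ rho b y :=
  mul_nonneg (mul_nonneg (sq_nonneg _) (lam_pos b).le) b.nonneg

theorem rho_cont : Continuous (rho b) := continuous_const.mul b.continuous

theorem rho_compact : HasCompactSupport (rho b) := b.hasCompactSupport.mul_left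

theorem rho_int : Integrable (rho b) := (rho_cont b).integrable_of_hasCompactSupport (rho_compact b)

theorem rho_coul : Integrable (fun z : E3 × E3 => rho b z.1 * rho b z.2 / ‖z.1 - z.2‖) := by
  have hmeas : AEStronglyMeasurable (fun z : E3 × E3 => rho b z.1 * rho b z.2 / ‖z.1 - z.2‖)
      ((volume : Measure E3).prod volume) := by
    refine Measurable.aestronglyMeasurable ?_
    have h1 := (rho_cont b).measurable
    exact ((h1.comp measurable_fst).mul (h1.comp measurable_snd)).div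
      (measurable_fst.sub measurable_snd).norm
  have hconv := (rho_compact b).convolutionExists_left (ContinuousLinearMap.mul ℝ ℝ)
    (rho_cont b) (Pool.Agent.Helper985.CP.pot_props_locInt)
  have hcont := (rho_compact b).continuous_convolution_left (ContinuousLinearMap.mul ℝ ℝ)
    (rho_cont b) (Pool.Agent.Helper985.CP.pot_props_locInt)
  rw [Measure.volume_eq_prod, integrable_prod_iff hmeas]
  constructor
  · refine ae_of_all _ fun x => ?_
    have h1 := (hconv x)
    have h2 : Integrable (fun t => rho b t * ‖x - t‖⁻¹) := h1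
    refine (h2.const_mul (rho b x)).congr (ae_of_all _ fun y => ?_)
    change rho b x * (rho b y * ‖x - y‖⁻¹) = rho b x * rho b y / ‖x - y‖
    rw [div_eq_mul_inv]; ring
  · have h3 : (fun x => ∫ y, ‖rho b (x, y).1 * rho b (x, y).2 / ‖(x, y).1 - (x, y).2‖‖) =
        fun x => rho b x * (MeasureTheory.convolution (rho b) (fun w : E3 => ‖w‖⁻¹)
          (ContinuousLinearMap.mul ℝ ℝ) volume) x := by
      funext x
      rw [MeasureTheory.convolution, ← integral_const_mul]
      refine integral_congr_ae (ae_of_all _ fun y => ?_)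
      change ‖rho b x * rho b y / ‖x - y‖‖ = rho b x * (rho b y * ‖x - y‖⁻¹)
      rw [Real.norm_of_nonneg (div_nonneg (mul_nonneg (rho_nonneg b x) (rho_nonneg b y))
        (norm_nonneg _)), div_eq_mul_inv]
      ring
    rw [h3]
    exact ((rho_cont b).mul hcont).integrable_of_hasCompactSupport (rho_compact b).mul_right

theorem diag_null : ∀ᵐ z : E3 × E3, z.1 ≠ z.2 := by
  rw [ae_iff]
  have e : {z : E3 × E3 | ¬ z.1 ≠ z.2} = {z : E3 × E3 | z.1 = z.2} := by ext z; simp
  rw [e, Measure.volume_eq_prod]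
  have hm : MeasurableSet {z : E3 × E3 | z.1 = z.2} :=
    (isClosed_eq continuous_fst continuous_snd).measurableSet
  rw [Measure.measure_prod_null hm]
  refine ae_of_all _ fun x => ?_
  have e2 : Prod.mk x ⁻¹' {z : E3 × E3 | z.1 = z.2} = {x} := by
    ext y; simp [eq_comm]
  change volume (Prod.mk x ⁻¹' {z : E3 × E3 | z.1 = z.2}) = 0
  rw [e2]
  exact measure_singleton x

include hb in
theorem We_ge : (∫ y, rho b y) ^ 2 / (2 * b.rOut) ≤ We ff (ph b) := by
  have hR := b.rOut_pos
  unfold We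
  have h1 : ∀ z : E3 × E3, (ff z.1 ^ 2 * ph b z.1) * (ff z.2 ^ 2 * ph b z.2) / ‖z.1 - z.2‖ =
      rho b z.1 * rho b z.2 / ‖z.1 - z.2‖ := by
    intro z
    rw [rho_eq b hb, rho_eq b hb]
  simp_rw [h1]
  have h2 : (∫ y, rho b y) ^ 2 / (2 * b.rOut) =
      ∫ z : E3 × E3, rho b z.1 * rho b z.2 / (2 * b.rOut) := by
    rw [integral_div, Measure.volume_eq_prod, integral_prod_mul, sq]
  rw [h2]
  refine integral_mono_ae ?_ (rho_coul b) ?_
  · refine Integrable.div_const ?_ _
    rw [Measure.volume_eq_prod]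
    exact (rho_int b).mul_prod (rho_int b)
  · filter_upwards [diag_null] with z hz
    have hpos : 0 < ‖z.1 - z.2‖ := norm_pos_iff.2 (sub_ne_zero.2 hz)
    by_cases h3 : rho b z.1 * rho b z.2 = 0
    · rw [h3]; simp
    · have h4 : b z.1 ≠ 0 := fun h => h3 (by unfold rho; rw [h]; ring)
      have h5 : b z.2 ≠ 0 := fun h => h3 (by unfold rho; rw [h]; ring)
      have h6 : z.1 ∈ Metric.ball c b.rOut := by rw [← b.support_eq]; exact h4
      have h7 : z.2 ∈ Metric.ball c b.rOut := by rw [← b.support_eq]; exact h5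
      rw [mem_ball_iff_norm] at h6 h7
      have h8 : ‖z.1 - z.2‖ ≤ 2 * b.rOut := by
        have : z.1 - z.2 = (z.1 - c) - (z.2 - c) := by abel
        rw [this]
        refine (norm_sub_le _ _).trans ?_
        linarith
      exact div_le_div_of_nonneg_left (mul_nonneg (rho_nonneg b _) (rho_nonneg b _)) hpos h8

theorem rho_mass : c0 ^ 2 * (b.rIn ^ 3 * (volume : Measure E3).real (Metric.ball 0 1)) ≤
    (∫ y, rho b y) ^ 2 := by
  have h1 : ∫ y, rho b y = c0 ^ 2 * lam b * ∫ y, b y := by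
    unfold rho
    rw [integral_const_mul]
  have h2 : (∫ y, b y ^ 2) ≤ ∫ y, b y := by
    refine integral_mono ?_ b.integrable fun y => ?_
    · have hcont : Continuous fun y => b y ^ 2 := b.continuous.pow 2
      refine hcont.integrable_of_hasCompactSupport ?_
      have : (fun y => b y ^ 2) = (fun t : ℝ => t ^ 2) ∘ b := rfl
      rw [this]; exact b.hasCompactSupport.comp_left (by norm_num)
    · change b y ^ 2 ≤ b y
      have h3 := b.le_one (x := y)
      have h4 := b.nonneg (x := y)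
      nlinarith
  have h3 := b.measure_closedBall_le_integral (volume : Measure E3)
  rw [Measure.addHaar_real_closedBall _ _ b.rIn_pos.le] at h3
  have h4 : Module.finrank ℝ E3 = 3 := by simp
  rw [h4] at h3
  have h5 := int_sq_pos b
  have h6 : (∫ y, rho b y) ^ 2 = c0 ^ 2 * ((∫ y, b y) ^ 2 / ∫ y, b y ^ 2) := by
    rw [h1]
    unfold lam
    have hc := c0_pos.ne'
    rw [mul_pow, mul_pow, inv_pow, mul_pow, Real.sq_sqrt h5.le]
    field_simp
  rw [h6]
  refine mul_le_mul_of_nonneg_left (h3.trans ?_) (sq_nonneg _)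
  rw [le_div_iff₀ h5, sq]
  exact mul_le_mul_of_nonneg_left h2 (h5.le.trans h2)

end mode

/-- the lattice points -/
noncomputable def vv {n : ℕ} (p : Fin 3 → Fin n) : E3 := WithLp.toLp 2 (fun j => ((p j : ℕ) : ℝ))

theorem vv_norm {n : ℕ} (p : Fin 3 → Fin n) : ‖vv p‖ ≤ 2 * n := by
  rw [EuclideanSpace.norm_eq]
  refine Real.sqrt_le_iff.2 ⟨by positivity, ?_⟩
  have h1 : ∀ j : Fin 3, ‖(vv p) j‖ ^ 2 ≤ (n : ℝ) ^ 2 := by
    intro j
    change ‖((p j : ℕ) : ℝ)‖ ^ 2 ≤ _
    rw [Real.norm_of_nonneg (by positivity)]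
    have : ((p j : ℕ) : ℝ) ≤ n := by exact_mod_cast (p j).2.le
    have h0 : (0 : ℝ) ≤ ((p j : ℕ) : ℝ) := by positivity
    nlinarith
  refine (Finset.sum_le_sum fun j _ => h1 j).trans ?_
  simp
  nlinarith [sq_nonneg (n : ℝ)]

theorem vv_dist {n : ℕ} (p q : Fin 3 → Fin n) (hpq : p ≠ q) : 1 ≤ ‖vv p - vv q‖ := by
  obtain ⟨j, hj⟩ := Function.ne_iff.1 hpq
  refine le_trans ?_ (PiLp.norm_apply_le (vv p - vv q) j)
  change 1 ≤ ‖((p j : ℕ) : ℝ) - ((q j : ℕ) : ℝ)‖
  rw [Real.norm_eq_abs]
  have h1 : (p j : ℕ) ≠ (q j : ℕ) := fun h => hj (Fin.ext h)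
  have h2 : (1 : ℤ) ≤ |((p j : ℕ) : ℤ) - ((q j : ℕ) : ℤ)| := by
    apply Int.one_le_abs
    intro h
    apply h1
    omega
  exact_mod_cast h2

noncomputable def hh (n : ℕ) : ℝ := 1 / (32 * (n + 1))

theorem hh_pos (n : ℕ) : 0 < hh n := by unfold hh; positivity

noncomputable def cc {n : ℕ} (p : Fin 3 → Fin (n + 1)) : E3 := y0 + (2 * hh n) • vv p

noncomputable def bb {n : ℕ} (p : Fin 3 → Fin (n + 1)) : ContDiffBump (cc p) :=
  ⟨hh n / 2, hh n, half_pos (hh_pos n), half_lt_self (hh_pos n)⟩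

theorem bb_sub {n : ℕ} (p : Fin 3 → Fin (n + 1)) :
    Metric.ball (cc p) (bb p).rOut ⊆ Metric.closedBall y0 (1 / 4) := by
  intro y hy
  rw [mem_ball_iff_norm] at hy
  rw [mem_closedBall_iff_norm]
  have h1 : y - y0 = (y - cc p) + (2 * hh n) • vv p := by unfold cc; abel
  have h2 : (bb p).rOut = hh n := rfl
  rw [h2] at hy
  have h3 : ‖(2 * hh n) • vv p‖ ≤ (2 * hh n) * (2 * (n + 1)) := by
    rw [norm_smul, Real.norm_of_nonneg (by have := hh_pos n; positivity)]
    have := vv_norm p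
    push_cast at this
    exact mul_le_mul_of_nonneg_left this (by have := hh_pos n; positivity)
  have h4 : hh n * (n + 1) = 1 / 32 := by
    unfold hh; field_simp
  have h5 : hh n ≤ 1 / 32 := by
    have : (0 : ℝ) ≤ n := by positivity
    nlinarith [hh_pos n]
  rw [h1]
  refine (norm_add_le _ _).trans ?_
  nlinarith

theorem bb_disj {n : ℕ} (p q : Fin 3 → Fin (n + 1)) (hpq : p ≠ q) (y : E3) :
    bb p y * bb q y = 0 := by
  by_contra h
  have h4 : bb p y ≠ 0 := fun h' => h (by rw [h']; ring)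
  have h5 : bb q y ≠ 0 := fun h' => h (by rw [h']; ring)
  have h6 : y ∈ Metric.ball (cc p) (bb p).rOut := by rw [← (bb p).support_eq]; exact h4
  have h7 : y ∈ Metric.ball (cc q) (bb q).rOut := by rw [← (bb q).support_eq]; exact h5
  rw [mem_ball_iff_norm] at h6 h7
  have e1 : (bb p).rOut = hh n := rfl
  have e2 : (bb q).rOut = hh n := rfl
  rw [e1] at h6
  rw [e2] at h7
  have h8 : (2 * hh n) • (vv p - vv q) = (y - cc q) - (y - cc p) := by
    unfold cc; rw [smul_sub]; abel
  have h9 : ‖(2 * hh n) • (vv p - vv q)‖ < 2 * hh n := by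
    rw [h8]
    refine (norm_sub_le _ _).trans_lt ?_
    linarith
  rw [norm_smul, Real.norm_of_nonneg (by have := hh_pos n; positivity)] at h9
  have h10 := vv_dist p q hpq
  have h11 := hh_pos n
  nlinarith

/-- a lower bound for every mode -/
noncomputable def V1 : ℝ := (volume : Measure E3).real (Metric.ball 0 1)

theorem V1_pos : 0 < V1 := by
  unfold V1
  exact ENNReal.toReal_pos (Metric.measure_ball_pos volume 0 one_pos).ne' measure_ball_lt_top.ne

theorem We_low {n : ℕ} (p : Fin 3 → Fin (n + 1)) :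
    c0 ^ 2 * V1 * hh n ^ 2 / 16 ≤ We ff (ph (bb p)) := by
  refine le_trans ?_ (We_ge (bb p) (bb_sub p))
  have h1 := rho_mass (bb p)
  have e1 : (bb p).rOut = hh n := rfl
  have e2 : (bb p).rIn = hh n / 2 := rfl
  have h2 := hh_pos n
  rw [e2] at h1
  rw [e1, le_div_iff₀ (by positivity)]
  refine le_trans (le_of_eq ?_) h1
  unfold V1
  ring

/-- TARGET -/
theorem modes : ∃ f : E3 → ℝ, ∀ B : ℝ, ∃ (M : ℕ) (φ : Fin M → E3 → ℝ) (R : ℝ),
    Mo R f φ ∧ B ≤ ∑ k, We f (φ k) := by
  refine ⟨ff, fun B => ?_⟩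
  have hK : 0 < c0 ^ 2 * V1 / 16384 := by
    have := V1_pos
    have := c0_pos
    positivity
  obtain ⟨n, hn⟩ := exists_nat_gt (B / (c0 ^ 2 * V1 / 16384))
  have hnB : B < (n : ℝ) * (c0 ^ 2 * V1 / 16384) := (div_lt_iff₀ hK).1 hn
  set M : ℕ := Fintype.card (Fin 3 → Fin (n + 1)) with hM
  let eq := (Fintype.equivFin (Fin 3 → Fin (n + 1))).symm
  choose C hC using fun k : Fin M => ph_bd (bb (eq k))
  choose C' hC' using fun k : Fin M => ph_dbd (bb (eq k))
  refine ⟨M, fun k => ph (bb (eq k)), ∑ k, (|C k| + |C' k|), ?_, ?_⟩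
  · refine ⟨ff_smooth, ff_support, ff_norm, fun k => ph_smooth _, ?_, ?_, ?_⟩
    · intro k y
      have h1 : |C k| + |C' k| ≤ ∑ k, (|C k| + |C' k|) :=
        Finset.single_le_sum (f := fun k => |C k| + |C' k|) (fun i _ => by positivity)
          (Finset.mem_univ k)
      have h2 := hC k y
      have h3 := le_abs_self (C k)
      have h4 := abs_nonneg (C' k)
      linarith
    · intro k y
      have h1 : |C k| + |C' k| ≤ ∑ k, (|C k| + |C' k|) :=
        Finset.single_le_sum (f := fun k => |C k| + |C' k|) (fun i _ => by positivity)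
          (Finset.mem_univ k)
      have h2 := hC' k y
      have h3 := le_abs_self (C' k)
      have h4 := abs_nonneg (C k)
      linarith
    · intro k l
      by_cases hkl : k = l
      · subst hkl
        rw [if_pos rfl]
        exact ph_norm _ (bb_sub _)
      · rw [if_neg hkl]
        have h1 : eq k ≠ eq l := fun h => hkl (eq.injective h)
        have h2 : ∀ y, ff y ^ 2 * (ph (bb (eq k)) y * ph (bb (eq l)) y) = 0 := by
          intro y
          have h3 := bb_disj (eq k) (eq l) h1 y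
          unfold ph
          linear_combination (ff y ^ 2 * lam (bb (eq k)) * lam (bb (eq l))) * h3
        simp_rw [h2]
        simp
  · have h1 : ∑ k : Fin M, c0 ^ 2 * V1 * hh n ^ 2 / 16 ≤ ∑ k, We ff (ph (bb (eq k))) :=
      Finset.sum_le_sum fun k _ => We_low (eq k)
    refine le_trans ?_ h1
    rw [Finset.sum_const, Finset.card_univ, Fintype.card_fin, nsmul_eq_mul]
    have h2 : (M : ℝ) = ((n : ℝ) + 1) ^ 3 := by
      rw [hM]; simp
    rw [h2]
    have h3 : ((n : ℝ) + 1) ^ 3 * (c0 ^ 2 * V1 * hh n ^ 2 / 16) =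
        ((n : ℝ) + 1) * (c0 ^ 2 * V1 / 16384) := by
      unfold hh
      field_simp
      ring
    rw [h3]
    nlinarith

end Pool.Agent.Helper780_CQ.DY4
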