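import Pool.Agent.Helper780_CQ.DyDefs
import Pool.Agent.Helper985.CP.M_int_coul
import Pool.Agent.Helper985.CP.M_int_state


set_option autoImplicit false

open MeasureTheory
open scoped Topology

namespace Pool.Agent.Helper780_CQ.DY5


open Pool.Agent.Helper780_CQ Pool.Agent.Helper985.CP Filter

theorem cube_bdd : Bornology.IsBounded (cube 1) := by
  rw [Metric.isBounded_iff_subset_closedBall (0 : E3)]
  refine ⟨2, fun y hy => ?_⟩
  rw [mem_closedBall_zero_iff, EuclideanSpace.norm_eq]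
  rw [Real.sqrt_le_iff]
  refine ⟨by norm_num, ?_⟩
  rw [Fin.sum_univ_three]
  simp only [Real.norm_eq_abs, sq_abs]
  have h0 := hy 0
  have h1 := hy 1
  have h2 := hy 2
  nlinarith [h0.1, h0.2, h1.1, h1.2, h2.1, h2.2]

theorem cpt_f {M : ℕ} {R : ℝ} {f : E3 → ℝ} {φ : Fin M → E3 → ℝ} (hM : Mo R f φ) :
    IsCompact (tsupport f) :=
  Metric.isCompact_of_isClosed_isBounded (isClosed_tsupport f) (cube_bdd.subset hM.support)

theorem cpt_K {M : ℕ} {R : ℝ} {f : E3 → ℝ} {φ : Fin M → E3 → ℝ} (hM : Mo R f φ) (N : ℕ) :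
    IsCompact {x : Fin N → E3 | ∀ i, x i ∈ tsupport f} := by
  have h := isCompact_univ_pi (fun _ : Fin N => cpt_f hM)
  convert h using 1
  ext x
  simp

theorem Jm_smooth {N M : ℕ} (c : Fin N → ℝ) (φ : Fin M → E3 → ℝ)
    (hφ : ∀ k, ContDiff ℝ SM (φ k)) (ν : ℝ) :
    ContDiff ℝ SM (fun x : Fin N → E3 => Jm ν c φ x) := by
  unfold Jm Qm
  refine ContDiff.exp (ContDiff.div_const (ContDiff.neg (ContDiff.sum fun k _ => ?_)) _)
  refine ContDiff.pow (ContDiff.sum fun i _ => ?_) 2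
  exact contDiff_const.mul ((hφ k).comp (contDiff_apply ℝ E3 i))

theorem F_smooth {N : ℕ} (f : E3 → ℝ) (hf : ContDiff ℝ SM f) :
    ContDiff ℝ SM (fun x : Fin N → E3 => ∏ k, f (x k)) :=
  contDiff_prod fun k _ => hf.comp (contDiff_apply ℝ E3 k)

/-- directional derivative -/
theorem dir_der {N M : ℕ} (c : Fin N → ℝ) (f : E3 → ℝ) (φ : Fin M → E3 → ℝ)
    (hf : ContDiff ℝ SM f) (hφ : ∀ k, ContDiff ℝ SM (φ k)) (ν : ℝ) (x : Fin N → E3) (i : Fin N)
    (w : E3) :
    fderiv ℝ (fun x : Fin N → E3 => Jm ν c φ x * ∏ k, f (x k)) x (Pi.single i w) =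
      Jm ν c φ x * (-(∑ k, 2 * Qm c φ x k * (c i * fderiv ℝ (φ k) (x i) w)) / (8 * ν)) *
        (f (x i) * ∏ k ∈ Finset.univ \ {i}, f (x k)) +
      Jm ν c φ x * (fderiv ℝ f (x i) w * ∏ k ∈ Finset.univ \ {i}, f (x k)) := by
  have hne : (SM : WithTop ℕ∞) ≠ 0 := by simp [SM]
  have hu : DifferentiableAt ℝ (fun x : Fin N → E3 => Jm ν c φ x * ∏ k, f (x k)) x :=
    (((Jm_smooth c φ hφ ν).mul (F_smooth f hf)).differentiable hne) x
  rw [← hu.lineDeriv_eq_fderiv]
  have hx : ∀ (t : ℝ) (k : Fin N), (x + t • (Pi.single i w : Fin N → E3)) k =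
      if k = i then x i + t • w else x k := by
    intro t k
    by_cases hk : k = i
    · subst hk
      simp
    · simp [hk]
  have hline : ∀ g : E3 → ℝ, ContDiff ℝ SM g →
      HasDerivAt (fun t : ℝ => g (x i + t • w)) (fderiv ℝ g (x i) w) 0 := by
    intro g hg
    have h1 : HasFDerivAt g (fderiv ℝ g (x i)) (x i + (0 : ℝ) • w) := by
      rw [zero_smul, add_zero]
      exact ((hg.differentiable hne) (x i)).hasFDerivAt
    have h2 : HasDerivAt (fun t : ℝ => x i + t • w) w 0 := by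
      have h3 := ((hasDerivAt_id (0 : ℝ)).smul_const w).const_add (x i)
      simpa using h3
    exact h1.comp_hasDerivAt 0 h2
  have hprod : ∀ t : ℝ, ∏ k, f ((x + t • (Pi.single i w : Fin N → E3)) k) =
      f (x i + t • w) * ∏ k ∈ Finset.univ \ {i}, f (x k) := by
    intro t
    rw [Finset.sdiff_singleton_eq_erase, ← Finset.mul_prod_erase Finset.univ _ (Finset.mem_univ i)]
    rw [hx t i, if_pos rfl]
    congr 1
    refine Finset.prod_congr rfl fun k hk => ?_
    rw [hx t k, if_neg (Finset.ne_of_mem_erase hk)]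
  have hQ : ∀ (t : ℝ) (k : Fin M), Qm c φ (x + t • (Pi.single i w : Fin N → E3)) k =
      Qm c φ x k + c i * (φ k (x i + t • w) - φ k (x i)) := by
    intro t k
    unfold Qm
    rw [← Finset.add_sum_erase Finset.univ _ (Finset.mem_univ i),
      ← Finset.add_sum_erase Finset.univ (fun i => c i * φ k (x i)) (Finset.mem_univ i)]
    rw [hx t i, if_pos rfl]
    have h1 : ∑ j ∈ Finset.univ.erase i, c j * φ k ((x + t • (Pi.single i w : Fin N → E3)) j) =
        ∑ j ∈ Finset.univ.erase i, c j * φ k (x j) := by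
      refine Finset.sum_congr rfl fun j hj => ?_
      rw [hx t j, if_neg (Finset.ne_of_mem_erase hj)]
    rw [h1]
    ring
  have hQd : ∀ k : Fin M, HasDerivAt (fun t : ℝ => Qm c φ (x + t • (Pi.single i w : Fin N → E3)) k)
      (c i * fderiv ℝ (φ k) (x i) w) 0 := by
    intro k
    have h1 : (fun t : ℝ => Qm c φ (x + t • (Pi.single i w : Fin N → E3)) k) =
        fun t => Qm c φ x k + c i * (φ k (x i + t • w) - φ k (x i)) := funext fun t => hQ t k
    rw [h1]
    exact (((hline (φ k) (hφ k)).sub_const _).const_mul (c i)).const_add _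
  have hJd : HasDerivAt (fun t : ℝ => Jm ν c φ (x + t • (Pi.single i w : Fin N → E3)))
      (Jm ν c φ x * (-(∑ k, 2 * Qm c φ x k * (c i * fderiv ℝ (φ k) (x i) w)) / (8 * ν))) 0 := by
    have h1 : HasDerivAt (fun t : ℝ => ∑ k, Qm c φ (x + t • (Pi.single i w : Fin N → E3)) k ^ 2)
        (∑ k, 2 * Qm c φ x k * (c i * fderiv ℝ (φ k) (x i) w)) 0 := by
      refine HasDerivAt.fun_sum fun k _ => ?_
      have h2 := (hQd k).fun_pow 2
      have h3 : Qm c φ (x + (0 : ℝ) • (Pi.single i w : Fin N → E3)) k = Qm c φ x k := by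
        rw [zero_smul, add_zero]
      simp only [h3] at h2
      exact h2.congr_deriv (by norm_num)
    have h4 := ((h1.neg).div_const (8 * ν)).exp
    have h5 : (-fun t : ℝ => ∑ k, Qm c φ (x + t • (Pi.single i w : Fin N → E3)) k ^ 2) 0 =
        -∑ k, Qm c φ x k ^ 2 := by
      simp
    rw [h5] at h4
    exact h4
  have hfin := hJd.mul ((hline f hf).mul_const (∏ k ∈ Finset.univ \ {i}, f (x k)))
  have hfun : (fun t : ℝ => Jm ν c φ (x + t • (Pi.single i w : Fin N → E3)) *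
      ∏ k, f ((x + t • (Pi.single i w : Fin N → E3)) k)) =
      (fun t : ℝ => Jm ν c φ (x + t • (Pi.single i w : Fin N → E3)) *
      (f (x i + t • w) * ∏ k ∈ Finset.univ \ {i}, f (x k))) := by
    funext t
    rw [hprod t]
  unfold lineDeriv
  rw [hfun]
  have h6 := hfin.deriv
  simp only [zero_smul, add_zero] at h6
  exact h6

theorem exp_bd (t : ℝ) : t * Real.exp (-t) ≤ 1 := by
  have h1 := Real.add_one_le_exp t
  have h2 : 0 < Real.exp (-t) := Real.exp_pos _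
  have h3 : Real.exp t * Real.exp (-t) = 1 := by rw [← Real.exp_add]; simp
  nlinarith

/-- bound of the square of a directional derivative -/
theorem dir_bd {N M : ℕ} (hN : 0 < N) (c : Fin N → ℝ) (f : E3 → ℝ) (φ : Fin M → E3 → ℝ)
    {R : ℝ} (hM : Mo R f φ) (x : Fin N → E3) (i : Fin N) (k : Fin 3) :
    fderiv ℝ (fun x : Fin N → E3 => Jm N c φ x * ∏ k, f (x k)) x
      (Pi.single i (EuclideanSpace.single k (1 : ℝ))) ^ 2 ≤
    2 * (Jm N c φ x ^ 2 * (fderiv ℝ f (x i) (EuclideanSpace.single k (1 : ℝ)) ^ 2 *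
      ∏ k ∈ Finset.univ \ {i}, f (x k) ^ 2)) +
    c i ^ 2 * (M * R ^ 2 / (2 * N)) * ∏ k, f (x k) ^ 2 := by
  have hN' : (0 : ℝ) < N := by exact_mod_cast hN
  obtain ⟨w, hw⟩ : ∃ w : E3, w = EuclideanSpace.single k (1 : ℝ) := ⟨_, rfl⟩
  have hwn : ‖w‖ = 1 := by rw [hw]; simp
  rw [← hw, dir_der c f φ hM.smooth hM.msmooth N x i w]
  obtain ⟨P, hP⟩ : ∃ P : ℝ, P = ∏ k ∈ Finset.univ \ {i}, f (x k) := ⟨_, rfl⟩
  have hP2 : ∏ k ∈ Finset.univ \ {i}, f (x k) ^ 2 = P ^ 2 := by rw [hP, Finset.prod_pow]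
  have hF2 : ∏ k, f (x k) ^ 2 = (f (x i) * P) ^ 2 := by
    rw [hP, Finset.prod_pow, Finset.sdiff_singleton_eq_erase,
      Finset.mul_prod_erase Finset.univ (fun k => f (x k)) (Finset.mem_univ i)]
  rw [hP2, hF2, ← hP]
  obtain ⟨Dφ, hD⟩ : ∃ D : Fin M → ℝ, D = fun k => fderiv ℝ (φ k) (x i) w := ⟨_, rfl⟩
  obtain ⟨Q, hQ⟩ : ∃ Q : Fin M → ℝ, Q = Qm c φ x := ⟨_, rfl⟩
  have hDb : ∀ m, Dφ m ^ 2 ≤ R ^ 2 := by
    intro m
    have h1 : |Dφ m| ≤ R := by
      rw [hD, ← Real.norm_eq_abs]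
      refine ((fderiv ℝ (φ m) (x i)).le_opNorm w).trans ?_
      rw [hwn, mul_one]
      exact hM.dbd m _
    rw [← sq_abs]
    exact pow_le_pow_left₀ (abs_nonneg _) h1 2
  have hT : ∑ m, Dφ m ^ 2 ≤ M * R ^ 2 := by
    refine (Finset.sum_le_sum fun m _ => hDb m).trans ?_
    simp
  have hCS : (∑ m, Q m * Dφ m) ^ 2 ≤ (∑ m, Q m ^ 2) * ∑ m, Dφ m ^ 2 :=
    Finset.sum_mul_sq_le_sq_mul_sq _ _ _
  have hS0 : 0 ≤ ∑ m, Q m ^ 2 := Finset.sum_nonneg fun m _ => sq_nonneg _
  have hJ2 : Jm N c φ x ^ 2 = Real.exp (-((∑ m, Q m ^ 2) / (4 * N))) := by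
    unfold Jm
    rw [← hQ, ← Real.exp_nat_mul]
    congr 1
    push_cast
    field_simp
    ring
  have hJS : Jm N c φ x ^ 2 * (∑ m, Q m ^ 2) ≤ 4 * N := by
    have h1 := exp_bd ((∑ m, Q m ^ 2) / (4 * N))
    rw [← hJ2] at h1
    have h2 : (∑ m, Q m ^ 2) / (4 * N) * Jm N c φ x ^ 2 =
      Jm N c φ x ^ 2 * (∑ m, Q m ^ 2) / (4 * N) := by ring
    rw [h2, div_le_one (by positivity)] at h1
    exact h1
  have hsum : ∑ m, 2 * Qm c φ x m * (c i * fderiv ℝ (φ m) (x i) w) =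
      2 * c i * ∑ m, Q m * Dφ m := by
    rw [Finset.mul_sum]
    refine Finset.sum_congr rfl fun m _ => ?_
    rw [hD, hQ]
    ring
  rw [hsum]
  obtain ⟨J, hJ⟩ : ∃ J : ℝ, J = Jm N c φ x := ⟨_, rfl⟩
  rw [← hJ] at hJS hJ2 ⊢
  obtain ⟨G, hG⟩ : ∃ G : ℝ, G = ∑ m, Q m * Dφ m := ⟨_, rfl⟩
  obtain ⟨S, hS⟩ : ∃ S : ℝ, S = ∑ m, Q m ^ 2 := ⟨_, rfl⟩
  rw [← hG, ← hS] at hCS
  rw [← hS] at hJS hS0
  rw [← hG]
  obtain ⟨d, hd⟩ : ∃ d : ℝ, d = fderiv ℝ f (x i) w := ⟨_, rfl⟩
  rw [← hd]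
  obtain ⟨y, hy⟩ : ∃ y : ℝ, y = f (x i) * P := ⟨_, rfl⟩
  rw [← hy]
  have h1 : J ^ 2 * G ^ 2 ≤ 4 * N * (M * R ^ 2) := by
    calc J ^ 2 * G ^ 2 ≤ J ^ 2 * (S * ∑ m, Dφ m ^ 2) :=
          mul_le_mul_of_nonneg_left hCS (sq_nonneg _)
      _ = (J ^ 2 * S) * ∑ m, Dφ m ^ 2 := by ring
      _ ≤ (4 * N) * (M * R ^ 2) :=
          mul_le_mul hJS hT (Finset.sum_nonneg fun m _ => sq_nonneg _) (by positivity)
  have h2 : (J * (-(2 * c i * G) / (8 * N)) * y) ^ 2 ≤ c i ^ 2 * (M * R ^ 2 / (4 * N)) * y ^ 2 := by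
    have h3 : (J * (-(2 * c i * G) / (8 * N)) * y) ^ 2 =
        (J ^ 2 * G ^ 2) * (c i ^ 2 * y ^ 2 / (16 * N ^ 2)) := by
      field_simp
      ring
    rw [h3]
    have h4 : c i ^ 2 * (M * R ^ 2 / (4 * N)) * y ^ 2 =
        (4 * N * (M * R ^ 2)) * (c i ^ 2 * y ^ 2 / (16 * N ^ 2)) := by
      field_simp
      ring
    rw [h4]
    exact mul_le_mul_of_nonneg_right h1 (by positivity)
  have h5 : c i ^ 2 * (M * R ^ 2 / (2 * N)) * y ^ 2 =
      2 * (c i ^ 2 * (M * R ^ 2 / (4 * N)) * y ^ 2) := by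
    field_simp
    ring
  rw [h5]
  nlinarith [sq_nonneg (J * (-(2 * c i * G) / (8 * N)) * y - J * (d * P))]

/-- the trial wave function -/
noncomputable def TW {S : Type} (D : Species S) {N M : ℕ} (τ0 : Fin N → Fin D.g) (c : Fin N → ℝ)
    (f : E3 → ℝ) (φ : Fin M → E3 → ℝ) : Wave D (Fin N) :=
  fun τ x => if τ = τ0 then ((Jm N c φ x * ∏ k, f (x k) : ℝ) : ℂ) else 0

theorem F_zero {N : ℕ} (f : E3 → ℝ) {x : Fin N → E3} (hx : x ∉ {x : Fin N → E3 | ∀ i, x i ∈ tsupport f}) :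
    ∏ k, f (x k) = 0 := by
  have h1 : ∃ i, x i ∉ tsupport f := by
    by_contra hc
    push Not at hc
    exact hx hc
  obtain ⟨i, hi⟩ := h1
  exact Finset.prod_eq_zero (Finset.mem_univ i) (image_eq_zero_of_notMem_tsupport hi)

theorem TW_state {S : Type} (D : Species S) {N M : ℕ} {R : ℝ} {f : E3 → ℝ} {φ : Fin M → E3 → ℝ}
    (hM : Mo R f φ) (sp : Fin N → S) (σ : S → Fin D.g) (hσ : ∀ s, σ s ∈ D.spin s)
    (hferm : ∀ i, D.fermion (sp i) = false) :
    IsState D sp 1 (TW D (fun i => σ (sp i)) (fun i => D.charge (sp i)) f φ) := by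
  have hsm : ContDiff ℝ SM (fun x : Fin N → E3 => Jm N (fun i => D.charge (sp i)) φ x *
      ∏ k, f (x k)) := (Jm_smooth _ φ hM.msmooth N).mul (F_smooth f hM.smooth)
  have hsupp : ∀ τ, Function.support (TW D (fun i => σ (sp i)) (fun i => D.charge (sp i)) f φ τ) ⊆
      {x : Fin N → E3 | ∀ i, x i ∈ tsupport f} := by
    intro τ x hx
    by_contra hc
    apply hx
    unfold TW
    rw [F_zero f hc, mul_zero]
    simp
  have hts : ∀ τ, tsupport (TW D (fun i => σ (sp i)) (fun i => D.charge (sp i)) f φ τ) ⊆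
      {x : Fin N → E3 | ∀ i, x i ∈ tsupport f} := fun τ =>
    closure_minimal (hsupp τ) (cpt_K hM N).isClosed
  refine ⟨fun τ => ?_, fun τ => ?_, fun τ => ?_, fun τ h => ?_, fun i j hij hs τ x => ?_⟩
  · unfold TW
    by_cases h : τ = fun i => σ (sp i)
    · simp only [h, if_true]
      exact Complex.ofRealCLM.contDiff.comp hsm
    · simp only [h, if_false]
      exact contDiff_const
  · exact (cpt_K hM N).of_isClosed_subset (isClosed_tsupport _) (hts τ)
  · intro x hx i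
    exact hM.support (hts τ hx i)
  · by_cases h1 : τ = fun i => σ (sp i)
    · intro i
      rw [h1]
      exact hσ _
    · exfalso
      apply h
      funext x
      unfold TW
      simp [h1]
  · have hsw : ∀ k, sp (Equiv.swap i j k) = sp k := by
      intro k
      rw [Equiv.swap_apply_def]
      split_ifs with h1 h2
      · rw [h1]; exact hs.symm
      · rw [h2]; exact hs
      · rfl
    have hex : exch D (sp i) = 1 := by
      unfold exch
      simp [hferm i]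
    have hτ : ((fun k => τ (Equiv.swap i j k)) = fun i => σ (sp i)) ↔ τ = fun i => σ (sp i) := by
      constructor
      · intro h
        funext k
        have h1 := congrFun h (Equiv.swap i j k)
        simp only [Equiv.swap_apply_self, hsw] at h1
        exact h1
      · intro h
        funext k
        rw [h]
        simp only [hsw]
    have hF : ∏ k, f (x (Equiv.swap i j k)) = ∏ k, f (x k) :=
      Equiv.prod_comp (Equiv.swap i j) (fun k => f (x k))
    have hQ : ∀ m, Qm (fun i => D.charge (sp i)) φ (fun k => x (Equiv.swap i j k)) m =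
        Qm (fun i => D.charge (sp i)) φ x m := by
      intro m
      unfold Qm
      rw [← Equiv.sum_comp (Equiv.swap i j) (fun k => D.charge (sp k) * φ m (x k))]
      refine Finset.sum_congr rfl fun k _ => ?_
      rw [hsw]
    have hJ : Jm N (fun i => D.charge (sp i)) φ (fun k => x (Equiv.swap i j k)) =
        Jm N (fun i => D.charge (sp i)) φ x := by
      unfold Jm
      simp only [hQ]
    rw [hex, one_mul]
    unfold TW
    simp only [hτ]
    rw [hF, hJ]

theorem TW_nrm {S : Type} (D : Species S) {N M : ℕ} (τ0 : Fin N → Fin D.g) (c : Fin N → ℝ)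
    (f : E3 → ℝ) (φ : Fin M → E3 → ℝ) :
    nrm2 D (TW D τ0 c f φ) = ∫ x : Fin N → E3, Jm N c φ x ^ 2 * ∏ k, f (x k) ^ 2 := by
  unfold nrm2
  rw [Finset.sum_eq_single τ0]
  · refine integral_congr_ae (Filter.Eventually.of_forall fun x => ?_)
    unfold TW
    simp only [if_true]
    rw [Complex.norm_real, Real.norm_eq_abs, sq_abs, mul_pow, Finset.prod_pow]
  · intro τ _ h
    unfold TW
    simp [h]
  · intro h
    exact absurd (Finset.mem_univ _) h

theorem TW_energy {S : Type} (D : Species S) {N M : ℕ} (τ0 : Fin N → Fin D.g) (c : Fin N → ℝ)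
    (sp : Fin N → S) (f : E3 → ℝ) (φ : Fin M → E3 → ℝ) :
    energy D sp (TW D τ0 c f φ) = ∫ x : Fin N → E3, ((∑ i, kin D sp i (TW D τ0 c f φ τ0) x) +
      coul D sp x * ‖TW D τ0 c f φ τ0 x‖ ^ 2) := by
  unfold energy
  rw [Finset.sum_eq_single τ0]
  · intro τ _ h
    have h1 : TW D τ0 c f φ τ = fun _ => 0 := by
      funext x
      unfold TW
      simp [h]
    rw [h1]
    simp [kin]
  · intro h
    exact absurd (Finset.mem_univ _) h

theorem TW_kin {S : Type} (D : Species S) {N M : ℕ} (hN : 0 < N) {R : ℝ} {f : E3 → ℝ}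
    {φ : Fin M → E3 → ℝ} (hM : Mo R f φ) (τ0 : Fin N → Fin D.g) (c : Fin N → ℝ)
    (sp : Fin N → S) (i : Fin N) (hm : 0 < D.mass (sp i)) (x : Fin N → E3) :
    kin D sp i (TW D τ0 c f φ τ0) x ≤ 1 / D.mass (sp i) *
      (Jm N c φ x ^ 2 * (gf f (x i) * ∏ k ∈ Finset.univ \ {i}, f (x k) ^ 2)) +
      (1 / D.mass (sp i)) * (c i ^ 2 * (3 * M * R ^ 2 / (4 * N))) * ∏ k, f (x k) ^ 2 := by
  have hN' : (0 : ℝ) < N := by exact_mod_cast hN
  have hne : (SM : WithTop ℕ∞) ≠ 0 := by simp [SM]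
  have hu : DifferentiableAt ℝ (fun x : Fin N → E3 => Jm N c φ x * ∏ k, f (x k)) x :=
    (((Jm_smooth c φ hM.msmooth N).mul (F_smooth f hM.smooth)).differentiable hne) x
  have hT : TW D τ0 c f φ τ0 = fun x => ((Jm N c φ x * ∏ k, f (x k) : ℝ) : ℂ) := by
    funext x
    unfold TW
    rw [if_pos rfl]
  have hd : ∀ v, ‖fderiv ℝ (TW D τ0 c f φ τ0) x v‖ ^ 2 =
      fderiv ℝ (fun x : Fin N → E3 => Jm N c φ x * ∏ k, f (x k)) x v ^ 2 := by
    intro v
    have h1 : HasFDerivAt (TW D τ0 c f φ τ0) (Complex.ofRealCLM.comp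
        (fderiv ℝ (fun x : Fin N → E3 => Jm N c φ x * ∏ k, f (x k)) x)) x := by
      rw [hT]
      exact Complex.ofRealCLM.hasFDerivAt.comp x hu.hasFDerivAt
    rw [h1.fderiv, ContinuousLinearMap.comp_apply, Complex.ofRealCLM_apply, Complex.norm_real,
      Real.norm_eq_abs, sq_abs]
  unfold kin
  simp only [hd]
  have h2 := Finset.sum_le_sum fun k (_ : k ∈ (Finset.univ : Finset (Fin 3))) =>
    dir_bd hN c f φ hM x i k
  have h3 : ∑ k : Fin 3, (2 * (Jm N c φ x ^ 2 *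
      (fderiv ℝ f (x i) (EuclideanSpace.single k (1 : ℝ)) ^ 2 *
      ∏ k ∈ Finset.univ \ {i}, f (x k) ^ 2)) +
      c i ^ 2 * (M * R ^ 2 / (2 * N)) * ∏ k, f (x k) ^ 2) =
      2 * (Jm N c φ x ^ 2 * (gf f (x i) * ∏ k ∈ Finset.univ \ {i}, f (x k) ^ 2)) +
      3 * (c i ^ 2 * (M * R ^ 2 / (2 * N)) * ∏ k, f (x k) ^ 2) := by
    unfold gf
    rw [Fin.sum_univ_three, Fin.sum_univ_three]
    ring
  rw [h3] at h2
  refine (mul_le_mul_of_nonneg_left h2 (by positivity)).trans (le_of_eq ?_)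
  field_simp
  ring

theorem gf_zero (f : E3 → ℝ) {y : E3} (hy : y ∉ tsupport f) : gf f y = 0 := by
  unfold gf
  have h1 : fderiv ℝ f y = 0 := by
    have h2 : y ∉ tsupport (fderiv ℝ f) := fun h => hy (tsupport_fderiv_subset ℝ h)
    exact image_eq_zero_of_notMem_tsupport h2
  simp [h1]

theorem gf_cont (f : E3 → ℝ) (hf : ContDiff ℝ SM f) : Continuous (gf f) := by
  have h1 : Continuous (fderiv ℝ f) := hf.continuous_fderiv (by simp [SM])
  unfold gf
  exact continuous_finsetSum _ fun k _ => (h1.clm_apply continuous_const).pow 2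

theorem int_g1 {N M : ℕ} {R : ℝ} {f : E3 → ℝ} {φ : Fin M → E3 → ℝ} (hM : Mo R f φ)
    (c : Fin N → ℝ) (i : Fin N) : Integrable (fun x : Fin N → E3 =>
      Jm N c φ x ^ 2 * (gf f (x i) * ∏ k ∈ Finset.univ \ {i}, f (x k) ^ 2)) := by
  refine Continuous.integrable_of_hasCompactSupport ?_ ?_
  · refine ((Jm_smooth c φ hM.msmooth N).continuous.pow 2).mul (Continuous.mul ?_ ?_)
    · exact (gf_cont f hM.smooth).comp (continuous_apply i)
    · exact continuous_finsetProd _ fun k _ => (hM.smooth.continuous.comp (continuous_apply k)).pow 2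
  · refine HasCompactSupport.intro (cpt_K hM N) fun x hx => ?_
    have h1 : ∃ j, x j ∉ tsupport f := by
      by_contra hc
      push Not at hc
      exact hx hc
    obtain ⟨j, hj⟩ := h1
    by_cases hji : j = i
    · rw [← hji, gf_zero f hj]
      ring
    · have h2 : ∏ k ∈ Finset.univ \ {i}, f (x k) ^ 2 = 0 :=
        Finset.prod_eq_zero (i := j) (by simp [hji]) (by
          rw [image_eq_zero_of_notMem_tsupport hj]
          norm_num)
      rw [h2]
      ring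

theorem int_g2 {N M : ℕ} {R : ℝ} {f : E3 → ℝ} {φ : Fin M → E3 → ℝ} (hM : Mo R f φ) :
    Integrable (fun x : Fin N → E3 => ∏ k, f (x k) ^ 2) := by
  refine Continuous.integrable_of_hasCompactSupport ?_ ?_
  · exact continuous_finsetProd _ fun k _ => (hM.smooth.continuous.comp (continuous_apply k)).pow 2
  · refine HasCompactSupport.intro (cpt_K hM N) fun x hx => ?_
    rw [Finset.prod_pow, F_zero f hx]
    norm_num

theorem int_g2_eq {N M : ℕ} {R : ℝ} {f : E3 → ℝ} {φ : Fin M → E3 → ℝ} (hM : Mo R f φ) :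
    ∫ x : Fin N → E3, ∏ k, f (x k) ^ 2 = 1 := by
  rw [integral_fintype_prod_volume_eq_prod (fun (_ : Fin N) (y : E3) => f y ^ 2)]
  simp [hM.norm]

/-- TARGET -/
theorem trial {S : Type} [Fintype S] [DecidableEq S] (D : Species S) (hD : D.Valid) (p q : S)
    (hp : D.fermion p = false) (hq : D.fermion q = false) {M : ℕ} (R : ℝ) (f : E3 → ℝ)
    (φ : Fin M → E3 → ℝ) (hM : Mo R f φ) (A : ℝ)
    (hA : ∀ {I : Type} [Fintype I] [DecidableEq I] (sp : I → S) (Ψ : Wave D I),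
      IsState D sp 1 Ψ → -A * (Fintype.card I : ℝ) * nrm2 D Ψ ≤ energy D sp Ψ) :
    ∃ G : ℝ, 0 ≤ G ∧ ∀ N : ℕ, 2 ≤ N → ∀ (b : Fin N → Bool) (c : Fin N → ℝ),
      (∀ i, c i = D.charge (if b i then p else q)) →
      -A * N * (∫ x : Fin N → E3, Jm N c φ x ^ 2 * ∏ k, f (x k) ^ 2) ≤
        (1 / D.mass p + 1 / D.mass q) * (∑ i, ∫ x : Fin N → E3, Jm N c φ x ^ 2 *
          (gf f (x i) * ∏ k ∈ Finset.univ \ {i}, f (x k) ^ 2)) + G +
        (1 / 2) * ∑ i, ∑ j, if i = j then 0 else ∫ x : Fin N → E3, Jm N c φ x ^ 2 *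
          (c i * c j * (∏ k, f (x k) ^ 2) / ‖x i - x j‖) := by
  classical
  obtain ⟨σ, hσ⟩ : ∃ σ : S → Fin D.g, ∀ s, σ s ∈ D.spin s :=
    ⟨fun s => (hD.spin_nonempty s).choose, fun s => (hD.spin_nonempty s).choose_spec⟩
  have hmp := hD.mass_pos p
  have hmq := hD.mass_pos q
  refine ⟨(1 / D.mass p + 1 / D.mass q) * (D.charge p ^ 2 + D.charge q ^ 2) *
    (3 * M * R ^ 2 / 4), by positivity, fun N hN b c hc => ?_⟩
  have hN0 : 0 < N := by omega
  have hN' : (0 : ℝ) < N := by exact_mod_cast hN0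
  obtain ⟨sp, hsp⟩ : ∃ sp : Fin N → S, sp = fun i => if b i then p else q := ⟨_, rfl⟩
  have hcs : c = fun i => D.charge (sp i) := by
    rw [hsp]
    exact funext hc
  have hst : IsState D sp 1 (TW D (fun i => σ (sp i)) c f φ) := by
    rw [hcs]
    refine TW_state D hM sp σ hσ fun i => ?_
    rw [hsp]
    dsimp only
    split_ifs
    · exact hp
    · exact hq
  have h1 := hA sp _ hst
  obtain ⟨τ0, hτ0⟩ : ∃ τ0 : Fin N → Fin D.g, τ0 = fun i => σ (sp i) := ⟨_, rfl⟩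
  rw [← hτ0] at h1 hst
  rw [Fintype.card_fin, TW_nrm, TW_energy] at h1
  refine h1.trans ?_
  obtain ⟨i1, i2, i3, i4, i5⟩ := int_state D sp 1 _ hst τ0
  have hn : ∀ x : Fin N → E3, ‖TW D τ0 c f φ τ0 x‖ ^ 2 = Jm N c φ x ^ 2 * ∏ k, f (x k) ^ 2 := by
    intro x
    unfold TW
    rw [if_pos rfl, Complex.norm_real, Real.norm_eq_abs, sq_abs, mul_pow, Finset.prod_pow]
  have hint : ∀ i j : Fin N, Integrable (fun x : Fin N → E3 => if i = j then (0 : ℝ) else
      Jm N c φ x ^ 2 * (c i * c j * (∏ k, f (x k) ^ 2) / ‖x i - x j‖)) := by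
    intro i j
    by_cases h : i = j
    · simp [h]
    · simp only [h, if_false]
      refine (i4 i j h).congr (Filter.Eventually.of_forall fun x => ?_)
      simp only [hn x]
      rw [hcs]
      ring
  have hcoul : ∫ x : Fin N → E3, coul D sp x * ‖TW D τ0 c f φ τ0 x‖ ^ 2 =
      (1 / 2) * ∑ i, ∑ j, if i = j then 0 else ∫ x : Fin N → E3, Jm N c φ x ^ 2 *
          (c i * c j * (∏ k, f (x k) ^ 2) / ‖x i - x j‖) := by
    have h2 : ∀ x : Fin N → E3, coul D sp x * ‖TW D τ0 c f φ τ0 x‖ ^ 2 =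
        (1 / 2) * ∑ i, ∑ j, (if i = j then 0 else Jm N c φ x ^ 2 *
          (c i * c j * (∏ k, f (x k) ^ 2) / ‖x i - x j‖)) := by
      intro x
      unfold coul
      rw [hn x, mul_assoc, Finset.sum_mul]
      congr 1
      refine Finset.sum_congr rfl fun i _ => ?_
      rw [Finset.sum_mul]
      refine Finset.sum_congr rfl fun j _ => ?_
      split_ifs
      · ring
      · rw [hcs]
        ring
    simp only [h2]
    rw [integral_const_mul, integral_finsetSum _ (fun i _ => integrable_finsetSum _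
      fun j _ => hint i j)]
    congr 1
    refine Finset.sum_congr rfl fun i _ => ?_
    rw [integral_finsetSum _ (fun j _ => hint i j)]
    refine Finset.sum_congr rfl fun j _ => ?_
    by_cases h : i = j
    · simp [h]
    · simp only [h, if_false]
  rw [integral_add (integrable_finsetSum _ fun i _ => i2 i) i3,
    integral_finsetSum _ (fun i _ => i2 i), hcoul]
  have hmass : ∀ i, 0 < D.mass (sp i) ∧ 1 / D.mass (sp i) ≤ 1 / D.mass p + 1 / D.mass q := by
    intro i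
    have e1 : 0 < 1 / D.mass p := by positivity
    have e2 : 0 < 1 / D.mass q := by positivity
    rw [hsp]
    dsimp only
    split_ifs
    · exact ⟨hmp, by linarith⟩
    · exact ⟨hmq, by linarith⟩
  have hch : ∀ i, c i ^ 2 ≤ D.charge p ^ 2 + D.charge q ^ 2 := by
    intro i
    have e1 := sq_nonneg (D.charge p)
    have e2 := sq_nonneg (D.charge q)
    rw [hc i]
    split_ifs <;> linarith
  have hkin : ∀ i, ∫ x, kin D sp i (TW D τ0 c f φ τ0) x ≤
      (1 / D.mass p + 1 / D.mass q) * (∫ x : Fin N → E3, Jm N c φ x ^ 2 *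
          (gf f (x i) * ∏ k ∈ Finset.univ \ {i}, f (x k) ^ 2)) +
      (1 / D.mass p + 1 / D.mass q) * (D.charge p ^ 2 + D.charge q ^ 2) *
        (3 * M * R ^ 2 / (4 * N)) := by
    intro i
    have e1 : ∫ x, kin D sp i (TW D τ0 c f φ τ0) x ≤ ∫ x : Fin N → E3, (1 / D.mass (sp i) *
      (Jm N c φ x ^ 2 * (gf f (x i) * ∏ k ∈ Finset.univ \ {i}, f (x k) ^ 2)) +
      (1 / D.mass (sp i)) * (c i ^ 2 * (3 * M * R ^ 2 / (4 * N))) * ∏ k, f (x k) ^ 2) :=
      integral_mono (i2 i) (((int_g1 hM c i).const_mul _).add ((int_g2 hM).const_mul _))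
        (fun x => TW_kin D hN0 hM τ0 c sp i (hmass i).1 x)
    rw [integral_add ((int_g1 hM c i).const_mul _) ((int_g2 hM).const_mul _),
      integral_const_mul, integral_const_mul, int_g2_eq hM, mul_one] at e1
    refine e1.trans (add_le_add ?_ ?_)
    · refine mul_le_mul_of_nonneg_right (hmass i).2 (integral_nonneg fun x => ?_)
      have e3 : 0 ≤ gf f (x i) := Finset.sum_nonneg fun k _ => sq_nonneg _
      have e4 : 0 ≤ ∏ k ∈ Finset.univ \ {i}, f (x k) ^ 2 :=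
        Finset.prod_nonneg fun k _ => sq_nonneg _
      change 0 ≤ Jm N c φ x ^ 2 * (gf f (x i) * ∏ k ∈ Finset.univ \ {i}, f (x k) ^ 2)
      positivity
    · have e5 : (0 : ℝ) ≤ 3 * M * R ^ 2 / (4 * N) := by positivity
      have e6 : c i ^ 2 * (3 * M * R ^ 2 / (4 * N)) ≤ (D.charge p ^ 2 + D.charge q ^ 2) *
          (3 * M * R ^ 2 / (4 * N)) := mul_le_mul_of_nonneg_right (hch i) e5
      have e7 := mul_le_mul (hmass i).2 e6 (by positivity)
        (by positivity : 0 ≤ 1 / D.mass p + 1 / D.mass q)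
      rw [← mul_assoc] at e7
      rw [← mul_assoc]
      refine e7.trans (le_of_eq ?_)
      ring
  have hsum := Finset.sum_le_sum fun i (_ : i ∈ (Finset.univ : Finset (Fin N))) => hkin i
  rw [Finset.sum_add_distrib, ← Finset.mul_sum, Finset.sum_const, Finset.card_univ,
    Fintype.card_fin, nsmul_eq_mul] at hsum
  have hG : (N : ℝ) * ((1 / D.mass p + 1 / D.mass q) * (D.charge p ^ 2 + D.charge q ^ 2) *
        (3 * M * R ^ 2 / (4 * N))) = (1 / D.mass p + 1 / D.mass q) *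
        (D.charge p ^ 2 + D.charge q ^ 2) * (3 * M * R ^ 2 / 4) := by
    field_simp
  rw [hG] at hsum
  linarith

end Pool.Agent.Helper780_CQ.DY5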