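import Pool.Agent.Helper780_CQ.DY1
import Pool.Agent.Helper780_CQ.DY2
import Pool.Agent.Helper780_CQ.DY3
import Pool.Agent.Helper780_CQ.DY4
import Pool.Agent.Helper780_CQ.DY5
import Pool.Agent.Helper780_CQ.DyDefs
import Pool.Agent.Helper985.CP.M_stable_any


set_option autoImplicit false

open MeasureTheory
open scoped Topology

namespace Pool.Agent.Helper780_CQ.DY6

open Pool.Agent.Helper780_CQ.DY1 (four)
open Pool.Agent.Helper780_CQ.DY2 (lim_fin)
open Pool.Agent.Helper780_CQ.DY3 (lim_coul)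
open Pool.Agent.Helper780_CQ.DY4 (modes)
open Pool.Agent.Helper780_CQ.DY5 (trial)

open Pool.Agent.Helper780_CQ Pool.Agent.Helper985.CP Filter







theorem dya_W {N : ℕ} (w : Bool → ℝ) (hw1 : ∑ β, w β = 1) :
    ∑ b : Fin N → Bool, ∏ k, w (b k) = 1 := by
  have h := Finset.prod_univ_sum (fun _ : Fin N => (Finset.univ : Finset Bool)) (fun _ β => w β)
  rw [Fintype.piFinset_univ] at h
  rw [← h]
  simp only [hw1, Finset.prod_const_one]

theorem dya_prod {N : ℕ} (g : Fin N → ℝ) {i j : Fin N} (hij : i ≠ j) :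
    ∏ k, g k = g i * g j * ∏ k ∈ Finset.univ \ {i, j}, g k := by
  rw [← Finset.prod_sdiff (Finset.subset_univ ({i, j} : Finset (Fin N))), Finset.prod_pair hij]
  ring

theorem dya_prod1 {N : ℕ} (g : Fin N → ℝ) {i j : Fin N} (hij : i ≠ j) :
    ∏ k ∈ Finset.univ \ {i}, g k = g j * ∏ k ∈ Finset.univ \ {i, j}, g k := by
  have h : (Finset.univ \ {i} : Finset (Fin N)) = insert j (Finset.univ \ {i, j}) := by
    ext k
    simp only [Finset.mem_sdiff, Finset.mem_univ, true_and, Finset.mem_singleton,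
      Finset.mem_insert, not_or]
    constructor
    · intro hk
      by_cases hkj : k = j
      · exact Or.inl hkj
      · exact Or.inr ⟨hk, hkj⟩
    · rintro (hk | hk)
      · rw [hk]; exact hij.symm
      · exact hk.1
  rw [h, Finset.prod_insert (by simp)]

theorem dya_sum {N : ℕ} (c : ℝ) :
    ∑ i : Fin N, ∑ j : Fin N, (if i = j then 0 else c) = (N : ℝ) * (((N : ℝ) - 1) * c) := by
  have h : ∀ i : Fin N, ∑ j : Fin N, (if i = j then 0 else c) = ((N : ℝ) - 1) * c := by
    intro i
    have h1 : ∀ j : Fin N, (if i = j then 0 else c) = c - (if i = j then c else 0) := by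
      intro j; split_ifs <;> simp
    simp only [h1, Finset.sum_sub_distrib, Finset.sum_const, Finset.card_univ, Fintype.card_fin,
      nsmul_eq_mul, Finset.sum_ite_eq, Finset.mem_univ, if_true]
    ring
  simp only [h, Finset.sum_const, Finset.card_univ, Fintype.card_fin, nsmul_eq_mul]

theorem dya_cs {f : E3 → ℝ} (hs : tsupport f ⊆ cube 1) : HasCompactSupport f := by
  have hb : Bornology.IsBounded (cube 1) := by
    refine (Metric.isBounded_closedBall (x := (0 : E3)) (r := 2)).subset fun y hy => ?_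
    rw [mem_closedBall_zero_iff, EuclideanSpace.norm_eq]
    rw [Real.sqrt_le_left (by norm_num)]
    have h : ∀ k : Fin 3, ‖y k‖ ^ 2 ≤ 1 := fun k => by
      have := hy k
      rw [Real.norm_eq_abs, sq_abs]
      nlinarith [this.1, this.2]
    calc ∑ k, ‖y k‖ ^ 2 ≤ ∑ k : Fin 3, (1 : ℝ) := Finset.sum_le_sum fun k _ => h k
      _ ≤ 2 ^ 2 := by simp; norm_num
  exact Metric.isCompact_of_isClosed_isBounded (isClosed_tsupport f) (hb.subset hs)

theorem dya_gf {f : E3 → ℝ} (hf : ContDiff ℝ SM f) (hs : HasCompactSupport f) :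
    Integrable (gf f) := by
  have h1 : Continuous (fderiv ℝ f) := hf.continuous_fderiv (by simp)
  have h2 : HasCompactSupport (fderiv ℝ f) := hs.fderiv ℝ
  have h3 : Continuous (gf f) := by
    unfold gf
    fun_prop
  have h4 : HasCompactSupport (gf f) :=
    h2.comp_left (g := fun L : E3 →L[ℝ] ℝ =>
      ∑ k : Fin 3, L (EuclideanSpace.single k (1 : ℝ)) ^ 2) (by simp)
  exact h3.integrable_of_hasCompactSupport h4

/-- TARGET -/
theorem dyson {S : Type} [Fintype S] [DecidableEq S] (D : Species S) (hD : D.Valid) (p q : S)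
    (hp : D.fermion p = false) (hq : D.fermion q = false) (hcp : 0 < D.charge p)
    (hcq : D.charge q < 0) : ¬ HStable D := by
  rintro ⟨A, hA⟩
  have hA1 : ∀ {I : Type} [Fintype I] [DecidableEq I] (sp : I → S) (Ψ : Wave D I),
      IsState D sp 1 Ψ → -A * (Fintype.card I : ℝ) * nrm2 D Ψ ≤ energy D sp Ψ :=
    fun sp Ψ hΨ => stable_any D A hA sp 1 one_pos Ψ hΨ
  set e : Bool → ℝ := fun β => D.charge (if β then p else q) with he
  have e1 : e true = D.charge p := by simp [he]
  have e0 : e false = D.charge q := by simp [he]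
  have hden : 0 < e true - e false := by rw [e1, e0]; linarith
  set w : Bool → ℝ := fun β => if β then -e false / (e true - e false)
    else e true / (e true - e false) with hwdef
  have w1 : w true = -e false / (e true - e false) := by simp [hwdef]
  have w0 : w false = e true / (e true - e false) := by simp [hwdef]
  have hw : ∀ β, 0 ≤ w β := by
    intro β
    cases β
    · rw [w0, e1]; positivity
    · rw [w1]; exact div_nonneg (by rw [e0]; linarith) hden.le
  have hw1 : ∑ β, w β = 1 := by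
    rw [Fintype.sum_bool, w1, w0]
    field_simp
    ring
  have hwe : ∑ β, w β * e β = 0 := by
    rw [Fintype.sum_bool, w1, w0]
    field_simp
    ring
  obtain ⟨s, hsdef⟩ : ∃ s, s = ∑ β, w β * e β ^ 2 := ⟨_, rfl⟩
  have hs : 0 < s := by
    rw [hsdef, Fintype.sum_bool]
    have h1 : 0 < w true * e true ^ 2 := by
      apply mul_pos
      · rw [w1]; exact div_pos (by rw [e0]; linarith) hden
      · rw [e1]; positivity
    have h2 : 0 ≤ w false * e false ^ 2 := mul_nonneg (hw _) (sq_nonneg _)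
    linarith
  obtain ⟨f, hf⟩ := modes
  obtain ⟨T0, hT0⟩ : ∃ T0, T0 = ∫ z : E3 × E3, gf f z.1 * f z.2 ^ 2 := ⟨_, rfl⟩
  obtain ⟨Km, hKm⟩ : ∃ Km, Km = 1 / D.mass p + 1 / D.mass q := ⟨_, rfl⟩
  obtain ⟨M, φ, R, hM, hB⟩ := hf (2 * (2 + s) / s ^ 2 * (A + Km * T0) + 1)
  obtain ⟨G, hG0, hG⟩ := trial D hD p q hp hq R f φ hM A hA1
  -- integrability
  have hfs : HasCompactSupport f := dya_cs hM.support
  have hfc : Continuous f := hM.smooth.continuous
  have hf2 : Integrable (fun y => f y ^ 2) := by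
    have h2 : HasCompactSupport (fun y => f y ^ 2) := hfs.comp_left (g := fun t : ℝ => t ^ 2) (by simp)
    exact (hfc.pow 2).integrable_of_hasCompactSupport h2
  have iZ : ∀ β β', Integrable (KZ f β β') := fun β β' => hf2.mul_prod hf2
  have iT : ∀ β β', Integrable (KT f β β') := fun β β' => (dya_gf hM.smooth hfs).mul_prod hf2
  obtain ⟨iV, lV⟩ := lim_coul R f φ hM w e hw hw1 hwe
  have lZ := lim_fin R f φ hM w e hw hw1 hwe (KZ f) iZ
  have lT := lim_fin R f φ hM w e hw hw1 hwe (KT f) iT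
  rw [← hsdef] at lV lZ lT
  have vZ : ∑ β, ∑ β', w β * w β' * ∫ z, KZ f β β' z = 1 := by
    have h : ∀ β β', ∫ z, KZ f β β' z = 1 := by
      intro β β'
      have := integral_prod_mul (μ := (volume : Measure E3)) (ν := (volume : Measure E3))
        (fun y => f y ^ 2) (fun y => f y ^ 2)
      rw [hM.norm, mul_one] at this
      exact this
    simp only [h, mul_one, ← Finset.mul_sum, hw1]
  have vT : ∑ β, ∑ β', w β * w β' * ∫ z, KT f β β' z = T0 := by
    have h : ∀ β β', ∫ z, KT f β β' z = T0 := by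
      intro β β'
      rw [hT0]
      rfl
    simp only [h, ← Finset.sum_mul, ← Finset.mul_sum, hw1, one_mul, mul_one]
  rw [vZ, mul_one] at lZ
  rw [vT] at lT
  obtain ⟨z, hz⟩ : ∃ z, z = (1 + s / 2) ^ (-((M : ℝ) / 2)) := ⟨_, rfl⟩
  have hz0 : 0 < z := by rw [hz]; positivity
  rw [← hz] at lV lZ lT
  obtain ⟨W, hW⟩ : ∃ W, W = ∑ k, We f (φ k) := ⟨_, rfl⟩
  rw [← hW] at lV hB
  -- real parts
  have lZr : Tendsto (fun N : ℕ => (GG (N - 2) (N : ℝ) w e f φ (KZ f)).re) atTop (𝓝 z) := by
    have := (Complex.continuous_re.tendsto _).comp lZ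
    simpa [Function.comp_def] using this
  have lTr : Tendsto (fun N : ℕ => (GG (N - 2) (N : ℝ) w e f φ (KT f)).re) atTop
      (𝓝 (z * T0)) := by
    have := (Complex.continuous_re.tendsto _).comp lT
    rw [Complex.ofReal_re] at this
    exact this
  have lVr : Tendsto (fun N : ℕ => (N : ℝ) * (GG (N - 2) (N : ℝ) w e f φ (KV e f)).re) atTop
      (𝓝 (-(s ^ 2 / (2 + s)) * z * W)) := by
    have := (Complex.continuous_re.tendsto _).comp lV
    rw [Complex.ofReal_re] at this
    refine this.congr fun N => ?_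
    simp [Function.comp_def, Complex.mul_re]
  have key : ∀ N : ℕ, 2 ≤ N →
      -A * N * (GG (N - 2) (N : ℝ) w e f φ (KZ f)).re ≤
        Km * (N * (GG (N - 2) (N : ℝ) w e f φ (KT f)).re) + G +
        1 / 2 * (N * ((N - 1) * (GG (N - 2) (N : ℝ) w e f φ (KV e f)).re)) := by
    intro N hN
    have hNpos : (0 : ℝ) < N := by exact_mod_cast (by omega : 0 < N)
    have av : ∀ (K : Bool → Bool → E3 × E3 → ℝ) (hK : ∀ β β', Integrable (K β β')) (i j : Fin N),
        i ≠ j → AV (N : ℝ) w e f φ K i j = (GG (N - 2) (N : ℝ) w e f φ K).re := by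
      intro K hK i j hij
      have h := four (N : ℝ) hNpos w e f hfc hfs φ (fun k => (hM.msmooth k).continuous) K hK i j hij
      rw [Fintype.card_fin] at h
      rw [← h, Complex.ofReal_re]
    have hW0 : ∀ b : Fin N → Bool, 0 ≤ ∏ k, w (b k) :=
      fun b => Finset.prod_nonneg fun k _ => hw (b k)
    have hb := fun b : Fin N → Bool => mul_le_mul_of_nonneg_left
      (hG N hN b (fun k => e (b k)) (fun _ => rfl)) (hW0 b)
    have hsum := Finset.sum_le_sum fun (b : Fin N → Bool) (_ : b ∈ Finset.univ) => hb b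
    have i0 : Fin N := ⟨0, by omega⟩
    have hex : ∀ i : Fin N, ∃ j : Fin N, i ≠ j := by
      intro i
      haveI : Nontrivial (Fin N) := Fin.nontrivial_iff_two_le.2 hN
      obtain ⟨j, hj⟩ := exists_ne i
      exact ⟨j, hj.symm⟩
    have hZ : ∑ b : Fin N → Bool, (∏ k, w (b k)) * (∫ x : Fin N → E3,
        Jm (N : ℝ) (fun k => e (b k)) φ x ^ 2 * ∏ k, f (x k) ^ 2) =
        (GG (N - 2) (N : ℝ) w e f φ (KZ f)).re := by
      obtain ⟨j0, hj0⟩ := hex i0
      rw [← av (KZ f) iZ i0 j0 hj0]
      unfold AV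
      refine Finset.sum_congr rfl fun b _ => ?_
      congr 1
      refine integral_congr_ae (Eventually.of_forall fun x => ?_)
      simp only [KZ]
      rw [dya_prod (fun k => f (x k) ^ 2) hj0]
    have hT : ∀ i : Fin N, ∑ b : Fin N → Bool, (∏ k, w (b k)) * (∫ x : Fin N → E3,
        Jm (N : ℝ) (fun k => e (b k)) φ x ^ 2 * (gf f (x i) *
          ∏ k ∈ Finset.univ \ {i}, f (x k) ^ 2)) =
        (GG (N - 2) (N : ℝ) w e f φ (KT f)).re := by
      intro i
      obtain ⟨j, hj⟩ := hex i
      rw [← av (KT f) iT i j hj]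
      unfold AV
      refine Finset.sum_congr rfl fun b _ => ?_
      congr 1
      refine integral_congr_ae (Eventually.of_forall fun x => ?_)
      simp only [KT]
      rw [dya_prod1 (fun k => f (x k) ^ 2) hj]
      ring
    have hV : ∀ i j : Fin N, ∑ b : Fin N → Bool, (∏ k, w (b k)) * (if i = j then 0 else
        ∫ x : Fin N → E3, Jm (N : ℝ) (fun k => e (b k)) φ x ^ 2 * (e (b i) * e (b j) *
          (∏ k, f (x k) ^ 2) / ‖x i - x j‖)) =
        if i = j then 0 else (GG (N - 2) (N : ℝ) w e f φ (KV e f)).re := by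
      intro i j
      split_ifs with hij
      · simp
      · rw [← av (KV e f) iV i j hij]
        unfold AV
        refine Finset.sum_congr rfl fun b _ => ?_
        congr 1
        refine integral_congr_ae (Eventually.of_forall fun x => ?_)
        simp only [KV]
        rw [dya_prod (fun k => f (x k) ^ 2) hij]
        ring
    have eL : ∑ b : Fin N → Bool, (∏ k, w (b k)) * (-A * N * ∫ x : Fin N → E3,
        Jm (N : ℝ) (fun k => e (b k)) φ x ^ 2 * ∏ k, f (x k) ^ 2) =
        -A * N * (GG (N - 2) (N : ℝ) w e f φ (KZ f)).re := by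
      rw [← hZ, Finset.mul_sum]
      refine Finset.sum_congr rfl fun b _ => ?_
      ring
    rw [eL] at hsum
    refine hsum.trans (le_of_eq ?_)
    have eT : ∑ b : Fin N → Bool, (∏ k, w (b k)) * (Km * ∑ i, ∫ x : Fin N → E3,
        Jm (N : ℝ) (fun k => e (b k)) φ x ^ 2 * (gf f (x i) *
          ∏ k ∈ Finset.univ \ {i}, f (x k) ^ 2)) =
        Km * (N * (GG (N - 2) (N : ℝ) w e f φ (KT f)).re) := by
      have h1 : (N : ℝ) * (GG (N - 2) (N : ℝ) w e f φ (KT f)).re =
          ∑ i : Fin N, (GG (N - 2) (N : ℝ) w e f φ (KT f)).re := by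
        simp
      rw [h1, Finset.sum_congr rfl fun i _ => (hT i).symm, Finset.sum_comm, Finset.mul_sum]
      refine Finset.sum_congr rfl fun b _ => ?_
      rw [← Finset.mul_sum]
      ring
    have eV : ∑ b : Fin N → Bool, (∏ k, w (b k)) * (1 / 2 * ∑ i, ∑ j, if i = j then 0 else
        ∫ x : Fin N → E3, Jm (N : ℝ) (fun k => e (b k)) φ x ^ 2 * (e (b i) * e (b j) *
          (∏ k, f (x k) ^ 2) / ‖x i - x j‖)) =
        1 / 2 * (N * ((N - 1) * (GG (N - 2) (N : ℝ) w e f φ (KV e f)).re)) := by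
      rw [← dya_sum, Finset.sum_congr rfl fun i _ => Finset.sum_congr rfl fun j _ => (hV i j).symm]
      rw [Finset.sum_congr rfl fun i _ => Finset.sum_comm, Finset.sum_comm, Finset.mul_sum]
      refine Finset.sum_congr rfl fun b _ => ?_
      simp only [← Finset.mul_sum]
      ring
    have eG : ∑ b : Fin N → Bool, (∏ k, w (b k)) * G = G := by
      rw [← Finset.sum_mul, dya_W w hw1, one_mul]
    rw [← eT, ← eV]
    conv_rhs => rw [← eG]
    rw [← Finset.sum_add_distrib, ← Finset.sum_add_distrib]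
    refine Finset.sum_congr rfl fun b _ => ?_
    rw [hKm]
    ring
  -- the limit
  have lG : Tendsto (fun N : ℕ => G / (N : ℝ)) atTop (𝓝 0) := tendsto_const_div_atTop_nhds_zero_nat G
  have l1 : Tendsto (fun N : ℕ => 1 / (N : ℝ)) atTop (𝓝 0) := tendsto_const_div_atTop_nhds_zero_nat 1
  have lL := lZr.const_mul (-A)
  have l2 : Tendsto (fun N : ℕ => 1 - 1 / (N : ℝ)) atTop (𝓝 (1 - 0)) := tendsto_const_nhds.sub l1
  have lR := ((lTr.const_mul Km).add lG).add (((lVr.mul l2)).const_mul (1 / 2))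
  have hle := le_of_tendsto_of_tendsto lL lR ?_
  · rw [sub_zero, add_zero, mul_one] at hle
    have h1 : 1 / 2 * (s ^ 2 / (2 + s)) * W ≤ A + Km * T0 := by
      have : z * (1 / 2 * (s ^ 2 / (2 + s)) * W) ≤ z * (A + Km * T0) := by linarith
      exact le_of_mul_le_mul_left this hz0
    have h2 : 1 / 2 * (s ^ 2 / (2 + s)) * (2 * (2 + s) / s ^ 2 * (A + Km * T0) + 1) ≤ A + Km * T0 :=
      le_trans (mul_le_mul_of_nonneg_left hB (by positivity)) h1
    have h3 : 1 / 2 * (s ^ 2 / (2 + s)) * (2 * (2 + s) / s ^ 2 * (A + Km * T0) + 1) =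
        A + Km * T0 + 1 / 2 * (s ^ 2 / (2 + s)) := by
      field_simp
    have h4 : 0 < 1 / 2 * (s ^ 2 / (2 + s)) := by positivity
    linarith
  · filter_upwards [eventually_ge_atTop 2] with N hN
    have hNpos : (0 : ℝ) < N := by exact_mod_cast (by omega : 0 < N)
    have h := key N hN
    rw [← mul_le_mul_iff_right₀ hNpos]
    refine le_trans (le_of_eq ?_) (h.trans (le_of_eq ?_))
    · ring
    · field_simp

end Pool.Agent.Helper780_CQ.DY6
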