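import Pool.Agent.Helper780_CQ.GDefs

/-! Weights which follow the particles of one species. -/

set_option autoImplicit false

open MeasureTheory
open scoped Topology

namespace Pool.Agent.Helper780_CQ

open Pool.Agent.Helper985.CP Pool.Agent.Helper780_CP

/-- exponential weight -/
noncomputable def ew (z : E3) : ℝ := Real.exp (-√(1 + ‖z‖ ^ 2))

/-- smeared number of the particles of species `a` near `y` -/
noncomputable def Wa {S I : Type} [DecidableEq S] [Fintype I] (sp : I → S) (a : S) (y : E3)
    (x : I → E3) : ℝ := ∑ i, if sp i = a then ew (x i - y) else 0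

/-- the state weighted with `Wa`, normalised -/
noncomputable def Pw {S I : Type} [DecidableEq S] [Fintype I] [DecidableEq I] (D : Species S) (sp : I → S)
    (a : S) (y : E3) (Ψ : Wave D I) : Wave D I :=
  mulW D (fun x => √(Wa sp a y x) / √(wm D (Wa sp a y) Ψ)) Ψ

open Classical in
/-- Coulomb repulsion between the particles of species `a` near `y` and the particles near them -/
noncomputable def nr {S I : Type} [Fintype I] (sp : I → S) (a : S) (y : E3)
    (x : I → E3) : ℝ :=
  ∑ i, if sp i = a ∧ ‖x i - y‖ ≤ 1 / 2 then
    ∑ j, (if j ≠ i ∧ ‖x j - x i‖ < 1 / 2 then 1 / ‖x j - x i‖ else 0) else 0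

/-- potential at the particle `i` of all other particles -/
noncomputable def ph1 {S : Type} (D : Species S) {I : Type} [Fintype I] [DecidableEq I]
    (sp : I → S) (i : I) (x : I → E3) : ℝ :=
  ∑ j, if i = j then 0 else D.charge (sp j) / ‖x i - x j‖

end Pool.Agent.Helper780_CQ
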