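import Pool.Agent.Helper780_CQ.Rem
import Pool.Agent.Helper780_CQ.DY6
import Pool.Agent.Helper780_CQ.GDefs2
import Pool.Agent.Helper780_CP.Stable
import Pool.Agent.Helper985.CP.Final
import Pool.Agent.Helper985.CT.Final

set_option autoImplicit false

open MeasureTheory
open scoped Topology

namespace Pool.Agent.Helper780_CQ.Fin0

open Pool.Agent.Helper780_CQ.Rem (removal0)
open Pool.Agent.Helper780_CQ.DY6 (dyson)

open Pool.Agent.Helper780_CQ Pool.Agent.Helper780_CP Pool.Agent.Helper985.CP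




/-- the system with all charges reversed -/
def conj {S : Type} (D : Species S) : Species S where
  charge := fun s => -D.charge s
  mass := D.mass
  fermion := D.fermion
  g := D.g
  spin := D.spin

theorem conj_valid {S : Type} (D : Species S) (hD : D.Valid) : (conj D).Valid :=
  ⟨fun s => neg_ne_zero.2 (hD.charge_ne s), hD.mass_pos, hD.spin_nonempty⟩

theorem conj_state {S : Type} (D : Species S) {I : Type} [Fintype I] [DecidableEq I]
    (sp : I → S) (ℓ : ℝ) (Ψ : Wave D I) : IsState (conj D) sp ℓ Ψ ↔ IsState D sp ℓ Ψ :=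
  ⟨fun h => ⟨h.smooth, h.compact, h.support, h.spin, h.symm⟩,
    fun h => ⟨h.smooth, h.compact, h.support, h.spin, h.symm⟩⟩

theorem conj_coul {S : Type} (D : Species S) {I : Type} [Fintype I] [DecidableEq I]
    (sp : I → S) (x : I → E3) : coul (conj D) sp x = coul D sp x := by
  unfold coul conj
  simp only [neg_mul_neg]

theorem conj_energy {S : Type} (D : Species S) {I : Type} [Fintype I] [DecidableEq I]
    (sp : I → S) (Ψ : Wave D I) : energy (conj D) sp Ψ = energy D sp Ψ := by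
  unfold energy
  simp only [conj_coul]
  rfl

theorem conj_energies {S : Type} (D : Species S) {I : Type} [Fintype I] [DecidableEq I]
    (sp : I → S) (ℓ : ℝ) : energies (conj D) sp ℓ = energies D sp ℓ := by
  ext e
  constructor
  · rintro ⟨Ψ, h1, h2, h3⟩
    exact ⟨Ψ, (conj_state D sp ℓ Ψ).1 h1, h2,
      h3.trans (congrArg (fun r => r / nrm2 D Ψ) (conj_energy D sp Ψ))⟩
  · rintro ⟨Ψ, h1, h2, h3⟩
    exact ⟨Ψ, (conj_state D sp ℓ Ψ).2 h1, h2,
      h3.trans (congrArg (fun r => r / nrm2 D Ψ) (conj_energy D sp Ψ)).symm⟩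

theorem conj_ground {S : Type} [Fintype S] [DecidableEq S] (D : Species S) (ℓ : ℝ)
    (n : S → ℕ) : groundEnergy (conj D) ℓ n = groundEnergy D ℓ n := by
  unfold groundEnergy
  rw [conj_energies]

/-- removal of a pair from the ground state when the negative species are fermions -/
theorem lower_neg {S : Type} [Fintype S] [DecidableEq S] (D : Species S) (hD : D.Valid)
    (hf : ∀ s, D.charge s < 0 → D.fermion s = true) (a b : S)
    (hb : D.charge b = -D.charge a) (ρ : ℝ) (hρ : 0 < ρ) :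
    ∃ C : ℝ, ∀ n : S → ℕ, 1 ≤ ∑ s, (n s : ℝ) → ∑ s, (n s : ℝ) * D.charge s = 0 →
      groundEnergy D (((∑ s, (n s : ℝ)) / ρ) ^ (1 / 3 : ℝ)) n ≤
        groundEnergy D (((∑ s, (n s : ℝ)) / ρ) ^ (1 / 3 : ℝ)) (addPair n a b) + C := by
  classical
  obtain ⟨C, ℓ0, hC, H⟩ := removal0 D hD hf (3 * ρ) (by positivity) a b hb
  obtain ⟨K, hK⟩ := exists_nat_gt (ρ * (max ℓ0 0) ^ 3)
  obtain ⟨C2, hC2⟩ : ∃ C2 : ℝ, C2 = ∑ m ∈ Fintype.piFinset (fun _ : S => Finset.range K),
      |groundEnergy D (((∑ s, (m s : ℝ)) / ρ) ^ (1 / 3 : ℝ)) m -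
        groundEnergy D (((∑ s, (m s : ℝ)) / ρ) ^ (1 / 3 : ℝ)) (addPair m a b)| := ⟨_, rfl⟩
  have hC20 : 0 ≤ C2 := by
    rw [hC2]
    exact Finset.sum_nonneg fun _ _ => abs_nonneg _
  refine ⟨C + C2, fun n hn hneu => ?_⟩
  obtain ⟨ℓ, hℓ⟩ : ∃ ℓ : ℝ, ℓ = ((∑ s, (n s : ℝ)) / ρ) ^ (1 / 3 : ℝ) := ⟨_, rfl⟩
  have hℓ3 : ℓ ^ 3 = (∑ s, (n s : ℝ)) / ρ := by
    rw [hℓ]
    exact side_cube _ ρ (by linarith) hρ
  have hℓn : 0 ≤ ℓ := by
    rw [hℓ]
    have : 0 ≤ (∑ s, (n s : ℝ)) / ρ := by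
      have : 0 ≤ ∑ s, (n s : ℝ) := by linarith
      positivity
    positivity
  have hN : ∑ s, (n s : ℝ) = ρ * ℓ ^ 3 := by
    rw [hℓ3]
    field_simp
  by_cases hlarge : ℓ0 ≤ ℓ
  · have hcard : (Fintype.card (Σ s, Fin (addPair n a b s)) : ℝ) = ∑ s, (n s : ℝ) + 2 := by
      rw [card_sigma, sum_addPair]
    have h1 := H (fun i : (Σ s, Fin (addPair n a b s)) => i.1)
      (fun i : (Σ s, Fin (n s)) => i.1) ℓ hlarge (by rw [hcard]; nlinarith) ?_ ?_
    · rw [← hℓ]
      unfold groundEnergy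
      linarith
    · rw [Fintype.sum_sigma]
      simp only [Finset.sum_const, Finset.card_univ, Fintype.card_fin, nsmul_eq_mul,
        addPair_apply]
      push_cast
      simp only [add_mul, ite_mul, one_mul, zero_mul, Finset.sum_add_distrib,
        Finset.sum_ite_eq', Finset.mem_univ, if_true, hneu, hb]
      ring
    · intro s
      rw [cnt_sigma, cnt_sigma, addPair_apply]
  · push Not at hlarge
    have hsmall : ∀ s, n s < K := by
      intro s
      have h1 : (n s : ℝ) ≤ ∑ t, (n t : ℝ) :=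
        Finset.single_le_sum (f := fun t => (n t : ℝ)) (fun t _ => Nat.cast_nonneg _)
          (Finset.mem_univ s)
      have h2 : ρ * ℓ ^ 3 ≤ ρ * (max ℓ0 0) ^ 3 := by
        refine mul_le_mul_of_nonneg_left ?_ hρ.le
        exact pow_le_pow_left₀ hℓn (hlarge.le.trans (le_max_left _ _)) 3
      have h3 : (n s : ℝ) < K := by linarith
      exact_mod_cast h3
    have hmem : n ∈ Fintype.piFinset (fun _ : S => Finset.range K) := by
      rw [Fintype.mem_piFinset]
      intro s
      exact Finset.mem_range.2 (hsmall s)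
    have h1 : |groundEnergy D (((∑ s, (n s : ℝ)) / ρ) ^ (1 / 3 : ℝ)) n -
        groundEnergy D (((∑ s, (n s : ℝ)) / ρ) ^ (1 / 3 : ℝ)) (addPair n a b)| ≤ C2 := by
      rw [hC2]
      exact Finset.single_le_sum (f := fun m : S → ℕ =>
        |groundEnergy D (((∑ s, (m s : ℝ)) / ρ) ^ (1 / 3 : ℝ)) m -
        groundEnergy D (((∑ s, (m s : ℝ)) / ρ) ^ (1 / 3 : ℝ)) (addPair m a b)|)
        (fun _ _ => abs_nonneg _) hmem
    have h2 := (abs_le.1 h1).2
    linarith

/-- in a stable system the species of one sign of the charge are all fermions -/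
theorem stable_sign {S : Type} [Fintype S] [DecidableEq S] (D : Species S) (hD : D.Valid)
    (hst : HStable D) : (∀ s, D.charge s < 0 → D.fermion s = true) ∨
      (∀ s, 0 < D.charge s → D.fermion s = true) := by
  by_contra hcon
  push Not at hcon
  obtain ⟨⟨q, hq, hq1⟩, ⟨p, hp, hp1⟩⟩ := hcon
  exact dyson D hD p q (by simpa using hp1) (by simpa using hq1) hp hq hst

/-- removal of a pair from the ground state -/
theorem lower_all {S : Type} [Fintype S] [DecidableEq S] (D : Species S) (hD : D.Valid)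
    (hst : HStable D) (a b : S) (hb : D.charge b = -D.charge a) (ρ : ℝ) (hρ : 0 < ρ) :
    ∃ C : ℝ, ∀ n : S → ℕ, 1 ≤ ∑ s, (n s : ℝ) → ∑ s, (n s : ℝ) * D.charge s = 0 →
      groundEnergy D (((∑ s, (n s : ℝ)) / ρ) ^ (1 / 3 : ℝ)) n ≤
        groundEnergy D (((∑ s, (n s : ℝ)) / ρ) ^ (1 / 3 : ℝ)) (addPair n a b) + C := by
  rcases stable_sign D hD hst with hf | hf
  · exact lower_neg D hD hf a b hb ρ hρ
  · obtain ⟨C, hC⟩ := lower_neg (conj D) (conj_valid D hD)
      (fun s hs => hf s (by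
        have : -D.charge s < 0 := hs
        linarith)) a b (by show -D.charge b = - -D.charge a; rw [hb]) ρ hρ
    refine ⟨C, fun n hn hneu => ?_⟩
    have h1 := hC n hn (by
      have : ∑ s, (n s : ℝ) * (conj D).charge s = -∑ s, (n s : ℝ) * D.charge s := by
        rw [← Finset.sum_neg_distrib]
        refine Finset.sum_congr rfl fun s _ => ?_
        show (n s : ℝ) * -D.charge s = _
        ring
      rw [this, hneu, neg_zero])
    rw [conj_ground, conj_ground] at h1
    exact h1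

/-- insertion of a neutral pair, ground states -/
theorem ground_all {S : Type} [Fintype S] [DecidableEq S] (D : Species S) (hD : D.Valid)
    (hst : HStable D) (a b : S) (hb : D.charge b = -D.charge a) (ρ : ℝ) (hρ : 0 < ρ) :
    ∃ C : ℝ, ∀ n : S → ℕ, 1 ≤ ∑ s, (n s : ℝ) → ∑ s, (n s : ℝ) * D.charge s = 0 →
      |groundEnergy D (((∑ s, (n s : ℝ)) / ρ) ^ (1 / 3 : ℝ)) (addPair n a b) -
        groundEnergy D (((∑ s, (n s : ℝ)) / ρ) ^ (1 / 3 : ℝ)) n| ≤ C := by
  obtain ⟨C1, h1⟩ := upper_final D hD hst a b hb ρ hρ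
  obtain ⟨C2, h2⟩ := lower_all D hD hst a b hb ρ hρ
  refine ⟨max C1 C2, fun n hn hneu => ?_⟩
  have k1 := h1 n hn
  have k2 := h2 n hn hneu
  rw [abs_le]
  have m1 := le_max_left C1 C2
  have m2 := le_max_right C1 C2
  constructor <;> linarith

end Pool.Agent.Helper780_CQ.Fin0
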