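import Pool.Agent.Helper780_CQ.GL2
import Pool.Agent.Helper780_CQ.GLAW
import Pool.Agent.Helper780_CP.BSet

set_option autoImplicit false

open MeasureTheory
open scoped Topology

namespace Pool.Agent.Helper780_CQ.GBS

open Pool.Agent.Helper985.CP Pool.Agent.Helper780_CP Pool.Agent.Helper780_CQ

/-- the setting near the walls at zero temperature -/
theorem bsG {S : Type} [Fintype S] [DecidableEq S] (D : Species S) (hD : D.Valid)
    (hf : ∀ s, D.charge s < 0 → D.fermion s = true) (ρ : ℝ) (hρ : 0 ≤ ρ) (K : ℝ)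
    (hK0 : 0 ≤ K) : ∃ C : ℝ, 0 < C ∧
    ∀ {I : Type} [Fintype I] [DecidableEq I] (sp : I → S) (ℓ : ℝ), 1000 ≤ ℓ →
      (Fintype.card I : ℝ) ≤ ρ * ℓ ^ 3 → (∑ i, D.charge (sp i) = 0) → ∀ η : ℝ, 0 ≤ η →
      η * (1 + (Fintype.card I : ℝ)) ^ 3 ≤ 1 →
      ∀ Ψ : Wave D I, NG D sp ℓ K η Ψ →
      BS D sp ℓ C η (fun _ : Fin 1 => 1) (fun _ => Ψ) := by
  have hst := hstable D hD hf
  obtain ⟨cm, hcm0, hcm⟩ := exists_cm D hD
  obtain ⟨z, hz0, hz⟩ : ∃ z : ℝ, 0 ≤ z ∧ ∀ s, |D.charge s| ≤ z := by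
    refine ⟨∑ s, |D.charge s|, Finset.sum_nonneg fun s _ => abs_nonneg _, fun s => ?_⟩
    exact Finset.single_le_sum (f := fun s => |D.charge s|) (fun t _ => abs_nonneg _)
      (Finset.mem_univ s)
  obtain ⟨K₁, C₁, hK₁, hC₁, hRB⟩ := RC2.ren_ball z hz0
  have hRB' : RB z K₁ C₁ := fun c x χ h1 h2 h3 => hRB c x χ h1 h2 h3
  obtain ⟨F, hF2, hF⟩ := cover12
  obtain ⟨a, b, l, hK⟩ := RK0.ker_exists
  obtain ⟨CE, hCE, HLN⟩ := GL2.LN_of_NG D hD hst ρ hρ K hK0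
  obtain ⟨CL, m, hCL, HL⟩ := GLAW.lawG D hD hf z cm K₁ C₁ hcm0
    (fun s => ⟨hcm s, hz s⟩) hK₁ hC₁ hRB' F hF hF2 a b l hK CE hCE
  obtain ⟨CI, hCI, HI⟩ := bs_int D hD hf z cm K₁ C₁ hcm0
    (fun s => ⟨hcm s, hz s⟩) hK₁ hC₁ hRB' F hF hF2 CL hCL.le m
  obtain ⟨CF, hCF, hCFe⟩ : ∃ CF : ℝ, 0 < CF ∧ CF = CE := ⟨CE, hCE, rfl⟩
  refine ⟨ρ + CI + 2 * CE + CF, by positivity, ?_⟩
  intro I _ _ sp ℓ hℓ hcard hneu η hη hη1 Ψ hNG
  have hΨ := hNG.state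
  have hn := hNG.nrm
  have h4 : 4 ≤ ℓ := by linarith
  have hN0 : (0 : ℝ) ≤ Fintype.card I := Nat.cast_nonneg _
  have hη2 : η * (1 + (Fintype.card I : ℝ)) ^ 2 ≤ 1 := by
    refine le_trans (mul_le_mul_of_nonneg_left ?_ hη) hη1
    exact pow_le_pow_right₀ (by linarith) (by norm_num)
  have hLN := HLN sp ℓ h4 hcard hneu η hη Ψ hNG
  have hη3 : (1 + (Fintype.card I : ℝ)) * η ≤ 1 := by
    rw [mul_comm]
    refine le_trans (mul_le_mul_of_nonneg_left ?_ hη) hη1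
    calc (1 + (Fintype.card I : ℝ)) = (1 + (Fintype.card I : ℝ)) ^ 1 := (pow_one _).symm
      _ ≤ _ := pow_le_pow_right₀ (by linarith) (by norm_num)
  refine ⟨fun _ => hΨ, fun _ => hn, fun _ => zero_le_one, by simp, hneu, ?_, hℓ, hη, hη1, ?_, ?_, ?_⟩
  · have : 0 ≤ (CI + 2 * CE + CF) * ℓ ^ 3 := by positivity
    linarith
  · intro y
    have h1 := hLN.le y 1 one_pos le_rfl
    have h2 : 0 ≤ klc D sp y 1 Ψ := by
      obtain ⟨CN, hCN, HN⟩ := RNL.num_law D hD hf z cm K₁ C₁ hcm0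
        (fun s => ⟨hcm s, hz s⟩) hK₁ hC₁ hRB' F hF
      exact (HN sp ℓ Ψ hΨ hn y 1 one_pos le_rfl).1
    have h3 := wm_nb_pow D sp ℓ Ψ hΨ y
    have h5 : 0 ≤ wm D (fun x => nb y 2 x ^ ((4 : ℝ) / 3)) Ψ :=
      RQ10.wm_nonneg fun x => Real.rpow_nonneg (RQ10.nb_nonneg y 2 x) _
    rw [wx_one, wx_one]
    rw [Fin.sum_univ_one, one_mul]
    have h6 : wm D (fun x => (∑ i, cy y 1 (x i) ^ 2 * ∑ j, if i = j then 0 else
              D.charge (sp i) * D.charge (sp j) / ‖x i - x j‖) -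
            phb D sp ℓ x * ∑ i, D.charge (sp i) * cy y 1 (x i) ^ 2) Ψ =
        wm D (tq D sp ℓ (fun v => cy y 1 v ^ 2)) Ψ := rfl
    rw [h6, mul_one] at h1
    have h7 : CE / 1 ^ 2 * wm D (nb y 2) Ψ ≤ CE * wm D (fun x => nb y 2 x ^ ((4 : ℝ) / 3)) Ψ := by
      rw [one_pow, div_one]
      exact mul_le_mul_of_nonneg_left h3 hCE.le
    have h8 : CE * (1 + (Fintype.card I : ℝ)) * η ≤ CE := by
      calc CE * (1 + (Fintype.card I : ℝ)) * η = CE * ((1 + (Fintype.card I : ℝ)) * η) := by ring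
        _ ≤ CE * 1 := mul_le_mul_of_nonneg_left hη3 hCE.le
        _ = CE := mul_one _
    have h9 : 0 ≤ (ρ + CI + CF) * (1 + wm D (fun x => nb y 2 x ^ ((4 : ℝ) / 3)) Ψ) := by
      positivity
    have h10 : 0 ≤ CE * wm D (fun x => nb y 2 x ^ ((4 : ℝ) / 3)) Ψ := by positivity
    linarith
  · intro ω f B hω hfs hfy hfB
    have h1 := hLN.fl 1 ω f B one_pos le_rfl hω hfs hfy hfB
    rw [← hCFe] at h1
    rw [wx_one, wx_one, wx_one, wx_one]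
    have h2 : 0 ≤ wm D (fun x => f x ^ 2 * (1 + near2 ω x)) Ψ :=
      RQ10.wm_nonneg fun x => mul_nonneg (sq_nonneg _)
        (add_nonneg zero_le_one (Real.iSup_nonneg fun i => by positivity))
    have h3 : 0 ≤ wm D (gr f) Ψ := RQ10.wm_nonneg fun x => by
      unfold gr
      positivity
    have h4 : 0 ≤ wm D (fun x => f x ^ 2 * (f x ^ 2) ^ ((1 : ℝ) / 4)) Ψ :=
      RQ10.wm_nonneg fun x => by positivity
    have h5 : 0 ≤ B ^ 2 * η := by positivity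
    rw [one_pow, div_one] at h1
    refine h1.trans ?_
    have h6 : CF * (wm D (fun x => f x ^ 2 * (1 + near2 ω x)) Ψ + wm D (gr f) Ψ + B ^ 2 * η) ≤
        CF * (wm D (fun x => f x ^ 2 * (1 + near2 ω x)) Ψ + wm D (gr f) Ψ +
          wm D (fun x => f x ^ 2 * (f x ^ 2) ^ ((1 : ℝ) / 4)) Ψ + 1 + B ^ 2 * η) :=
      mul_le_mul_of_nonneg_left (by linarith) hCF.le
    refine h6.trans (mul_le_mul_of_nonneg_right (by linarith) (by linarith))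
  · intro y hy
    have h1 := HI sp ℓ (fun _ : Fin 1 => (1 : ℝ)) (fun _ => Ψ) (fun _ => hΨ) (fun _ => hn)
      (fun _ => zero_le_one) (by simp) (fun y r hr hr1 hy => by
        have := (HL sp ℓ h4 η hη hη2 Ψ hΨ hn hLN y r hr hr1 hy).2
        simpa using this) y hy
    exact ⟨h1.1.trans (by linarith), h1.2.trans (by linarith)⟩


end Pool.Agent.Helper780_CQ.GBS
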