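import Pool.Agent.Helper780_CP.BnDefs

/-! Near minimal states with weights. -/

set_option autoImplicit false

open MeasureTheory
open scoped Topology

namespace Pool.Agent.Helper780_CQ

open Pool.Agent.Helper985.CP Pool.Agent.Helper780_CP

/-- near minimal states with weights -/
structure NG {S : Type} (D : Species S) {I : Type} [Fintype I] [DecidableEq I] (sp : I → S)
    (ℓ K η : ℝ) (Ψ : Wave D I) : Prop where
  state : IsState D sp ℓ Ψ
  nrm : nrm2 D Ψ = 1
  near : ∀ (f : (I → E3) → ℝ) (B : ℝ), ContDiff ℝ SM f → Sy sp f → (∀ x, |f x| ≤ B) →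
    energy D sp (mulW D f Ψ) ≤ sInf (energies D sp ℓ) * nrm2 D (mulW D f Ψ) +
      K * (wm D (gr f) Ψ + nrm2 D (mulW D f Ψ) + B ^ 2 * η)

/-- flatness of the potential and the bound for the local energy -/
structure LN {S : Type} (D : Species S) {I : Type} [Fintype I] [DecidableEq I] (sp : I → S)
    (ℓ C η : ℝ) (Ψ : Wave D I) : Prop where
  fl : FL D sp ℓ (phb D sp ℓ) C η Ψ
  le : ∀ (y : E3) (r : ℝ), 0 < r → r ≤ 1 →
    1 / 2 * klc D sp y r Ψ +
      wm D (fun x => (∑ i, cy y r (x i) ^ 2 * ∑ j, if i = j then 0 else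
          D.charge (sp i) * D.charge (sp j) / ‖x i - x j‖) -
        phb D sp ℓ x * ∑ i, D.charge (sp i) * cy y r (x i) ^ 2) Ψ ≤
    C / r ^ 2 * wm D (nb y (2 * r)) Ψ + C * (1 + (Fintype.card I : ℝ)) * η + C

end Pool.Agent.Helper780_CQ
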