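import Pool.Agent.Helper780_CQ.GDefs
import Pool.Agent.Helper780_CP.RL1

set_option autoImplicit false

open MeasureTheory

namespace Pool.Agent.Helper780_CQ.GL1

open Pool.Agent.Helper780_CP Pool.Agent.Helper780_CQ
open Pool.Agent.Helper985.CP
open Pool.Agent.Helper780_CP.RVB (vb_props)
open Pool.Agent.Helper780_CP.RL0 (mulW_stateS)
open Pool.Agent.Helper780_CP.RL1

/-- TARGET -/
theorem FL_NG {S : Type} [Fintype S] [DecidableEq S] (D : Species S) (hD : D.Valid)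
    (hst : HStable D) (ρ : ℝ) (hρ : 0 ≤ ρ) (C₂ : ℝ) (hC₂ : 0 ≤ C₂) : ∃ C : ℝ, 0 < C ∧
    ∀ {I : Type} [Fintype I] [DecidableEq I] (sp : I → S) (ℓ : ℝ), 4 ≤ ℓ →
      (Fintype.card I : ℝ) ≤ ρ * ℓ ^ 3 → (∑ i, D.charge (sp i) = 0) → ∀ η : ℝ, 0 ≤ η →
      ∀ Ψ : Wave D I, NG D sp ℓ C₂ η Ψ →
      FL D sp ℓ (phb D sp ℓ) C η Ψ := by
  obtain ⟨C₁, hC₁, H₁⟩ := move0C D hD
  obtain ⟨A, hA⟩ := id hst
  have hAA : ∀ {J : Type} [Fintype J] [DecidableEq J] (sp' : J → S) (ℓ : ℝ), 0 < ℓ →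
      ∀ (Ψ : Wave D J), IsState D sp' ℓ Ψ →
      -|A| * (Fintype.card J : ℝ) * nrm2 D Ψ ≤ energy D sp' Ψ := by
    intro J _ _ sp' ℓ hℓ Ψ hΨ
    refine le_trans ?_ (stable_any D A hA sp' ℓ hℓ Ψ hΨ)
    have := nrm2_nn D Ψ
    have h2 := le_abs_self A
    have h3 : (0 : ℝ) ≤ (Fintype.card J : ℝ) * nrm2 D Ψ := by positivity
    nlinarith
  obtain ⟨cm, hcm⟩ : ∃ cm, cm = ∑ s, |D.charge s|⁻¹ := ⟨_, rfl⟩
  have hcm1 : ∀ s, |D.charge s|⁻¹ ≤ cm := by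
    intro s
    rw [hcm]
    exact Finset.single_le_sum (f := fun s => |D.charge s|⁻¹) (fun t _ => by positivity)
      (Finset.mem_univ s)
  have hcm0 : 0 ≤ cm := by rw [hcm]; exact Finset.sum_nonneg fun t _ => by positivity
  obtain ⟨κ, hκ⟩ : ∃ κ, κ = ∫ z, kk z := ⟨_, rfl⟩
  have hκ0 : 0 ≤ κ := by rw [hκ]; exact integral_nonneg kk_nonneg
  obtain ⟨n, hn⟩ : ∃ n : ℝ, n = (Fintype.card S : ℝ) := ⟨_, rfl⟩
  have hn0 : 0 ≤ n := by rw [hn]; exact Nat.cast_nonneg _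
  obtain ⟨m, hm⟩ : ∃ m : ℝ, m = cm * (1 + n) := ⟨_, rfl⟩
  have hm0 : 0 ≤ m := by rw [hm]; positivity
  obtain ⟨q, hq⟩ : ∃ q : ℝ, q = cm * n * (4 * |A|) := ⟨_, rfl⟩
  have hq0 : 0 ≤ q := by rw [hq]; positivity
  refine ⟨2 * m * C₂ + (m * C₁ + 2 * q + 4 * (m * C₁) + 32 * (m * C₁) * (1 + κ * ρ)) + 1,
    by positivity, ?_⟩
  intro I _ _ sp ℓ hℓ hcard hneu η hη Ψ hNG r ω f B hr hr1 hball hf hfs hfB
  have hΨ := hNG.state
  have hn1 := hNG.nrm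
  have hℓ0 : 0 < ℓ := by linarith
  -- the state
  obtain ⟨Φ, hΦe⟩ : ∃ Φ, Φ = mulW D f Ψ := ⟨_, rfl⟩
  have hΦ : IsState D sp ℓ Φ := by
    rw [hΦe]
    exact mulW_stateS D sp ℓ Ψ hΨ f hf hfs
  have hN := nrm2_nn D Φ
  have hw0 : 0 ≤ wm D (near2 ω) Φ := wm_nn D _ (near2_nonneg ω) Φ
  have hgr0 : 0 ≤ wm D (gr f) Ψ := wm_nn D _ (fun x => by unfold gr; positivity) Ψ
  have hWphi : WI D sp ℓ (phi D sp ω) := WI_phi D sp ℓ ω
  have hWphb := WI_phb D sp ℓ hℓ0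
  have e1 : wm D (fun x => f x ^ 2 * (phi D sp ω x - phb D sp ℓ x)) Ψ =
      phim D sp Φ ω - wm D (phb D sp ℓ) Φ := by
    rw [← wm_mulW D (fun x => phi D sp ω x - phb D sp ℓ x) f Ψ, ← hΦe]
    have h1 : (fun x => phi D sp ω x - phb D sp ℓ x) =
        fun x => phi D sp ω x + (-1) * phb D sp ℓ x := by
      funext x
      ring
    rw [h1, wm_add D sp ℓ hWphi (WI_smul D sp ℓ hWphb (-1)) Φ hΦ, wm_smul]
    have h2 : wm D (phi D sp ω) Φ = phim D sp Φ ω := rfl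
    rw [h2]
    ring
  have e2 : wm D (fun x => f x ^ 2 * (1 + near2 ω x)) Ψ = nrm2 D Φ + wm D (near2 ω) Φ := by
    rw [← wm_mulW D (fun x => 1 + near2 ω x) f Ψ, ← hΦe,
      wm_add D sp ℓ (WI_const D sp ℓ 1) (WI_near2 D sp ℓ ω) Φ hΦ, wm_one]
  rw [e1, e2]
  obtain ⟨Y, hY⟩ : ∃ Y, Y = wm D (gr f) Ψ + B ^ 2 * η := ⟨_, rfl⟩
  have hY0 : 0 ≤ Y := by rw [hY]; positivity
  have e3 : nrm2 D Φ + wm D (near2 ω) Φ + wm D (gr f) Ψ + B ^ 2 * η =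
      (nrm2 D Φ + wm D (near2 ω) Φ) + Y := by rw [hY]; ring
  rw [e3]
  have hr2 : 1 ≤ 1 / r ^ 2 := by
    rw [le_div_iff₀ (by positivity), one_mul]
    exact pow_le_one₀ hr.le hr1
  rcases isEmpty_or_nonempty I with hI | hI
  · have h1 : phim D sp Φ ω = 0 := by
      unfold phim mean
      simp
    have h2 : wm D (phb D sp ℓ) Φ = 0 := by
      unfold wm phb
      simp
    rw [h1, h2, sub_zero, abs_zero]
    positivity
  obtain ⟨i0, hi0⟩ := exists_abundant sp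
  obtain ⟨-, -, hE, -⟩ := energies_basic D hD hst sp ℓ hℓ0
  obtain ⟨G, hG⟩ : ∃ G, G = energy D sp Φ - sInf (energies D sp ℓ) * nrm2 D Φ := ⟨_, rfl⟩
  have hG0 : 0 ≤ G := by
    have := hE Φ hΦ
    rw [hG]
    linarith
  have hG1 : G ≤ C₂ * (Y + nrm2 D Φ) := by
    have := hNG.near f B hf hfs hfB
    rw [← hΦe] at this
    rw [hG, hY]
    linarith
  have hstab : -(4 * |A| * nrm2 D Φ) * (Fintype.card I : ℝ) ≤ ∑ i, pe D sp i Φ := by
    have := sum_pe D |A| sp (fun ℓ hℓ Φ hΦ => hAA sp ℓ hℓ Φ hΦ) ℓ hℓ0 Φ hΦ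
    refine le_trans (le_of_eq ?_) this
    ring
  have hc := hD.charge_ne (sp i0)
  -- pointwise closeness
  have hpt : ∀ δ : ℝ, 0 < δ → δ ≤ 1 → ∀ y, Metric.closedBall y δ ⊆ cube ℓ →
      |phim D sp Φ y - pe D sp i0 Φ / D.charge (sp i0)| ≤
        m * (G + C₁ / δ ^ 2 * (nrm2 D Φ + wm D (near2 y) Φ)) + q * nrm2 D Φ := by
    intro δ hδ hδ1 y hy
    have hwy : 0 ≤ wm D (near2 y) Φ := wm_nn D _ (near2_nonneg y) Φ
    obtain ⟨K, hK⟩ : ∃ K, K = G + C₁ / δ ^ 2 * (nrm2 D Φ + wm D (near2 y) Φ) := ⟨_, rfl⟩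
    have hK0 : 0 ≤ K := by rw [hK]; positivity
    have hmove : ∀ i, pe D sp i Φ ≤ D.charge (sp i) * phim D sp Φ y + K := by
      intro i
      have h1 := H₁ δ hδ hδ1 sp ℓ y hy (sInf (energies D sp ℓ)) _ hE i
        (rest_lower D sp ℓ |A| (fun sp' Φ hΦ => hAA sp' ℓ hℓ0 Φ hΦ) i) Φ hΦ
      rw [hK, hG]
      linarith
    have hcore := flat_core sp i0 hi0 D.charge hneu (fun i => pe D sp i Φ)
      (fun i hi => (pe_symm D sp ℓ Φ hΦ i i0 hi).1) (phim D sp Φ y) K (4 * |A| * nrm2 D Φ)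
      hstab hmove hK0 (by positivity)
    have e4 : phim D sp Φ y - pe D sp i0 Φ / D.charge (sp i0) =
        (D.charge (sp i0))⁻¹ * (D.charge (sp i0) * phim D sp Φ y - pe D sp i0 Φ) := by
      field_simp
    rw [e4, abs_mul, abs_inv, ← hK]
    rw [← hn] at hcore
    calc |D.charge (sp i0)|⁻¹ * |D.charge (sp i0) * phim D sp Φ y - pe D sp i0 Φ|
        ≤ cm * (K + n * (K + 4 * |A| * nrm2 D Φ)) :=
          mul_le_mul (hcm1 _) hcore (abs_nonneg _) hcm0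
      _ = m * K + q * nrm2 D Φ := by
          rw [hm, hq]
          ring
  have hω := hpt r hr hr1 ω hball
  have hic : ∀ y ∈ icb ℓ, |phim D sp Φ y - pe D sp i0 Φ / D.charge (sp i0)| ≤
      (m * (G + 4 * C₁ * nrm2 D Φ) + q * nrm2 D Φ) + (4 * (m * C₁)) * wm D (near2 y) Φ := by
    intro y hy
    have hsub : Metric.closedBall y (1 / 2) ⊆ cube ℓ := by
      intro z hz k
      rw [Metric.mem_closedBall, dist_eq_norm] at hz
      have h1 : |z k - y k| ≤ 1 / 2 := by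
        have := EuclideanSpace.norm_eq (z - y)
        have h2 : ‖(z - y) k‖ ≤ ‖z - y‖ := PiLp.norm_apply_le (z - y) k
        rw [PiLp.sub_apply, Real.norm_eq_abs] at h2
        linarith
      rw [abs_le] at h1
      have := hy k
      constructor <;> linarith
    have := hpt (1 / 2) (by norm_num) (by norm_num) y hsub
    refine this.trans (le_of_eq ?_)
    ring
  have hav := avg_close D sp ℓ hℓ0 κ hκ ρ hcard Φ hΦ _ _ _ (by positivity) hic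
  obtain ⟨N, hNe⟩ : ∃ N, N = nrm2 D Φ := ⟨_, rfl⟩
  obtain ⟨w, hwe⟩ : ∃ w, w = wm D (near2 ω) Φ := ⟨_, rfl⟩
  obtain ⟨R, hR⟩ : ∃ R, R = 1 / r ^ 2 := ⟨_, rfl⟩
  rw [← hNe, ← hwe] at hω
  rw [← hNe] at hav
  rw [← hNe, ← hwe]
  rw [← hNe] at hN
  rw [← hwe] at hw0
  rw [← hNe] at hG1
  rw [← hR] at hr2
  have e5 : C₁ / r ^ 2 = C₁ * R := by rw [hR]; ring
  rw [e5] at hω
  rw [div_eq_mul_one_div, ← hR]
  have htri : |phim D sp Φ ω - wm D (phb D sp ℓ) Φ| ≤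
      |phim D sp Φ ω - pe D sp i0 Φ / D.charge (sp i0)| +
      |wm D (phb D sp ℓ) Φ - pe D sp i0 Φ / D.charge (sp i0)| := by
    have h1 : phim D sp Φ ω - wm D (phb D sp ℓ) Φ =
      (phim D sp Φ ω - pe D sp i0 Φ / D.charge (sp i0)) -
      (wm D (phb D sp ℓ) Φ - pe D sp i0 Φ / D.charge (sp i0)) := by ring
    rw [h1]
    exact abs_sub _ _
  refine htri.trans ((add_le_add hω hav).trans ?_)
  -- bookkeeping
  have hR0 : 0 ≤ R := by linarith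
  have b1 : m * G ≤ m * (C₂ * Y) + m * (C₂ * N) := by
    have := mul_le_mul_of_nonneg_left hG1 hm0
    linarith
  have b2 : m * (C₂ * Y) ≤ R * (m * (C₂ * Y)) := by
    have : 0 ≤ m * (C₂ * Y) := by positivity
    exact le_mul_of_one_le_left this hr2
  have hX0 : 0 ≤ N + w := by linarith
  have b3 : N ≤ R * (N + w) :=
    (show N ≤ N + w by linarith).trans (le_mul_of_one_le_left hX0 hr2)
  have b11 : m * (C₂ * N) ≤ (m * C₂) * (R * (N + w)) := by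
    have := mul_le_mul_of_nonneg_left b3 (show 0 ≤ m * C₂ by positivity)
    linarith
  have hmC : 0 ≤ m * C₁ := by positivity
  have hk : 0 ≤ 1 + κ * ρ := by positivity
  have b4 : q * N ≤ q * (R * (N + w)) := mul_le_mul_of_nonneg_left b3 hq0
  have b5 : (m * C₁) * N ≤ (m * C₁) * (R * (N + w)) := mul_le_mul_of_nonneg_left b3 hmC
  have b6 : (32 * (m * C₁) * (1 + κ * ρ)) * N ≤ (32 * (m * C₁) * (1 + κ * ρ)) * (R * (N + w)) :=
    mul_le_mul_of_nonneg_left b3 (by positivity)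
  have b7 : 0 ≤ R * (N + w) := by positivity
  have b8 : 0 ≤ R * Y := by positivity
  have b9 : 0 ≤ (m * C₁ + 2 * q + 4 * (m * C₁) + 32 * (m * C₁) * (1 + κ * ρ)) * (R * Y) := by
    positivity
  have b10 : 0 ≤ (2 * m * C₂) * (R * (N + w)) := by positivity
  linarith [b1, b2, b11, b4, b5, b6, b7, b8, b9, b10]

end Pool.Agent.Helper780_CQ.GL1
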