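import Pool.Agent.Helper780_CQ.GDefs
import Pool.Agent.Helper780_CP.RL2c
import Pool.Agent.Helper780_CQ.GL1

set_option autoImplicit false

open MeasureTheory

namespace Pool.Agent.Helper780_CQ.GL2

open Pool.Agent.Helper780_CP Pool.Agent.Helper780_CQ
open Pool.Agent.Helper985.CP
open Pool.Agent.Helper780_CP.RVB (vb_props)
open Pool.Agent.Helper780_CP.RL2a (removal)
open Pool.Agent.Helper780_CP.RL2b

theorem g_le_nb2 {I : Type} [Fintype I] (y : E3) {r : ℝ} (hr : 0 < r) (x : I → E3) :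
    loc_upper_g y r x ≤ nb y (2 * r) x := by
  unfold loc_upper_g nb
  refine Finset.sum_le_sum fun i _ => ?_
  split_ifs with h
  · exact loc_upper_cy_le y r (x i)
  · rw [not_le] at h
    have h1 : ct (r⁻¹ • (x i - y)) = 0 := by
      apply loc_upper_ct_zero
      rw [norm_smul, Real.norm_of_nonneg (by positivity), inv_mul_eq_div, le_div_iff₀ hr]
      exact h.le
    simp only [cy, h1]
    norm_num

/-- TARGET -/
theorem loc_upperG {S : Type} [Fintype S] (D : Species S) (hD : D.Valid) (C' : ℝ)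
    (hC' : 0 ≤ C') :
    ∃ C : ℝ, 0 < C ∧ ∀ {I : Type} [Fintype I] [DecidableEq I] (sp : I → S) (ℓ E η : ℝ), 0 ≤ η →
      E = sInf (energies D sp ℓ) →
      (∀ Φ, IsState D sp ℓ Φ → E * nrm2 D Φ ≤ energy D sp Φ) →
      ∀ Ψ, NG D sp ℓ C' η Ψ →
      ∀ (y : E3) (r : ℝ), 0 < r → r ≤ 1 →
        (∑ τ, ∫ x, ∑ j, (∑ i, cy y r (x i) ^ 2) * kin D sp j (Ψ τ) x) +
          wm D (fun x => (∑ i, cy y r (x i) ^ 2) * coul D sp x) Ψ ≤
        E * wm D (fun x => ∑ i, cy y r (x i) ^ 2) Ψ + 1 / 2 * klc D sp y r Ψ +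
          C / r ^ 2 * wm D (nb y (2 * r)) Ψ + C * (1 + (Fintype.card I : ℝ)) * η + C := by
  classical
  obtain ⟨K, hK0, hK⟩ := loc_upper_ct_bd
  obtain ⟨Cm, hCm0, hCm⟩ : ∃ Cm : ℝ, 0 ≤ Cm ∧ ∀ s, 1 / (2 * D.mass s) ≤ Cm := by
    refine ⟨∑ s, 1 / (2 * D.mass s), Finset.sum_nonneg fun s _ => ?_, fun s => ?_⟩
    · have := hD.mass_pos s
      positivity
    · exact Finset.single_le_sum (f := fun s => 1 / (2 * D.mass s))
        (fun s _ => by have := hD.mass_pos s; positivity) (Finset.mem_univ s)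
  refine ⟨C' + (C' + 2 * Cm) * (3 * K ^ 2) + C' + 1, by positivity, ?_⟩
  intro I _ _ sp ℓ E η hη hEE hE Ψ hNG y r hr hr1
  have hΨ := hNG.state
  have hn := hNG.nrm
  have hfB : ∀ x : I → E3, |loc_upper_f y r x| ≤ √(1 + Fintype.card I) := by
    intro x
    have h0 : 0 ≤ loc_upper_f y r x := Real.sqrt_nonneg _
    rw [abs_of_nonneg h0]
    exact Real.sqrt_le_sqrt (by linarith [loc_upper_g_le y r x])
  have h1 := hNG.near (loc_upper_f y r) _ (loc_upper_f_smooth y r)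
    (loc_upper_f_sy sp y r) hfB
  rw [← hEE] at h1
  rw [Real.sq_sqrt (by positivity)] at h1
  have h2 := loc_upper_lower D hD hCm sp ℓ Ψ hΨ y r
  have h3 : E ≤ energy D sp Ψ := by
    have := hE Ψ hΨ
    rwa [hn, mul_one] at this
  have hg : Continuous (loc_upper_g (I := I) y r) := (loc_upper_g_smooth y r).continuous
  have WQ : WI D sp ℓ (loc_upper_Q y r) := loc_upper_WI_cont D sp ℓ _ (loc_upper_Q_cont y r)
  have Wg : WI D sp ℓ (loc_upper_g y r) := loc_upper_WI_cont D sp ℓ _ hg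
  have Wgr : WI D sp ℓ (gr (loc_upper_f y r)) :=
    loc_upper_WI_cont D sp ℓ _ (loc_upper_gr_cont y r)
  have h4 : nrm2 D (mulW D (loc_upper_f y r) Ψ) = 1 + wm D (loc_upper_g y r) Ψ := by
    have e1 : nrm2 D (mulW D (loc_upper_f y r) Ψ) = wm D (fun x => 1 + loc_upper_g y r x) Ψ := by
      unfold nrm2 wm
      simp only [mulW_norm, loc_upper_f_sq]
    rw [e1, wm_add D sp ℓ (WI_const D sp ℓ 1) Wg Ψ hΨ, wm_one, hn]
  rw [h4] at h1
  have h5 : wm D (gr (loc_upper_f y r)) Ψ ≤ wm D (loc_upper_Q y r) Ψ :=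
    wm_mono D sp ℓ Wgr WQ Ψ hΨ (Filter.Eventually.of_forall fun x => loc_upper_gr_le y r x)
  have h6 : wm D (loc_upper_Q y r) Ψ ≤ 3 * K ^ 2 / r ^ 2 * wm D (nb y (2 * r)) Ψ := by
    rw [← wm_smul]
    exact wm_mono D sp ℓ WQ (WI_smul D sp ℓ (loc_upper_WI_nb D sp ℓ y (2 * r)) _) Ψ hΨ
      (Filter.Eventually.of_forall fun x => loc_upper_Q_le hK0 hK y hr x)
  have h7 : 0 ≤ wm D (nb y (2 * r)) Ψ := by
    unfold wm
    refine Finset.sum_nonneg fun τ _ => integral_nonneg fun x => ?_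
    apply mul_nonneg _ (sq_nonneg _)
    unfold nb
    exact Finset.sum_nonneg fun i _ => by split_ifs <;> norm_num
  have e1 : (∑ τ, ∫ x, ∑ j, (∑ i, cy y r (x i) ^ 2) * kin D sp j (Ψ τ) x) =
      ∑ τ, ∫ x, ∑ j, loc_upper_g y r x * kin D sp j (Ψ τ) x := rfl
  have e2 : wm D (fun x => (∑ i, cy y r (x i) ^ 2) * coul D sp x) Ψ =
      wm D (fun x => loc_upper_g y r x * coul D sp x) Ψ := rfl
  have e3 : wm D (fun x => ∑ i, cy y r (x i) ^ 2) Ψ = wm D (loc_upper_g y r) Ψ := rfl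
  rw [e1, e2, e3]
  have hN0 : (0:ℝ) ≤ Fintype.card I := by positivity
  have h8 : C' * wm D (gr (loc_upper_f y r)) Ψ + 2 * Cm * wm D (loc_upper_Q y r) Ψ ≤
      (C' + 2 * Cm) * (3 * K ^ 2 / r ^ 2 * wm D (nb y (2 * r)) Ψ) := by
    have a1 := mul_le_mul_of_nonneg_left (h5.trans h6) hC'
    have a2 := mul_le_mul_of_nonneg_left h6 (show 0 ≤ 2 * Cm by positivity)
    linarith
  have h11 : wm D (loc_upper_g y r) Ψ ≤ 1 / r ^ 2 * wm D (nb y (2 * r)) Ψ := by
    have h12 : wm D (loc_upper_g y r) Ψ ≤ wm D (nb y (2 * r)) Ψ :=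
      wm_mono D sp ℓ Wg (loc_upper_WI_nb D sp ℓ y (2 * r)) Ψ hΨ
        (Filter.Eventually.of_forall fun x => g_le_nb2 y hr x)
    refine h12.trans (le_mul_of_one_le_left h7 ?_)
    rw [le_div_iff₀ (by positivity), one_mul]
    exact pow_le_one₀ hr.le hr1
  have h9 : (C' + 2 * Cm) * (3 * K ^ 2 / r ^ 2 * wm D (nb y (2 * r)) Ψ) +
      C' * (1 + wm D (loc_upper_g y r) Ψ) ≤
      (C' + (C' + 2 * Cm) * (3 * K ^ 2) + C' + 1) / r ^ 2 * wm D (nb y (2 * r)) Ψ + C' := by
    have h13 : (C' + (C' + 2 * Cm) * (3 * K ^ 2) + C' + 1) / r ^ 2 * wm D (nb y (2 * r)) Ψ =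
      (C' + 2 * Cm) * (3 * K ^ 2 / r ^ 2 * wm D (nb y (2 * r)) Ψ) +
      2 * (C' * (1 / r ^ 2 * wm D (nb y (2 * r)) Ψ)) + 1 / r ^ 2 * wm D (nb y (2 * r)) Ψ := by ring
    rw [h13]
    have h14 := mul_le_mul_of_nonneg_left h11 hC'
    have h15 : 0 ≤ 1 / r ^ 2 * wm D (nb y (2 * r)) Ψ := by positivity
    have h16 : 0 ≤ C' * (1 / r ^ 2 * wm D (nb y (2 * r)) Ψ) := by positivity
    linarith
  have h10 : C' * ((1 + (Fintype.card I : ℝ)) * η) ≤
      (C' + (C' + 2 * Cm) * (3 * K ^ 2) + C' + 1) * (1 + (Fintype.card I : ℝ)) * η := by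
    rw [mul_assoc]
    apply mul_le_mul_of_nonneg_right _ (by positivity)
    have : 0 ≤ (C' + 2 * Cm) * (3 * K ^ 2) := by positivity
    linarith
  have h17 : 0 ≤ (C' + 2 * Cm) * (3 * K ^ 2) := by positivity
  linarith



open Pool.Agent.Helper780_CP.RL2c
open Pool.Agent.Helper780_CP.RL2a

theorem loc_energyG {S : Type} [Fintype S] [DecidableEq S] (D : Species S) (hD : D.Valid)
    (hst : HStable D) (ρ : ℝ) (hρ : 0 ≤ ρ) (K' : ℝ) (hK' : 0 ≤ K') : ∃ C : ℝ, 0 < C ∧
    ∀ {I : Type} [Fintype I] [DecidableEq I] (sp : I → S) (ℓ : ℝ), 4 ≤ ℓ →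
      (Fintype.card I : ℝ) ≤ ρ * ℓ ^ 3 → ∀ η : ℝ, 0 ≤ η →
      ∀ Ψ : Wave D I, NG D sp ℓ K' η Ψ →
      ∀ (y : E3) (r : ℝ), 0 < r → r ≤ 1 →
        1 / 2 * klc D sp y r Ψ +
          wm D (fun x => (∑ i, cy y r (x i) ^ 2 * ∑ j, if i = j then 0 else
              D.charge (sp i) * D.charge (sp j) / ‖x i - x j‖) -
            phb D sp ℓ x * ∑ i, D.charge (sp i) * cy y r (x i) ^ 2) Ψ ≤
        C / r ^ 2 * wm D (nb y (2 * r)) Ψ + C * (1 + (Fintype.card I : ℝ)) * η + C := by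
  obtain ⟨C1, hC1, H1⟩ := removal D hD hst (1 / 2) (by norm_num)
  obtain ⟨C2, hC2, H2⟩ := loc_upperG D hD K' hK'
  obtain ⟨K, hK⟩ : ∃ K, K = ∫ z, kk z := ⟨_, rfl⟩
  have hK0 : 0 ≤ K := by rw [hK]; exact integral_nonneg kk_nonneg
  obtain ⟨C3, hC3⟩ : ∃ C3, C3 = C1 * (2 + 8 * ρ * K) := ⟨_, rfl⟩
  have hC30 : 0 ≤ C3 := by rw [hC3]; positivity
  refine ⟨C3 + C2, by positivity, ?_⟩
  intro I _ _ sp ℓ hℓ4 hN η hη Ψ hNG y r hr hr1
  have hΨ := hNG.state
  have hn1 := hNG.nrm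
  have hℓ : 0 < ℓ := by linarith
  obtain ⟨-, -, hEn, -⟩ := energies_basic D hD hst sp ℓ hℓ
  obtain ⟨E, hEE⟩ : ∃ E, E = sInf (energies D sp ℓ) := ⟨_, rfl⟩
  rw [← hEE] at hEn
  have hU := H2 sp ℓ E η hη hEE hEn Ψ hNG y r hr hr1
  have hctc : Continuous ct := by
    unfold ct
    exact Real.smoothTransition.continuous.comp (by fun_prop)
  have hcyc : Continuous (cy y r) := by
    unfold cy
    exact hctc.comp (by fun_prop)
  have hct0 : ∀ w, 0 ≤ ct w := fun w => Real.smoothTransition.nonneg _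
  have hct1 : ∀ w, ct w ≤ 1 := fun w => Real.smoothTransition.le_one _
  obtain ⟨W, hW⟩ : ∃ W : E3 → ℝ, W = fun z => cy y r z ^ 2 := ⟨_, rfl⟩
  have hWz : ∀ z, cy y r z ^ 2 = W z := fun z => by rw [hW]
  have hWc : Continuous W := by rw [hW]; exact hcyc.pow 2
  have hW0 : ∀ z, 0 ≤ W z := fun z => by rw [hW]; exact sq_nonneg _
  have hW1 : ∀ z, W z ≤ 1 := fun z => by
    rw [hW]
    exact pow_le_one₀ (hct0 _) (hct1 _)
  have hWnb : ∀ z, W z ≤ if ‖z - y‖ ≤ 2 * r then 1 else 0 := by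
    intro z
    split_ifs with h
    · exact hW1 z
    · rw [not_le] at h
      have h1 : ct (r⁻¹ • (z - y)) = 0 := by
        unfold ct
        apply Real.smoothTransition.zero_of_nonpos
        have h2 : 2 ≤ ‖r⁻¹ • (z - y)‖ := by
          rw [norm_smul, Real.norm_of_nonneg (by positivity), inv_mul_eq_div, le_div_iff₀ hr]
          exact h.le
        nlinarith
      rw [hW]
      simp only [cy, h1]
      norm_num
  obtain ⟨g, hg⟩ : ∃ g : (I → E3) → ℝ, g = fun x => ∑ i, W (x i) := ⟨_, rfl⟩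
  obtain ⟨P, hP⟩ : ∃ P : (I → E3) → ℝ, P = fun x => ∑ i, W (x i) * ∑ j, if i = j then 0 else
      D.charge (sp i) * D.charge (sp j) / ‖x i - x j‖ := ⟨_, rfl⟩
  obtain ⟨Q, hQ⟩ : ∃ Q : E3 → (I → E3) → ℝ, Q = fun v x => ∑ i, W (x i) *
      (D.charge (sp i) * ∑ j, if i = j then 0 else D.charge (sp j) / ‖x j - v‖) := ⟨_, rfl⟩
  obtain ⟨F, hF⟩ : ∃ F : (I → E3) → ℝ, F = fun x => phb D sp ℓ x *
      ∑ i, D.charge (sp i) * W (x i) := ⟨_, rfl⟩
  have hgx : ∀ x : I → E3, ∑ i, W (x i) = g x := fun x => by rw [hg]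
  have hPx : ∀ x : I → E3, (∑ i, W (x i) * ∑ j, if i = j then 0 else
      D.charge (sp i) * D.charge (sp j) / ‖x i - x j‖) = P x := fun x => by rw [hP]
  have hFx : ∀ x : I → E3, (phb D sp ℓ x * ∑ i, D.charge (sp i) * W (x i)) = F x :=
    fun x => by rw [hF]
  have hQx : ∀ (v : E3) (x : I → E3), (∑ i, W (x i) *
      (D.charge (sp i) * ∑ j, if i = j then 0 else D.charge (sp j) / ‖x j - v‖)) = Q v x :=
    fun v x => by rw [hQ]
  have hR : ∀ v ∈ icb ℓ, E * wm D g Ψ ≤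
      (∑ τ, ∫ x, ∑ j, (g x - W (x j)) * kin D sp j (Ψ τ) x) +
        wm D (fun x => g x * coul D sp x - P x + Q v x) Ψ +
        C1 * wm D (fun x => g x * (1 + near2 v x)) Ψ := by
    intro v hv
    have hb : Metric.closedBall v (1 / 2) ⊆ cube ℓ := by
      intro z hz k
      rw [Metric.mem_closedBall, dist_eq_norm] at hz
      have h1 : |z k - v k| ≤ 1 / 2 := by
        have := EuclideanSpace.norm_eq (z - v)
        have h2 : ‖(z - v) k‖ ≤ ‖z - v‖ := PiLp.norm_apply_le (z - v) k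
        rw [PiLp.sub_apply, Real.norm_eq_abs] at h2
        exact h2.trans hz
      have h3 := hv k
      rw [abs_le] at h1
      constructor <;> linarith [h1.1, h1.2, h3.1, h3.2]
    have h := H1 sp ℓ hℓ v hb E hEn W hWc hW0 ⟨1, hW1⟩ Ψ hΨ
    simp only [hgx, hPx, hQx] at h
    have e : wm D (fun x => ∑ i, W (x i)) Ψ = wm D g Ψ := by rw [hg]
    simpa only [e] using h
  simp only [hWz] at hU ⊢
  simp only [hgx] at hU
  simp only [hPx, hFx]
  have hklc : klc D sp y r Ψ = ∑ τ, ∫ x, ∑ j, W (x j) * kin D sp j (Ψ τ) x := by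
    unfold klc
    simp only [hWz]
  have hgc : Continuous g := by
    rw [hg]
    exact continuous_finsetSum _ fun i _ => hWc.comp (continuous_apply i)
  have hg0 : ∀ x, 0 ≤ g x := fun x => by
    rw [hg]; exact Finset.sum_nonneg fun i _ => hW0 _
  have hgN : ∀ x, g x ≤ (Fintype.card I : ℝ) := fun x => by
    rw [hg]
    calc ∑ i, W (x i) ≤ ∑ _i : I, (1 : ℝ) := Finset.sum_le_sum fun i _ => hW1 _
      _ = _ := by simp
  have hgab : ∀ x, |g x| ≤ (Fintype.card I : ℝ) := fun x => by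
    rw [abs_of_nonneg (hg0 x)]; exact hgN x
  have hWab : ∀ (i : I) (x : I → E3), |W (x i)| ≤ 1 := fun i x => by
    rw [abs_of_nonneg (hW0 _)]; exact hW1 _
  have hWic : ∀ i : I, Continuous (fun x : I → E3 => W (x i)) := fun i =>
    hWc.comp (continuous_apply i)
  have hwg : WI D sp ℓ g := le_WI_cont D sp ℓ g hgc
  have hwgc : WI D sp ℓ (fun x => g x * coul D sp x) :=
    le_WI_mul D sp ℓ (WI_coul D sp ℓ) g hgc _ hgab
  have hwP : WI D sp ℓ P := by
    rw [hP]
    exact WI_sum D sp ℓ _ _ fun i _ => le_WI_mul D sp ℓ (WI_pair D sp ℓ i) _ (hWic i) 1 (hWab i)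
  have hwQ : ∀ v, WI D sp ℓ (Q v) := by
    intro v
    rw [hQ]
    refine WI_sum D sp ℓ _ _ fun i _ => le_WI_mul D sp ℓ ?_ _ (hWic i) 1 (hWab i)
    refine WI_smul D sp ℓ ?_ _
    refine WI_sum D sp ℓ _ _ fun j _ => ?_
    by_cases hij : i = j
    · simp only [if_pos hij]
      exact WI_zero D sp ℓ
    · simp only [if_neg hij]
      have h := locInt_shift pot_props_locInt v
      have h2 := WI_smul D sp ℓ (WI_one D sp ℓ j (fun z => ‖z - v‖⁻¹) h) (D.charge (sp j))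
      simpa only [div_eq_mul_inv] using h2
  have hwG : ∀ v, WI D sp ℓ (fun x => g x * (1 + near2 v x)) := fun v =>
    le_WI_mul D sp ℓ (WI_add D sp ℓ (WI_const D sp ℓ 1) (WI_near2 D sp ℓ v)) g hgc _ hgab
  have hvbc := vb_props.1 ℓ hℓ
  obtain ⟨-, Cv, hCv, hvb⟩ := vb_props
  have hvb0 : ∀ z, 0 ≤ vb ℓ z := fun z => (hvb ℓ z hℓ).1
  have hphc : Continuous (phb D sp ℓ (I := I)) := by
    unfold phb
    exact continuous_finsetSum _ fun i _ =>
      continuous_const.mul (hvbc.comp (continuous_apply i))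
  have hwF : WI D sp ℓ F := by
    rw [hF]
    refine le_WI_cont D sp ℓ _ (hphc.mul ?_)
    exact continuous_finsetSum _ fun i _ => continuous_const.mul (hWic i)
  have hwnb := le_WI_nb D sp ℓ y (2 * r)
  -- splitting
  obtain ⟨KR, hKR⟩ : ∃ KR, KR = ∑ τ, ∫ x, ∑ j, (g x - W (x j)) * kin D sp j (Ψ τ) x := ⟨_, rfl⟩
  rw [← hKR] at hR
  have hTv : ∀ v ∈ icb ℓ, E * wm D g Ψ - KR - wm D (fun x => g x * coul D sp x) Ψ +
      wm D P Ψ ≤ wm D (fun x => Q v x + C1 * (g x * (1 + near2 v x))) Ψ := by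
    intro v hv
    have h := hR v hv
    have e1 : (fun x => g x * coul D sp x - P x + Q v x) =
        fun x => (g x * coul D sp x + (-1) * P x) + Q v x := by
      funext x; ring
    rw [e1, wm_add D sp ℓ (WI_add D sp ℓ hwgc (WI_smul D sp ℓ hwP (-1))) (hwQ v) Ψ hΨ,
      wm_add D sp ℓ hwgc (WI_smul D sp ℓ hwP (-1)) Ψ hΨ, wm_smul] at h
    rw [wm_add D sp ℓ (hwQ v) (WI_smul D sp ℓ (hwG v) C1) Ψ hΨ, wm_smul]
    linarith
  have hWim : ∀ i : I, Measurable (fun q : (I → E3) × E3 => W (q.1 i)) := fun i =>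
    hWc.measurable.comp ((measurable_pi_apply i).comp measurable_fst)
  have hAm : Measurable (fun q : (I → E3) × E3 => (fun v x => Q v x +
      C1 * (g x * (1 + near2 v x))) q.2 q.1) := by
    simp only
    refine Measurable.add ?_ ?_
    · rw [hQ]
      refine Finset.measurable_fun_sum _ fun i _ => (hWim i).mul (Measurable.const_mul ?_ _)
      refine Finset.measurable_fun_sum _ fun j _ => ?_
      by_cases hij : i = j
      · simp only [if_pos hij]
        exact measurable_const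
      · simp only [if_neg hij]
        have h1 : Measurable (fun q : (I → E3) × E3 => q.1 j) :=
          (measurable_pi_apply j).comp measurable_fst
        have h2 : Measurable (fun q : (I → E3) × E3 => ‖q.1 j - q.2‖) :=
          (h1.sub measurable_snd).norm
        exact measurable_const.div h2
    · refine Measurable.const_mul ?_ _
      exact (hgc.measurable.comp measurable_fst).mul (measurable_const.add near2_meas2)
  obtain ⟨Z, hZ⟩ : ∃ Z, Z = ∑ i, |D.charge (sp i)| := ⟨_, rfl⟩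
  have hZ0 : 0 ≤ Z := by rw [hZ]; exact Finset.sum_nonneg fun i _ => abs_nonneg _
  have hQab : ∀ v x, |Q v x| ≤ Z * (Z * (1 + ∑ i, kk (x i - v))) := by
    intro v x
    have hs0 : 0 ≤ 1 + ∑ i, kk (x i - v) := by
      have : 0 ≤ ∑ i, kk (x i - v) := Finset.sum_nonneg fun i _ => kk_nonneg _
      linarith
    have hin : ∀ i, |∑ j, if i = j then 0 else D.charge (sp j) / ‖x j - v‖| ≤
        Z * (1 + ∑ i, kk (x i - v)) := by
      intro i
      refine (Finset.abs_sum_le_sum_abs _ _).trans ?_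
      rw [hZ, Finset.sum_mul]
      refine Finset.sum_le_sum fun j _ => ?_
      have h1 : 1 / ‖x j - v‖ ≤ 1 + ∑ i, kk (x i - v) := by
        have h2 := le_inv_kk (x j) v
        have h3 := Finset.single_le_sum (f := fun i => kk (x i - v)) (fun j _ => kk_nonneg _)
          (Finset.mem_univ j)
        linarith
      split_ifs
      · rw [abs_zero]
        exact mul_nonneg (abs_nonneg _) hs0
      · rw [abs_div, abs_of_nonneg (norm_nonneg _), div_eq_mul_one_div]
        exact mul_le_mul_of_nonneg_left h1 (abs_nonneg _)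
    rw [hQ]
    simp only
    refine (Finset.abs_sum_le_sum_abs _ _).trans ?_
    nth_rewrite 1 [hZ]
    rw [Finset.sum_mul]
    refine Finset.sum_le_sum fun i _ => ?_
    rw [abs_mul, abs_mul]
    calc |W (x i)| * (|D.charge (sp i)| * |∑ j, if i = j then 0 else
          D.charge (sp j) / ‖x j - v‖|)
        ≤ 1 * (|D.charge (sp i)| * (Z * (1 + ∑ i, kk (x i - v)))) :=
          mul_le_mul (hWab i x) (mul_le_mul_of_nonneg_left (hin i) (abs_nonneg _))
            (by positivity) zero_le_one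
      _ = _ := by rw [one_mul]
  have hcard0 : (0 : ℝ) ≤ (Fintype.card I : ℝ) := Nat.cast_nonneg _
  have hAM : ∀ v x, |Q v x + C1 * (g x * (1 + near2 v x))| ≤
      (Z * Z + C1 * ((Fintype.card I : ℝ) * 2)) * (1 + ∑ i, kk (x i - v)) := by
    intro v x
    have hs0 : 0 ≤ ∑ i, kk (x i - v) := Finset.sum_nonneg fun i _ => kk_nonneg _
    have h1 := hQab v x
    have h2 := near2_le_kk v x
    have h3 := near2_nonneg v x
    have h4 : |C1 * (g x * (1 + near2 v x))| ≤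
        C1 * ((Fintype.card I : ℝ) * (2 * (1 + ∑ i, kk (x i - v)))) := by
      rw [abs_of_nonneg (mul_nonneg hC1.le (mul_nonneg (hg0 x) (by linarith)))]
      refine mul_le_mul_of_nonneg_left ?_ hC1.le
      exact mul_le_mul (hgN x) (by linarith) (by linarith) hcard0
    calc |Q v x + C1 * (g x * (1 + near2 v x))| ≤ |Q v x| + |C1 * (g x * (1 + near2 v x))| :=
          abs_add_le _ _
      _ ≤ Z * (Z * (1 + ∑ i, kk (x i - v))) +
          C1 * ((Fintype.card I : ℝ) * (2 * (1 + ∑ i, kk (x i - v)))) := add_le_add h1 h4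
      _ = _ := by ring
  have hwB : WI D sp ℓ (fun x => F x + C3 * g x) := WI_add D sp ℓ hwF (WI_smul D sp ℓ hwg C3)
  have hAB : ∀ x, ∫ v in icb ℓ, (fun v x => Q v x + C1 * (g x * (1 + near2 v x))) v x ≤
      ℓ ^ 3 / 8 * (F x + C3 * g x) := by
    intro x
    have hij : ∀ i j, IntegrableOn (fun v : E3 => if i = j then 0 else
        D.charge (sp j) / ‖x j - v‖) (icb ℓ) := by
      intro i j
      by_cases hij : i = j
      · simp only [if_pos hij]
        exact le_int_one ℓ hℓ 0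
      · simp only [if_neg hij]
        have := (le_int_inv ℓ hℓ (x j)).const_mul (D.charge (sp j))
        refine this.congr (Filter.Eventually.of_forall fun v => ?_)
        simp only
        rw [mul_one_div]
    have hQi : ∀ i, IntegrableOn (fun v : E3 => W (x i) *
      (D.charge (sp i) * ∑ j, if i = j then 0 else D.charge (sp j) / ‖x j - v‖)) (icb ℓ) := by
      intro i
      exact ((integrable_finsetSum _ fun j _ => hij i j).const_mul _).const_mul _
    have hQint : IntegrableOn (fun v => Q v x) (icb ℓ) := by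
      rw [hQ]
      exact integrable_finsetSum _ fun i _ => hQi i
    obtain ⟨n1, n2⟩ := le_int_near ℓ hℓ x
    have hGint : IntegrableOn (fun v => C1 * (g x * (1 + near2 v x))) (icb ℓ) :=
      (n1.const_mul _).const_mul _
    simp only
    rw [integral_add hQint hGint, integral_const_mul, integral_const_mul]
    have hvbe : ∀ j, ∫ v in icb ℓ, D.charge (sp j) / ‖x j - v‖ =
        D.charge (sp j) * (ℓ ^ 3 / 8 * vb ℓ (x j)) := by
      intro j
      have : ∀ v, D.charge (sp j) / ‖x j - v‖ = D.charge (sp j) * (1 / ‖x j - v‖) := by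
        intro v; rw [mul_one_div]
      simp only [this]
      rw [integral_const_mul]
      unfold vb
      congr 1
      field_simp
    have hQe : ∫ v in icb ℓ, Q v x = ℓ ^ 3 / 8 * (F x -
        ∑ i, W (x i) * (D.charge (sp i) ^ 2 * vb ℓ (x i))) := by
      rw [hQ]
      simp only
      rw [integral_finsetSum _ fun i _ => hQi i]
      have h1 : ∀ i, ∫ v in icb ℓ, W (x i) *
          (D.charge (sp i) * ∑ j, if i = j then 0 else D.charge (sp j) / ‖x j - v‖) =
          W (x i) * (D.charge (sp i) * (ℓ ^ 3 / 8 * (phb D sp ℓ x -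
            D.charge (sp i) * vb ℓ (x i)))) := by
        intro i
        rw [integral_const_mul, integral_const_mul,
          integral_finsetSum _ fun j _ => hij i j]
        congr 2
        have h2 : ∀ j, ∫ v in icb ℓ, (if i = j then 0 else D.charge (sp j) / ‖x j - v‖) =
            ℓ ^ 3 / 8 * (if i = j then 0 else D.charge (sp j) * vb ℓ (x j)) := by
          intro j
          split_ifs
          · simp
          · rw [hvbe j]; ring
        simp only [h2]
        rw [← Finset.mul_sum, le_sum_ne]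
        rfl
      simp only [h1]
      rw [hF]
      beta_reduce
      rw [Finset.mul_sum, ← Finset.sum_sub_distrib, Finset.mul_sum]
      refine Finset.sum_congr rfl fun i _ => ?_
      ring
    rw [hQe]
    have hs : 0 ≤ ∑ i, W (x i) * (D.charge (sp i) ^ 2 * vb ℓ (x i)) :=
      Finset.sum_nonneg fun i _ => mul_nonneg (hW0 _) (mul_nonneg (sq_nonneg _) (hvb0 _))
    have hl3 : 0 < ℓ ^ 3 := by positivity
    rw [← hK] at n2
    have hKN : K * (Fintype.card I : ℝ) ≤ ℓ ^ 3 / 8 * (8 * ρ * K) := by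
      have := mul_le_mul_of_nonneg_left hN hK0
      linarith
    have hn3 : C1 * (g x * ∫ v in icb ℓ, (1 + near2 v x)) ≤ ℓ ^ 3 / 8 * (C3 * g x) := by
      have h1 : g x * ∫ v in icb ℓ, (1 + near2 v x) ≤
          g x * (ℓ ^ 3 / 8 * (2 + 8 * ρ * K)) :=
        mul_le_mul_of_nonneg_left (by linarith) (hg0 x)
      calc C1 * (g x * ∫ v in icb ℓ, (1 + near2 v x)) ≤
            C1 * (g x * (ℓ ^ 3 / 8 * (2 + 8 * ρ * K))) := mul_le_mul_of_nonneg_left h1 hC1.le
        _ = _ := by rw [hC3]; ring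
    have hs2 : 0 ≤ ℓ ^ 3 / 8 * ∑ i, W (x i) * (D.charge (sp i) ^ 2 * vb ℓ (x i)) :=
      mul_nonneg (by positivity) hs
    calc ℓ ^ 3 / 8 * (F x - ∑ i, W (x i) * (D.charge (sp i) ^ 2 * vb ℓ (x i))) +
          C1 * (g x * ∫ v in icb ℓ, (1 + near2 v x))
        ≤ ℓ ^ 3 / 8 * (F x - ∑ i, W (x i) * (D.charge (sp i) ^ 2 * vb ℓ (x i))) +
          ℓ ^ 3 / 8 * (C3 * g x) := by linarith
      _ = ℓ ^ 3 / 8 * (F x + C3 * g x) -
          ℓ ^ 3 / 8 * ∑ i, W (x i) * (D.charge (sp i) ^ 2 * vb ℓ (x i)) := by ring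
      _ ≤ _ := by linarith
  have hT := le_avg D sp ℓ hℓ Ψ hΨ (fun v x => Q v x + C1 * (g x * (1 + near2 v x))) hAm
    (Z * Z + C1 * ((Fintype.card I : ℝ) * 2)) (by positivity) hAM _ hTv _ hwB hAB
  rw [wm_add D sp ℓ hwF (WI_smul D sp ℓ hwg C3) Ψ hΨ, wm_smul] at hT
  -- kinetic energy
  have hkin : (∑ τ, ∫ x, ∑ j, g x * kin D sp j (Ψ τ) x) - KR = klc D sp y r Ψ := by
    rw [hKR, hklc, ← Finset.sum_sub_distrib]
    refine Finset.sum_congr rfl fun τ _ => ?_
    obtain ⟨-, h2, -, -, -⟩ := int_state D sp ℓ Ψ hΨ τ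
    have i1 : ∀ j, Integrable (fun x => g x * kin D sp j (Ψ τ) x) := fun j =>
      (h2 j).bdd_mul (c := (Fintype.card I : ℝ)) hgc.aestronglyMeasurable
        (Filter.Eventually.of_forall fun x => by rw [Real.norm_eq_abs]; exact hgab x)
    have i2 : ∀ j, Integrable (fun x => W (x j) * kin D sp j (Ψ τ) x) := fun j =>
      (h2 j).bdd_mul (c := 1) (hWic j).aestronglyMeasurable
        (Filter.Eventually.of_forall fun x => by rw [Real.norm_eq_abs]; exact hWab j x)
    have i3 : ∀ j, Integrable (fun x => (g x - W (x j)) * kin D sp j (Ψ τ) x) := fun j => by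
      refine ((i1 j).sub (i2 j)).congr (Filter.Eventually.of_forall fun x => ?_)
      simp only [Pi.sub_apply]
      ring
    rw [integral_finsetSum _ fun j _ => i1 j, integral_finsetSum _ fun j _ => i3 j,
      integral_finsetSum _ fun j _ => i2 j, ← Finset.sum_sub_distrib]
    refine Finset.sum_congr rfl fun j _ => ?_
    rw [← integral_sub (i1 j) (i3 j)]
    refine integral_congr_ae (Filter.Eventually.of_forall fun x => ?_)
    simp only
    ring
  have hkin2 : (∑ τ, ∫ x, ∑ j, g x * kin D sp j (Ψ τ) x) = KR + klc D sp y r Ψ := by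
    linarith
  have hPF : wm D (fun x => P x - F x) Ψ = wm D P Ψ - wm D F Ψ := by
    have e1 : (fun x => P x - F x) = fun x => P x + (-1) * F x := by funext x; ring
    rw [e1, wm_add D sp ℓ hwP (WI_smul D sp ℓ hwF (-1)) Ψ hΨ, wm_smul]
    ring
  have hgnb : wm D g Ψ ≤ wm D (nb y (2 * r)) Ψ := by
    refine wm_mono D sp ℓ hwg hwnb Ψ hΨ (Filter.Eventually.of_forall fun x => ?_)
    rw [hg]
    unfold nb
    exact Finset.sum_le_sum fun i _ => hWnb _
  have hnb0 : 0 ≤ wm D (nb y (2 * r)) Ψ := by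
    unfold wm
    refine Finset.sum_nonneg fun τ _ => integral_nonneg fun x => mul_nonneg ?_ (sq_nonneg _)
    unfold nb
    exact Finset.sum_nonneg fun i _ => by split_ifs <;> norm_num
  rw [hPF]
  rw [hkin2] at hU
  have hr2 : r ^ 2 ≤ 1 := pow_le_one₀ hr.le hr1
  have hC3r : C3 ≤ C3 / r ^ 2 := by
    rw [le_div_iff₀ (by positivity)]
    exact mul_le_of_le_one_right hC30 hr2
  have h1 : C3 * wm D g Ψ ≤ C3 / r ^ 2 * wm D (nb y (2 * r)) Ψ :=
    mul_le_mul hC3r hgnb (by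
      unfold wm
      exact Finset.sum_nonneg fun τ _ => integral_nonneg fun x =>
        mul_nonneg (hg0 x) (sq_nonneg _)) (by positivity)
  have h2 : 0 ≤ C3 * (1 + (Fintype.card I : ℝ)) * η := by positivity
  have e3 : (C3 + C2) / r ^ 2 * wm D (nb y (2 * r)) Ψ =
      C3 / r ^ 2 * wm D (nb y (2 * r)) Ψ + C2 / r ^ 2 * wm D (nb y (2 * r)) Ψ := by
    rw [add_div, add_mul]
  have e4 : (C3 + C2) * (1 + (Fintype.card I : ℝ)) * η = C3 * (1 + (Fintype.card I : ℝ)) * η +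
      C2 * (1 + (Fintype.card I : ℝ)) * η := by ring
  rw [e3, e4]
  linarith


/-- near minimal states satisfy `LN` -/
theorem LN_of_NG {S : Type} [Fintype S] [DecidableEq S] (D : Species S) (hD : D.Valid)
    (hst : HStable D) (ρ : ℝ) (hρ : 0 ≤ ρ) (K : ℝ) (hK : 0 ≤ K) : ∃ C : ℝ, 0 < C ∧
    ∀ {I : Type} [Fintype I] [DecidableEq I] (sp : I → S) (ℓ : ℝ), 4 ≤ ℓ →
      (Fintype.card I : ℝ) ≤ ρ * ℓ ^ 3 → (∑ i, D.charge (sp i) = 0) → ∀ η : ℝ, 0 ≤ η →
      ∀ Ψ : Wave D I, NG D sp ℓ K η Ψ → LN D sp ℓ C η Ψ := by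
  obtain ⟨C1, hC1, H1⟩ := GL1.FL_NG D hD hst ρ hρ K hK
  obtain ⟨C2, hC2, H2⟩ := loc_energyG D hD hst ρ hρ K hK
  refine ⟨C1 + C2, by positivity, ?_⟩
  intro I _ _ sp ℓ hℓ hcard hneu η hη Ψ hNG
  have hN0 : (0 : ℝ) ≤ Fintype.card I := Nat.cast_nonneg _
  refine ⟨fun r ω f B hr hr1 hb hf hfs hfB => ?_, fun y r hr hr1 => ?_⟩
  · refine (H1 sp ℓ hℓ hcard hneu η hη Ψ hNG r ω f B hr hr1 hb hf hfs hfB).trans ?_
    have h1 : 0 ≤ wm D (fun x => f x ^ 2 * (1 + near2 ω x)) Ψ :=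
      RL1.wm_nn D _ (fun x => mul_nonneg (sq_nonneg _) (add_nonneg zero_le_one
        (near2_nonneg ω x))) Ψ
    have h2 : 0 ≤ wm D (gr f) Ψ := RL1.wm_nn D _ (fun x => by unfold gr; positivity) Ψ
    refine mul_le_mul_of_nonneg_right ?_ (by positivity)
    exact div_le_div_of_nonneg_right (by linarith) (by positivity)
  · refine (H2 sp ℓ hℓ hcard η hη Ψ hNG y r hr hr1).trans ?_
    have h1 : 0 ≤ wm D (nb y (2 * r)) Ψ :=
      RL1.wm_nn D _ (fun x => by
        unfold nb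
        exact Finset.sum_nonneg fun i _ => by split_ifs <;> norm_num) Ψ
    have h2 : C2 / r ^ 2 * wm D (nb y (2 * r)) Ψ ≤ (C1 + C2) / r ^ 2 * wm D (nb y (2 * r)) Ψ :=
      mul_le_mul_of_nonneg_right (div_le_div_of_nonneg_right (by linarith) (by positivity)) h1
    have h3 : C2 * (1 + (Fintype.card I : ℝ)) * η ≤ (C1 + C2) * (1 + (Fintype.card I : ℝ)) * η := by
      have : 0 ≤ C1 * ((1 + (Fintype.card I : ℝ)) * η) := by positivity
      linarith
    linarith

end Pool.Agent.Helper780_CQ.GL2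

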