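import Pool.Agent.Helper780_CQ.GDefs
import Pool.Agent.Helper780_CP.ROS

set_option autoImplicit false

open MeasureTheory

namespace Pool.Agent.Helper780_CQ.GOS

open Pool.Agent.Helper780_CP Pool.Agent.Helper780_CQ
open Pool.Agent.Helper985.CP
open Pool.Agent.Helper780_CP.ROS
open Pool.Agent.Helper780_CP.RWT (wt_facts)
open Pool.Agent.Helper780_CP.RNL (num_law)
open Pool.Agent.Helper780_CP.RSL (scales_law)
open Pool.Agent.Helper780_CP.RL2c (loc_energy)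
open Pool.Agent.Helper780_CP.RDEC (dec)
open Pool.Agent.Helper780_CP.RQ10 (main_term)
open Pool.Agent.Helper780_CP.RQ11 (scale_term)
open Pool.Agent.Helper780_CP.RL1 (FL_near_min)
open Pool.Agent.Helper780_CP.RPEN (pen_kin)
open Pool.Agent.Helper780_CP.RVB (vb_props)

/-- TARGET -/
theorem one_stepG {S : Type} [Fintype S] [DecidableEq S] (D : Species S) (hD : D.Valid)
    (hf : ∀ s, D.charge s < 0 → D.fermion s = true) (z cm K₁ C₁ : ℝ)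
    (hcm : 0 < cm) (hz : ∀ s, cm ≤ |D.charge s| ∧ |D.charge s| ≤ z) (hK₁ : 0 < K₁) (hC₁ : 0 < C₁)
    (h : RB z K₁ C₁) (F : Finset E3) (hF : ∀ v : E3, ‖v‖ ≤ 12 → ∃ p ∈ F, ‖v - p‖ < 1 / 64)
    (a b l : E3 → ℝ) (hK : Ker a b l) (CL : ℝ) (hCL : 0 < CL) :
    ∃ m : ℕ, ∀ δ : ℝ, 0 < δ → ∃ C : ℝ, 0 < C ∧
    ∀ {I : Type} [Fintype I] [DecidableEq I] (sp : I → S) (ℓ : ℝ), 4 ≤ ℓ →
      ∀ η : ℝ, 0 ≤ η →
      η * (1 + (Fintype.card I : ℝ)) ^ 2 ≤ 1 →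
      ∀ Ψ : Wave D I, IsState D sp ℓ Ψ → nrm2 D Ψ = 1 →
      LN D sp ℓ CL η Ψ →
      ∀ (y : E3) (r : ℝ), 0 < r → r ≤ 1 → Metric.closedBall y (4 * r) ⊆ cube ℓ →
      MM D sp K₁ y r Ψ ≤
        C / r ^ m * (1 + wm D (fun x => nb y (12 * r) x ^ ((4 : ℝ) / 3)) Ψ) +
        δ * ∑ p ∈ F, MM D sp K₁ (y + r • p) (r / 4) Ψ := by
  obtain ⟨Cn, hCn, hn⟩ := num_law D hD hf z cm K₁ C₁ hcm hz hK₁ hC₁ h F hF
  obtain ⟨Cs, hCs, hs⟩ := scales_law D hD hf z cm K₁ C₁ hcm hz hK₁ hC₁ h F hF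
  obtain ⟨Ce, hCe, hCe2⟩ : ∃ Ce : ℝ, 0 < Ce ∧ Ce = 2 * CL := ⟨2 * CL, by positivity, rfl⟩
  obtain ⟨Cd, hCd, hd⟩ := dec (max z 0) (le_max_right _ _) l hK.l_smooth hK.l_out hK.l_even
  obtain ⟨Cf, hCf, hCf2⟩ : ∃ Cf : ℝ, 0 < Cf ∧ Cf = CL := ⟨CL, hCL, rfl⟩
  obtain ⟨Cm, mm, hCm, hm⟩ := main_term (max z 0) Cf (le_max_right _ _) hCf.le a b l hK
  obtain ⟨Ct, mt, hCt, ht⟩ := scale_term (max z 0) Cf (le_max_right _ _) hCf.le l hK.l_smooth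
    hK.l_out
  obtain ⟨hvc, Cv, hCv, hvb⟩ := vb_props
  refine ⟨(mt + 2) * mm + mt + (mt + 2) + 2, fun δ hδ => ?_⟩
  obtain ⟨Cp, hCp, hp⟩ := pen_kin D hD hf (δ / (4 * K₁)) (by positivity)
  obtain ⟨c₀, hc₀⟩ : ∃ c₀ : ℝ, c₀ = 100 + 4 * Ct * Cs / δ := ⟨_, rfl⟩
  have hc₀pos : 0 < c₀ := by rw [hc₀]; positivity
  have hc₀100 : 100 ≤ c₀ := by
    rw [hc₀]
    have : 0 ≤ 4 * Ct * Cs / δ := by positivity
    linarith
  refine ⟨2 * (Ce + Ce + Cd + Cm * (2 * c₀) ^ mm + Ct * (Cs + 2 + 4 * c₀) + K₁ * Cp),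
    by positivity, ?_⟩
  intro I _ _ sp ℓ hℓ η hη hη2 Ψ hΨ hn1 hen y r hr hr1 hball
  have hℓ0 : 0 < ℓ := by linarith
  -- abbreviations
  obtain ⟨N, hN⟩ : ∃ N : ℝ, N = (Fintype.card I : ℝ) := ⟨_, rfl⟩
  obtain ⟨Z, hZ⟩ : ∃ Z : ℝ, Z = wm D (fun x => nb y (12 * r) x ^ ((4 : ℝ) / 3)) Ψ := ⟨_, rfl⟩
  obtain ⟨X, hX⟩ : ∃ X : ℝ, X = ∑ p ∈ F, MM D sp K₁ (y + r • p) (r / 4) Ψ := ⟨_, rfl⟩
  rw [← hN] at hη2
  rw [← hZ, ← hX]
  have hN0 : 0 ≤ N := by rw [hN]; positivity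
  have hη1 : η * (1 + N) ≤ 1 := by
    refine le_trans ?_ hη2
    refine mul_le_mul_of_nonneg_left ?_ hη
    nlinarith
  obtain ⟨w1, w2, w3, w4, w5, w6, w7⟩ := wt_facts D hD sp ℓ
  have iZ : WI D sp ℓ (fun x => nb y (12 * r) x ^ ((4 : ℝ) / 3)) := w2 y (12 * r) _ (by norm_num)
  have hnum : ∀ R, R ≤ 12 * r → wm D (nb y R) Ψ ≤ Z := fun R hR => by
    rw [hZ]
    exact wm_mono D sp ℓ (os_WI_nb D hD sp ℓ y R) iZ Ψ hΨ
      (Filter.Eventually.of_forall fun x => os_nb_le y hR x)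
  have hnumn : ∀ R, 0 ≤ wm D (nb y R) Ψ := fun R => by
    unfold wm
    exact Finset.sum_nonneg fun τ _ => integral_nonneg fun x =>
      mul_nonneg (os_nb_nonneg y R x) (sq_nonneg _)
  have hZ0 : 0 ≤ Z := (hnumn 0).trans (hnum 0 (by positivity))
  have hnum8 : wm D (fun x => nb y (8 * r) x ^ ((4 : ℝ) / 3)) Ψ ≤ Z := by
    rw [hZ]
    exact wm_mono D sp ℓ (w2 y (8 * r) _ (by norm_num)) iZ Ψ hΨ
      (Filter.Eventually.of_forall fun x => os_nb_pow_le y (by linarith) x)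
  have hone : wm D (fun x => 1 + nb y (8 * r) x) Ψ ≤ 1 + Z := by
    rw [wm_add D sp ℓ (WI_const D sp ℓ 1) (os_WI_nb D hD sp ℓ y (8 * r)) Ψ hΨ, wm_one, hn1]
    linarith [hnum (8 * r) (by linarith)]
  -- positivity of the local energies
  have hloc : ∀ (y : E3) (r : ℝ), 0 < r → r ≤ 1 → 0 ≤ klc D sp y r Ψ ∧
      0 ≤ wm D (mx D sp K₁ y r) Ψ := fun y r h1 h2 =>
    ⟨(hn sp ℓ Ψ hΨ hn1 y r h1 h2).1, (hn sp ℓ Ψ hΨ hn1 y r h1 h2).2.1⟩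
  obtain ⟨hk0', hmx0, hpl, -, -, hkb⟩ := hn sp ℓ Ψ hΨ hn1 y r hr hr1
  have hkX : ∑ p ∈ F, klc D sp (y + r • p) (r / 4) Ψ ≤ X := by
    rw [hX]
    refine Finset.sum_le_sum fun p _ => ?_
    have := (hloc (y + r • p) (r / 4) (by positivity) (by linarith)).2
    unfold MM
    linarith
  have hX0 : 0 ≤ X := by
    refine le_trans (Finset.sum_nonneg fun p _ => ?_) hkX
    exact (hloc (y + r • p) (r / 4) (by positivity) (by linarith)).1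
  -- the choice of scales
  obtain ⟨k0, hk0a, hk0b⟩ := os_pow (c₀ / r ^ (mt + 2)) (by
    rw [one_le_div (by positivity)]
    have : r ^ (mt + 2) ≤ 1 := pow_le_one₀ hr.le hr1
    linarith)
  obtain ⟨K', hK'a, hK'b⟩ := os_pow (1 + N) (by linarith)
  have hp2 : ∀ k : ℕ, (0 : ℝ) < 2 ^ k := fun k => by positivity
  have hr2 : c₀ / r ^ 2 ≤ 2 ^ k0 := by
    refine le_trans ?_ hk0a
    have : r ^ (mt + 2) ≤ r ^ 2 := pow_le_pow_of_le_one hr.le hr1 (by omega)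
    gcongr
  have hr2' : 100 ≤ 2 ^ k0 * r ^ 2 := by
    rw [div_le_iff₀ (by positivity)] at hr2
    linarith
  have hr1' : 100 ≤ 2 ^ k0 * r := by
    refine hr2'.trans ?_
    have : r ^ 2 ≤ r := by nlinarith
    exact mul_le_mul_of_nonneg_left this (hp2 _).le
  have h1N : 1 + N ≤ 2 ^ (k0 + K') * r ^ 2 := by
    rw [pow_add]
    calc 1 + N ≤ 2 ^ K' := hK'a
      _ = 1 * 2 ^ K' := (one_mul _).symm
      _ ≤ (2 ^ k0 * r ^ 2) * 2 ^ K' := by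
          refine mul_le_mul_of_nonneg_right ?_ (hp2 _).le
          linarith
      _ = 2 ^ k0 * 2 ^ K' * r ^ 2 := by ring
  -- (i) local energy
  have s1 := hen.le y r hr hr1
  -- (ii) decomposition
  have hcz : ∀ i, |D.charge (sp i)| ≤ max z 0 := fun i => (hz (sp i)).2.trans (le_max_left _ _)
  have s2 := os_key D hD sp ℓ (hvc ℓ hℓ0) (Cv / ℓ) (fun w => hvb ℓ w hℓ0) l
    hK.l_smooth.continuous hK.l_out Cd y r k0 (k0 + K')
    (fun x hx => hd (fun i => D.charge (sp i)) x hcz hx y r k0 (k0 + K') hr hr1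
      (by linarith) (Nat.le_add_right _ _) (by rw [← hN]; exact h1N)) Ψ hΨ
  -- (iii) main term
  have hFL : FL D sp ℓ (phb D sp ℓ) Cf η Ψ := by rw [hCf2]; exact hen.fl
  have hphc : Continuous (phb D sp ℓ) := by
    have := hvc ℓ hℓ0
    unfold phb
    fun_prop
  have s3 := hm D sp ℓ (phb D sp ℓ) hphc (fun s => (hz s).2.trans (le_max_left _ _)) η hη
    (by rw [← hN]; exact hη1) Ψ hΨ hn1 hFL y r k0 hr hr1 (by linarith) hball
  -- (iv) scales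
  have s4 : ∀ k ∈ Finset.Ico k0 (k0 + K'), |wm D (os_P D sp l y r k) Ψ| ≤
      Ct / r ^ mt * (wm D (fun x => bt y r k x ^ 2 * ∑ i, (if ‖x i - y‖ < 6 * r then
              nk x k i ^ ((2 : ℝ) / 3) else 0)) Ψ +
            1 / 2 ^ k * wm D (fun x => 1 + nb y (8 * r) x) Ψ +
            (1 + (Fintype.card I : ℝ)) * 2 ^ k * η) := fun k hk => by
    refine ht D sp ℓ (phb D sp ℓ) hphc (fun s => (hz s).2.trans (le_max_left _ _)) η hη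
      Ψ hΨ hn1 hFL y r k hr hr1 ?_ hball
    have h1 : (2 : ℝ) ^ k0 ≤ 2 ^ k :=
      pow_le_pow_right₀ (by norm_num) (Finset.mem_Ico.1 hk).1
    calc (1 : ℝ) ≤ 2 ^ k0 * r := by linarith
      _ ≤ 2 ^ k * r := mul_le_mul_of_nonneg_right h1 hr.le
  have s5 := hs sp ℓ Ψ hΨ hn1 y r k0 (k0 + K') hr hr1 hr1' hkb
  rw [← hX, ← hZ] at s5
  have s6 : -(Ct / r ^ mt * (Cs / 2 ^ k0 * X + Cs / r * (1 + Z) + 2 / 2 ^ k0 * (1 + Z) +
      (1 + N) * 2 ^ (k0 + K') * η)) ≤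
      ∑ k ∈ Finset.Ico k0 (k0 + K'), wm D (os_P D sp l y r k) Ψ := by
    have h1 : |∑ k ∈ Finset.Ico k0 (k0 + K'), wm D (os_P D sp l y r k) Ψ| ≤
        Ct / r ^ mt * (Cs / 2 ^ k0 * X + Cs / r * (1 + Z) + 2 / 2 ^ k0 * (1 + Z) +
      (1 + N) * 2 ^ (k0 + K') * η) := by
      refine (Finset.abs_sum_le_sum_abs _ _).trans ((Finset.sum_le_sum s4).trans ?_)
      rw [← Finset.mul_sum]
      refine mul_le_mul_of_nonneg_left ?_ (by positivity)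
      rw [Finset.sum_add_distrib, Finset.sum_add_distrib]
      refine add_le_add (add_le_add s5 ?_) ?_
      · rw [← Finset.sum_mul]
        have hwn : 0 ≤ wm D (fun x => 1 + nb y (8 * r) x) Ψ := by
          unfold wm
          exact Finset.sum_nonneg fun τ _ => integral_nonneg fun x =>
            mul_nonneg (add_nonneg zero_le_one (os_nb_nonneg y _ x)) (sq_nonneg _)
        exact mul_le_mul (os_geo _ _) hone hwn (by positivity)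
      · rw [← hN, ← Finset.sum_mul, ← Finset.mul_sum]
        refine mul_le_mul_of_nonneg_right ?_ hη
        exact mul_le_mul_of_nonneg_left (os_geo2 _ _) (by linarith)
    linarith [neg_abs_le (∑ k ∈ Finset.Ico k0 (k0 + K'), wm D (os_P D sp l y r k) Ψ)]
  -- (v) penalty
  have s7 := hp sp ℓ Ψ hΨ y r hr hr1
  have s8 : kb D sp y (3 * r) Ψ ≤ X :=
    (os_kb_mono D sp hD ℓ Ψ hΨ y (by linarith)).trans (hkb.trans hkX)
  -- energy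
  have s9 : wm D (mx D sp K₁ y r) Ψ = wm D (vl (cy y r) (fun i => D.charge (sp i))) Ψ +
      K₁ * wm D (pl (cy y r) (fun i => D.charge (sp i))) Ψ := by
    have := wm_add D sp ℓ (w3 y r) (WI_smul D sp ℓ (w4 y r) K₁) Ψ hΨ
    rw [wm_smul] at this
    exact this
  have s10 : MM D sp K₁ y r Ψ = klc D sp y r Ψ + wm D (mx D sp K₁ y r) Ψ := rfl
  -- arithmetic
  have hrM : ∀ e : ℕ, e ≤ (mt + 2) * mm + mt + (mt + 2) + 2 →
      1 / r ^ e ≤ 1 / r ^ ((mt + 2) * mm + mt + (mt + 2) + 2) := fun e he' => by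
    refine one_div_le_one_div_of_le (by positivity) ?_
    exact pow_le_pow_of_le_one hr.le hr1 he'
  obtain ⟨W, hW⟩ : ∃ W : ℝ, W = 1 / r ^ ((mt + 2) * mm + mt + (mt + 2) + 2) := ⟨_, rfl⟩
  rw [← hW] at hrM
  have hW1 : 1 ≤ W := by simpa using hrM 0 (by omega)
  have g1 : Ce / r ^ 2 * wm D (nb y (2 * r)) Ψ ≤ Ce * W * Z := by
    rw [div_eq_mul_one_div]
    have := hrM 2 (by omega)
    have h2 := hnum (2 * r) (by linarith)
    have h3 := hnumn (2 * r)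
    gcongr
  have g2 : CL * (1 + (Fintype.card I : ℝ)) * η + CL ≤ Ce := by
    rw [← hN, mul_assoc, mul_comm (1 + N) η, hCe2]
    have := mul_le_of_le_one_right hCL.le hη1
    linarith
  have g3 : Cd * wm D (nb y (3 * r)) Ψ ≤ Cd * Z :=
    mul_le_mul_of_nonneg_left (hnum (3 * r) (by linarith)) hCd.le
  have g4 : Cm * (2 ^ k0) ^ mm * (1 + wm D (fun x => nb y (8 * r) x ^ ((4 : ℝ) / 3)) Ψ) ≤
      Cm * (2 * c₀) ^ mm * W * (1 + Z) := by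
    have h1 : ((2 : ℝ) ^ k0) ^ mm ≤ (2 * c₀) ^ mm * W := by
      calc ((2 : ℝ) ^ k0) ^ mm ≤ (2 * (c₀ / r ^ (mt + 2))) ^ mm := by gcongr
        _ = (2 * c₀) ^ mm * (1 / r ^ ((mt + 2) * mm)) := by
            rw [pow_mul, ← div_eq_mul_one_div, ← mul_div_assoc, div_pow]
        _ ≤ (2 * c₀) ^ mm * W := by
            refine mul_le_mul_of_nonneg_left (hrM _ ?_) (by positivity)
            omega
    have h8 : 0 ≤ 1 + Z := by linarith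
    calc Cm * (2 ^ k0) ^ mm * (1 + wm D (fun x => nb y (8 * r) x ^ ((4 : ℝ) / 3)) Ψ)
        ≤ Cm * (2 ^ k0) ^ mm * (1 + Z) := by
          refine mul_le_mul_of_nonneg_left ?_ (by positivity)
          linarith
      _ ≤ Cm * ((2 * c₀) ^ mm * W) * (1 + Z) := by gcongr
      _ = _ := by ring
  have g5 : Ct / r ^ mt * (Cs / 2 ^ k0 * X) ≤ δ / 4 * X :=
    os_g5 Ct Cs c₀ δ X r (2 ^ k0) mt hCt hCs hδ hX0 hr hr1 (hp2 k0) hc₀ hc₀pos hk0a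
  have g6 : Ct / r ^ mt * (Cs / r * (1 + Z)) ≤ Ct * Cs * W * (1 + Z) :=
    os_g6 Ct Cs Z r W mt hCt hCs hZ0 hr (hrM (mt + 1) (by omega))
  have g7 : Ct / r ^ mt * (2 / 2 ^ k0 * (1 + Z)) ≤ Ct * 2 * W * (1 + Z) :=
    os_g7 Ct Z r W (2 ^ k0) mt hCt (one_le_pow₀ (by norm_num)) hZ0 hr (hrM mt (by omega))
  have g8 : Ct / r ^ mt * ((1 + N) * 2 ^ (k0 + K') * η) ≤ Ct * (4 * c₀) * W := by
    rw [pow_add 2 k0 K']
    exact os_g8 Ct c₀ N η r W (2 ^ k0) (2 ^ K') mt hCt (hp2 k0) hc₀pos hN0 hη hη2 hr hk0b hK'b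
      (hrM (mt + (mt + 2)) (by omega))
  have g9 : K₁ * wm D (pl (cy y r) (fun i => D.charge (sp i))) Ψ ≤
      δ / 4 * X + K₁ * Cp * W * Z := by
    have h1 := hrM 1 (by omega)
    rw [pow_one] at h1
    exact os_g9 K₁ Cp δ r W X Z _ _ _ hK₁ hCp hδ hr h1 (hnum (3 * r) (by linarith)) hZ0 s7 s8
  -- the sum
  have t3 := (abs_le.1 s3).1
  have t3' : -(Cm * (2 * c₀) ^ mm * W * (1 + Z)) ≤
      wm D (fun x => os_M D sp l y r k0 x - phb D sp ℓ x * os_Q D sp y r x) Ψ := by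
    have : -(Cm * (2 ^ k0) ^ mm * (1 + wm D (fun x => nb y (8 * r) x ^ ((4 : ℝ) / 3)) Ψ)) ≤
      wm D (fun x => os_M D sp l y r k0 x - phb D sp ℓ x * os_Q D sp y r x) Ψ := t3
    linarith
  have s1' : 1 / 2 * klc D sp y r Ψ +
      wm D (fun x => os_T D sp y r x - phb D sp ℓ x * os_Q D sp y r x) Ψ ≤
      Ce / r ^ 2 * wm D (nb y (2 * r)) Ψ + (CL * (1 + (Fintype.card I : ℝ)) * η + CL) := by
    have h1 : CL / r ^ 2 * wm D (nb y (2 * r)) Ψ ≤ Ce / r ^ 2 * wm D (nb y (2 * r)) Ψ := by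
      refine mul_le_mul_of_nonneg_right ?_ (hnumn _)
      refine div_le_div_of_nonneg_right ?_ (by positivity)
      rw [hCe2]
      linarith
    have h2 : 1 / 2 * klc D sp y r Ψ +
      wm D (fun x => os_T D sp y r x - phb D sp ℓ x * os_Q D sp y r x) Ψ ≤
      CL / r ^ 2 * wm D (nb y (2 * r)) Ψ + CL * (1 + (Fintype.card I : ℝ)) * η + CL := s1
    linarith
  have s6' : -(δ / 4 * X + Ct * Cs * W * (1 + Z) + Ct * 2 * W * (1 + Z) + Ct * (4 * c₀) * W) ≤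
      ∑ k ∈ Finset.Ico k0 (k0 + K'), wm D (os_P D sp l y r k) Ψ := by
    refine le_trans ?_ s6
    have : Ct / r ^ mt * (Cs / 2 ^ k0 * X + Cs / r * (1 + Z) + 2 / 2 ^ k0 * (1 + Z) +
      (1 + N) * 2 ^ (k0 + K') * η) = Ct / r ^ mt * (Cs / 2 ^ k0 * X) +
      Ct / r ^ mt * (Cs / r * (1 + Z)) + Ct / r ^ mt * (2 / 2 ^ k0 * (1 + Z)) +
      Ct / r ^ mt * ((1 + N) * 2 ^ (k0 + K') * η) := by ring
    rw [this]
    linarith
  have e6 : 2 * (Ce + Ce + Cd + Cm * (2 * c₀) ^ mm + Ct * (Cs + 2 + 4 * c₀) + K₁ * Cp) /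
      r ^ ((mt + 2) * mm + mt + (mt + 2) + 2) =
      2 * (Ce + Ce + Cd + Cm * (2 * c₀) ^ mm + Ct * (Cs + 2 + 4 * c₀) + K₁ * Cp) * W := by
    rw [hW]
    exact div_eq_mul_one_div _ _
  rw [e6, s10]
  exact os_fin Ce Cd (Cm * (2 * c₀) ^ mm) Ct Cs c₀ K₁ Cp W Z X δ _ _ _ _ _ _ _ _ _ _ hCe hCd hCt
    hc₀pos hK₁ hCp hW1 hZ0 hmx0 s1' s2 g1 g2 g3 t3' s6' s9 g9

end Pool.Agent.Helper780_CQ.GOS
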