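import Pool.Agent.Helper780_CQ.W5
import Pool.Agent.Helper780_CQ.GDefs2
import Pool.Agent.Helper780_CP.Stable
import Pool.Agent.Helper780_CP.RGR1
import Pool.Agent.Helper780_CP.RGR2
import Pool.Agent.Helper985.CP.M_energies_basic

set_option autoImplicit false

open MeasureTheory
open scoped Topology

namespace Pool.Agent.Helper780_CQ.Rem

open Pool.Agent.Helper780_CQ.W5 (key)

open Pool.Agent.Helper780_CQ Pool.Agent.Helper780_CP Pool.Agent.Helper985.CP



theorem pe_ge {S : Type} (D : Species S) (hD : D.Valid) {I : Type} [Fintype I] [DecidableEq I]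
    (sp : I → S) (ℓ : ℝ) (Ψ : Wave D I) (hΨ : IsState D sp ℓ Ψ) (i : I) :
    D.charge (sp i) * wm D (ph1 D sp i) Ψ ≤ pe D sp i Ψ := by
  rw [← wm_smul]
  unfold wm pe
  refine Finset.sum_le_sum fun τ _ => ?_
  have h1 := (int_state D sp ℓ Ψ hΨ τ).2.1 i
  have h2 := WI_pair D sp ℓ i Ψ hΨ τ
  have e : ∀ x : I → E3, D.charge (sp i) * ph1 D sp i x =
      ∑ j, if i = j then 0 else D.charge (sp i) * D.charge (sp j) / ‖x i - x j‖ := by
    intro x
    unfold ph1
    rw [Finset.mul_sum]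
    refine Finset.sum_congr rfl fun j _ => ?_
    split_ifs with h
    · ring
    · ring
  simp only [e]
  refine integral_mono h2 (h1.add h2) fun x => ?_
  have h3 : 0 ≤ kin D sp i (Ψ τ) x := by
    unfold kin
    have := hD.mass_pos (sp i)
    positivity
  show _ ≤ _ + _
  linarith

theorem removal0 {S : Type} [Fintype S] [DecidableEq S] (D : Species S) (hD : D.Valid)
    (hf : ∀ s, D.charge s < 0 → D.fermion s = true) (ρ : ℝ) (hρ : 0 ≤ ρ) (a b : S)
    (hb : D.charge b = -D.charge a) : ∃ C ℓ0 : ℝ, 0 < C ∧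
    ∀ {I J : Type} [Fintype I] [DecidableEq I] [Fintype J] [DecidableEq J] (sp : I → S)
      (sp' : J → S) (ℓ : ℝ), ℓ0 ≤ ℓ → (Fintype.card I : ℝ) ≤ ρ * ℓ ^ 3 →
      (∑ i, D.charge (sp i) = 0) →
      (∀ s, cnt sp s = cnt sp' s + (if s = a then 1 else 0) + (if s = b then 1 else 0)) →
      sInf (energies D sp' ℓ) ≤ sInf (energies D sp ℓ) + C := by
  obtain ⟨C, ℓ0, hC, H⟩ := key D hD hf ρ hρ
  have hst := hstable D hD hf
  refine ⟨1 + 2 * |D.charge a| * C, max ℓ0 1, by positivity, ?_⟩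
  intro I J _ _ _ _ sp sp' ℓ hℓ hN hneu hcnt
  have hℓ0 : ℓ0 ≤ ℓ := (le_max_left _ _).trans hℓ
  have hℓ1 : 1 ≤ ℓ := (le_max_right _ _).trans hℓ
  have hℓp : 0 < ℓ := by linarith
  have hab : a ≠ b := by
    rintro rfl
    have := hD.charge_ne a
    apply this
    linarith
  -- the two particles
  have hA1 : 0 < (Finset.univ.filter (fun i => sp i = a)).card := by
    have h1 := hcnt a
    rw [if_pos rfl] at h1
    unfold cnt at h1
    omega
  have hB1 : 0 < (Finset.univ.filter (fun i => sp i = b)).card := by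
    have h1 := hcnt b
    rw [if_pos rfl] at h1
    unfold cnt at h1
    omega
  obtain ⟨ia, hia⟩ := Finset.card_pos.1 hA1
  obtain ⟨ib, hib⟩ := Finset.card_pos.1 hB1
  have hsa : sp ia = a := (Finset.mem_filter.1 hia).2
  have hsb : sp ib = b := (Finset.mem_filter.1 hib).2
  have hne : ia ≠ ib := by
    intro h
    apply hab
    rw [← hsa, ← hsb, h]
  have hGcnt : ∀ s, cnt sp s = cnt sp' s +
      (({ia, ib} : Finset I).filter (fun i => sp i = s)).card := by
    intro s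
    rw [hcnt s]
    have : (({ia, ib} : Finset I).filter (fun i => sp i = s)).card =
        (if s = a then 1 else 0) + (if s = b then 1 else 0) := by
      rw [Finset.filter_insert, Finset.filter_singleton, hsa, hsb]
      by_cases h1 : a = s
      · subst h1
        rw [if_pos rfl, if_neg (Ne.symm hab), if_pos rfl, if_neg hab]
        simp
      · by_cases h2 : b = s
        · subst h2
          rw [if_neg h1, if_pos rfl, if_neg (Ne.symm h1), if_pos rfl]
          simp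
        · rw [if_neg h1, if_neg h2, if_neg (Ne.symm h1), if_neg (Ne.symm h2)]
          simp
    rw [this, add_assoc]
  -- the state
  obtain ⟨-, -, hE, hmin⟩ := energies_basic D hD hst sp ℓ hℓp
  obtain ⟨-, -, hE', -⟩ := energies_basic D hD hst sp' ℓ hℓp
  obtain ⟨P, hP⟩ : ∃ P : ℝ, P = Real.exp (2 * ℓ + 3) * (1 + (Fintype.card I : ℝ)) ^ 4 :=
    ⟨_, rfl⟩
  have hP1 : 1 ≤ P := by
    rw [hP]
    have h1 : 1 ≤ Real.exp (2 * ℓ + 3) := Real.one_le_exp (by linarith)
    have h2 : (1 : ℝ) ≤ (1 + (Fintype.card I : ℝ)) ^ 4 :=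
      one_le_pow₀ (by linarith [Nat.cast_nonneg (α := ℝ) (Fintype.card I)])
    nlinarith
  have hP0 : 0 < P := by linarith
  obtain ⟨Ψ, hΨ, hn1, hgap⟩ : ∃ Ψ : Wave D I, IsState D sp ℓ Ψ ∧ nrm2 D Ψ = 1 ∧
      energy D sp Ψ ≤ sInf (energies D sp ℓ) + 1 / P := by
    obtain ⟨Φ, hΦ, hΦ0, hΦe⟩ := hmin (1 / P) (by positivity)
    obtain ⟨s1, s2, s3⟩ := RGR2.gr_scale D sp ℓ Φ hΦ (Real.sqrt (nrm2 D Φ))⁻¹
    have e1 : ((Real.sqrt (nrm2 D Φ))⁻¹) ^ 2 = (nrm2 D Φ)⁻¹ := by
      rw [inv_pow, Real.sq_sqrt hΦ0.le]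
    rw [e1] at s2 s3
    refine ⟨_, s1, ?_, ?_⟩
    · rw [s2, inv_mul_cancel₀ hΦ0.ne']
    · rw [s3, inv_mul_le_iff₀ hΦ0]
      linarith
  have hK := H sp ℓ (1 / P) hℓ0 hN hneu (by positivity)
    (by rw [← hP, one_div, inv_mul_cancel₀ hP0.ne']) Ψ hΨ hn1 hgap
  have k1 := hK ia
  have k2 := hK ib
  have p1 := pe_ge D hD sp ℓ Ψ hΨ ia
  have p2 := pe_ge D hD sp ℓ Ψ hΨ ib
  have main := RGR1.group_slice D sp sp' {ia, ib} hGcnt ℓ (sInf (energies D sp' ℓ)) hE' Ψ hΨ
  rw [hn1, mul_one, Finset.sum_pair hne, Finset.sum_pair hne, Finset.sum_pair hne,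
    Finset.sum_pair hne, if_pos rfl, if_neg hne, if_neg (Ne.symm hne), if_pos rfl] at main
  have hpair : ∀ i j : I, 0 ≤ wm D (fun x => 1 / ‖x i - x j‖) Ψ := by
    intro i j
    unfold wm
    exact Finset.sum_nonneg fun τ _ => integral_nonneg fun x => by positivity
  have q1 : D.charge (sp ia) * D.charge (sp ib) * wm D (fun x => 1 / ‖x ia - x ib‖) Ψ ≤ 0 := by
    rw [hsa, hsb, hb]
    have := mul_nonneg (sq_nonneg (D.charge a)) (hpair ia ib)
    nlinarith
  have q2 : D.charge (sp ib) * D.charge (sp ia) * wm D (fun x => 1 / ‖x ib - x ia‖) Ψ ≤ 0 := by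
    rw [hsa, hsb, hb]
    have := mul_nonneg (sq_nonneg (D.charge a)) (hpair ib ia)
    nlinarith
  rw [hsa] at p1
  rw [hsb, hb] at p2
  have r : -(2 * |D.charge a| * C) ≤ D.charge a * (wm D (ph1 D sp ia) Ψ - wm D (ph1 D sp ib) Ψ) := by
    have h1 : |D.charge a * (wm D (ph1 D sp ia) Ψ - wm D (ph1 D sp ib) Ψ)| ≤
        |D.charge a| * (2 * C) := by
      rw [abs_mul]
      refine mul_le_mul_of_nonneg_left ?_ (abs_nonneg _)
      rw [abs_le] at k1 k2 ⊢
      constructor <;> linarith [k1.1, k1.2, k2.1, k2.2]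
    have h2 := (abs_le.1 h1).1
    linarith
  have hP2 : 1 / P ≤ 1 := by
    rw [div_le_one hP0]
    exact hP1
  linarith

end Pool.Agent.Helper780_CQ.Rem
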