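import Pool.Agent.Helper780_CQ.GDefs2
import Pool.Agent.Helper780_CP.RL0
import Pool.Agent.Helper780_CP.RL2b
import Pool.Agent.Helper780_CP.RL2c


set_option autoImplicit false

open MeasureTheory
open scoped Topology

namespace Pool.Agent.Helper780_CQ.W1


open Pool.Agent.Helper780_CQ Pool.Agent.Helper780_CP Pool.Agent.Helper985.CP


theorem ew_pos (z : E3) : 0 < ew z := Real.exp_pos _

theorem ew_le_one (z : E3) : ew z ≤ 1 := by
  unfold ew
  exact Real.exp_le_one_iff.2 (neg_nonpos.2 (Real.sqrt_nonneg _))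

theorem ew_smooth : ContDiff ℝ SM ew := by
  unfold ew
  refine Real.contDiff_exp.comp (ContDiff.neg ?_)
  refine ContDiff.sqrt (contDiff_const.add (contDiff_norm_sq ℝ)) ?_
  intro z
  positivity

theorem ew_fderiv_sq (z : E3) :
    ∑ k : Fin 3, (fderiv ℝ ew z (EuclideanSpace.single k (1:ℝ))) ^ 2 ≤ ew z ^ 2 := by
  have hp : (0:ℝ) < 1 + ‖z‖ ^ 2 := by positivity
  have h1 : HasFDerivAt (fun v : E3 => 1 + ‖v‖ ^ 2) ((2:ℝ) • (innerSL ℝ z)) z := by
    have := (hasStrictFDerivAt_norm_sq z).hasFDerivAt.const_add 1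
    have e : (2 : ℕ) • (innerSL ℝ z) = (2:ℝ) • (innerSL ℝ z) := by
      rw [two_smul, two_smul]
    rw [e] at this
    exact this
  have h2 : HasFDerivAt ew _ z := (h1.sqrt hp.ne').neg.exp
  rw [h2.fderiv]
  have hs : 0 < √(1 + ‖z‖ ^ 2) := Real.sqrt_pos.2 hp
  have hs2 : √(1 + ‖z‖ ^ 2) ^ 2 = 1 + ‖z‖ ^ 2 := Real.sq_sqrt hp.le
  have hn : ‖z‖ ^ 2 = ∑ k : Fin 3, z k ^ 2 := by
    rw [EuclideanSpace.norm_sq_eq]
    simp
  have hk : ∀ k : Fin 3, ((Real.exp (-√(1 + ‖z‖ ^ 2)) • -((1 / (2 * √(1 + ‖z‖ ^ 2))) • (2:ℝ) •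
      (innerSL ℝ z))) (EuclideanSpace.single k (1:ℝ))) ^ 2 =
      ew z ^ 2 / (1 + ‖z‖ ^ 2) * z k ^ 2 := by
    intro k
    have : (innerSL ℝ z) (EuclideanSpace.single k (1:ℝ)) = z k := by
      simp [innerSL_apply_apply, EuclideanSpace.inner_single_right]
    simp only [_root_.smul_apply, _root_.neg_apply, this, smul_eq_mul]
    have hew : ew z = Real.exp (-√(1 + ‖z‖ ^ 2)) := rfl
    rw [← hew]
    have hr : ∀ s t : ℝ, 0 < s → s ^ 2 = t → (ew z * -(1 / (2 * s) * (2 * z k))) ^ 2 =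
        ew z ^ 2 / t * z k ^ 2 := by
      intro s t hs ht
      rw [← ht]
      field_simp
    exact hr _ _ hs hs2
  have hk2 : ∀ k : Fin 3, ((Real.exp ((-fun y : E3 => √(1 + ‖y‖ ^ 2)) z) •
      -((1 / (2 * √(1 + ‖z‖ ^ 2))) • (2:ℝ) • (innerSL ℝ z))) (EuclideanSpace.single k (1:ℝ))) ^ 2 =
      ew z ^ 2 / (1 + ‖z‖ ^ 2) * z k ^ 2 := hk
  rw [Finset.sum_congr rfl fun k _ => hk2 k, ← Finset.mul_sum, ← hn, div_mul_eq_mul_div,
    div_le_iff₀ hp]
  nlinarith [sq_nonneg (ew z)]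

theorem Wa_cont {S I : Type} [DecidableEq S] [Fintype I] (sp : I → S) (a : S) (y : E3) :
    ContDiff ℝ SM (Wa sp a y) := by
  unfold Wa
  refine ContDiff.sum fun i _ => ?_
  by_cases h : sp i = a
  · simp only [if_pos h]
    exact ew_smooth.comp ((contDiff_apply ℝ E3 i).sub contDiff_const)
  · simp only [if_neg h]
    exact contDiff_const

theorem Wa_nonneg {S I : Type} [DecidableEq S] [Fintype I] (sp : I → S) (a : S) (y : E3)
    (x : I → E3) : 0 ≤ Wa sp a y x :=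
  Finset.sum_nonneg fun i _ => by
    split_ifs
    · exact (ew_pos _).le
    · exact le_rfl

theorem Wa_ge {S I : Type} [DecidableEq S] [Fintype I] (sp : I → S) (i0 : I) (y : E3)
    (x : I → E3) : ew (x i0 - y) ≤ Wa sp (sp i0) y x := by
  unfold Wa
  have := Finset.single_le_sum (f := fun i => if sp i = sp i0 then ew (x i - y) else 0)
    (fun i _ => by
      split_ifs
      · exact (ew_pos _).le
      · exact le_rfl) (Finset.mem_univ i0)
  simpa using this

theorem Wa_le {S I : Type} [DecidableEq S] [Fintype I] (sp : I → S) (a : S) (y : E3)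
    (x : I → E3) : Wa sp a y x ≤ (Fintype.card I : ℝ) := by
  unfold Wa
  calc (∑ i, if sp i = a then ew (x i - y) else 0) ≤ ∑ _i : I, (1 : ℝ) :=
        Finset.sum_le_sum fun i _ => by
          split_ifs
          · exact ew_le_one _
          · exact zero_le_one
    _ = _ := by simp

theorem Wa_sy {S I : Type} [DecidableEq S] [Fintype I] [DecidableEq I] (sp : I → S) (a : S)
    (y : E3) : Sy sp (Wa sp a y) := by
  intro i j x hij
  unfold Wa
  have h : ∀ k, sp (Equiv.swap i j k) = sp k := by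
    intro k
    rcases eq_or_ne k i with h1 | h1
    · rw [h1, Equiv.swap_apply_left, hij]
    · rcases eq_or_ne k j with h2 | h2
      · rw [h2, Equiv.swap_apply_right, hij]
      · rw [Equiv.swap_apply_of_ne_of_ne h1 h2]
  have h2 := Equiv.sum_comp (Equiv.swap i j) fun k => if sp k = a then ew (x k - y) else 0
  simp only [h] at h2
  exact h2

/-- derivative of `Wa` -/
theorem Wa_fderiv {S I : Type} [DecidableEq S] [Fintype I] [DecidableEq I] (sp : I → S) (a : S)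
    (y : E3) (x : I → E3) (j : I) (e : E3) :
    fderiv ℝ (Wa sp a y) x (Pi.single j e) =
      if sp j = a then fderiv ℝ ew (x j - y) e else 0 := by
  have hc : ∀ i : I, HasFDerivAt (fun x : I → E3 => if sp i = a then ew (x i - y) else 0)
      (if sp i = a then (fderiv ℝ ew (x i - y)).comp
        (ContinuousLinearMap.proj (R := ℝ) (φ := fun _ : I => E3) i) else 0) x := by
    intro i
    by_cases h : sp i = a
    · simp only [if_pos h]
      have a1 : HasFDerivAt ew (fderiv ℝ ew (x i - y)) (x i - y) :=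
        ((ew_smooth.differentiable (by simp)) (x i - y)).hasFDerivAt
      have a2 : HasFDerivAt (fun x : I → E3 => x i - y)
          (ContinuousLinearMap.proj (R := ℝ) (φ := fun _ : I => E3) i) x :=
        (hasFDerivAt_apply i x).sub_const y
      exact a1.comp x a2
    · simp only [if_neg h]
      exact hasFDerivAt_const _ _
  have h2 : HasFDerivAt (Wa sp a y) (∑ i, (if sp i = a then (fderiv ℝ ew (x i - y)).comp
        (ContinuousLinearMap.proj (R := ℝ) (φ := fun _ : I => E3) i) else 0)) x :=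
    HasFDerivAt.fun_sum (u := Finset.univ) fun i _ => hc i
  rw [h2.fderiv]
  simp only [_root_.sum_apply]
  rw [Finset.sum_eq_single j]
  · split_ifs
    · simp
    · rfl
  · intro i _ hi
    split_ifs
    · rw [ContinuousLinearMap.comp_apply, ContinuousLinearMap.proj_apply,
        Pi.single_eq_of_ne hi, map_zero]
    · rfl
  · intro h
    exact absurd (Finset.mem_univ j) h

/-- the square of the gradient of `√W` -/
theorem gr_sqrt {S I : Type} [DecidableEq S] [Fintype I] [DecidableEq I] (sp : I → S) (i0 : I)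
    (y : E3) (c : ℝ) (x : I → E3) :
    gr (fun x => √(Wa sp (sp i0) y x) * c) x ≤ c ^ 2 * (Wa sp (sp i0) y x / 4) := by
  have hW0 : 0 < Wa sp (sp i0) y x := lt_of_lt_of_le (ew_pos _) (Wa_ge sp i0 y x)
  have hd : HasFDerivAt (Wa sp (sp i0) y) (fderiv ℝ (Wa sp (sp i0) y) x) x :=
    (((Wa_cont sp (sp i0) y).differentiable (by simp)) x).hasFDerivAt
  have h1 : HasFDerivAt (fun x => √(Wa sp (sp i0) y x) * c) _ x := (hd.sqrt hW0.ne').mul_const c
  unfold gr
  rw [h1.fderiv]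
  have hs2 : √(Wa sp (sp i0) y x) ^ 2 = Wa sp (sp i0) y x := Real.sq_sqrt hW0.le
  have hs : 0 < √(Wa sp (sp i0) y x) := Real.sqrt_pos.2 hW0
  have e : ∀ (i : I) (k : Fin 3), ((c • (1 / (2 * √(Wa sp (sp i0) y x))) •
      fderiv ℝ (Wa sp (sp i0) y) x) (Pi.single i (EuclideanSpace.single k (1 : ℝ)))) ^ 2 =
      c ^ 2 / (4 * Wa sp (sp i0) y x) * (if sp i = sp i0 then
        fderiv ℝ ew (x i - y) (EuclideanSpace.single k (1 : ℝ)) else 0) ^ 2 := by
    intro i k
    simp only [_root_.smul_apply, smul_eq_mul]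
    rw [Wa_fderiv]
    generalize (if sp i = sp i0 then
        fderiv ℝ ew (x i - y) (EuclideanSpace.single k (1 : ℝ)) else 0) = t
    rw [← hs2]
    simp only [Real.sqrt_sq hs.le]
    field_simp
    ring
  simp only [e, ← Finset.mul_sum]
  have h3 : ∑ i : I, ∑ k : Fin 3, (if sp i = sp i0 then
        fderiv ℝ ew (x i - y) (EuclideanSpace.single k (1 : ℝ)) else 0) ^ 2 ≤
      Wa sp (sp i0) y x ^ 2 := by
    calc _ ≤ ∑ i : I, (if sp i = sp i0 then ew (x i - y) else 0) ^ 2 := by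
          refine Finset.sum_le_sum fun i _ => ?_
          by_cases h : sp i = sp i0
          · simp only [if_pos h]
            exact ew_fderiv_sq _
          · simp [if_neg h]
      _ ≤ (∑ i : I, (if sp i = sp i0 then ew (x i - y) else 0)) ^ 2 :=
          Finset.sum_sq_le_sq_sum_of_nonneg fun i _ => by
            split_ifs
            · exact (ew_pos _).le
            · exact le_rfl
      _ = _ := rfl
  have h4 : 0 ≤ c ^ 2 / (4 * Wa sp (sp i0) y x) := by positivity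
  calc _ ≤ c ^ 2 / (4 * Wa sp (sp i0) y x) * Wa sp (sp i0) y x ^ 2 :=
        mul_le_mul_of_nonneg_left h3 h4
    _ = _ := by field_simp

/-- the product rule -/
theorem gr_mul {I : Type} [Fintype I] [DecidableEq I] (f g : (I → E3) → ℝ)
    (hf : ContDiff ℝ SM f) (hg : ContDiff ℝ SM g) (x : I → E3) :
    gr (fun x => f x * g x) x ≤ 2 * (g x ^ 2 * gr f x) + 2 * (f x ^ 2 * gr g x) := by
  have hfd : HasFDerivAt f (fderiv ℝ f x) x := ((hf.differentiable (by simp)) x).hasFDerivAt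
  have hgd : HasFDerivAt g (fderiv ℝ g x) x := ((hg.differentiable (by simp)) x).hasFDerivAt
  have h1 := (hfd.mul hgd).fderiv
  have h1' : fderiv ℝ (fun x => f x * g x) x = f x • fderiv ℝ g x + g x • fderiv ℝ f x := h1
  unfold gr
  rw [h1']
  simp only [Finset.mul_sum, ← Finset.sum_add_distrib]
  refine Finset.sum_le_sum fun i _ => Finset.sum_le_sum fun k _ => ?_
  simp only [_root_.add_apply, _root_.smul_apply, smul_eq_mul]
  generalize fderiv ℝ f x (Pi.single i (EuclideanSpace.single k (1 : ℝ))) = s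
  generalize fderiv ℝ g x (Pi.single i (EuclideanSpace.single k (1 : ℝ))) = t
  nlinarith [sq_nonneg (f x * t - g x * s)]

theorem gr_cont {I : Type} [Fintype I] [DecidableEq I] (f : (I → E3) → ℝ)
    (hf : ContDiff ℝ SM f) : Continuous (gr f) := by
  unfold gr
  refine continuous_finsetSum _ fun i _ => continuous_finsetSum _ fun k _ => ?_
  exact ((hf.continuous_fderiv (by simp)).clm_apply continuous_const).pow 2

theorem lower {S : Type} (D : Species S) [DecidableEq S] {I : Type} [Fintype I] [DecidableEq I]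
    (sp : I → S) (ℓ : ℝ) (hℓ : 0 < ℓ) (Ψ : Wave D I) (hΨ : IsState D sp ℓ Ψ) (h1 : nrm2 D Ψ = 1)
    (i0 : I) (y : E3) (hy : ∀ k, -1 ≤ y k ∧ y k ≤ ℓ + 1) :
    Real.exp (-(2 * ℓ + 3)) ≤ wm D (Wa sp (sp i0) y) Ψ := by
  have e1 : Real.exp (-(2 * ℓ + 3)) = wm D (fun _ => Real.exp (-(2 * ℓ + 3)) * 1) Ψ := by
    rw [wm_smul D (fun _ => 1) (Real.exp (-(2 * ℓ + 3))) Ψ, wm_one, h1, mul_one]
  rw [e1]
  unfold wm
  refine Finset.sum_le_sum fun τ _ => ?_
  refine integral_mono (WI_smul D sp ℓ (WI_const D sp ℓ 1) _ Ψ hΨ τ)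
    (RL2c.le_WI_cont D sp ℓ _ (Wa_cont sp (sp i0) y).continuous Ψ hΨ τ) fun x => ?_
  simp only
  by_cases hx : Ψ τ x = 0
  · rw [hx]
    simp
  · refine mul_le_mul_of_nonneg_right ?_ (sq_nonneg _)
    have hx2 : x ∈ tsupport (Ψ τ) := subset_tsupport _ hx
    have hc := hΨ.support τ hx2 i0
    rw [mul_one]
    refine le_trans ?_ (Wa_ge sp i0 y x)
    unfold ew
    refine Real.exp_le_exp.2 (neg_le_neg ?_)
    refine (Real.sqrt_le_left (by linarith)).2 ?_
    have hn : ‖x i0 - y‖ ^ 2 = ∑ k : Fin 3, (x i0 k - y k) ^ 2 := by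
      rw [EuclideanSpace.norm_sq_eq]
      simp
    have hk : ∀ k : Fin 3, (x i0 k - y k) ^ 2 ≤ (ℓ + 1) ^ 2 := by
      intro k
      have h2 := hc k
      have h3 := hy k
      refine sq_le_sq' ?_ ?_ <;> linarith [h2.1, h2.2, h3.1, h3.2]
    rw [hn, Fin.sum_univ_three]
    nlinarith [hk 0, hk 1, hk 2]

/-- TARGET -/
theorem ng_weight {S : Type} [Fintype S] [DecidableEq S] (D : Species S) (hD : D.Valid) :
    ∃ K : ℝ, 0 < K ∧ ∀ {I : Type} [Fintype I] [DecidableEq I] (sp : I → S) (ℓ η : ℝ), 0 < ℓ →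
      0 ≤ η →
      (∀ Φ : Wave D I, IsState D sp ℓ Φ → sInf (energies D sp ℓ) * nrm2 D Φ ≤ energy D sp Φ) →
      ∀ Ψ : Wave D I, IsState D sp ℓ Ψ → nrm2 D Ψ = 1 →
      energy D sp Ψ ≤ sInf (energies D sp ℓ) + η →
      ∀ (i0 : I) (y : E3), (∀ k, -1 ≤ y k ∧ y k ≤ ℓ + 1) →
      Real.exp (-(2 * ℓ + 3)) ≤ wm D (Wa sp (sp i0) y) Ψ ∧
      NG D sp ℓ K ((Fintype.card I : ℝ) * η / wm D (Wa sp (sp i0) y) Ψ) (Pw D sp (sp i0) y Ψ) ∧
      (∀ V : (I → E3) → ℝ, wm D V (Pw D sp (sp i0) y Ψ) =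
        wm D (fun x => Wa sp (sp i0) y x * V x) Ψ / wm D (Wa sp (sp i0) y) Ψ) := by
  obtain ⟨C, hC, H⟩ := RL0.near_min D hD
  refine ⟨2 * C, by positivity, ?_⟩
  intro I _ _ sp ℓ η hℓ hη hE Ψ hΨ hn hen i0 y hy
  have hlow := lower D sp ℓ hℓ Ψ hΨ hn i0 y hy
  obtain ⟨w, hw⟩ : ∃ w, w = wm D (Wa sp (sp i0) y) Ψ := ⟨_, rfl⟩
  have hw0 : 0 < w := by rw [hw]; exact lt_of_lt_of_le (Real.exp_pos _) hlow
  have hsw : 0 < √w := Real.sqrt_pos.2 hw0
  have hsw2 : √w ^ 2 = w := Real.sq_sqrt hw0.le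
  have hWpos : ∀ x, 0 < Wa sp (sp i0) y x := fun x => lt_of_lt_of_le (ew_pos _) (Wa_ge sp i0 y x)
  obtain ⟨f1, hf1⟩ : ∃ f1 : (I → E3) → ℝ, f1 = fun x => √(Wa sp (sp i0) y x) * (√w)⁻¹ := ⟨_, rfl⟩
  have hf1s : ContDiff ℝ SM f1 := by
    rw [hf1]
    refine ContDiff.mul (ContDiff.sqrt (Wa_cont sp (sp i0) y) fun x => (hWpos x).ne') contDiff_const
  have hf1y : Sy sp f1 := by
    intro i j x hij
    rw [hf1]
    simp only
    rw [Wa_sy sp (sp i0) y i j x hij]
  have hf1q : ∀ x, f1 x ^ 2 = w⁻¹ * Wa sp (sp i0) y x := by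
    intro x
    rw [hf1]
    simp only
    rw [mul_pow, Real.sq_sqrt (hWpos x).le, inv_pow, hsw2]
    ring
  have hP : Pw D sp (sp i0) y Ψ = mulW D f1 Ψ := by
    unfold Pw
    rw [← hw, hf1]
    simp only [div_eq_mul_inv]
  have h3 : ∀ V : (I → E3) → ℝ, wm D V (Pw D sp (sp i0) y Ψ) =
      wm D (fun x => Wa sp (sp i0) y x * V x) Ψ / w := by
    intro V
    rw [hP, wm_mulW]
    have : (fun x => f1 x ^ 2 * V x) = fun x => w⁻¹ * (Wa sp (sp i0) y x * V x) := by
      funext x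
      rw [hf1q]
      ring
    rw [this, wm_smul D (fun x => Wa sp (sp i0) y x * V x) w⁻¹ Ψ]
    rw [div_eq_inv_mul]
  have hst : IsState D sp ℓ (Pw D sp (sp i0) y Ψ) := by
    rw [hP]
    exact RL0.mulW_stateS D sp ℓ Ψ hΨ f1 hf1s hf1y
  have hnr : nrm2 D (Pw D sp (sp i0) y Ψ) = 1 := by
    rw [← wm_one, h3]
    simp only [mul_one]
    have : wm D (fun x => Wa sp (sp i0) y x) Ψ = w := hw.symm
    rw [this, div_self hw0.ne']
  rw [← hw]
  refine ⟨hw ▸ hlow, ⟨hst, hnr, ?_⟩, h3⟩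
  intro f B hf hfs hfB
  have hB0 : 0 ≤ B := (abs_nonneg _).trans (hfB 0)
  have hgs : ContDiff ℝ SM (fun x => f x * f1 x) := hf.mul hf1s
  have hgy : Sy sp (fun x => f x * f1 x) := by
    intro i j x hij
    simp only
    rw [hfs i j x hij, hf1y i j x hij]
  have hgB : ∀ x, |f x * f1 x| ≤ B * √((Fintype.card I : ℝ) / w) := by
    intro x
    rw [abs_mul]
    refine mul_le_mul (hfB x) ?_ (abs_nonneg _) hB0
    refine Real.abs_le_sqrt ?_
    rw [hf1q, div_eq_inv_mul]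
    exact mul_le_mul_of_nonneg_left (Wa_le sp (sp i0) y x) (inv_nonneg.2 hw0.le)
  have hM := H sp ℓ (sInf (energies D sp ℓ)) η hη hE Ψ hΨ hn hen _ _ hgs hgy hgB
  have e1 : mulW D f (Pw D sp (sp i0) y Ψ) = mulW D (fun x => f x * f1 x) Ψ := by
    rw [hP, mulW_mulW]
  rw [← e1] at hM
  have e2 : (B * √((Fintype.card I : ℝ) / w)) ^ 2 * η = B ^ 2 * ((Fintype.card I : ℝ) * η / w) := by
    rw [mul_pow, Real.sq_sqrt (by positivity)]
    ring
  rw [e2] at hM
  -- the gradient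
  have hg1 : wm D (gr fun x => f x * f1 x) Ψ ≤
      2 * wm D (gr f) (Pw D sp (sp i0) y Ψ) + 1 / 2 * nrm2 D (mulW D f (Pw D sp (sp i0) y Ψ)) := by
    have e3 : wm D (gr f) (Pw D sp (sp i0) y Ψ) = wm D (fun x => f1 x ^ 2 * gr f x) Ψ := by
      rw [hP, wm_mulW]
    have e4 : nrm2 D (mulW D f (Pw D sp (sp i0) y Ψ)) =
        wm D (fun x => f x ^ 2 * (f1 x ^ 2)) Ψ := by
      rw [e1, ← wm_one, wm_mulW]
      congr 1
      funext x
      ring
    rw [e3, e4, ← wm_smul, ← wm_smul]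
    have c1 : Continuous (fun x => 2 * (f1 x ^ 2 * gr f x)) :=
      continuous_const.mul ((hf1s.continuous.pow 2).mul (gr_cont f hf))
    have c2 : Continuous (fun x => 1 / 2 * (f x ^ 2 * (f1 x ^ 2))) :=
      continuous_const.mul ((hf.continuous.pow 2).mul (hf1s.continuous.pow 2))
    rw [← wm_add D sp ℓ (RL2c.le_WI_cont D sp ℓ _ c1) (RL2c.le_WI_cont D sp ℓ _ c2) Ψ hΨ]
    refine wm_mono D sp ℓ (RL2c.le_WI_cont D sp ℓ _ (gr_cont _ hgs))
      (RL2c.le_WI_cont D sp ℓ _ (c1.add c2)) Ψ hΨ (Filter.Eventually.of_forall fun x => ?_)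
    have h5 := gr_mul f f1 hf hf1s x
    have h6 : gr f1 x ≤ f1 x ^ 2 / 4 := by
      have := gr_sqrt sp i0 y (√w)⁻¹ x
      rw [← hf1] at this
      rw [hf1q]
      rw [inv_pow, hsw2] at this
      linarith
    have h7 : f x ^ 2 * gr f1 x ≤ f x ^ 2 * (f1 x ^ 2 / 4) :=
      mul_le_mul_of_nonneg_left h6 (sq_nonneg _)
    show gr (fun x => f x * f1 x) x ≤ 2 * (f1 x ^ 2 * gr f x) + 1 / 2 * (f x ^ 2 * f1 x ^ 2)
    linarith
  have hn0 : 0 ≤ nrm2 D (mulW D f (Pw D sp (sp i0) y Ψ)) := by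
    unfold nrm2
    exact Finset.sum_nonneg fun τ _ => integral_nonneg fun x => sq_nonneg _
  have hb0 : 0 ≤ B ^ 2 * ((Fintype.card I : ℝ) * η / w) := by positivity
  have h8 : C * (wm D (gr fun x => f x * f1 x) Ψ + B ^ 2 * ((Fintype.card I : ℝ) * η / w)) ≤
      C * (2 * wm D (gr f) (Pw D sp (sp i0) y Ψ) + 1 / 2 * nrm2 D (mulW D f (Pw D sp (sp i0) y Ψ)) +
        B ^ 2 * ((Fintype.card I : ℝ) * η / w)) :=
    mul_le_mul_of_nonneg_left (by linarith) hC.le
  nlinarith [mul_nonneg hC.le hn0, mul_nonneg hC.le hb0]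

end Pool.Agent.Helper780_CQ.W1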