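import Pool.Agent.Helper780_CQ.GDefs2
import Pool.Agent.Helper780_CP.RB29


set_option autoImplicit false

open MeasureTheory
open scoped Topology

namespace Pool.Agent.Helper780_CQ.W2


open Pool.Agent.Helper780_CQ Pool.Agent.Helper780_CP Pool.Agent.Helper985.CP

section w2aux

open Pool.Agent.Helper780_CP.RB29
open Pool.Agent.Helper780_CP.RB1 (kern_facts)

/-- the pointwise bound -/
theorem pa_point {S : Type} (D : Species S) {I : Type} [Fintype I]
    (sp : I → S) (ℓ K : ℝ) (hK : 8 ≤ K) (C4 z : ℝ) (hz : ∀ s, |D.charge s| ≤ z)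
    (hz0 : 0 ≤ z) (hC4 : 0 ≤ C4)
    (hyl : ∀ (c : I → ℝ) (x : I → E3) (z μ : ℝ), (∀ i, |c i| ≤ z) → 2 ≤ μ → ∀ w : E3,
      ∫ ω in Metric.ball w 2, |yp c x μ ω| ≤ C4 * z / μ ^ 2 * nn w x)
    (y : E3) (x : I → E3) :
    ∫ ω in Metric.ball y 1, |phi D sp ω x - phb D sp ℓ x| ≤
      (volume.real (Metric.ball (0 : E3) 1) +
        ∫ ω in Metric.ball y 1, vv D sp ℓ K y x ω ^ 2) + C4 * z / 4 * nn y x := by
  set V := volume.real (Metric.ball (0 : E3) 1) with hV
  have hV0 : 0 ≤ V := measureReal_nonneg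
  have hVy : volume.real (Metric.ball y 1) = V := by
    rw [hV, Measure.real, Measure.real, Measure.addHaar_ball_center]
  have hμ := fp_mu_ge K hK y x
  obtain ⟨hc1, hc2, -, ⟨B, hB⟩, hc5⟩ := kern_facts (fun i => D.charge (sp i)) x (mu K y x)
    (phb D sp ℓ x) (by linarith)
  have hv2 : IntegrableOn (fun ω => vv D sp ℓ K y x ω ^ 2) (Metric.ball y 1) := by
    have h1 : Continuous (fun ω => vv D sp ℓ K y x ω) := hc1
    exact ((h1.pow 2).continuousOn.integrableOn_compact (isCompact_closedBall y 1)).mono_set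
      Metric.ball_subset_closedBall
  have hyi : ∀ r : ℝ, IntegrableOn (fun ω => yy D sp K y x ω) (Metric.ball y r) := by
    intro r
    have h1 : IntegrableOn (fun ω => 1 + yy D sp K y x ω ^ 2) (Metric.ball y r) := by
      refine Integrable.add ?_ ((hc5 y r).mono_set Metric.ball_subset_closedBall)
      exact integrableOn_const measure_ball_lt_top.ne
    have h2 : Measurable (fun ω => yy D sp K y x ω) := by
      unfold yy yp Yk
      refine Finset.measurable_fun_sum _ fun i _ => ?_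
      refine Measurable.const_mul ?_ _
      have h3 : Measurable (fun ω : E3 => ‖x i - ω‖) := (measurable_const.sub measurable_id).norm
      exact (h3.const_mul _).neg.exp.div h3
    refine Integrable.mono' h1 h2.aestronglyMeasurable (Filter.Eventually.of_forall fun ω => ?_)
    rw [Real.norm_eq_abs]
    have := sq_nonneg (|yy D sp K y x ω| - 1)
    nlinarith [sq_abs (yy D sp K y x ω), abs_nonneg (yy D sp K y x ω)]
  have hci : IntegrableOn (fun _ : E3 => (1 : ℝ)) (Metric.ball y 1) volume :=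
    integrableOn_const measure_ball_lt_top.ne
  have hgi : IntegrableOn (fun ω => (1 + vv D sp ℓ K y x ω ^ 2) + |yy D sp K y x ω|)
      (Metric.ball y 1) := (hci.add hv2).add (hyi 1).abs
  have h1 : ∀ᵐ ω : E3, ∀ i, ω ≠ x i := by
    rw [ae_all_iff]
    intro i
    exact (Set.finite_singleton (x i)).countable.ae_notMem volume |>.mono fun ω hω h =>
      hω (by simpa using h)
  have h2 : ∫ ω in Metric.ball y 1, |phi D sp ω x - phb D sp ℓ x| ≤
      ∫ ω in Metric.ball y 1, ((1 + vv D sp ℓ K y x ω ^ 2) + |yy D sp K y x ω|) := by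
    refine integral_mono_of_nonneg (Filter.Eventually.of_forall fun ω => abs_nonneg _) hgi ?_
    refine ae_restrict_of_ae ?_
    filter_upwards [h1] with ω hω
    have h3 : phi D sp ω x - phb D sp ℓ x = vv D sp ℓ K y x ω + yy D sp K y x ω := by
      unfold phi vv yy vp yp
      have h3 : ∀ i, D.charge (sp i) * (1 / ‖x i - ω‖) =
          D.charge (sp i) * Lk (mu K y x) (x i - ω) + D.charge (sp i) * Yk (mu K y x) (x i - ω) := by
        intro i
        rw [← fp_LY (mu K y x) (x i - ω) (sub_ne_zero.2 (hω i).symm)]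
        ring
      simp only [h3, Finset.sum_add_distrib]
      ring
    rw [h3]
    have h4 := abs_add_le (vv D sp ℓ K y x ω) (yy D sp K y x ω)
    have h5 := sq_nonneg (|vv D sp ℓ K y x ω| - 1)
    nlinarith [sq_abs (vv D sp ℓ K y x ω), abs_nonneg (vv D sp ℓ K y x ω)]
  have hcv : Integrable (fun ω => 1 + vv D sp ℓ K y x ω ^ 2)
      (volume.restrict (Metric.ball y 1)) := hci.add hv2
  have hci' : Integrable (fun _ : E3 => (1 : ℝ)) (volume.restrict (Metric.ball y 1)) := hci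
  rw [integral_add hcv (hyi 1).abs, integral_add hci' hv2, setIntegral_const, smul_eq_mul,
    hVy, mul_one] at h2
  have b3 : ∫ ω in Metric.ball y 1, |yy D sp K y x ω| ≤ C4 * z / 4 * nn y x := by
    have h2 : ∫ ω in Metric.ball y 1, |yy D sp K y x ω| ≤
        ∫ ω in Metric.ball y 2, |yy D sp K y x ω| := by
      refine setIntegral_mono_set (hyi 2).abs (Filter.Eventually.of_forall fun ω => by
        simp only [Pi.zero_apply]; exact abs_nonneg _) (Filter.Eventually.of_forall ?_)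
      exact Metric.ball_subset_ball (by norm_num)
    have h3 := hyl (fun i => D.charge (sp i)) x z (mu K y x) (fun i => hz _) hμ y
    have h4 : C4 * z / mu K y x ^ 2 * nn y x ≤ C4 * z / 4 * nn y x := by
      refine mul_le_mul_of_nonneg_right ?_ (Finset.sum_nonneg fun _ _ => (Real.exp_pos _).le)
      refine div_le_div_of_nonneg_left (by positivity) (by norm_num) ?_
      nlinarith
    exact h2.trans (h3.trans h4)
  linarith

/-- measurability of the mean of the modulus -/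
theorem pa_meas {S : Type} (D : Species S) {I : Type} [Fintype I]
    (sp : I → S) (ℓ : ℝ) (hℓ : 0 < ℓ) (y : E3) :
    Measurable (fun x : I → E3 => ∫ ω in Metric.ball y 1, |phi D sp ω x - phb D sp ℓ x|) := by
  have hF : Measurable (fun q : (I → E3) × E3 => |phi D sp q.2 q.1 - phb D sp ℓ q.1|) := by
    refine Measurable.abs ?_
    refine Measurable.sub ?_ ((fp_phb_meas D sp ℓ hℓ).comp measurable_fst)
    unfold phi
    refine Finset.measurable_fun_sum _ fun i _ => ?_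
    refine Measurable.const_mul ?_ _
    have h1 : Measurable (fun q : (I → E3) × E3 => q.1 i) :=
      (measurable_pi_apply i).comp measurable_fst
    exact measurable_const.div (h1.sub measurable_snd).norm
  exact (StronglyMeasurable.integral_prod_right
    (f := fun (x : I → E3) (ω : E3) => |phi D sp ω x - phb D sp ℓ x|)
    hF.stronglyMeasurable).measurable

end w2aux

/-- TARGET -/
theorem pot_abs {S : Type} [Fintype S] [DecidableEq S] (D : Species S) (hD : D.Valid)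
    (hf : ∀ s, D.charge s < 0 → D.fermion s = true) (hz : ∀ s, 0 < |D.charge s|) (C0 : ℝ)
    (hC0 : 0 ≤ C0) : ∃ C ℓ0 : ℝ, 0 < C ∧
    ∀ {I : Type} [Fintype I] [DecidableEq I] (sp : I → S) (ℓ η : ℝ) {k : ℕ} (p : Fin k → ℝ)
      (ψ : Fin k → Wave D I), ℓ0 ≤ ℓ → BS D sp ℓ C0 η p ψ → ∀ y : E3,
      (∀ k, -1 ≤ y k ∧ y k ≤ ℓ + 1) →
      (∑ j, p j * kb D sp y 3 (ψ j) ≤ C) ∧ wx D p ψ (nb y 3) ≤ C ∧
      WI D sp ℓ (fun x => ∫ ω in Metric.ball y 1, |phi D sp ω x - phb D sp ℓ x|) ∧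
      wx D p ψ (fun x => ∫ ω in Metric.ball y 1, |phi D sp ω x - phb D sp ℓ x|) ≤ C := by
  classical
  obtain ⟨K, ℓ0, C1, hK, hC1, hcl⟩ := RB27.closure D hD hf hz C0 hC0
  obtain ⟨C2, hC2, hint0⟩ := RB21.int2A D hD hf hz C0 59 hC0 (by norm_num)
  obtain ⟨CK, hCK, hint⟩ := hint0 K hK
  obtain ⟨C3, hC3, hnum⟩ := RB15.num_sup D hD hf hz C0 hC0
  obtain ⟨C4, hC4, hyl⟩ := RB8.yl
  obtain ⟨z, hz0, hz1⟩ : ∃ z : ℝ, 0 ≤ z ∧ ∀ s, |D.charge s| ≤ z :=
    ⟨∑ s, |D.charge s|, Finset.sum_nonneg fun _ _ => abs_nonneg _, fun s =>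
      Finset.single_le_sum (f := fun s => |D.charge s|) (fun _ _ => abs_nonneg _)
        (Finset.mem_univ s)⟩
  obtain ⟨V, hV⟩ : ∃ V : ℝ, V = volume.real (Metric.ball (0 : E3) 1) := ⟨_, rfl⟩
  have hV0 : 0 ≤ V := by rw [hV]; exact measureReal_nonneg
  obtain ⟨M1, hM1⟩ : ∃ M1 : ℝ, M1 = CK * (1 + C1) ^ ((4 : ℝ) / 5) +
    C2 / K ^ ((1 : ℝ) / 3) * (1 + C1) := ⟨_, rfl⟩
  have hK0 : 0 < K := by linarith
  have hM1p : 0 < M1 := by rw [hM1]; positivity
  obtain ⟨N, hN⟩ : ∃ N : ℝ, N = 1 + C3 * (1 + C1) := ⟨_, rfl⟩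
  have hNp : 0 < N := by rw [hN]; positivity
  obtain ⟨M2, hM2⟩ : ∃ M2 : ℝ, M2 = 2 * M1 + 2 * 59 ^ 2 * C1 := ⟨_, rfl⟩
  have hM12 : M1 ≤ M2 := by rw [hM2]; nlinarith
  have hM2p : 0 < M2 := by linarith
  obtain ⟨T, hT⟩ : ∃ T : ℝ, T = (V + M2) + C4 * z / 4 * N := ⟨_, rfl⟩
  have hTp : 0 < T := by
    rw [hT]
    have t3 : 0 ≤ C4 * z / 4 * N := by positivity
    linarith
  refine ⟨T + N, ℓ0, by positivity, ?_⟩
  intro I _ _ sp ℓ η k p ψ hℓ hBS y hy
  have hq := hcl sp ℓ η p ψ hℓ hBS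
  have hlen := hBS.len
  have hℓ0 : 0 < ℓ := by linarith
  have hst := hBS.state
  have hp0 := hBS.p0
  obtain ⟨n0, n1, n2, -⟩ := hnum sp ℓ η p ψ hBS K C1 hK hC1.le hq y
  have m0 : ∑ j, p j * kb D sp y 3 (ψ j) ≤ T + N := by
    rw [hN]
    linarith
  have m1 : wx D p ψ (nb y 3) ≤ N := by
    rw [hN]
    exact RB29.fp_mean_le D sp ℓ p hp0 hBS.p1 ψ hst hBS.nrm (nb y 3) (RB29.fp_nb_meas y 3) _
      (RB29.fp_nb_bd y 3) _ n1
  have m2 : wx D p ψ (nn y) ≤ N := by
    rw [hN]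
    exact RB29.fp_mean_le D sp ℓ p hp0 hBS.p1 ψ hst hBS.nrm (nn y) (RB29.fp_nn_meas y) _
      (RB29.fp_nn_bd y) _ n2
  -- admissible weights
  have hWnn : WI D sp ℓ (nn y) := RB29.fp_WI_bd D sp ℓ _ (RB29.fp_nn_meas y) _ fun x => by
    rw [abs_of_nonneg (RB29.fp_nn_bd y x).1]; exact (RB29.fp_nn_bd y x).2
  obtain ⟨B, hB⟩ := RB29.fp_vv_bd D sp ℓ K hℓ0 hK y
  obtain ⟨B', hB'⟩ := RB29.fp_gg_bd D sp K hK y
  have hWv : ∀ w : E3, WI D sp ℓ (fun x => ∫ ω in Metric.ball w 1, vv D sp ℓ K y x ω ^ 2) := by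
    intro w
    refine RB29.fp_WI_par D sp ℓ _ measure_ball_lt_top (fun x ω => vv D sp ℓ K y x ω ^ 2)
      ((RB29.fp_vv_meas D sp ℓ K hℓ0 y).pow_const 2) (B ^ 2) fun x ω => ?_
    rw [abs_of_nonneg (sq_nonneg _), ← sq_abs]
    exact pow_le_pow_left₀ (abs_nonneg _) (hB x ω) 2
  have hWg : WI D sp ℓ (fun x => ∫ ω in Metric.ball y 60, ‖gg D sp K y x ω‖ ^ 2) := by
    refine RB29.fp_WI_par D sp ℓ _ measure_ball_lt_top (fun x ω => ‖gg D sp K y x ω‖ ^ 2)
      ((RB29.fp_gg_meas D sp K y).norm.pow_const 2) (B' ^ 2) fun x ω => ?_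
    rw [abs_of_nonneg (sq_nonneg _)]
    exact pow_le_pow_left₀ (norm_nonneg _) (hB' x ω) 2
  have m4 : wx D p ψ (fun x => ∫ ω in Metric.ball y 1, vv D sp ℓ K y x ω ^ 2) ≤ M2 := by
    by_cases hw : ∀ k, 20 ≤ y k ∧ y k ≤ ℓ - 20
    · have hsub : Metric.closedBall y 4 ⊆ cube ℓ := by
        intro v hv k
        have h2 : ‖v - y‖ ≤ 4 := by
          rw [← dist_eq_norm]; exact hv
        have h3 := (PiLp.norm_apply_le (v - y) k).trans h2
        have e : (v - y : E3) k = v k - y k := rfl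
        rw [Real.norm_eq_abs, e, abs_le] at h3
        obtain ⟨h4, h5⟩ := h3
        obtain ⟨h6, h7⟩ := hw k
        constructor <;> linarith
      have h1 := hint sp ℓ η p ψ hBS C1 hC1.le hq y y (by simp) hsub
      rw [← hM1] at h1
      exact h1.trans hM12
    · have hyw : y ∈ wall ℓ := by
        refine ⟨fun k => ?_, hw⟩
        obtain ⟨h1, h2⟩ := hy k
        constructor <;> linarith
      obtain ⟨a, ha1, ha2⟩ := RB29.fp_clamp ℓ hlen y hyw
      have hkb0 : 0 ≤ ∑ j, p j * kb D sp y 8 (ψ j) := by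
        refine Finset.sum_nonneg fun j _ => mul_nonneg (hp0 j) ?_
        unfold kb
        refine Finset.sum_nonneg fun τ _ => integral_nonneg fun x => Finset.sum_nonneg fun i _ => ?_
        split_ifs
        · unfold kin
          have := hD.mass_pos (sp i)
          positivity
        · exact le_rfl
      have hqy := hq y hyw
      unfold qB at hqy
      have hgg : wx D p ψ (fun x => ∫ ω in Metric.ball y 60, ‖gg D sp K y x ω‖ ^ 2) ≤ C1 := by
        linarith
      have h1 := hint sp ℓ η p ψ hBS C1 hC1.le hq y a ha1 ha2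
      rw [← hM1] at h1
      have h2 : ∀ x : I → E3, ∫ ω in Metric.ball y 1, vv D sp ℓ K y x ω ^ 2 ≤
          2 * (∫ ω in Metric.ball a 1, vv D sp ℓ K y x ω ^ 2) +
          2 * 59 ^ 2 * ∫ ω in Metric.ball y 60, ‖gg D sp K y x ω‖ ^ 2 := by
        intro x
        have h3 := RB24.path_v (fun i => D.charge (sp i)) x (mu K y x) (phb D sp ℓ x)
          (by have := RB29.fp_mu_ge K hK y x; linarith) y a y ha1 (by simp)
        have h4 : 0 ≤ ∫ ω in Metric.ball y 60, ‖gg D sp K y x ω‖ ^ 2 :=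
          integral_nonneg fun ω => by positivity
        have h5 : ‖y - a‖ ^ 2 ≤ 59 ^ 2 := by
          rw [norm_sub_rev]
          exact pow_le_pow_left₀ (norm_nonneg _) ha1 2
        have h6 : 2 * ‖y - a‖ ^ 2 * ∫ ω in Metric.ball y 60, ‖gg D sp K y x ω‖ ^ 2 ≤
            2 * 59 ^ 2 * ∫ ω in Metric.ball y 60, ‖gg D sp K y x ω‖ ^ 2 :=
          mul_le_mul_of_nonneg_right (by linarith) h4
        exact h3.trans (add_le_add le_rfl h6)
      have h7 := RB29.fp_wx_mono D sp ℓ p hp0 ψ hst (hWv y)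
        (WI_add D sp ℓ (WI_smul D sp ℓ (hWv a) 2) (WI_smul D sp ℓ hWg (2 * 59 ^ 2))) h2
      rw [RB29.fp_wx_add D sp ℓ p ψ hst (WI_smul D sp ℓ (hWv a) 2)
        (WI_smul D sp ℓ hWg (2 * 59 ^ 2)), RB29.fp_wx_smul, RB29.fp_wx_smul] at h7
      rw [hM2]
      have h8 := mul_le_mul_of_nonneg_left hgg (by norm_num : (0 : ℝ) ≤ 2 * 59 ^ 2)
      linarith
  have hpt : ∀ x : I → E3, ∫ ω in Metric.ball y 1, |phi D sp ω x - phb D sp ℓ x| ≤
      (V + ∫ ω in Metric.ball y 1, vv D sp ℓ K y x ω ^ 2) + C4 * z / 4 * nn y x := by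
    intro x
    have h1 := pa_point D sp ℓ K hK C4 z hz1 hz0 hC4.le
      (fun c x z μ h2 h3 w => (hyl c x z μ h2 h3 w).2.1) y x
    rw [← hV] at h1
    exact h1
  have hF0 : ∀ x : I → E3, 0 ≤ ∫ ω in Metric.ball y 1, |phi D sp ω x - phb D sp ℓ x| :=
    fun x => integral_nonneg fun ω => abs_nonneg _
  have hVy : volume.real (Metric.ball y 1) = V := by
    rw [hV, Measure.real, Measure.real, Measure.addHaar_ball_center]
  have hWF : WI D sp ℓ (fun x => ∫ ω in Metric.ball y 1, |phi D sp ω x - phb D sp ℓ x|) := by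
    refine RB29.fp_WI_bd D sp ℓ _ (pa_meas D sp ℓ hℓ0 y)
      ((V + B ^ 2 * V) + C4 * z / 4 * (Fintype.card I : ℝ)) fun x => ?_
    rw [abs_of_nonneg (hF0 x)]
    refine (hpt x).trans ?_
    have h1 : ∫ ω in Metric.ball y 1, vv D sp ℓ K y x ω ^ 2 ≤ B ^ 2 * V := by
      have h2 := norm_setIntegral_le_of_norm_le_const (μ := volume) (s := Metric.ball y 1)
        (f := fun ω => vv D sp ℓ K y x ω ^ 2) (C := B ^ 2) measure_ball_lt_top
        (fun ω _ => by
          rw [Real.norm_eq_abs, abs_of_nonneg (sq_nonneg _), ← sq_abs]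
          exact pow_le_pow_left₀ (abs_nonneg _) (hB x ω) 2)
      rw [hVy] at h2
      exact (le_abs_self _).trans h2
    have h2 : C4 * z / 4 * nn y x ≤ C4 * z / 4 * (Fintype.card I : ℝ) :=
      mul_le_mul_of_nonneg_left (RB29.fp_nn_bd y x).2 (by positivity)
    linarith
  refine ⟨m0, by linarith, hWF, ?_⟩
  have g3 : WI D sp ℓ (fun x : I → E3 => V +
      ∫ ω in Metric.ball y 1, vv D sp ℓ K y x ω ^ 2) :=
    WI_add D sp ℓ (WI_const D sp ℓ V) (hWv y)
  have g4 : WI D sp ℓ (fun x : I → E3 => C4 * z / 4 * nn y x) :=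
    WI_smul D sp ℓ hWnn _
  have key := RB29.fp_wx_mono D sp ℓ p hp0 ψ hst hWF (WI_add D sp ℓ g3 g4) hpt
  rw [RB29.fp_wx_add D sp ℓ p ψ hst g3 g4, RB29.fp_wx_smul,
    RB29.fp_wx_add D sp ℓ p ψ hst (WI_const D sp ℓ V) (hWv y),
    RB29.fp_wx_const D p ψ hBS.nrm hBS.p1] at key
  have k3 := mul_le_mul_of_nonneg_left m2 (by positivity : 0 ≤ C4 * z / 4)
  have k4 : wx D p ψ (fun x => ∫ ω in Metric.ball y 1, |phi D sp ω x - phb D sp ℓ x|) ≤ T := by
    rw [hT]
    linarith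
  linarith

end Pool.Agent.Helper780_CQ.W2
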