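import Pool.Agent.Helper780_CQ.GDefs2
import Pool.Agent.Helper780_CP.RL2a
import Pool.Agent.Helper780_CP.RHN
import Pool.Agent.Helper780_CP.RB28


set_option autoImplicit false

open MeasureTheory
open scoped Topology

namespace Pool.Agent.Helper780_CQ.W3


open Pool.Agent.Helper780_CQ Pool.Agent.Helper780_CP Pool.Agent.Helper985.CP Pool.Agent.Helper780_CP.RHN

lemma w3_ew_pos (z : E3) : 0 < ew z := Real.exp_pos _

lemma w3_ew_smooth : ContDiff ℝ SM ew := by
  unfold ew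
  have h1 : ContDiff ℝ SM (fun z : E3 => 1 + ‖z‖ ^ 2) := contDiff_const.add (contDiff_id.norm_sq ℝ)
  exact (h1.sqrt fun z => by positivity).neg.exp

lemma w3_ew_deriv (z : E3) (k : Fin 3) : fderiv ℝ ew z (EuclideanSpace.single k (1 : ℝ)) =
    -(ew z * (z k / √(1 + ‖z‖ ^ 2))) := by
  have h1 : HasFDerivAt (fun z : E3 => 1 + ‖z‖ ^ 2) (2 • innerSL ℝ z) z :=
    (hasStrictFDerivAt_norm_sq z).hasFDerivAt.const_add 1
  have hpos : 0 < 1 + ‖z‖ ^ 2 := by positivity
  have h2a := (h1.sqrt hpos.ne').neg.exp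
  have h2 : HasFDerivAt (fun z : E3 => Real.exp (-√(1 + ‖z‖ ^ 2))) _ z := h2a
  have h3 : ew = fun z : E3 => Real.exp (-√(1 + ‖z‖ ^ 2)) := rfl
  rw [h3, h2.fderiv]
  have h4 : inner ℝ z (EuclideanSpace.single k (1 : ℝ)) = z k := by
    rw [EuclideanSpace.inner_single_right]
    simp
  simp only [Pi.neg_apply, _root_.smul_apply, _root_.neg_apply, innerSL_apply_apply, h4, smul_eq_mul, nsmul_eq_mul]
  have hs : 0 < √(1 + ‖z‖ ^ 2) := Real.sqrt_pos.2 hpos
  push_cast
  field_simp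

lemma w3_ew_grad (z : E3) :
    ∑ k : Fin 3, (fderiv ℝ ew z (EuclideanSpace.single k (1 : ℝ))) ^ 2 ≤ ew z ^ 2 := by
  have hpos : 0 < 1 + ‖z‖ ^ 2 := by positivity
  have h1 : ∑ k : Fin 3, (fderiv ℝ ew z (EuclideanSpace.single k (1 : ℝ))) ^ 2 =
      ew z ^ 2 * ((∑ k : Fin 3, (z k) ^ 2) / (1 + ‖z‖ ^ 2)) := by
    rw [Finset.sum_div, Finset.mul_sum]
    refine Finset.sum_congr rfl fun k _ => ?_
    rw [w3_ew_deriv, neg_sq, mul_pow, div_pow, Real.sq_sqrt hpos.le]
  have h2 : ∑ k : Fin 3, (z k) ^ 2 = ‖z‖ ^ 2 := by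
    rw [EuclideanSpace.norm_sq_eq]
    simp
  rw [h1, h2]
  have h3 : ‖z‖ ^ 2 / (1 + ‖z‖ ^ 2) ≤ 1 := by
    rw [div_le_one hpos]
    linarith
  have h4 : 0 ≤ ew z ^ 2 := sq_nonneg _
  nlinarith

section

variable {S : Type} [DecidableEq S] {I : Type} [Fintype I] [DecidableEq I] (sp : I → S) (a : S) (y : E3)

omit [DecidableEq I] in
lemma w3_Wa_nonneg (x : I → E3) : 0 ≤ Wa sp a y x := by
  unfold Wa
  refine Finset.sum_nonneg fun i _ => ?_
  split_ifs
  · exact (w3_ew_pos _).le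
  · exact le_rfl

omit [DecidableEq I] in
lemma w3_Wa_ge (x : I → E3) (j : I) : (if sp j = a then ew (x j - y) else 0) ≤ Wa sp a y x := by
  unfold Wa
  exact Finset.single_le_sum (f := fun i => if sp i = a then ew (x i - y) else 0) (fun i _ => by
    split_ifs
    · exact (w3_ew_pos _).le
    · exact le_rfl) (Finset.mem_univ j)

omit [DecidableEq I] in
lemma w3_Wa_pos (hne : ∃ i, sp i = a) (x : I → E3) : 0 < Wa sp a y x := by
  obtain ⟨i, hi⟩ := hne
  have h := w3_Wa_ge sp a y x i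
  rw [if_pos hi] at h
  exact lt_of_lt_of_le (w3_ew_pos _) h

omit [DecidableEq I] in
lemma w3_Wa_smooth : ContDiff ℝ SM (Wa sp a y) := by
  unfold Wa
  refine ContDiff.sum fun i _ => ?_
  by_cases h : sp i = a
  · simp only [if_pos h]
    exact w3_ew_smooth.comp ((contDiff_apply ℝ E3 i).sub contDiff_const)
  · simp only [if_neg h]
    exact contDiff_const

lemma w3_Wa_deriv (x : I → E3) (j : I) (v : E3) :
    fderiv ℝ (Wa sp a y) x (Pi.single j v) = if sp j = a then fderiv ℝ ew (x j - y) v else 0 := by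
  have h1 : ∀ i : I, HasFDerivAt (fun x : I → E3 => if sp i = a then ew (x i - y) else 0)
      (if sp i = a then (fderiv ℝ ew (x i - y)).comp (ContinuousLinearMap.proj i) else 0) x := by
    intro i
    by_cases h : sp i = a
    · simp only [if_pos h]
      have h2 : HasFDerivAt (fun x : I → E3 => x i - y) (ContinuousLinearMap.proj (R := ℝ) (φ := fun _ : I => E3) i) x :=
        (ContinuousLinearMap.proj (R := ℝ) (φ := fun _ : I => E3) i).hasFDerivAt.sub_const y
      have h3 : HasFDerivAt ew (fderiv ℝ ew (x i - y)) (x i - y) :=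
        (w3_ew_smooth.differentiable (by simp [SM]) _).hasFDerivAt
      exact h3.comp x h2
    · simp only [if_neg h]
      exact hasFDerivAt_const _ _
  have h2 : HasFDerivAt (Wa sp a y) (∑ i, if sp i = a then (fderiv ℝ ew (x i - y)).comp
      (ContinuousLinearMap.proj i) else 0) x := HasFDerivAt.fun_sum fun i _ => h1 i
  rw [h2.fderiv, _root_.sum_apply, Finset.sum_eq_single j]
  · split_ifs with h
    · simp
    · simp
  · intro i _ hij
    split_ifs with h
    · simp [Pi.single_eq_of_ne hij]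
    · simp
  · intro h
    exact absurd (Finset.mem_univ j) h

lemma w3_grad (hne : ∃ i, sp i = a) (x : I → E3) (j : I) :
    ∑ k : Fin 3, (fderiv ℝ (fun x => √(Wa sp a y x)) x (Pi.single j (EuclideanSpace.single k (1 : ℝ)))) ^ 2 ≤
      1 / 4 * Wa sp a y x := by
  have hpos := w3_Wa_pos sp a y hne x
  have h1 : HasFDerivAt (Wa sp a y) (fderiv ℝ (Wa sp a y) x) x :=
    ((w3_Wa_smooth sp a y).differentiable (by simp [SM]) _).hasFDerivAt
  have h2 := h1.sqrt hpos.ne'
  have h3 : ∀ k : Fin 3, fderiv ℝ (fun x => √(Wa sp a y x)) x (Pi.single j (EuclideanSpace.single k (1 : ℝ))) =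
      1 / (2 * √(Wa sp a y x)) * (if sp j = a then fderiv ℝ ew (x j - y) (EuclideanSpace.single k (1 : ℝ)) else 0) := by
    intro k
    rw [h2.fderiv, _root_.smul_apply, w3_Wa_deriv, smul_eq_mul]
  simp only [h3, mul_pow]
  rw [← Finset.mul_sum]
  have h4 : (1 / (2 * √(Wa sp a y x))) ^ 2 = 1 / (4 * Wa sp a y x) := by
    rw [div_pow, mul_pow, Real.sq_sqrt hpos.le]
    norm_num
  rw [h4]
  have h5 : ∑ k : Fin 3, (if sp j = a then fderiv ℝ ew (x j - y) (EuclideanSpace.single k (1 : ℝ)) else 0) ^ 2 ≤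
      Wa sp a y x ^ 2 := by
    have h6 := w3_Wa_ge sp a y x j
    by_cases h : sp j = a
    · simp only [if_pos h] at h6 ⊢
      exact (w3_ew_grad _).trans (pow_le_pow_left₀ (w3_ew_pos _).le h6 2)
    · simp only [if_neg h]
      have := sq_nonneg (Wa sp a y x)
      simpa using this
  calc 1 / (4 * Wa sp a y x) * ∑ k : Fin 3, (if sp j = a then fderiv ℝ ew (x j - y) (EuclideanSpace.single k (1 : ℝ)) else 0) ^ 2
      ≤ 1 / (4 * Wa sp a y x) * Wa sp a y x ^ 2 := mul_le_mul_of_nonneg_left h5 (by positivity)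
    _ = 1 / 4 * Wa sp a y x := by field_simp

/-- the weight and the derivatives -/
lemma w3_wd (hne : ∃ i, sp i = a) (u : (I → E3) → ℂ) (hu : ContDiff ℝ SM u) (x : I → E3) (j : I) :
    Wa sp a y x * ∑ k : Fin 3, ‖fderiv ℝ u x (Pi.single j (EuclideanSpace.single k (1 : ℝ)))‖ ^ 2 ≤
      2 * (∑ k : Fin 3, ‖fderiv ℝ (fun x => ((√(Wa sp a y x) : ℝ) : ℂ) * u x) x
        (Pi.single j (EuclideanSpace.single k (1 : ℝ)))‖ ^ 2) + 1 / 2 * (Wa sp a y x * ‖u x‖ ^ 2) := by
  have hpos := w3_Wa_pos sp a y hne x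
  have h1 : HasFDerivAt (fun x => √(Wa sp a y x)) (fderiv ℝ (fun x => √(Wa sp a y x)) x) x := by
    have h2 : ContDiff ℝ SM (fun x => √(Wa sp a y x)) :=
      (w3_Wa_smooth sp a y).sqrt fun x => (w3_Wa_pos sp a y hne x).ne'
    exact (h2.differentiable (by simp [SM]) _).hasFDerivAt
  have h2 : DifferentiableAt ℝ u x := hu.differentiable (by simp [SM]) _
  have key : ∀ k : Fin 3, Wa sp a y x * ‖fderiv ℝ u x (Pi.single j (EuclideanSpace.single k (1 : ℝ)))‖ ^ 2 ≤
      2 * ‖fderiv ℝ (fun x => ((√(Wa sp a y x) : ℝ) : ℂ) * u x) x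
        (Pi.single j (EuclideanSpace.single k (1 : ℝ)))‖ ^ 2 +
      2 * ‖u x‖ ^ 2 * (fderiv ℝ (fun x => √(Wa sp a y x)) x (Pi.single j (EuclideanSpace.single k (1 : ℝ)))) ^ 2 := by
    intro k
    rw [ims_deriv (fun x => √(Wa sp a y x)) u x _ _ h1 h2]
    obtain ⟨P, hP⟩ : ∃ P : ℂ, P = fderiv ℝ u x (Pi.single j (EuclideanSpace.single k (1 : ℝ))) := ⟨_, rfl⟩
    obtain ⟨t, ht⟩ : ∃ t : ℝ, t = fderiv ℝ (fun x => √(Wa sp a y x)) x (Pi.single j (EuclideanSpace.single k (1 : ℝ))) := ⟨_, rfl⟩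
    rw [← hP, ← ht]
    obtain ⟨w, hw⟩ : ∃ w : ℝ, w = √(Wa sp a y x) := ⟨_, rfl⟩
    have hw2 : Wa sp a y x = w ^ 2 := by rw [hw, Real.sq_sqrt hpos.le]
    rw [← hw, hw2]
    have e1 : ((w : ℝ) : ℂ) * P = (((w : ℝ) : ℂ) * P + u x * ((t : ℝ) : ℂ)) + -(u x * ((t : ℝ) : ℂ)) := by ring
    have e2 : ‖((w : ℝ) : ℂ) * P‖ ≤ ‖((w : ℝ) : ℂ) * P + u x * ((t : ℝ) : ℂ)‖ + ‖u x * ((t : ℝ) : ℂ)‖ := by
      calc ‖((w : ℝ) : ℂ) * P‖ = ‖(((w : ℝ) : ℂ) * P + u x * ((t : ℝ) : ℂ)) + -(u x * ((t : ℝ) : ℂ))‖ := by rw [← e1]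
        _ ≤ _ := by
          refine (norm_add_le _ _).trans ?_
          rw [norm_neg]
    have e3 : ‖((w : ℝ) : ℂ) * P‖ ^ 2 = w ^ 2 * ‖P‖ ^ 2 := by
      rw [norm_mul, Complex.norm_real, mul_pow, Real.norm_eq_abs, sq_abs]
    have e4 : ‖u x * ((t : ℝ) : ℂ)‖ ^ 2 = ‖u x‖ ^ 2 * t ^ 2 := by
      rw [norm_mul, Complex.norm_real, mul_pow, Real.norm_eq_abs, sq_abs]
    have e5 := pow_le_pow_left₀ (norm_nonneg _) e2 2
    have e6 := sq_nonneg (‖((w : ℝ) : ℂ) * P + u x * ((t : ℝ) : ℂ)‖ - ‖u x * ((t : ℝ) : ℂ)‖)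
    nlinarith
  have h3 := Finset.sum_le_sum fun k (_ : k ∈ (Finset.univ : Finset (Fin 3))) => key k
  rw [Finset.sum_add_distrib, ← Finset.mul_sum, ← Finset.mul_sum, ← Finset.mul_sum] at h3
  have h4 := w3_grad sp a y hne x j
  have h5 : 2 * ‖u x‖ ^ 2 * ∑ k : Fin 3, (fderiv ℝ (fun x => √(Wa sp a y x)) x
      (Pi.single j (EuclideanSpace.single k (1 : ℝ)))) ^ 2 ≤ 2 * ‖u x‖ ^ 2 * (1 / 4 * Wa sp a y x) :=
    mul_le_mul_of_nonneg_left h4 (by positivity)
  linarith

omit [DecidableEq I] in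
/-- number of the particles of species `a` near `y` -/
lemma w3_cnt (x : I → E3) : (∑ i, if sp i = a ∧ ‖x i - y‖ ≤ 1 / 2 then (1 : ℝ) else 0) ≤
    Real.exp 2 * Wa sp a y x := by
  unfold Wa
  rw [Finset.mul_sum]
  refine Finset.sum_le_sum fun i _ => ?_
  by_cases h : sp i = a ∧ ‖x i - y‖ ≤ 1 / 2
  · rw [if_pos h, if_pos h.1]
    unfold ew
    rw [← Real.exp_add]
    apply Real.one_le_exp
    have h1 : √(1 + ‖x i - y‖ ^ 2) ≤ 2 := by
      rw [Real.sqrt_le_left (by norm_num)]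
      have := h.2
      have h0 := norm_nonneg (x i - y)
      nlinarith
    linarith
  · rw [if_neg h]
    split_ifs
    · exact mul_nonneg (Real.exp_pos _).le (w3_ew_pos _).le
    · simp

end

/-! ### The Hardy inequality with a moving centre -/

section

variable {I : Type} [Fintype I] [DecidableEq I]

open Classical in
/-- the integrand on the left -/
noncomputable def f0 (u : (I → E3) → ℂ) (y : E3) (i j : I) (x : I → E3) : ℝ :=
  (if ‖x i - y‖ ≤ 1 / 2 then 1 else 0) *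
    ((if ‖x j - x i‖ < 1 / 2 then 1 / ‖x j - x i‖ else 0) * ‖u x‖ ^ 2)

open Classical in
/-- the integrand on the right -/
noncomputable def Gj (C : ℝ) (u : (I → E3) → ℂ) (y : E3) (j : I) (x : I → E3) : ℝ :=
  4 * ((if ‖x j - y‖ < 3 then 1 else 0) *
    ∑ k : Fin 3, ‖fderiv ℝ u x (Pi.single j (EuclideanSpace.single k (1 : ℝ)))‖ ^ 2) +
  48 * C ^ 2 * ((if ‖x j - y‖ ≤ 3 then 1 else 0) * ‖u x‖ ^ 2)

lemma f0_nonneg (u : (I → E3) → ℂ) (y : E3) (i j : I) (x : I → E3) : 0 ≤ f0 u y i j x := by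
  unfold f0
  have h1 : (0 : ℝ) ≤ if ‖x i - y‖ ≤ 1 / 2 then 1 else 0 := by split_ifs <;> norm_num
  have h2 : (0 : ℝ) ≤ if ‖x j - x i‖ < 1 / 2 then 1 / ‖x j - x i‖ else 0 := by
    split_ifs
    · positivity
    · exact le_rfl
  positivity

lemma Gj_nonneg (C : ℝ) (u : (I → E3) → ℂ) (y : E3) (j : I) (x : I → E3) : 0 ≤ Gj C u y j x := by
  unfold Gj
  have h1 : (0 : ℝ) ≤ if ‖x j - y‖ < 3 then 1 else 0 := by split_ifs <;> norm_num
  have h2 : (0 : ℝ) ≤ if ‖x j - y‖ ≤ 3 then 1 else 0 := by split_ifs <;> norm_num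
  positivity

lemma hn_g_le (C : ℝ) (u : (I → E3) → ℂ) (y : E3) (i j : I) (x : I → E3) (hx : ‖x i - y‖ ≤ 1 / 2) :
    1 / 2 * hn_g C u j (x i) (1 / 2) x ≤ Gj C u y j x := by
  unfold hn_g Gj
  have h1 : cy (x i) (1 / 2) (x j) ^ 2 ≤ if ‖x j - y‖ < 3 then 1 else 0 := by
    split_ifs with h
    · exact pow_le_one₀ (hn_cy_nonneg _ _ _) (hn_cy_le_one _ _ _)
    · rw [hn_cy_zero (x i) (by norm_num : (0 : ℝ) < 1 / 2) (x j)]
      · norm_num
      · have : ‖x j - y‖ ≤ ‖x j - x i‖ + ‖x i - y‖ := by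
          have e : x j - y = (x j - x i) + (x i - y) := by abel
          rw [e]
          exact norm_add_le _ _
        linarith
  have h2 : (if ‖x j - x i‖ ≤ 2 * (1 / 2) then (1 : ℝ) else 0) ≤ if ‖x j - y‖ ≤ 3 then 1 else 0 := by
    by_cases h : ‖x j - x i‖ ≤ 2 * (1 / 2)
    · rw [if_pos h, if_pos]
      have : ‖x j - y‖ ≤ ‖x j - x i‖ + ‖x i - y‖ := by
        have e : x j - y = (x j - x i) + (x i - y) := by abel
        rw [e]
        exact norm_add_le _ _
      linarith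
    · rw [if_neg h]
      split_ifs <;> norm_num
  obtain ⟨Sg, hSg⟩ : ∃ Sg : ℝ, Sg = ∑ k : Fin 3, ‖fderiv ℝ u x (Pi.single j (EuclideanSpace.single k (1 : ℝ)))‖ ^ 2 := ⟨_, rfl⟩
  have hS0 : 0 ≤ Sg := by
    rw [hSg]
    positivity
  rw [← hSg]
  have h3 := mul_le_mul_of_nonneg_right h1 hS0
  have h4 := mul_le_mul_of_nonneg_right h2 (sq_nonneg ‖u x‖)
  have h5 : 48 * C ^ 2 * ((if ‖x j - x i‖ ≤ 2 * (1 / 2) then (1 : ℝ) else 0) * ‖u x‖ ^ 2) ≤
      48 * C ^ 2 * ((if ‖x j - y‖ ≤ 3 then (1 : ℝ) else 0) * ‖u x‖ ^ 2) :=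
    mul_le_mul_of_nonneg_left h4 (by positivity)
  have h6 : 1 / 2 * (8 * (cy (x i) (1 / 2) (x j) ^ 2 * Sg) + 24 * (C / (1 / 2)) ^ 2 *
      ((if ‖x j - x i‖ ≤ 2 * (1 / 2) then (1 : ℝ) else 0) * ‖u x‖ ^ 2)) =
      4 * (cy (x i) (1 / 2) (x j) ^ 2 * Sg) +
        48 * C ^ 2 * ((if ‖x j - x i‖ ≤ 2 * (1 / 2) then (1 : ℝ) else 0) * ‖u x‖ ^ 2) := by
    ring
  rw [h6]
  linarith

lemma f0_meas (u : (I → E3) → ℂ) (hu : ContDiff ℝ SM u) (y : E3) (i j : I) : Measurable (f0 u y i j) := by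
  classical
  unfold f0
  have h1 : Measurable (fun x : I → E3 => ‖x i - y‖) := by fun_prop
  have h2 : Measurable (fun x : I → E3 => ‖x j - x i‖) := by fun_prop
  exact (Measurable.ite (measurableSet_le h1 measurable_const) measurable_const measurable_const).mul
    ((Measurable.ite (measurableSet_lt h2 measurable_const) (measurable_const.div h2) measurable_const).mul
      (hu.continuous.measurable.norm.pow_const 2))

lemma Gj_meas (C : ℝ) (u : (I → E3) → ℂ) (hu : ContDiff ℝ SM u) (y : E3) (j : I) : Measurable (Gj C u y j) := by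
  classical
  unfold Gj
  have h1 : Measurable (fun x : I → E3 => ‖x j - y‖) := by fun_prop
  exact (((Measurable.ite (measurableSet_lt h1 measurable_const) measurable_const measurable_const).mul
    (hn_D_cont u hu j).measurable).const_mul 4).add
    (((Measurable.ite (measurableSet_le h1 measurable_const) measurable_const measurable_const).mul
      (hu.continuous.measurable.norm.pow_const 2)).const_mul _)

lemma w3_int (w g : (I → E3) → ℝ) (hw : Measurable w) (hw1 : ∀ x, |w x| ≤ 1) (hg : Integrable g) :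
    Integrable (fun x => w x * g x) := by
  refine hg.mono (hw.aestronglyMeasurable.mul hg.aestronglyMeasurable) (Filter.Eventually.of_forall fun x => ?_)
  rw [norm_mul, Real.norm_eq_abs (w x)]
  exact mul_le_of_le_one_left (norm_nonneg _) (hw1 x)

lemma ind_abs (p : Prop) [Decidable p] : |(if p then (1 : ℝ) else 0)| ≤ 1 := by
  split_ifs <;> simp

lemma Gj_int (C : ℝ) (u : (I → E3) → ℂ) (hu : ContDiff ℝ SM u) (huc : HasCompactSupport u) (y : E3) (j : I) :
    Integrable (Gj C u y j) := by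
  classical
  have h1 : Measurable (fun x : I → E3 => ‖x j - y‖) := by fun_prop
  have hsq : Continuous (fun x => ‖u x‖ ^ 2) := (hu.continuous.norm).pow 2
  have hsqc : HasCompactSupport (fun x => ‖u x‖ ^ 2) :=
    huc.comp_left (g := fun z : ℂ => ‖z‖ ^ 2) (by simp)
  have i1 := w3_int (fun x : I → E3 => if ‖x j - y‖ < 3 then (1 : ℝ) else 0) _
    (Measurable.ite (measurableSet_lt h1 measurable_const) measurable_const measurable_const) (fun x => ind_abs _)
    ((hn_D_cont u hu j).integrable_of_hasCompactSupport (hn_D_cs u huc j))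
  have i2 := w3_int (fun x : I → E3 => if ‖x j - y‖ ≤ 3 then (1 : ℝ) else 0) _
    (Measurable.ite (measurableSet_le h1 measurable_const) measurable_const measurable_const) (fun x => ind_abs _)
    (hsq.integrable_of_hasCompactSupport hsqc)
  exact (i1.const_mul 4).add (i2.const_mul (48 * C ^ 2))

/-- Hardy inequality with a moving centre, integrated -/
lemma w3_hardy {C : ℝ} (hC0 : 0 < C) (hC : ∀ w : E3, ‖fderiv ℝ ct w‖ ≤ C) (u : (I → E3) → ℂ)
    (hu : ContDiff ℝ SM u) (huc : HasCompactSupport u) (y : E3) (i j : I) (hij : j ≠ i) :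
    Integrable (f0 u y i j) ∧
      Integrable (fun x : I → E3 => (if ‖x i - y‖ ≤ 1 / 2 then (1 : ℝ) else 0) * Gj C u y j x) ∧
      ∫ x, f0 u y i j x ≤ ∫ x : I → E3, (if ‖x i - y‖ ≤ 1 / 2 then (1 : ℝ) else 0) * Gj C u y j x := by
  classical
  have h1 : Measurable (fun x : I → E3 => ‖x i - y‖) := by fun_prop
  have hAm : Measurable (fun x : I → E3 => if ‖x i - y‖ ≤ 1 / 2 then (1 : ℝ) else 0) :=
    Measurable.ite (measurableSet_le h1 measurable_const) measurable_const measurable_const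
  have hgi : Integrable (fun x : I → E3 => (if ‖x i - y‖ ≤ 1 / 2 then (1 : ℝ) else 0) * Gj C u y j x) :=
    w3_int _ _ hAm (fun x => ind_abs _) (Gj_int C u hu huc y j)
  have hgm : Measurable (fun x : I → E3 => (if ‖x i - y‖ ≤ 1 / 2 then (1 : ℝ) else 0) * Gj C u y j x) :=
    hAm.mul (Gj_meas C u hu y j)
  have hfm := f0_meas u hu y i j
  have hg0 : ∀ x : I → E3, 0 ≤ (if ‖x i - y‖ ≤ 1 / 2 then (1 : ℝ) else 0) * Gj C u y j x := by
    intro x
    have h2 : (0 : ℝ) ≤ if ‖x i - y‖ ≤ 1 / 2 then 1 else 0 := by split_ifs <;> norm_num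
    exact mul_nonneg h2 (Gj_nonneg C u y j x)
  have hl : ∫⁻ x : I → E3, ENNReal.ofReal (f0 u y i j x) ≤
      ∫⁻ x : I → E3, ENNReal.ofReal ((if ‖x i - y‖ ≤ 1 / 2 then (1 : ℝ) else 0) * Gj C u y j x) := by
    refine lintegral_le_of_lmarginal_le (μ := fun _ : I => (volume : Measure E3)) {j}
      hfm.ennreal_ofReal hgm.ennreal_ofReal ?_
    rw [lmarginal_singleton, lmarginal_singleton]
    intro x
    have hxi : ∀ z, Function.update x j z i = x i := fun z => Function.update_of_ne hij.symm _ _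
    by_cases hA : ‖x i - y‖ ≤ 1 / 2
    · have e1 : ∀ z, ENNReal.ofReal (f0 u y i j (Function.update x j z)) ≤
          ENNReal.ofReal (1 / 2) * ENNReal.ofReal (cy (x i) (1 / 2) z ^ 2 * ‖z - x i‖⁻¹ ^ 2 *
            ‖u (Function.update x j z)‖ ^ 2) := by
        intro z
        rw [← ENNReal.ofReal_mul (by norm_num)]
        apply ENNReal.ofReal_le_ofReal
        unfold f0
        rw [hxi, Function.update_self, if_pos hA, one_mul]
        have e2 : (if ‖z - x i‖ < 1 / 2 then 1 / ‖z - x i‖ else 0) ≤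
            1 / 2 * (cy (x i) (1 / 2) z ^ 2 * ‖z - x i‖⁻¹ ^ 2) := by
          by_cases hz : ‖z - x i‖ < 1 / 2
          · rw [if_pos hz, hn_cy_one (x i) (by norm_num) z hz.le, one_pow, one_mul, one_div]
            obtain ⟨n, hn⟩ : ∃ n, n = ‖z - x i‖ := ⟨_, rfl⟩
            rw [← hn] at hz ⊢
            have hn0 : 0 ≤ n := hn ▸ norm_nonneg _
            rcases hn0.lt_or_eq with h | h
            · have h3 : n⁻¹ = n * n⁻¹ ^ 2 := by field_simp
              have h4 : 0 ≤ n⁻¹ ^ 2 := by positivity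
              calc n⁻¹ = n * n⁻¹ ^ 2 := h3
                _ ≤ 1 / 2 * n⁻¹ ^ 2 := mul_le_mul_of_nonneg_right hz.le h4
            · rw [← h]
              simp
          · rw [if_neg hz]
            positivity
        have e3 := mul_le_mul_of_nonneg_right e2 (sq_nonneg ‖u (Function.update x j z)‖)
        linarith
      have e4 : ∀ z, ENNReal.ofReal (1 / 2) * ENNReal.ofReal (hn_g C u j (x i) (1 / 2) (Function.update x j z)) ≤
          ENNReal.ofReal ((if ‖Function.update x j z i - y‖ ≤ 1 / 2 then (1 : ℝ) else 0) *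
            Gj C u y j (Function.update x j z)) := by
        intro z
        rw [← ENNReal.ofReal_mul (by norm_num)]
        apply ENNReal.ofReal_le_ofReal
        rw [hxi, if_pos hA, one_mul]
        have e5 := hn_g_le C u y i j (Function.update x j z) (by rw [hxi]; exact hA)
        rwa [hxi] at e5
      calc ∫⁻ z, ENNReal.ofReal (f0 u y i j (Function.update x j z))
          ≤ ∫⁻ z, ENNReal.ofReal (1 / 2) * ENNReal.ofReal (cy (x i) (1 / 2) z ^ 2 * ‖z - x i‖⁻¹ ^ 2 *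
            ‖u (Function.update x j z)‖ ^ 2) := lintegral_mono e1
        _ = ENNReal.ofReal (1 / 2) * ∫⁻ z, ENNReal.ofReal (cy (x i) (1 / 2) z ^ 2 * ‖z - x i‖⁻¹ ^ 2 *
            ‖u (Function.update x j z)‖ ^ 2) := lintegral_const_mul' _ _ ENNReal.ofReal_ne_top
        _ ≤ ENNReal.ofReal (1 / 2) * ∫⁻ z, ENNReal.ofReal (hn_g C u j (x i) (1 / 2) (Function.update x j z)) := by
            exact mul_le_mul' le_rfl (hn_hardy hC0 hC u hu j (x i) (r := 1 / 2) (by norm_num) x)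
        _ = ∫⁻ z, ENNReal.ofReal (1 / 2) * ENNReal.ofReal (hn_g C u j (x i) (1 / 2) (Function.update x j z)) :=
            (lintegral_const_mul' _ _ ENNReal.ofReal_ne_top).symm
        _ ≤ _ := lintegral_mono e4
    · have e1 : ∀ z, f0 u y i j (Function.update x j z) = 0 := by
        intro z
        unfold f0
        rw [hxi, if_neg hA, zero_mul]
      simp only [e1, ENNReal.ofReal_zero, lintegral_zero]
      exact zero_le
  have hfin : ∫⁻ x : I → E3, ENNReal.ofReal ((if ‖x i - y‖ ≤ 1 / 2 then (1 : ℝ) else 0) * Gj C u y j x) ≠ ⊤ :=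
    hgi.lintegral_lt_top.ne
  have hf0 := f0_nonneg u y i j
  refine ⟨?_, hgi, ?_⟩
  · refine ⟨hfm.aestronglyMeasurable, ?_⟩
    rw [hasFiniteIntegral_iff_ofReal (Filter.Eventually.of_forall hf0)]
    exact lt_of_le_of_lt hl (lt_top_iff_ne_top.2 hfin)
  · rw [integral_eq_lintegral_of_nonneg_ae (Filter.Eventually.of_forall hf0) hfm.aestronglyMeasurable,
      integral_eq_lintegral_of_nonneg_ae (Filter.Eventually.of_forall hg0) hgm.aestronglyMeasurable]
    exact ENNReal.toReal_mono hfin hl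

end

open Classical in
/-- the relevant pairs -/
noncomputable def pr {S I : Type} (sp : I → S) (a : S) (i j : I) : ℝ := if sp i = a ∧ j ≠ i then 1 else 0

lemma pr_cases {S I : Type} (sp : I → S) (a : S) (i j : I) :
    (pr sp a i j = 1 ∧ sp i = a ∧ j ≠ i) ∨ (pr sp a i j = 0 ∧ ¬ (sp i = a ∧ j ≠ i)) := by
  unfold pr
  by_cases h : sp i = a ∧ j ≠ i
  · left
    exact ⟨if_pos h, h.1, h.2⟩
  · right
    exact ⟨if_neg h, h⟩

section

variable {S : Type} {I : Type} [Fintype I] [DecidableEq I] (sp : I → S) (a : S) (y : E3)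

omit [DecidableEq I] in
/-- the weight in terms of pairs -/
lemma w3_nr (u : (I → E3) → ℂ) (x : I → E3) : nr sp a y x * ‖u x‖ ^ 2 =
    ∑ i, ∑ j, pr sp a i j * f0 u y i j x := by
  classical
  unfold nr
  rw [Finset.sum_mul]
  refine Finset.sum_congr rfl fun i _ => ?_
  by_cases h : sp i = a ∧ ‖x i - y‖ ≤ 1 / 2
  · rw [if_pos h, Finset.sum_mul]
    refine Finset.sum_congr rfl fun j _ => ?_
    unfold f0
    rw [if_pos h.2, one_mul]
    rcases pr_cases sp a i j with ⟨h1, h2, h3⟩ | ⟨h1, h2⟩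
    · rw [h1, one_mul]
      by_cases h4 : ‖x j - x i‖ < 1 / 2
      · rw [if_pos ⟨h3, h4⟩, if_pos h4]
      · rw [if_neg (fun hc => h4 hc.2), if_neg h4]
    · rw [h1, zero_mul, if_neg (fun hc => h2 ⟨h.1, hc.1⟩), zero_mul]
  · rw [if_neg h, zero_mul]
    symm
    refine Finset.sum_eq_zero fun j _ => ?_
    rcases pr_cases sp a i j with ⟨h1, h2, h3⟩ | ⟨h1, h2⟩
    · unfold f0
      rw [if_neg (fun hc => h ⟨h2, hc⟩), zero_mul, mul_zero]
    · rw [h1, zero_mul]

lemma w3_int_nr (u : (I → E3) → ℂ) (hu : ContDiff ℝ SM u) (huc : HasCompactSupport u) :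
    Integrable (fun x => nr sp a y x * ‖u x‖ ^ 2) := by
  obtain ⟨C, hC0, hC⟩ := hn_ct_bound
  simp only [w3_nr]
  refine integrable_finsetSum _ fun i _ => integrable_finsetSum _ fun j _ => ?_
  rcases pr_cases sp a i j with ⟨h1, h2, h3⟩ | ⟨h1, h2⟩
  · exact ((w3_hardy hC0 hC u hu huc y i j h3).1).const_mul _
  · simp only [h1, zero_mul]
    exact integrable_zero _ _ _

end

section

variable {S : Type} [DecidableEq S] {I : Type} [Fintype I] [DecidableEq I] (sp : I → S) (a : S) (y : E3)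

lemma w3_one {C : ℝ} (hC0 : 0 < C) (hC : ∀ w : E3, ‖fderiv ℝ ct w‖ ≤ C) (D : Species S) (hD : D.Valid)
    {m : ℝ} (hm0 : 0 < m) (hm : ∀ s, D.mass s ≤ m) (hne : ∃ i, sp i = a) (u : (I → E3) → ℂ)
    (hu : ContDiff ℝ SM u) (huc : HasCompactSupport u) :
    ∫ x, nr sp a y x * ‖u x‖ ^ 2 ≤ (Real.exp 2 * (16 * m + 2 + 48 * C ^ 2)) *
      ((∫ x, ∑ j, if ‖x j - y‖ < 3 then kin D sp j (fun x => ((√(Wa sp a y x) : ℝ) : ℂ) * u x) x else 0) +
        ∫ x, (Wa sp a y x * (1 + nb y 3 x)) * ‖u x‖ ^ 2) := by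
  obtain ⟨F, hF⟩ : ∃ F : (I → E3) → ℂ, F = fun x => ((√(Wa sp a y x) : ℝ) : ℂ) * u x := ⟨_, rfl⟩
  rw [← hF]
  have hws : ContDiff ℝ SM (fun x => √(Wa sp a y x)) :=
    (w3_Wa_smooth sp a y).sqrt fun x => (w3_Wa_pos sp a y hne x).ne'
  have hFs : ContDiff ℝ SM F := by
    rw [hF]
    exact (Complex.ofRealCLM.contDiff.comp hws).mul hu
  have hFc : HasCompactSupport F := by
    rw [hF]
    exact huc.mul_left
  have hmeas : ∀ j : I, Measurable (fun x : I → E3 => ‖x j - y‖) := fun j => by fun_prop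
  -- integrability
  have i1 : ∀ j : I, Integrable (fun x : I → E3 => if ‖x j - y‖ < 3 then kin D sp j F x else 0) := by
    intro j
    have h1 := w3_int (fun x : I → E3 => if ‖x j - y‖ < 3 then (1 : ℝ) else 0) _
      (Measurable.ite (measurableSet_lt (hmeas j) measurable_const) measurable_const measurable_const)
      (fun x => ind_abs _) (((hn_D_cont F hFs j).integrable_of_hasCompactSupport (hn_D_cs F hFc j)).const_mul
        (1 / (2 * D.mass (sp j))))
    refine h1.congr (Filter.Eventually.of_forall fun x => ?_)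
    simp only [kin]
    split_ifs <;> ring
  have hsq : Continuous (fun x => ‖u x‖ ^ 2) := (hu.continuous.norm).pow 2
  have hsqc : HasCompactSupport (fun x => ‖u x‖ ^ 2) :=
    huc.comp_left (g := fun z : ℂ => ‖z‖ ^ 2) (by simp)
  have hWsq : Integrable (fun x => Wa sp a y x * ‖u x‖ ^ 2) :=
    ((w3_Wa_smooth sp a y).continuous.mul hsq).integrable_of_hasCompactSupport hsqc.mul_left
  have i2 : Integrable (fun x : I → E3 => (Wa sp a y x * (1 + nb y 3 x)) * ‖u x‖ ^ 2) := by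
    have h1 : ∀ j : I, Integrable (fun x : I → E3 => (if ‖x j - y‖ ≤ 3 then (1 : ℝ) else 0) * (Wa sp a y x * ‖u x‖ ^ 2)) :=
      fun j => w3_int _ _ (Measurable.ite (measurableSet_le (hmeas j) measurable_const) measurable_const measurable_const)
        (fun x => ind_abs _) hWsq
    have h2 := hWsq.add (integrable_finsetSum Finset.univ fun j _ => h1 j)
    refine h2.congr (Filter.Eventually.of_forall fun x => ?_)
    simp only [Pi.add_apply, nb]
    rw [← Finset.sum_mul]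
    ring
  have i3 := (integrable_finsetSum Finset.univ fun j _ => i1 j)
  -- the pairs
  have hint1 : ∀ i j : I, Integrable (fun x => pr sp a i j * f0 u y i j x) := by
    intro i j
    rcases pr_cases sp a i j with ⟨h1, h2, h3⟩ | ⟨h1, h2⟩
    · exact ((w3_hardy hC0 hC u hu huc y i j h3).1).const_mul _
    · simp only [h1, zero_mul]
      exact integrable_zero _ _ _
  have hint2 : ∀ i j : I, Integrable (fun x : I → E3 => pr sp a i j *
      ((if ‖x i - y‖ ≤ 1 / 2 then (1 : ℝ) else 0) * Gj C u y j x)) := by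
    intro i j
    rcases pr_cases sp a i j with ⟨h1, h2, h3⟩ | ⟨h1, h2⟩
    · exact ((w3_hardy hC0 hC u hu huc y i j h3).2.1).const_mul _
    · simp only [h1, zero_mul]
      exact integrable_zero _ _ _
  have step1 : ∫ x, nr sp a y x * ‖u x‖ ^ 2 ≤ ∫ x : I → E3, ∑ i, ∑ j, pr sp a i j *
      ((if ‖x i - y‖ ≤ 1 / 2 then (1 : ℝ) else 0) * Gj C u y j x) := by
    simp only [w3_nr]
    rw [integral_finsetSum _ fun i _ => integrable_finsetSum _ fun j _ => hint1 i j,
      integral_finsetSum _ fun i _ => integrable_finsetSum _ fun j _ => hint2 i j]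
    refine Finset.sum_le_sum fun i _ => ?_
    rw [integral_finsetSum _ fun j _ => hint1 i j, integral_finsetSum _ fun j _ => hint2 i j]
    refine Finset.sum_le_sum fun j _ => ?_
    rw [integral_const_mul, integral_const_mul]
    rcases pr_cases sp a i j with ⟨h1, h2, h3⟩ | ⟨h1, h2⟩
    · rw [h1, one_mul, one_mul]
      exact (w3_hardy hC0 hC u hu huc y i j h3).2.2
    · rw [h1, zero_mul, zero_mul]
  refine step1.trans ?_
  rw [← integral_add i3 i2, ← integral_const_mul]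
  refine integral_mono (integrable_finsetSum _ fun i _ => integrable_finsetSum _ fun j _ => hint2 i j)
    ((i3.add i2).const_mul _) fun x => ?_
  -- the pointwise inequality
  simp only [Pi.add_apply]
  have hW0 := w3_Wa_nonneg sp a y x
  have p1 : (∑ i, ∑ j, pr sp a i j * ((if ‖x i - y‖ ≤ 1 / 2 then (1 : ℝ) else 0) * Gj C u y j x)) ≤
      (Real.exp 2 * Wa sp a y x) * ∑ j, Gj C u y j x := by
    have p2 : (∑ i, ∑ j, pr sp a i j * ((if ‖x i - y‖ ≤ 1 / 2 then (1 : ℝ) else 0) * Gj C u y j x)) ≤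
        ∑ i, (if sp i = a ∧ ‖x i - y‖ ≤ 1 / 2 then (1 : ℝ) else 0) * ∑ j, Gj C u y j x := by
      refine Finset.sum_le_sum fun i _ => ?_
      rw [Finset.mul_sum]
      refine Finset.sum_le_sum fun j _ => ?_
      have hG := Gj_nonneg C u y j x
      have hG2 : 0 ≤ (if sp i = a ∧ ‖x i - y‖ ≤ 1 / 2 then (1 : ℝ) else 0) * Gj C u y j x :=
        mul_nonneg (by split_ifs <;> norm_num) hG
      rcases pr_cases sp a i j with ⟨h1, h2, h3⟩ | ⟨h1, h2⟩
      · rw [h1, one_mul]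
        by_cases h4 : ‖x i - y‖ ≤ 1 / 2
        · rw [if_pos h4, if_pos ⟨h2, h4⟩]
        · rw [if_neg h4, zero_mul]
          exact hG2
      · rw [h1, zero_mul]
        exact hG2
    refine p2.trans ?_
    rw [← Finset.sum_mul]
    exact mul_le_mul_of_nonneg_right (w3_cnt sp a y x) (Finset.sum_nonneg fun j _ => Gj_nonneg C u y j x)
  refine p1.trans ?_
  have p3 : ∀ j : I, Wa sp a y x * Gj C u y j x ≤ (16 * m + 2 + 48 * C ^ 2) *
      ((if ‖x j - y‖ < 3 then kin D sp j F x else 0) +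
        (if ‖x j - y‖ ≤ 3 then 1 else 0) * (Wa sp a y x * ‖u x‖ ^ 2)) := by
    intro j
    have q1 := w3_wd sp a y hne u hu x j
    rw [← hF] at q1
    obtain ⟨Q, hQ⟩ : ∃ Q : ℝ, Q = ∑ k : Fin 3, ‖fderiv ℝ F x (Pi.single j (EuclideanSpace.single k (1 : ℝ)))‖ ^ 2 := ⟨_, rfl⟩
    obtain ⟨Sg, hSg⟩ : ∃ Sg : ℝ, Sg = ∑ k : Fin 3, ‖fderiv ℝ u x (Pi.single j (EuclideanSpace.single k (1 : ℝ)))‖ ^ 2 := ⟨_, rfl⟩
    have hkin : kin D sp j F x = 1 / (2 * D.mass (sp j)) * Q := by rw [hQ]; rfl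
    have hQ0 : 0 ≤ Q := by rw [hQ]; positivity
    have hS0 : 0 ≤ Sg := by rw [hSg]; positivity
    have hmj := hD.mass_pos (sp j)
    have q2 : Q ≤ 2 * m * kin D sp j F x := by
      rw [hkin]
      have q3 : Q = 2 * D.mass (sp j) * (1 / (2 * D.mass (sp j)) * Q) := by field_simp
      calc Q = 2 * D.mass (sp j) * (1 / (2 * D.mass (sp j)) * Q) := q3
        _ ≤ 2 * m * (1 / (2 * D.mass (sp j)) * Q) := by
          refine mul_le_mul_of_nonneg_right ?_ (by positivity)
          linarith [hm (sp j)]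
    have hk0 : 0 ≤ kin D sp j F x := by rw [hkin]; positivity
    obtain ⟨N, hN⟩ : ∃ N : ℝ, N = Wa sp a y x * ‖u x‖ ^ 2 := ⟨_, rfl⟩
    have hN0 : 0 ≤ N := by rw [hN]; positivity
    rw [← hQ, ← hSg, ← hN] at q1
    unfold Gj
    rw [← hSg, ← hN]
    have hC2 : 0 ≤ C ^ 2 := sq_nonneg C
    by_cases h1 : ‖x j - y‖ < 3
    · rw [if_pos h1, if_pos h1, if_pos h1.le]
      have q4 : Wa sp a y x * (4 * (1 * Sg) + 48 * C ^ 2 * (1 * ‖u x‖ ^ 2)) = 4 * (Wa sp a y x * Sg) + 48 * C ^ 2 * N := by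
        rw [hN]; ring
      rw [q4]
      nlinarith [mul_nonneg hC2 hk0, mul_nonneg hm0.le hN0]
    · rw [if_neg h1, if_neg h1]
      by_cases h2 : ‖x j - y‖ ≤ 3
      · rw [if_pos h2]
        have q4 : Wa sp a y x * (4 * (0 * Sg) + 48 * C ^ 2 * (1 * ‖u x‖ ^ 2)) = 48 * C ^ 2 * N := by
          rw [hN]; ring
        rw [q4]
        nlinarith [mul_nonneg hm0.le hN0]
      · rw [if_neg h2]
        simp
  have p4 : (Real.exp 2 * Wa sp a y x) * ∑ j, Gj C u y j x = Real.exp 2 * ∑ j, Wa sp a y x * Gj C u y j x := by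
    rw [← Finset.mul_sum]; ring
  rw [p4, mul_assoc (Real.exp 2)]
  refine mul_le_mul_of_nonneg_left ?_ (Real.exp_pos _).le
  have p5 := Finset.sum_le_sum fun j (_ : j ∈ (Finset.univ : Finset I)) => p3 j
  refine p5.trans ?_
  rw [← Finset.mul_sum, Finset.sum_add_distrib, ← Finset.sum_mul]
  refine mul_le_mul_of_nonneg_left ?_ (by positivity)
  have p6 : (∑ j, if ‖x j - y‖ ≤ 3 then (1 : ℝ) else 0) = nb y 3 x := rfl
  rw [p6]
  have p7 : 0 ≤ Wa sp a y x * ‖u x‖ ^ 2 := by positivity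
  have p8 : (Wa sp a y x * (1 + nb y 3 x)) * ‖u x‖ ^ 2 = Wa sp a y x * ‖u x‖ ^ 2 + nb y 3 x * (Wa sp a y x * ‖u x‖ ^ 2) := by
    ring
  rw [p8]
  linarith

end

/-- TARGET -/
theorem pair_bound {S : Type} [Fintype S] [DecidableEq S] (D : Species S) (hD : D.Valid) :
    ∃ C : ℝ, 0 < C ∧ ∀ {I : Type} [Fintype I] [DecidableEq I] (sp : I → S) (ℓ : ℝ) (a : S)
      (y : E3), WI D sp ℓ (nr sp a y) ∧ ∀ Ψ : Wave D I, IsState D sp ℓ Ψ →
      wm D (nr sp a y) Ψ ≤ C * (kb D sp y 3 (mulW D (fun x => √(Wa sp a y x)) Ψ) +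
        wm D (fun x => Wa sp a y x * (1 + nb y 3 x)) Ψ) := by
  classical
  obtain ⟨C, hC0, hC⟩ := hn_ct_bound
  obtain ⟨m, hm0, hm⟩ : ∃ m : ℝ, 0 < m ∧ ∀ s, D.mass s ≤ m := by
    refine ⟨1 + ∑ s, D.mass s, ?_, fun s => ?_⟩
    · have : 0 ≤ ∑ s, D.mass s := Finset.sum_nonneg fun s _ => (hD.mass_pos s).le
      linarith
    · have := Finset.single_le_sum (f := D.mass) (fun t _ => (hD.mass_pos t).le)
        (Finset.mem_univ s)
      linarith
  refine ⟨Real.exp 2 * (16 * m + 2 + 48 * C ^ 2), by positivity, ?_⟩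
  intro I _ _ sp ℓ a y
  refine ⟨fun Ψ hΨ τ => ?_, fun Ψ hΨ => ?_⟩
  · have h := w3_int_nr sp a y (Ψ τ) (hΨ.smooth τ) (hΨ.compact τ)
    exact h
  · by_cases hne : ∃ i, sp i = a
    · have h : ∀ τ, _ := fun τ => w3_one sp a y hC0 hC D hD hm0 hm hne (Ψ τ) (hΨ.smooth τ) (hΨ.compact τ)
      unfold wm kb
      rw [← Finset.sum_add_distrib, Finset.mul_sum]
      refine Finset.sum_le_sum fun τ _ => ?_
      exact h τ
    · push Not at hne
      have h1 : ∀ x, nr sp a y x = 0 := by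
        intro x
        unfold nr
        refine Finset.sum_eq_zero fun i _ => ?_
        rw [if_neg fun hc => hne i hc.1]
      have h2 : wm D (nr sp a y) Ψ = 0 := by
        unfold wm
        refine Finset.sum_eq_zero fun τ _ => ?_
        simp [h1]
      rw [h2]
      have h3 : 0 ≤ kb D sp y 3 (mulW D (fun x => √(Wa sp a y x)) Ψ) := by
        unfold kb
        refine Finset.sum_nonneg fun τ _ => integral_nonneg fun x => Finset.sum_nonneg fun j _ => ?_
        split_ifs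
        · unfold kin
          have := hD.mass_pos (sp j)
          positivity
        · exact le_rfl
      have h4 : 0 ≤ wm D (fun x => Wa sp a y x * (1 + nb y 3 x)) Ψ := by
        unfold wm
        refine Finset.sum_nonneg fun τ _ => integral_nonneg fun x => ?_
        have h5 : 0 ≤ nb y 3 x := by
          unfold nb
          refine Finset.sum_nonneg fun j _ => ?_
          split_ifs <;> norm_num
        have h6 := w3_Wa_nonneg sp a y x
        positivity
      positivity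

end Pool.Agent.Helper780_CQ.W3
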