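import Pool.Agent.Helper780_CQ.GDefs2
import Pool.Agent.Helper780_CP.RK0
import Pool.Agent.Helper780_CP.RL2a


set_option autoImplicit false

open MeasureTheory
open scoped Topology

namespace Pool.Agent.Helper780_CQ.W4


open Pool.Agent.Helper780_CQ Pool.Agent.Helper780_CP Pool.Agent.Helper985.CP

theorem one_dim : ∃ C : ℝ, 0 < C ∧ ∀ (t : ℝ) (N : ℕ),
    ∑ m ∈ Finset.range N, Real.exp (-(|t - (m : ℝ) / 4| / 3)) ≤ C := by
  set q : ℝ := Real.exp (-(1 / 12)) with hq
  have hq0 : 0 < q := Real.exp_pos _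
  have hq1 : q < 1 := by
    rw [hq, Real.exp_lt_one_iff]
    norm_num
  have hs : Summable (fun k : ℤ => q ^ k.natAbs) := by
    apply Summable.of_nat_of_neg
    · simpa using summable_geometric_of_lt_one hq0.le hq1
    · simpa using summable_geometric_of_lt_one hq0.le hq1
  refine ⟨Real.exp (1 / 12) * (∑' k : ℤ, q ^ k.natAbs) + 1, ?_, ?_⟩
  · have : 0 ≤ ∑' k : ℤ, q ^ k.natAbs := tsum_nonneg fun k => by positivity
    positivity
  · intro t N
    have h1 : ∀ m : ℕ, Real.exp (-(|t - (m : ℝ) / 4| / 3)) ≤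
        Real.exp (1 / 12) * q ^ (⌊4 * t⌋ - (m : ℤ)).natAbs := by
      intro m
      rw [hq, ← Real.exp_nat_mul, ← Real.exp_add, Real.exp_le_exp]
      have h2 : (((⌊4 * t⌋ - (m : ℤ)).natAbs : ℕ) : ℝ) = |((⌊4 * t⌋ : ℤ) : ℝ) - (m : ℝ)| := by
        rw [← Int.cast_natCast, Int.natCast_natAbs]
        push_cast
        rfl
      rw [h2]
      have h3 := Int.floor_le (4 * t)
      have h4 := Int.lt_floor_add_one (4 * t)
      have h5 : |((⌊4 * t⌋ : ℤ) : ℝ) - (m : ℝ)| ≤ 4 * |t - (m : ℝ) / 4| + 1 := by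
        rw [abs_le]
        have h6 := le_abs_self (t - (m : ℝ) / 4)
        have h7 := neg_abs_le (t - (m : ℝ) / 4)
        constructor <;> linarith
      linarith
    have h2 : ∑ m ∈ Finset.range N, q ^ (⌊4 * t⌋ - (m : ℤ)).natAbs ≤ ∑' k : ℤ, q ^ k.natAbs := by
      have hinj : Function.Injective (fun m : ℕ => ⌊4 * t⌋ - (m : ℤ)) := by
        intro m n h
        simp only at h
        omega
      have h3 := Finset.sum_image (f := fun k : ℤ => q ^ k.natAbs)
        (s := Finset.range N) (g := fun m : ℕ => ⌊4 * t⌋ - (m : ℤ)) (hinj.injOn)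
      rw [← h3]
      exact hs.sum_le_tsum _ (fun k _ => by positivity)
    calc ∑ m ∈ Finset.range N, Real.exp (-(|t - (m : ℝ) / 4| / 3))
        ≤ ∑ m ∈ Finset.range N, Real.exp (1 / 12) * q ^ (⌊4 * t⌋ - (m : ℤ)).natAbs :=
          Finset.sum_le_sum fun m _ => h1 m
      _ = Real.exp (1 / 12) * ∑ m ∈ Finset.range N, q ^ (⌊4 * t⌋ - (m : ℤ)).natAbs := by
          rw [Finset.mul_sum]
      _ ≤ Real.exp (1 / 12) * ∑' k : ℤ, q ^ k.natAbs :=
          mul_le_mul_of_nonneg_left h2 (Real.exp_pos _).le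
      _ ≤ _ := by linarith

theorem ew_le (z : E3) : ew z ≤ ∏ k : Fin 3, Real.exp (-(|z k| / 3)) := by
  rw [← Real.exp_sum, ew, Real.exp_le_exp, Fin.sum_univ_three]
  have h1 : ∀ k : Fin 3, |z k| ≤ ‖z‖ := fun k => by
    have := PiLp.norm_apply_le z k
    rwa [Real.norm_eq_abs] at this
  have h2 : ‖z‖ ≤ √(1 + ‖z‖ ^ 2) := by
    apply Real.le_sqrt_of_sq_le
    linarith
  have := h1 0
  have := h1 1
  have := h1 2
  linarith

/-- TARGET 1 -/
theorem grid : ∃ C : ℝ, 0 < C ∧ ∀ ℓ : ℝ, 1 ≤ ℓ → ∃ Y : Finset E3,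
    (∀ y ∈ Y, ∀ k, -1 ≤ y k ∧ y k ≤ ℓ + 1) ∧ (∀ x ∈ cube ℓ, ∃ y ∈ Y, ‖x - y‖ ≤ 1 / 2) ∧
    ∀ x : E3, ∑ y ∈ Y, ew (x - y) ≤ C := by
  classical
  obtain ⟨C, hC, h1⟩ := one_dim
  refine ⟨C ^ 3, by positivity, fun ℓ hℓ => ?_⟩
  let g : (Fin 3 → ℕ) → E3 := fun m => WithLp.toLp 2 (fun k => (m k : ℝ) / 4)
  have hg : ∀ m k, g m k = (m k : ℝ) / 4 := fun m k => rfl
  refine ⟨(Fintype.piFinset (fun _ : Fin 3 => Finset.range (⌊4 * ℓ⌋₊ + 1))).image g, ?_, ?_, ?_⟩
  · intro y hy k
    obtain ⟨m, hm, rfl⟩ := Finset.mem_image.1 hy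
    rw [Fintype.mem_piFinset] at hm
    have h2 := Finset.mem_range.1 (hm k)
    have h3 : (m k : ℝ) ≤ 4 * ℓ := by
      have h4 : m k ≤ ⌊4 * ℓ⌋₊ := by omega
      exact (Nat.le_floor_iff (by linarith)).1 h4
    rw [hg]
    have : (0 : ℝ) ≤ m k := Nat.cast_nonneg _
    constructor <;> linarith
  · intro x hx
    refine ⟨g (fun k => ⌊4 * x k⌋₊), Finset.mem_image_of_mem _ ?_, ?_⟩
    · rw [Fintype.mem_piFinset]
      intro k
      rw [Finset.mem_range]
      have := Nat.floor_le_floor (show 4 * x k ≤ 4 * ℓ by linarith [(hx k).2])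
      omega
    · have h2 : ∀ k, (x k - (⌊4 * x k⌋₊ : ℝ) / 4) ^ 2 ≤ 1 / 16 := by
        intro k
        have h3 := Nat.floor_le (show 0 ≤ 4 * x k by linarith [(hx k).1])
        have h4 := Nat.lt_floor_add_one (4 * x k)
        nlinarith
      have h3 : ‖x - g (fun k => ⌊4 * x k⌋₊)‖ ^ 2 ≤ 3 / 16 := by
        rw [EuclideanSpace.norm_sq_eq, Fin.sum_univ_three]
        simp only [PiLp.sub_apply, hg, Real.norm_eq_abs, sq_abs]
        linarith [h2 0, h2 1, h2 2]
      nlinarith [norm_nonneg (x - g (fun k => ⌊4 * x k⌋₊))]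
  · intro x
    have hinj : Function.Injective g := by
      intro m n h
      funext k
      have h2 : g m k = g n k := by rw [h]
      rw [hg, hg] at h2
      have h3 : (m k : ℝ) = n k := by linarith
      exact_mod_cast h3
    rw [Finset.sum_image hinj.injOn]
    calc ∑ m ∈ Fintype.piFinset (fun _ : Fin 3 => Finset.range (⌊4 * ℓ⌋₊ + 1)), ew (x - g m)
        ≤ ∑ m ∈ Fintype.piFinset (fun _ : Fin 3 => Finset.range (⌊4 * ℓ⌋₊ + 1)),
          ∏ k : Fin 3, Real.exp (-(|x k - (m k : ℝ) / 4| / 3)) := by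
          refine Finset.sum_le_sum fun m _ => ?_
          have := ew_le (x - g m)
          simpa only [PiLp.sub_apply, hg] using this
      _ = ∏ k : Fin 3, ∑ m ∈ Finset.range (⌊4 * ℓ⌋₊ + 1),
          Real.exp (-(|x k - (m : ℝ) / 4| / 3)) := by
          rw [Finset.prod_univ_sum]
      _ ≤ ∏ k : Fin 3, C := by
          refine Finset.prod_le_prod (fun k _ => ?_) (fun k _ => h1 _ _)
          exact Finset.sum_nonneg fun m _ => (Real.exp_pos _).le
      _ = C ^ 3 := by simp

theorem ew_ge (z : E3) (h : ‖z‖ ≤ 1 / 2) : Real.exp (-2) ≤ ew z := by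
  rw [ew, Real.exp_le_exp, neg_le_neg_iff, Real.sqrt_le_left (by norm_num)]
  nlinarith [norm_nonneg z]

theorem ew_pos (z : E3) : 0 < ew z := Real.exp_pos _

theorem locInt_one (p : E3) : LocallyIntegrable (fun ω : E3 => 1 / ‖p - ω‖) volume := by
  have h2 := RL2a.RM.locInt_shift RK0.locInt_inv1 p
  have h3 : (fun ω : E3 => 1 / ‖p - ω‖) = fun z => ‖z - p‖⁻¹ := by
    funext ω
    rw [one_div, norm_sub_rev]
  rw [h3]
  exact h2

theorem locInt_phi {S : Type} (D : Species S) {I : Type} [Fintype I] (sp : I → S) (x : I → E3)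
    (pb : ℝ) : LocallyIntegrable (fun ω => phi D sp ω x - pb) volume := by
  have h1 : ∀ i, LocallyIntegrable (fun ω : E3 => D.charge (sp i) * (1 / ‖x i - ω‖)) volume := by
    intro i
    exact (locInt_one (x i)).smul (D.charge (sp i))
  have h4 : LocallyIntegrable (fun ω => phi D sp ω x) volume := by
    have h5 : ∀ s : Finset I,
        LocallyIntegrable (fun ω : E3 => ∑ i ∈ s, D.charge (sp i) * (1 / ‖x i - ω‖)) volume := by
      classical
      intro s
      induction s using Finset.induction_on with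
      | empty => simpa using locallyIntegrable_const (0 : ℝ)
      | insert j s hj ih =>
        simp only [Finset.sum_insert hj]
        exact (h1 j).add ih
    exact h5 Finset.univ
  exact h4.sub (locallyIntegrable_const pb)

/-- the smeared potential -/
theorem smear {a b l : E3 → ℝ} (K : Ker a b l) (p w : E3) :
    Integrable (fun ω => a (p - ω) * (1 / ‖w - ω‖)) ∧
    ∫ ω, a (p - ω) * (1 / ‖w - ω‖) = b (w - p) := by
  constructor
  · have hc : Continuous fun ω => a (p - ω) := by
      have := K.a_smooth.continuous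
      fun_prop
    have hcs : HasCompactSupport fun ω => a (p - ω) := by
      apply HasCompactSupport.intro (isCompact_closedBall p (1 / 2))
      intro ω hω
      apply K.a_supp
      rw [Metric.mem_closedBall, not_le, dist_eq_norm, norm_sub_rev] at hω
      exact hω.le
    exact (locInt_one w).integrable_smul_left_of_hasCompactSupport hc hcs
  · rw [K.b_eq, ← integral_sub_right_eq_self (fun z : E3 => a z / ‖w - p - z‖) p]
    refine integral_congr_ae (Filter.Eventually.of_forall fun ω => ?_)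
    simp only
    rw [← K.a_even (ω - p), neg_sub, sub_sub_sub_cancel_right]
    ring

/-- TARGET 2 -/
theorem ptw (z : ℝ) (hz : 0 ≤ z) : ∃ C : ℝ, 0 < C ∧
    ∀ {S : Type} [DecidableEq S] (D : Species S), (∀ s, |D.charge s| ≤ z) →
    ∀ {I : Type} [Fintype I] [DecidableEq I] (sp : I → S) (a : S) (Y : Finset E3) (x : I → E3)
      (pb : ℝ), (∀ i, ∃ y ∈ Y, ‖x i - y‖ ≤ 1 / 2) → (∀ i j, i ≠ j → x i ≠ x j) →
      (∑ i, if sp i = a then |ph1 D sp i x - pb| else 0) ≤
        C * ∑ y ∈ Y, (Wa sp a y x * (∫ ω in Metric.ball y 1, |phi D sp ω x - pb|) +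
          nr sp a y x + Wa sp a y x * (1 + nb y 3 x)) := by
  classical
  obtain ⟨k, b, l, K⟩ := RK0.ker_exists
  have hkc : HasCompactSupport k := by
    apply HasCompactSupport.intro (isCompact_closedBall (0 : E3) (1 / 2))
    intro ω hω
    apply K.a_supp
    rw [Metric.mem_closedBall, not_le, dist_zero_right] at hω
    exact hω.le
  obtain ⟨A, hA⟩ := hkc.exists_bound_of_continuous K.a_smooth.continuous
  have hA0 : 0 ≤ A := (norm_nonneg _).trans (hA 0)
  obtain ⟨B, hB⟩ := (isCompact_closedBall (0 : E3) (1 / 2)).exists_bound_of_continuousOn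
    K.b_smooth.continuous.continuousOn
  have hB0 : 0 ≤ B := (norm_nonneg _).trans (hB 0 (by simp))
  have he : Real.exp 2 * Real.exp (-2) = 1 := by
    rw [← Real.exp_add]
    simp
  refine ⟨A * Real.exp 2 + z + z * B * Real.exp 2 + 1, by positivity, ?_⟩
  intro S _ D hD I _ _ sp a Y x pb hY hx
  -- the pointwise bound
  have hpt : ∀ i, ∀ y, ‖x i - y‖ ≤ 1 / 2 → |ph1 D sp i x - pb| ≤
      A * (∫ ω in Metric.ball y 1, |phi D sp ω x - pb|) +
      z * (∑ j, (if j ≠ i ∧ ‖x j - x i‖ < 1 / 2 then 1 / ‖x j - x i‖ else 0)) +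
      z * B * (1 + nb y 3 x) := by
    intro i y hy
    have h1 : ∫ ω, k (x i - ω) * (phi D sp ω x - pb) =
        ∑ j, D.charge (sp j) * b (x j - x i) - pb := by
      have e1 : ∀ ω, k (x i - ω) * (phi D sp ω x - pb) =
          (∑ j, D.charge (sp j) * (k (x i - ω) * (1 / ‖x j - ω‖))) - pb * k (x i - ω) := by
        intro ω
        rw [phi, mul_sub, Finset.mul_sum]
        congr 1
        · exact Finset.sum_congr rfl fun j _ => by ring
        · ring
      simp_rw [e1]
      have i1 : ∀ j ∈ (Finset.univ : Finset I), Integrable (fun ω => D.charge (sp j) *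
          (k (x i - ω) * (1 / ‖x j - ω‖))) := fun j _ => (smear K (x i) (x j)).1.const_mul _
      have i2 : Integrable (fun ω => pb * k (x i - ω)) := by
        have : Integrable k := (K.a_smooth.continuous).integrable_of_hasCompactSupport hkc
        exact (this.comp_sub_left (x i)).const_mul _
      rw [integral_sub (integrable_finsetSum _ i1) i2, integral_finsetSum _ i1,
        integral_const_mul, integral_sub_left_eq_self k volume (x i), K.a_int, mul_one]
      congr 1
      refine Finset.sum_congr rfl fun j _ => ?_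
      rw [integral_const_mul, (smear K (x i) (x j)).2]
    have h2 : |∫ ω, k (x i - ω) * (phi D sp ω x - pb)| ≤
        A * ∫ ω in Metric.ball y 1, |phi D sp ω x - pb| := by
      have hint : IntegrableOn (fun ω => |phi D sp ω x - pb|) (Metric.ball y 1) := by
        have h3 := (locInt_phi D sp x pb).integrableOn_isCompact (isCompact_closedBall y 1)
        exact (h3.mono_set Metric.ball_subset_closedBall).abs
      rw [← integral_const_mul, ← integral_indicator Metric.isOpen_ball.measurableSet]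
      rw [← Real.norm_eq_abs]
      refine norm_integral_le_of_norm_le ?_ (Filter.Eventually.of_forall fun ω => ?_)
      · exact (integrable_indicator_iff Metric.isOpen_ball.measurableSet).2 (hint.const_mul A)
      · by_cases hω : ω ∈ Metric.ball y 1
        · rw [Set.indicator_of_mem hω, norm_mul]
          exact mul_le_mul_of_nonneg_right (hA _) (norm_nonneg _)
        · rw [Set.indicator_of_notMem hω, K.a_supp, zero_mul, norm_zero]
          rw [Metric.mem_ball, not_lt, dist_eq_norm] at hω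
          have h4 : ‖ω - y‖ ≤ ‖x i - ω‖ + ‖x i - y‖ := by
            have h5 : ω - y = (x i - y) - (x i - ω) := by abel
            rw [h5]
            linarith [norm_sub_le (x i - y) (x i - ω)]
          linarith
    have h3 : ph1 D sp i x - pb = (∫ ω, k (x i - ω) * (phi D sp ω x - pb)) -
        D.charge (sp i) * b 0 +
        ∑ j, if j ≠ i then D.charge (sp j) * (1 / ‖x j - x i‖ - b (x j - x i)) else 0 := by
      rw [h1]
      have e2 : ∑ j, D.charge (sp j) * b (x j - x i) = D.charge (sp i) * b 0 +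
          ∑ j, if j ≠ i then D.charge (sp j) * b (x j - x i) else 0 := by
        rw [← Finset.add_sum_erase _ _ (Finset.mem_univ i), sub_self]
        congr 1
        rw [← Finset.sum_filter]
        refine Finset.sum_congr ?_ fun _ _ => rfl
        ext j
        simp
      rw [e2, ph1]
      have e3 : (∑ j, if i = j then 0 else D.charge (sp j) / ‖x i - x j‖) =
          (∑ j, if j ≠ i then D.charge (sp j) * b (x j - x i) else 0) +
          ∑ j, if j ≠ i then D.charge (sp j) * (1 / ‖x j - x i‖ - b (x j - x i)) else 0 := by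
        rw [← Finset.sum_add_distrib]
        refine Finset.sum_congr rfl fun j _ => ?_
        by_cases hj : j = i
        · simp [hj]
        · rw [if_neg (Ne.symm hj), if_pos hj, if_pos hj, norm_sub_rev]
          ring
      rw [e3]
      ring
    have h4 : |∑ j, if j ≠ i then D.charge (sp j) * (1 / ‖x j - x i‖ - b (x j - x i)) else 0| ≤
        z * (∑ j, (if j ≠ i ∧ ‖x j - x i‖ < 1 / 2 then 1 / ‖x j - x i‖ else 0)) +
        z * B * nb y 3 x := by
      refine (Finset.abs_sum_le_sum_abs _ _).trans ?_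
      rw [nb, Finset.mul_sum, Finset.mul_sum, ← Finset.sum_add_distrib]
      refine Finset.sum_le_sum fun j _ => ?_
      by_cases hj : j = i
      · subst hj
        simp only [ne_eq, not_true_eq_false, if_false, false_and, abs_zero, mul_zero, zero_add]
        positivity
      · rw [if_pos hj]
        by_cases hd : ‖x j - x i‖ < 1 / 2
        · rw [if_pos ⟨hj, hd⟩, if_pos, abs_mul]
          · have h5 : |1 / ‖x j - x i‖ - b (x j - x i)| ≤ 1 / ‖x j - x i‖ + B := by
              have h6 := hB (x j - x i) (by simpa using hd.le)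
              rw [Real.norm_eq_abs] at h6
              have h7 : 0 ≤ 1 / ‖x j - x i‖ := by positivity
              have h8 := abs_sub (1 / ‖x j - x i‖) (b (x j - x i))
              rw [abs_of_nonneg h7] at h8
              linarith
            calc |D.charge (sp j)| * |1 / ‖x j - x i‖ - b (x j - x i)|
                ≤ z * (1 / ‖x j - x i‖ + B) :=
                  mul_le_mul (hD _) h5 (abs_nonneg _) hz
              _ = _ := by ring
          · have h5 : x j - y = (x j - x i) + (x i - y) := by abel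
            rw [h5]
            linarith [norm_add_le (x j - x i) (x i - y)]
        · rw [K.b_out _ (not_lt.1 hd), sub_self, mul_zero, abs_zero]
          have : 0 ≤ z * B := by positivity
          positivity
    have h5 : |D.charge (sp i) * b 0| ≤ z * B := by
      rw [abs_mul]
      have h6 := hB 0 (by simp)
      rw [Real.norm_eq_abs] at h6
      exact mul_le_mul (hD _) h6 (abs_nonneg _) hz
    rw [h3]
    have h6 := abs_add_le ((∫ ω, k (x i - ω) * (phi D sp ω x - pb)) - D.charge (sp i) * b 0)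
      (∑ j, if j ≠ i then D.charge (sp j) * (1 / ‖x j - x i‖ - b (x j - x i)) else 0)
    have h7 := abs_sub (∫ ω, k (x i - ω) * (phi D sp ω x - pb)) (D.charge (sp i) * b 0)
    linarith
  -- the sum
  have hΦ : ∀ y, 0 ≤ ∫ ω in Metric.ball y 1, |phi D sp ω x - pb| := fun y =>
    integral_nonneg fun ω => abs_nonneg _
  have hnb : ∀ y, 0 ≤ nb y 3 x := fun y => by
    rw [nb]
    positivity
  have hW : ∀ y, 0 ≤ Wa sp a y x := fun y => by
    rw [Wa]
    refine Finset.sum_nonneg fun i _ => ?_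
    split_ifs
    · exact (ew_pos _).le
    · exact le_rfl
  have hG0 : ∀ y i, 0 ≤ A * (∫ ω in Metric.ball y 1, |phi D sp ω x - pb|) +
      z * (∑ j, (if j ≠ i ∧ ‖x j - x i‖ < 1 / 2 then 1 / ‖x j - x i‖ else 0)) +
      z * B * (1 + nb y 3 x) := fun y i => by
    have := hΦ y
    have := hnb y
    positivity
  have hs1 : (∑ i, if sp i = a then |ph1 D sp i x - pb| else 0) ≤
      ∑ i, ∑ y ∈ Y, if sp i = a ∧ ‖x i - y‖ ≤ 1 / 2 then
        A * (∫ ω in Metric.ball y 1, |phi D sp ω x - pb|) +
        z * (∑ j, (if j ≠ i ∧ ‖x j - x i‖ < 1 / 2 then 1 / ‖x j - x i‖ else 0)) +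
        z * B * (1 + nb y 3 x) else 0 := by
    refine Finset.sum_le_sum fun i _ => ?_
    by_cases hi : sp i = a
    · rw [if_pos hi]
      obtain ⟨y, hyY, hy⟩ := hY i
      refine (hpt i y hy).trans ?_
      have h1 := Finset.single_le_sum (f := fun y => if sp i = a ∧ ‖x i - y‖ ≤ 1 / 2 then
        A * (∫ ω in Metric.ball y 1, |phi D sp ω x - pb|) +
        z * (∑ j, (if j ≠ i ∧ ‖x j - x i‖ < 1 / 2 then 1 / ‖x j - x i‖ else 0)) +
        z * B * (1 + nb y 3 x) else 0) (s := Y) (a := y) (fun y _ => by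
          split_ifs
          · exact hG0 y i
          · exact le_rfl) hyY
      simp only [if_pos (show sp i = a ∧ ‖x i - y‖ ≤ 1 / 2 from ⟨hi, hy⟩)] at h1
      exact h1
    · rw [if_neg hi]
      refine Finset.sum_nonneg fun y _ => ?_
      rw [if_neg (fun h => hi h.1)]
  refine hs1.trans ?_
  rw [Finset.sum_comm, Finset.mul_sum]
  refine Finset.sum_le_sum fun y _ => ?_
  have hcnt : (∑ i, if sp i = a ∧ ‖x i - y‖ ≤ 1 / 2 then (1 : ℝ) else 0) ≤
      Real.exp 2 * Wa sp a y x := by
    rw [Wa, Finset.mul_sum]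
    refine Finset.sum_le_sum fun i _ => ?_
    by_cases h1 : sp i = a
    · rw [if_pos h1]
      by_cases h2 : ‖x i - y‖ ≤ 1 / 2
      · rw [if_pos ⟨h1, h2⟩, ← he]
        exact mul_le_mul_of_nonneg_left (ew_ge _ h2) (Real.exp_pos _).le
      · rw [if_neg (fun h => h2 h.2)]
        exact mul_nonneg (Real.exp_pos _).le (ew_pos _).le
    · rw [if_neg (fun h => h1 h.1), if_neg h1, mul_zero]
  have hnr0 : 0 ≤ nr sp a y x := by
    rw [nr]
    refine Finset.sum_nonneg fun i _ => ?_
    split_ifs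
    · refine Finset.sum_nonneg fun j _ => ?_
      split_ifs <;> positivity
    · exact le_rfl
  have hsplit : (∑ i, if sp i = a ∧ ‖x i - y‖ ≤ 1 / 2 then
        A * (∫ ω in Metric.ball y 1, |phi D sp ω x - pb|) +
        z * (∑ j, (if j ≠ i ∧ ‖x j - x i‖ < 1 / 2 then 1 / ‖x j - x i‖ else 0)) +
        z * B * (1 + nb y 3 x) else 0) =
      (A * (∫ ω in Metric.ball y 1, |phi D sp ω x - pb|) + z * B * (1 + nb y 3 x)) *
        (∑ i, if sp i = a ∧ ‖x i - y‖ ≤ 1 / 2 then (1 : ℝ) else 0) + z * nr sp a y x := by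
    generalize (∫ ω in Metric.ball y 1, |phi D sp ω x - pb|) = P
    rw [nr, Finset.mul_sum, Finset.mul_sum, ← Finset.sum_add_distrib]
    refine Finset.sum_congr rfl fun i _ => ?_
    by_cases h1 : sp i = a ∧ ‖x i - y‖ ≤ 1 / 2
    · simp only [if_pos h1, mul_one]
      have h2 : (∑ j, (if j ≠ i ∧ ‖x j - x i‖ < 1 / 2 then 1 / ‖x j - x i‖ else 0)) =
          ∑ j, @ite ℝ (j ≠ i ∧ ‖x j - x i‖ < 1 / 2) (Classical.propDecidable _)
            (1 / ‖x j - x i‖) 0 := by
        refine Finset.sum_congr rfl fun j _ => ?_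
        by_cases h3 : j ≠ i ∧ ‖x j - x i‖ < 1 / 2
        · rw [if_pos h3, if_pos h3]
        · rw [if_neg h3, if_neg h3]
      rw [h2]
      ring_nf
    · simp only [if_neg h1]
      ring
  rw [hsplit]
  have h1 : (A * (∫ ω in Metric.ball y 1, |phi D sp ω x - pb|) + z * B * (1 + nb y 3 x)) *
        (∑ i, if sp i = a ∧ ‖x i - y‖ ≤ 1 / 2 then (1 : ℝ) else 0) ≤
      (A * (∫ ω in Metric.ball y 1, |phi D sp ω x - pb|) + z * B * (1 + nb y 3 x)) *
        (Real.exp 2 * Wa sp a y x) := by
    refine mul_le_mul_of_nonneg_left hcnt ?_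
    have := hΦ y
    have := hnb y
    positivity
  set P := ∫ ω in Metric.ball y 1, |phi D sp ω x - pb| with hP
  set W := Wa sp a y x with hWd
  set N := nb y 3 x with hN
  set R := nr sp a y x with hR
  have hP0 : 0 ≤ P := hΦ y
  have hW0 : 0 ≤ W := hW y
  have hN0 : 0 ≤ N := hnb y
  have hE : 0 < Real.exp 2 := Real.exp_pos _
  set E := Real.exp 2 with hEd
  have g1 : 0 ≤ (z + z * B * E + 1) * (W * P) := by positivity
  have g2 : 0 ≤ (A * E + z * B * E + 1) * R := by positivity
  have g3 : 0 ≤ (A * E + z + 1) * (W * (1 + N)) := by positivity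
  nlinarith [g1, g2, g3, h1]

end Pool.Agent.Helper780_CQ.W4
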