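import Pool.Agent.Helper780_CQ.W1
import Pool.Agent.Helper780_CQ.GBS
import Pool.Agent.Helper780_CQ.W2
import Pool.Agent.Helper780_CQ.W3
import Pool.Agent.Helper780_CQ.W4
import Pool.Agent.Helper780_CQ.GDefs2
import Pool.Agent.Helper780_CP.Stable
import Pool.Agent.Helper780_CP.RL2a
import Pool.Agent.Helper780_CP.RL0
import Pool.Agent.Helper780_CP.RL1
import Pool.Agent.Helper985.CP.M_energies_basic
import Pool.Agent.Helper985.CT.M_pe_symm


set_option autoImplicit false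

open MeasureTheory
open scoped Topology

namespace Pool.Agent.Helper780_CQ.W5

open Pool.Agent.Helper780_CQ.W1 (ng_weight)
open Pool.Agent.Helper780_CQ.GBS (bsG)
open Pool.Agent.Helper780_CQ.W2 (pot_abs)
open Pool.Agent.Helper780_CQ.W3 (pair_bound)
open Pool.Agent.Helper780_CQ.W4 (grid ptw)

open Pool.Agent.Helper780_CQ Pool.Agent.Helper780_CP Pool.Agent.Helper985.CP







section aux

theorem aux_ew_cont : Continuous ew := by
  unfold ew
  fun_prop

theorem aux_ew_pos (z : E3) : 0 < ew z := Real.exp_pos _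

theorem aux_ew_le (z : E3) : ew z ≤ 1 := by
  unfold ew
  rw [Real.exp_le_one_iff]
  have := Real.sqrt_nonneg (1 + ‖z‖ ^ 2)
  linarith

section

variable {S : Type} {I : Type} [Fintype I] [DecidableEq S] (sp : I → S)

theorem aux_Wa_cont (a : S) (y : E3) : Continuous (Wa sp a y) := by
  unfold Wa
  refine continuous_finsetSum _ fun i _ => ?_
  split_ifs
  · exact aux_ew_cont.comp ((continuous_apply i).sub continuous_const)
  · exact continuous_const

theorem aux_Wa_nonneg (a : S) (y : E3) (x : I → E3) : 0 ≤ Wa sp a y x := by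
  unfold Wa
  refine Finset.sum_nonneg fun i _ => ?_
  split_ifs
  · exact (aux_ew_pos _).le
  · exact le_rfl

theorem aux_Wa_le (a : S) (y : E3) (x : I → E3) : Wa sp a y x ≤ Fintype.card I := by
  unfold Wa
  calc (∑ i, if sp i = a then ew (x i - y) else 0) ≤ ∑ i : I, (1 : ℝ) := by
        refine Finset.sum_le_sum fun i _ => ?_
        split_ifs
        · exact aux_ew_le _
        · norm_num
    _ = _ := by simp

end

section

variable {I : Type} [Fintype I]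

theorem aux_nb_meas (y : E3) (R : ℝ) : Measurable (nb (I := I) y R) := by
  have h : ∀ i : I, Measurable (fun x : I → E3 => if ‖x i - y‖ ≤ R then (1 : ℝ) else 0) := by
    intro i
    have h1 : Continuous (fun x : I → E3 => ‖x i - y‖) := by fun_prop
    have h2 : MeasurableSet {x : I → E3 | ‖x i - y‖ ≤ R} :=
      (isClosed_le h1 continuous_const).measurableSet
    exact Measurable.ite h2 measurable_const measurable_const
  exact Finset.measurable_fun_sum _ fun i _ => h i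

theorem aux_nb_nonneg (y : E3) (R : ℝ) (x : I → E3) : 0 ≤ nb y R x := by
  unfold nb
  refine Finset.sum_nonneg fun i _ => ?_
  split_ifs <;> norm_num

theorem aux_nb_le (y : E3) (R : ℝ) (x : I → E3) : nb y R x ≤ Fintype.card I := by
  unfold nb
  calc (∑ i, if ‖x i - y‖ ≤ R then (1 : ℝ) else 0) ≤ ∑ i : I, (1 : ℝ) := by
        refine Finset.sum_le_sum fun i _ => ?_
        split_ifs <;> norm_num
    _ = _ := by simp

end

section

variable {S : Type} (D : Species S) {I : Type} [Fintype I] [DecidableEq I] (sp : I → S)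

theorem aux_WI_bdd (ℓ : ℝ) {W : (I → E3) → ℝ} (hW : WI D sp ℓ W) (f : (I → E3) → ℝ)
    (hf : Measurable f) (B : ℝ) (hb : ∀ x, |f x| ≤ B) : WI D sp ℓ (fun x => f x * W x) := by
  intro Ψ hΨ τ
  have h := (hW Ψ hΨ τ).bdd_mul (c := B) hf.aestronglyMeasurable
    (Filter.Eventually.of_forall fun x => by rw [Real.norm_eq_abs]; exact hb x)
  refine h.congr (Filter.Eventually.of_forall fun x => ?_)
  simp only
  ring

theorem aux_WI_abs (ℓ : ℝ) {W : (I → E3) → ℝ} (hW : WI D sp ℓ W) :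
    WI D sp ℓ (fun x => |W x|) := by
  intro Ψ hΨ τ
  refine (hW Ψ hΨ τ).abs.congr (Filter.Eventually.of_forall fun x => ?_)
  simp only
  rw [abs_mul, abs_of_nonneg (sq_nonneg ‖Ψ τ x‖)]

theorem aux_WI_ph1 (hD : D.Valid) (ℓ : ℝ) (i : I) : WI D sp ℓ (ph1 D sp i) := by
  unfold ph1
  apply WI_sum
  intro j _
  by_cases hij : i = j
  · simp only [if_pos hij]
    exact WI_zero D sp ℓ
  · simp only [if_neg hij]
    intro Ψ hΨ τ
    have h := ((int_state D sp ℓ Ψ hΨ τ).2.2.2.1 i j hij).const_mul (D.charge (sp i))⁻¹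
    refine h.congr (Filter.Eventually.of_forall fun x => ?_)
    have := hD.charge_ne (sp i)
    simp only
    rw [mul_div_assoc, ← mul_assoc, ← mul_assoc, inv_mul_cancel₀ this, one_mul]

theorem aux_WI_sub (ℓ : ℝ) {V W : (I → E3) → ℝ} (hV : WI D sp ℓ V) (hW : WI D sp ℓ W) :
    WI D sp ℓ (fun x => V x - W x) := by
  intro Ψ hΨ τ
  refine ((hV Ψ hΨ τ).sub (hW Ψ hΨ τ)).congr (Filter.Eventually.of_forall fun x => ?_)
  simp only [Pi.sub_apply]
  ring

theorem aux_wm_sub (ℓ : ℝ) {V W : (I → E3) → ℝ} (hV : WI D sp ℓ V) (hW : WI D sp ℓ W)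
    (Ψ : Wave D I) (hΨ : IsState D sp ℓ Ψ) :
    wm D (fun x => V x - W x) Ψ = wm D V Ψ - wm D W Ψ := by
  unfold wm
  rw [← Finset.sum_sub_distrib]
  refine Finset.sum_congr rfl fun τ _ => ?_
  rw [← integral_sub (hV Ψ hΨ τ) (hW Ψ hΨ τ)]
  refine integral_congr_ae (Filter.Eventually.of_forall fun x => ?_)
  simp only
  ring

theorem aux_wm_abs (W : (I → E3) → ℝ) (Ψ : Wave D I) : |wm D W Ψ| ≤ wm D (fun x => |W x|) Ψ := by
  unfold wm
  refine (Finset.abs_sum_le_sum_abs _ _).trans (Finset.sum_le_sum fun τ _ => ?_)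
  refine (abs_integral_le_integral_abs).trans (le_of_eq ?_)
  refine integral_congr_ae (Filter.Eventually.of_forall fun x => ?_)
  simp only
  rw [abs_mul, abs_of_nonneg (sq_nonneg ‖Ψ τ x‖)]

theorem aux_wm_mono (ℓ : ℝ) {V W : (I → E3) → ℝ} (hV : WI D sp ℓ V) (hW : WI D sp ℓ W)
    (Ψ : Wave D I) (hΨ : IsState D sp ℓ Ψ)
    (h : ∀ᵐ x : I → E3, (∀ i, x i ∈ cube ℓ) → V x ≤ W x) : wm D V Ψ ≤ wm D W Ψ := by
  unfold wm
  refine Finset.sum_le_sum fun τ _ => ?_
  refine integral_mono_ae (hV Ψ hΨ τ) (hW Ψ hΨ τ) ?_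
  filter_upwards [h] with x hx
  by_cases h0 : Ψ τ x = 0
  · simp [h0]
  · exact mul_le_mul_of_nonneg_right (hx (hΨ.support τ (subset_tsupport _ h0))) (sq_nonneg _)

theorem aux_kb (y : E3) (R c : ℝ) (Φ : Wave D I) :
    kb D sp y R (mulW D (fun _ => c) Φ) = c ^ 2 * kb D sp y R Φ := by
  unfold kb
  rw [Finset.mul_sum]
  refine Finset.sum_congr rfl fun τ _ => ?_
  rw [← integral_const_mul]
  refine integral_congr_ae (Filter.Eventually.of_forall fun x => ?_)
  show (∑ j, if ‖x j - y‖ < R then kin D sp j (fun x => (c : ℂ) * Φ τ x) x else 0) =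
    c ^ 2 * (∑ j, if ‖x j - y‖ < R then kin D sp j (Φ τ) x else 0)
  rw [Finset.mul_sum]
  refine Finset.sum_congr rfl fun j _ => ?_
  split_ifs
  · exact RL0.kin_const_mul D sp j c (Φ τ) x
  · simp

theorem aux_symm (ℓ : ℝ) (Ψ : Wave D I) (hΨ : IsState D sp ℓ Ψ) (i i0 : I)
    (h : sp i = sp i0) :
    wm D (fun x => |ph1 D sp i x - phb D sp ℓ x|) Ψ =
      wm D (fun x => |ph1 D sp i0 x - phb D sp ℓ x|) Ψ := by
  rcases eq_or_ne i i0 with rfl | hne
  · rfl
  obtain ⟨e, he⟩ : ∃ e : I ≃ I, e = Equiv.swap i i0 := ⟨_, rfl⟩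
  have hn : ∀ τ x, ‖Ψ (fun k => τ (e k)) (fun k => x (e k))‖ = ‖Ψ τ x‖ := by
    intro τ x
    rw [he, hΨ.symm i i0 hne h τ x, norm_mul]
    have : ‖exch D (sp i)‖ = 1 := by unfold exch; split_ifs <;> simp
    rw [this, one_mul]
  have hee : ∀ k, e (e k) = k := by
    intro k
    rw [he]
    exact Equiv.swap_apply_self i i0 k
  have hsp : ∀ k, sp (e k) = sp k := by
    intro k
    rw [he, Equiv.swap_apply_def]
    split_ifs with h1 h2
    · rw [h1, h]
    · rw [h2, h]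
    · rfl
  have hei0 : e i0 = i := by rw [he]; exact Equiv.swap_apply_right i i0
  have h1 : ∀ x : I → E3, ph1 D sp i0 (fun k => x (e k)) = ph1 D sp i x := by
    intro x
    unfold ph1
    rw [← Equiv.sum_comp e]
    refine Finset.sum_congr rfl fun j _ => ?_
    simp only [hei0, hee, hsp]
    have hiff : (i0 = e j) ↔ (i = j) := by
      constructor
      · intro hh
        rw [← hee j, ← hh, hei0]
      · intro hh
        rw [← hh, ← hei0, hee]
    by_cases hij : i = j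
    · rw [if_pos hij, if_pos (hiff.2 hij)]
    · rw [if_neg hij, if_neg (fun hh => hij (hiff.1 hh))]
  have h2 : ∀ x : I → E3, phb D sp ℓ (fun k => x (e k)) = phb D sp ℓ x := by
    intro x
    unfold phb
    rw [← Equiv.sum_comp e]
    refine Finset.sum_congr rfl fun j _ => ?_
    simp only [hee, hsp]
  unfold wm
  have e1 : ∀ τ : I → Fin D.g, ∫ x, |ph1 D sp i x - phb D sp ℓ x| * ‖Ψ τ x‖ ^ 2 =
      (fun τ' => ∫ x, |ph1 D sp i0 x - phb D sp ℓ x| * ‖Ψ τ' x‖ ^ 2) (fun k => τ (e k)) := by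
    intro τ
    simp only
    rw [← relaux_int e (fun x => |ph1 D sp i0 x - phb D sp ℓ x| *
      ‖Ψ (fun k => τ (e k)) x‖ ^ 2)]
    refine integral_congr_ae (Filter.Eventually.of_forall fun x => ?_)
    simp only
    rw [h1, h2, hn]
  rw [Finset.sum_congr rfl fun τ _ => e1 τ]
  exact relaux_sum e (fun τ' : I → Fin D.g => ∫ x, |ph1 D sp i0 x - phb D sp ℓ x| *
    ‖Ψ τ' x‖ ^ 2)

end

end aux

/-- TARGET -/
theorem key {S : Type} [Fintype S] [DecidableEq S] (D : Species S) (hD : D.Valid)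
    (hf : ∀ s, D.charge s < 0 → D.fermion s = true) (ρ : ℝ) (hρ : 0 ≤ ρ) : ∃ C ℓ0 : ℝ, 0 < C ∧
    ∀ {I : Type} [Fintype I] [DecidableEq I] (sp : I → S) (ℓ η : ℝ), ℓ0 ≤ ℓ →
      (Fintype.card I : ℝ) ≤ ρ * ℓ ^ 3 → (∑ i, D.charge (sp i) = 0) → 0 ≤ η →
      η * (Real.exp (2 * ℓ + 3) * (1 + (Fintype.card I : ℝ)) ^ 4) ≤ 1 →
      ∀ Ψ : Wave D I, IsState D sp ℓ Ψ → nrm2 D Ψ = 1 →
      energy D sp Ψ ≤ sInf (energies D sp ℓ) + η → ∀ i0 : I,
      |wm D (ph1 D sp i0) Ψ - wm D (phb D sp ℓ) Ψ| ≤ C := by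
  obtain ⟨K, hK, HK⟩ := ng_weight D hD
  obtain ⟨C0, hC0, H0⟩ := bsG D hD hf ρ hρ K hK.le
  obtain ⟨C1, ℓ1, hC1, H1⟩ := pot_abs D hD hf (fun s => abs_pos.2 (hD.charge_ne s)) C0 hC0.le
  obtain ⟨C2, hC2, H2⟩ := pair_bound D hD
  obtain ⟨C3, hC30, H3⟩ := grid
  obtain ⟨z, hz⟩ : ∃ z : ℝ, z = ∑ s, |D.charge s| := ⟨_, rfl⟩
  have hz0 : 0 ≤ z := by rw [hz]; exact Finset.sum_nonneg fun s _ => abs_nonneg _
  have hzc : ∀ s, |D.charge s| ≤ z := by
    intro s
    rw [hz]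
    exact Finset.single_le_sum (f := fun s => |D.charge s|) (fun _ _ => abs_nonneg _)
      (Finset.mem_univ s)
  obtain ⟨C4, hC4, H4⟩ := ptw z hz0
  have hst := hstable D hD hf
  obtain ⟨C5, hC5⟩ : ∃ C5 : ℝ, C5 = C1 + C2 * (C1 + (1 + C1)) + (1 + C1) := ⟨_, rfl⟩
  have hC50 : 0 < C5 := by rw [hC5]; positivity
  have hC3 : 0 ≤ C3 := hC30.le
  refine ⟨C4 * C5 * C3 + 1, max 1000 ℓ1, by positivity, ?_⟩
  intro I _ _ sp ℓ η hℓ hcard hneu hη hη1 Ψ hΨ hn he i0
  have hℓ1000 : 1000 ≤ ℓ := (le_max_left _ _).trans hℓ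
  have hℓ1 : ℓ1 ≤ ℓ := (le_max_right _ _).trans hℓ
  have hℓ0 : 0 < ℓ := by linarith
  obtain ⟨a, ha⟩ : ∃ a : S, a = sp i0 := ⟨_, rfl⟩
  obtain ⟨Y, hY1, hY2, hY3⟩ := H3 ℓ (by linarith)
  have hstat := (energies_basic D hD hst sp ℓ hℓ0).2.2.1
  have hNn : (0 : ℝ) ≤ Fintype.card I := Nat.cast_nonneg _
  have hWa1 : ∀ y, WI D sp ℓ (Wa sp a y) := by
    intro y
    have h := aux_WI_bdd D sp ℓ (WI_const D sp ℓ 1) (Wa sp a y) (aux_Wa_cont sp a y).measurable
      (Fintype.card I) (fun x => by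
        rw [abs_of_nonneg (aux_Wa_nonneg sp a y x)]; exact aux_Wa_le sp a y x)
    simpa only [mul_one] using h
  have hWaV : ∀ y {V : (I → E3) → ℝ}, WI D sp ℓ V → WI D sp ℓ (fun x => Wa sp a y x * V x) :=
    fun y V hV => aux_WI_bdd D sp ℓ hV (Wa sp a y) (aux_Wa_cont sp a y).measurable
      (Fintype.card I) (fun x => by
        rw [abs_of_nonneg (aux_Wa_nonneg sp a y x)]; exact aux_Wa_le sp a y x)
  have hnb : ∀ y R, WI D sp ℓ (nb y R) := by
    intro y R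
    have h := aux_WI_bdd D sp ℓ (WI_const D sp ℓ 1) (nb y R) (aux_nb_meas y R)
      (Fintype.card I) (fun x => by
        rw [abs_of_nonneg (aux_nb_nonneg y R x)]; exact aux_nb_le y R x)
    simpa only [mul_one] using h
  have h1nb : ∀ y R, WI D sp ℓ (fun x => 1 + nb y R x) :=
    fun y R => WI_add D sp ℓ (WI_const D sp ℓ 1) (hnb y R)
  -- the estimate for one weight
  have hA : ∀ y ∈ Y,
      WI D sp ℓ (fun x => ∫ ω in Metric.ball y 1, |phi D sp ω x - phb D sp ℓ x|) ∧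
      WI D sp ℓ (nr sp a y) ∧
      wm D (fun x => Wa sp a y x * (∫ ω in Metric.ball y 1, |phi D sp ω x - phb D sp ℓ x|) +
          nr sp a y x + Wa sp a y x * (1 + nb y 3 x)) Ψ ≤ C5 * wm D (Wa sp a y) Ψ := by
    intro y hy
    obtain ⟨k1, k2, k3⟩ := HK sp ℓ η hℓ0 hη hstat Ψ hΨ hn he i0 y (hY1 y hy)
    rw [← ha] at k1 k2 k3
    obtain ⟨w, hw⟩ : ∃ w : ℝ, w = wm D (Wa sp a y) Ψ := ⟨_, rfl⟩
    rw [← hw] at k1 k2 k3
    have hw0 : 0 < w := lt_of_lt_of_le (Real.exp_pos _) k1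
    have hη'0 : 0 ≤ (Fintype.card I : ℝ) * η / w := by positivity
    have hη'1 : (Fintype.card I : ℝ) * η / w * (1 + (Fintype.card I : ℝ)) ^ 3 ≤ 1 := by
      have e1 : 1 ≤ Real.exp (2 * ℓ + 3) * w := by
        calc (1 : ℝ) = Real.exp (2 * ℓ + 3) * Real.exp (-(2 * ℓ + 3)) := by
              rw [← Real.exp_add]; simp
          _ ≤ _ := mul_le_mul_of_nonneg_left k1 (Real.exp_pos _).le
      rw [div_mul_eq_mul_div, div_le_one hw0]
      have e2 : (Fintype.card I : ℝ) * η * (1 + (Fintype.card I : ℝ)) ^ 3 ≤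
          η * (1 + (Fintype.card I : ℝ)) ^ 4 := by
        have : (Fintype.card I : ℝ) * (1 + (Fintype.card I : ℝ)) ^ 3 ≤
            (1 + (Fintype.card I : ℝ)) ^ 4 := by
          rw [pow_succ' _ 3]
          exact mul_le_mul_of_nonneg_right (by linarith) (by positivity)
        nlinarith [mul_le_mul_of_nonneg_left this hη]
      have e3 : η * (1 + (Fintype.card I : ℝ)) ^ 4 ≤
          η * (1 + (Fintype.card I : ℝ)) ^ 4 * (Real.exp (2 * ℓ + 3) * w) :=
        le_mul_of_one_le_right (by positivity) e1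
      have e4 : η * (1 + (Fintype.card I : ℝ)) ^ 4 * (Real.exp (2 * ℓ + 3) * w) =
          (η * (Real.exp (2 * ℓ + 3) * (1 + (Fintype.card I : ℝ)) ^ 4)) * w := by ring
      have e5 := mul_le_mul_of_nonneg_right hη1 hw0.le
      rw [one_mul] at e5
      linarith
    have hBS := H0 sp ℓ hℓ1000 hcard hneu _ hη'0 hη'1 _ k2
    obtain ⟨p1, p2, p3, p4⟩ := H1 sp ℓ _ _ _ hℓ1 hBS y (hY1 y hy)
    obtain ⟨q1, q2⟩ := H2 sp ℓ a y
    have q3 := q2 Ψ hΨ
    have r1 : kb D sp y 3 (Pw D sp a y Ψ) ≤ C1 := by simpa using p1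
    have r2 : wm D (nb y 3) (Pw D sp a y Ψ) ≤ C1 := by simpa [wx] using p2
    have r4 : wm D (fun x => ∫ ω in Metric.ball y 1, |phi D sp ω x - phb D sp ℓ x|)
        (Pw D sp a y Ψ) ≤ C1 := by simpa [wx] using p4
    rw [k3, div_le_iff₀ hw0] at r2 r4
    have hsq : √w ≠ 0 := (Real.sqrt_pos.2 hw0).ne'
    have r3 : mulW D (fun x => √(Wa sp a y x)) Ψ =
        mulW D (fun _ => √w) (Pw D sp a y Ψ) := by
      unfold Pw
      rw [mulW_mulW, ← hw]
      congr 1
      funext x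
      rw [mul_div_cancel₀ _ hsq]
    rw [r3, aux_kb, Real.sq_sqrt hw0.le] at q3
    have r5 : wm D (fun x => Wa sp a y x * (1 + nb y 3 x)) Ψ ≤ (1 + C1) * w := by
      have e1 : (fun x => Wa sp a y x * (1 + nb y 3 x)) =
          fun x => Wa sp a y x + Wa sp a y x * nb y 3 x := by
        funext x
        ring
      rw [e1, wm_add D sp ℓ (hWa1 y) (hWaV y (hnb y 3)) Ψ hΨ, ← hw]
      linarith
    refine ⟨p3, q1, ?_⟩
    have i1 := hWaV y p3
    have i2 := hWaV y (h1nb y 3)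
    rw [wm_add D sp ℓ (WI_add D sp ℓ i1 q1) i2 Ψ hΨ, wm_add D sp ℓ i1 q1 Ψ hΨ, ← hw]
    have r6 : wm D (nr sp a y) Ψ ≤ C2 * (C1 + (1 + C1)) * w := by
      refine q3.trans ?_
      rw [mul_assoc]
      refine mul_le_mul_of_nonneg_left ?_ hC2.le
      have := mul_le_mul_of_nonneg_left r1 hw0.le
      linarith
    rw [hC5]
    linarith
  -- integrate the pointwise estimate
  have hph : ∀ i, WI D sp ℓ (fun x => |ph1 D sp i x - phb D sp ℓ x|) := fun i =>
    aux_WI_abs D sp ℓ (aux_WI_sub D sp ℓ (aux_WI_ph1 D sp hD ℓ i) (RL1.WI_phb D sp ℓ hℓ0))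
  have hphi : ∀ i, WI D sp ℓ (fun x => if sp i = a then |ph1 D sp i x - phb D sp ℓ x| else 0) := by
    intro i
    by_cases h : sp i = a
    · simp only [if_pos h]
      exact hph i
    · simp only [if_neg h]
      exact WI_zero D sp ℓ
  have hG : ∀ y ∈ Y, WI D sp ℓ (fun x =>
      Wa sp a y x * (∫ ω in Metric.ball y 1, |phi D sp ω x - phb D sp ℓ x|) +
        nr sp a y x + Wa sp a y x * (1 + nb y 3 x)) := fun y hy =>
    WI_add D sp ℓ (WI_add D sp ℓ (hWaV y (hA y hy).1) (hA y hy).2.1) (hWaV y (h1nb y 3))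
  have s1 : wm D (fun x => ∑ i, if sp i = a then |ph1 D sp i x - phb D sp ℓ x| else 0) Ψ ≤
      wm D (fun x => C4 * ∑ y ∈ Y, (Wa sp a y x *
        (∫ ω in Metric.ball y 1, |phi D sp ω x - phb D sp ℓ x|) +
          nr sp a y x + Wa sp a y x * (1 + nb y 3 x))) Ψ := by
    refine aux_wm_mono D sp ℓ (WI_sum D sp ℓ _ _ fun i _ => hphi i)
      (WI_smul D sp ℓ (WI_sum D sp ℓ Y _ hG) C4) Ψ hΨ ?_
    filter_upwards [ae_distinct (I := I)] with x hx hxc
    exact H4 D hzc sp a Y x (phb D sp ℓ x) (fun i => hY2 (x i) (hxc i)) hx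
  rw [wm_smul, wm_sum D sp ℓ Y _ hG Ψ hΨ, wm_sum D sp ℓ _ _ (fun i _ => hphi i) Ψ hΨ] at s1
  have s2 : ∑ y ∈ Y, wm D (fun x => Wa sp a y x *
        (∫ ω in Metric.ball y 1, |phi D sp ω x - phb D sp ℓ x|) +
          nr sp a y x + Wa sp a y x * (1 + nb y 3 x)) Ψ ≤
      C5 * ∑ y ∈ Y, wm D (Wa sp a y) Ψ := by
    rw [Finset.mul_sum]
    exact Finset.sum_le_sum fun y hy => (hA y hy).2.2
  obtain ⟨n, hndef⟩ : ∃ n : ℝ, n = ∑ i : I, if sp i = a then (1 : ℝ) else 0 := ⟨_, rfl⟩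
  have hn1 : 1 ≤ n := by
    rw [hndef]
    have := Finset.single_le_sum (f := fun i : I => if sp i = a then (1 : ℝ) else 0)
      (fun i _ => by split_ifs <;> norm_num) (Finset.mem_univ i0)
    simpa only [if_pos ha.symm] using this
  have s3 : ∑ y ∈ Y, wm D (Wa sp a y) Ψ ≤ C3 * n := by
    rw [← wm_sum D sp ℓ Y (fun y => Wa sp a y) (fun y _ => hWa1 y) Ψ hΨ]
    have e1 : wm D (fun x => ∑ y ∈ Y, Wa sp a y x) Ψ ≤ wm D (fun _ => (C3 * n) * 1) Ψ := by
      refine wm_mono D sp ℓ (WI_sum D sp ℓ Y _ fun y _ => hWa1 y) (WI_const D sp ℓ _) Ψ hΨ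
        (Filter.Eventually.of_forall fun x => ?_)
      unfold Wa
      rw [Finset.sum_comm, mul_one, hndef, Finset.mul_sum]
      refine Finset.sum_le_sum fun i _ => ?_
      by_cases h : sp i = a
      · simp only [if_pos h, mul_one]
        exact hY3 (x i)
      · simp only [if_neg h, mul_zero, Finset.sum_const_zero]
        exact le_rfl
    rw [wm_smul, wm_one, hn, mul_one] at e1
    exact e1
  have s4 : ∑ i, wm D (fun x => if sp i = a then |ph1 D sp i x - phb D sp ℓ x| else 0) Ψ =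
      n * wm D (fun x => |ph1 D sp i0 x - phb D sp ℓ x|) Ψ := by
    rw [hndef, Finset.sum_mul]
    refine Finset.sum_congr rfl fun i _ => ?_
    by_cases h : sp i = a
    · simp only [if_pos h, one_mul]
      exact aux_symm D sp ℓ Ψ hΨ i i0 (h.trans ha)
    · simp only [if_neg h, zero_mul]
      unfold wm
      simp
  rw [s4] at s1
  have s5 : n * wm D (fun x => |ph1 D sp i0 x - phb D sp ℓ x|) Ψ ≤ n * (C4 * C5 * C3) := by
    have e1 := mul_le_mul_of_nonneg_left s3 hC50.le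
    have e2 := mul_le_mul_of_nonneg_left (s2.trans e1) hC4.le
    calc _ ≤ _ := s1
      _ ≤ _ := e2
      _ = _ := by ring
  have s6 := le_of_mul_le_mul_left s5 (by linarith)
  rw [← aux_wm_sub D sp ℓ (aux_WI_ph1 D sp hD ℓ i0) (RL1.WI_phb D sp ℓ hℓ0) Ψ hΨ]
  refine (aux_wm_abs D _ Ψ).trans ?_
  linarith

end Pool.Agent.Helper780_CQ.W5
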